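import Pool.Agent.Run7.h422.PP.AH2

/-!
# The alternative hypothesis along the heat flow
-/

set_option autoImplicit false

namespace Run7.h422.PP

open Complex Filter Topology Set
open Pool.Agent.H986R2.DBN (XT Ht)
open Pool.Agent.R838.ST (Tuples ZetaZ)

lemma one_le {Z : Set (ℂ × ℕ)} {h : ℂ → ℝ} {T : ℝ} (hf : {p | p ∈ Z ∧ 0 < h p.1 ∧ h p.1 ≤ T}.Finite)
    (α β : Fin 0 → ℝ) : {p | p ∈ Z ∧ 0 < h p.1 ∧ h p.1 ≤ T}.ncard ≤ (Tuples Z h T α β).ncard := by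
  have hfin : (Tuples Z h T α β).Finite := by
    have h1 : (Set.univ.pi fun _ : Fin 1 => {p | p ∈ Z ∧ 0 < h p.1 ∧ h p.1 ≤ T}).Finite :=
      Set.Finite.pi fun _ => hf
    exact h1.subset fun x hx i _ => ⟨hx.1 i, hx.2.2.1 i⟩
  refine Set.ncard_le_ncard_of_injOn (fun p _ => p) ?_ ?_ hfin
  · rintro p ⟨h1, h2⟩
    exact ⟨fun _ => h1, fun i j _ => Fin.ext (by omega), fun _ => h2, fun i => i.elim0⟩
  · intro p _ q _ hpq
    exact congrFun hpq 0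

lemma le_one {Z : Set (ℂ × ℕ)} {h : ℂ → ℝ} {T : ℝ} (hf : {p | p ∈ Z ∧ 0 < h p.1 ∧ h p.1 ≤ T}.Finite)
    (α β : Fin 0 → ℝ) : (Tuples Z h T α β).ncard ≤ {p | p ∈ Z ∧ 0 < h p.1 ∧ h p.1 ≤ T}.ncard := by
  refine Set.ncard_le_ncard_of_injOn (fun x => x 0) ?_ ?_ hf
  · rintro x ⟨h1, -, h3, -⟩
    exact ⟨h1 0, h3 0⟩
  · intro x _ y _ hxy
    funext i
    have : i = 0 := Fin.ext (by omega)
    rw [this]
    exact hxy

/-- the number of zeros of zeta is `O (T log T)` -/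
theorem zeta_le : ∃ C T0 : ℝ, 0 < C ∧ 2 ≤ T0 ∧ ∀ T : ℝ, T0 ≤ T →
    ({p : ℂ × ℕ | p ∈ ZetaZ ∧ 0 < p.1.im ∧ p.1.im ≤ T}.ncard : ℝ) ≤ C * (T * Real.log T) := by
  obtain ⟨C, T1, hC, hT1, hle⟩ := nh_leU one_pos
  obtain ⟨δ, T2, hδ, hT2, hc⟩ := Pool.Agent.R838.ST.cmp 0 (fun _ => 0) (fun _ => 0) 1 one_pos
  refine ⟨C + 1, max T1 T2, by positivity, hT1.trans (le_max_left _ _), fun T hT => ?_⟩
  have h1 : T1 ≤ T := (le_max_left _ _).trans hT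
  have h2 : T2 ≤ T := (le_max_right _ _).trans hT
  have hf1 : {p : ℂ × ℕ | p ∈ ZetaZ ∧ 0 < (fun z : ℂ => z.im) p.1 ∧ (fun z : ℂ => z.im) p.1 ≤ T}.Finite :=
    (zetaZ_fin 0 T).subset fun p hp => ⟨hp.1, hp.2.1.le, hp.2.2⟩
  have hf2 : {p | p ∈ Zi (Ht 0) ∧ 0 < (fun z : ℂ => z.re / 2) p.1 ∧ (fun z : ℂ => z.re / 2) p.1 ≤ T}.Finite :=
    nh_fin le_rfl T
  have h3 : ((Tuples ZetaZ (fun z => z.im) T (fun _ : Fin 0 => (0 : ℝ)) (fun _ => 0)).ncard : ℝ) ≤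
      ((Tuples (Zi (Ht 0)) (fun z => z.re / 2) T (fun _ : Fin 0 => (0 : ℝ) - 1) (fun _ => 0 + 1)).ncard : ℝ) +
        1 * (T * Real.log T) := (hc T 0 h2 le_rfl (by positivity)).1
  have h4 := hle T 0 h1 le_rfl (by rw [zero_mul]; exact zero_le_one)
  have h5 : ({p : ℂ × ℕ | p ∈ ZetaZ ∧ 0 < p.1.im ∧ p.1.im ≤ T}.ncard : ℝ) ≤
      ((Tuples ZetaZ (fun z => z.im) T (fun _ : Fin 0 => (0 : ℝ)) (fun _ => 0)).ncard : ℝ) := by
    have := one_le (Z := ZetaZ) (h := fun z : ℂ => z.im) (T := T) hf1 (fun _ : Fin 0 => (0 : ℝ)) (fun _ => 0)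
    exact_mod_cast this
  have h6 : ((Tuples (Zi (Ht 0)) (fun z => z.re / 2) T (fun _ : Fin 0 => (0 : ℝ) - 1) (fun _ => 0 + 1)).ncard : ℝ) ≤
      NH 0 T := by
    have := le_one (Z := Zi (Ht 0)) (h := fun z : ℂ => z.re / 2) (T := T) hf2
      (fun _ : Fin 0 => (0 : ℝ) - 1) (fun _ => 0 + 1)
    unfold NH
    exact_mod_cast this
  linarith

/-- the hypothesis of a set `S`, below the time scale -/
theorem ah_iff {t : ℝ → ℝ} (ht : ∀ T, 0 ≤ t T) (ht2 : Tendsto (fun T => t T * Real.log T ^ 2) atTop (𝓝 0))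
    (S : Set ℝ) :
    (∀ K ε κ : ℝ, 0 < K → 0 < ε → 0 < κ → ∀ᶠ T : ℝ in atTop,
      ((OP ZetaZ (fun z => z.im) T (CK S K ε)).ncard : ℝ) ≤ κ * (T * Real.log T)) ↔
    (∀ K ε κ : ℝ, 0 < K → 0 < ε → 0 < κ → ∀ᶠ T : ℝ in atTop,
      ((OP (Zi (Ht (t T))) (fun z => z.re / 2) T (CK S K ε)).ncard : ℝ) ≤ κ * (T * Real.log T)) := by
  have hf1 : ∀ T : ℝ, {p : ℂ × ℕ | p ∈ ZetaZ ∧ 0 < (fun z : ℂ => z.im) p.1 ∧
      (fun z : ℂ => z.im) p.1 ≤ T}.Finite := fun T =>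
    (zetaZ_fin 0 T).subset fun p hp => ⟨hp.1, hp.2.1.le, hp.2.2⟩
  have hf2 : ∀ T, {p | p ∈ Zi (Ht (t T)) ∧ 0 < (fun z : ℂ => z.re / 2) p.1 ∧
      (fun z : ℂ => z.re / 2) p.1 ≤ T}.Finite := fun T => nh_fin (ht T) T
  have hc : ∀ a b δ' : ℝ, 0 < δ' → ∀ᶠ T : ℝ in atTop,
      ((Tuples ZetaZ (fun z => z.im) T (fun _ : Fin 1 => a) (fun _ => b)).ncard : ℝ) ≤
        ((Tuples (Zi (Ht (t T))) (fun z => z.re / 2) T (fun _ : Fin 1 => a - δ') (fun _ => b + δ')).ncard : ℝ) +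
          δ' * (T * Real.log T) ∧
      ((Tuples (Zi (Ht (t T))) (fun z => z.re / 2) T (fun _ : Fin 1 => a) (fun _ => b)).ncard : ℝ) ≤
        ((Tuples ZetaZ (fun z => z.im) T (fun _ : Fin 1 => a - δ') (fun _ => b + δ')).ncard : ℝ) +
          δ' * (T * Real.log T) := by
    intro a b δ' hδ'
    obtain ⟨δ, T0, hδ, hT0, h⟩ := Pool.Agent.R838.ST.cmp 1 (fun _ => a) (fun _ => b) δ' hδ'
    filter_upwards [ht2.eventually_lt_const hδ, eventually_ge_atTop T0,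
      eventually_gt_atTop (1 : ℝ)] with T h2 h3 h4
    have hL : 0 < Real.log T := Real.log_pos h4
    exact h T (t T) h3 (ht T) (by rw [le_div_iff₀ (by positivity)]; exact h2.le)
  constructor
  · intro h K ε κ hK hε hκ
    exact off_tr (Z1 := fun T => Zi (Ht (t T))) (Z2 := fun _ => ZetaZ) hf2 hf1
      (fun a b δ' hδ' => (hc a b δ' hδ').mono fun T g => g.2) h hK hε hκ
  · intro h K ε κ hK hε hκ
    exact off_tr (Z1 := fun _ => ZetaZ) (Z2 := fun T => Zi (Ht (t T))) hf1 hf2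
      (fun a b δ' hδ' => (hc a b δ' hδ').mono fun T g => g.1) h hK hε hκ

/-- the alternative hypothesis for consecutive zeros implies the hypothesis for pairs -/
theorem ah_zeta (hAH : ∀ ε : ℝ, 0 < ε → ∃ Y : ℝ, AHat ZetaZ ε Y) :
    ∀ K ε κ : ℝ, 0 < K → 0 < ε → 0 < κ → ∀ᶠ T : ℝ in atTop,
      ((OP ZetaZ (fun z => z.im) T (CK HI K ε)).ncard : ℝ) ≤ κ * (T * Real.log T) :=
  fun _ _ _ hK hε hκ => ah_hyp zetaZ_fin zeta_le hAH hK hε hκ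

/-- uniform form of `off_big` -/
theorem off_bigU {A : ℝ} (hA : 0 < A) {K ε κ : ℝ} (hK : 0 < K) (hε : 0 < ε) (hκ : 0 < κ) :
    ∃ τ0 T0 : ℝ, 0 < τ0 ∧ 2 ≤ T0 ∧ ∀ T t : ℝ, T0 ≤ T → τ0 ≤ t * Real.log T ^ 2 →
      t * Real.log T ≤ A →
      ((OP (Zi (Ht t)) (fun z => z.re / 2) T (CK NI K ε)).ncard : ℝ) ≤ κ * (T * Real.log T) :=
  soft_big hA fun _ ht hA' => off_big hA hA' ht hK hε hκ

/-- nonzero integers are nonzero half-integers -/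
lemma ck_mono {K ε : ℝ} : CK HI K ε ⊆ CK NI K ε := by
  rintro D ⟨h1, h2⟩
  refine ⟨h1, h2.trans ?_⟩
  refine Metric.infDist_le_infDist_of_subset ?_ ⟨1, 1, one_ne_zero, by norm_num⟩
  rintro x ⟨m, hm, rfl⟩
  exact ⟨2 * m, by omega, by push_cast; ring⟩

end Run7.h422.PP
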