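import Pool.Agent.Run7.h422.PP.M1
import Pool.Agent.Run7.h422.PP.AH3

/-!
# The number of pairs of zeros at small distances, below the time scale
-/

set_option autoImplicit false

namespace Run7.h422.PP

open Complex Filter Topology Set
open Pool.Agent.H24R2.JP (Om)
open Pool.Agent.H24R2.DZ (ra NN)
open Pool.Agent.R838.CR
open Pool.Agent.R838.ST
open Pool.Agent.W186.SD (S_NGN S_AW S_CNT S_COV Std)

theorem momB' {B : ℝ} {F : ℂ → ℂ} {FT : ℝ → ℂ → ℂ} (hD : STB B F FT) (h0 : UNIT0 F) (hNGN : S_NGN)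
    (hAW : S_AW) (hCNT : S_CNT) (hCOV : S_COV) (k : ℕ) (H0 : ℝ) (hH0 : 0 ≤ H0) :
    ∃ c0 a0 C c U0 : ℝ, 0 < c0 ∧ 1 ≤ a0 ∧ 0 < C ∧ 0 < c ∧ 2 ≤ U0 ∧ ∀ (U τ τ' : ℝ) (S : Finset (ℂ × ℕ)),
    U0 ≤ U → a0 ≤ 2 * τ * Om U ^ 2 → 2 * τ * Om U ≤ c0 → 0 ≤ τ' → τ' ≤ τ →
    (∀ y ∈ S, y ∈ Zi (FT τ') ∧ U < y.1.im ∧ y.1.im ≤ 2 * U) →
    ∑ y ∈ S, (nn (FT τ') y.1.im (H0 / Om U) : ℝ) ^ k ≤
      C * ((2 * τ * Om U ^ 2) ^ k * S.card) + C * (U * Om U) * Real.exp (-(c * (2 * τ * Om U ^ 2))) := by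
  classical
  obtain ⟨Rs1, ηs1, hR1, hη1, hW⟩ := midw hD h0 hNGN hAW hCNT hCOV
  obtain ⟨Rs2, ηs2, c2, a2, C2, T2, hR2, hη2, hc2, ha2, hC2, hT2, hN⟩ := goodn hD hNGN hAW hCNT
  obtain ⟨R, hR⟩ : ∃ R : ℝ, R = max Rs1 Rs2 := ⟨_, rfl⟩
  obtain ⟨η, hη⟩ : ∃ η : ℝ, η = min ηs1 ηs2 := ⟨_, rfl⟩
  have hη0 : 0 < η := by rw [hη]; exact lt_min hη1 hη2
  obtain ⟨c, Cw, cw, aw, Tw, hc, hCw, hcw, haw, hTw, hW⟩ := hW R η (by rw [hR]; exact le_max_left _ _) hη0
    (by rw [hη]; exact min_le_left _ _) (k + 1)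
  have hN := hN R η (by rw [hR]; exact le_max_right _ _) hη0 (by rw [hη]; exact min_le_right _ _)
  refine ⟨min (min cw c2) (1 / 100), max (max aw a2) (400 * (1 + H0)), 3 * C2 ^ k + Cw, c,
    max (max Tw T2) (Real.exp 4), lt_min (lt_min hcw hc2) (by norm_num),
    haw.trans ((le_max_left _ _).trans (le_max_left _ _)), by positivity, hc,
    hTw.trans ((le_max_left _ _).trans (le_max_left _ _)), ?_⟩
  intro U τ τ' S hU ha hτc hτ'0 hτ'τ hS
  simp only [max_le_iff] at hU ha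
  obtain ⟨⟨hU1, hU2⟩, hU4⟩ := hU
  obtain ⟨⟨ha1, ha2'⟩, ha3⟩ := ha
  have hU5 : (5 : ℝ) ≤ U := by
    have := Real.add_one_le_exp (4 : ℝ)
    linarith
  have hU0 : 0 < U := by linarith
  have hL : 4 ≤ Real.log U := by rw [Real.le_log_iff_exp_le hU0]; exact hU4
  have hOm : Om U = Real.log U / 2 := rfl
  obtain ⟨J, hJ⟩ := std_of (c0 := min (min cw c2) (1 / 100)) (by linarith) (min_le_right _ _)
    (by linarith [haw]) hτc
  obtain ⟨ω, hω⟩ : ∃ ω : ℝ, ω = Om U := ⟨_, rfl⟩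
  have hω2 : 2 ≤ ω := by rw [hω, hOm]; linarith
  have hω0 : 0 < ω := by linarith
  obtain ⟨a, hadef⟩ : ∃ a : ℝ, a = 2 * τ * Om U ^ 2 := ⟨_, rfl⟩
  rw [← hadef] at ha1 ha2' ha3 hJ ⊢
  have hap : 0 < a := by linarith
  have hτ0 : 0 < τ := hJ.tau
  have hJw : Std cw U τ a J := ⟨hJ.tau, hJ.a_eq, hJ.small.trans (mul_le_mul_of_nonneg_right
    ((min_le_left _ _).trans (min_le_left _ _)) (by rw [← hω]; exact hω0.le)), hJ.top, hJ.top'⟩
  have hJ2 : Std c2 U τ a J := ⟨hJ.tau, hJ.a_eq, hJ.small.trans (mul_le_mul_of_nonneg_right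
    ((min_le_left _ _).trans (min_le_right _ _)) (by rw [← hω]; exact hω0.le)), hJ.top, hJ.top'⟩
  rw [← hω]
  have hra : ra U a = a / ω := by rw [hω]; rfl
  have hH : 0 ≤ H0 / ω := by positivity
  have h1ω : 0 < 1 / ω := by positivity
  have hwin : 1 / ω + H0 / ω ≤ ra U a / 400 := by rw [hra]; exact win_le hω0 ha3
  have hρr : 1 / ω ≤ ra U a / 400 := by linarith
  have hf := hD.heatd τ' hτ'0
  have hst : ∀ s, FT τ' s = 0 → |s.re| ≤ B := fun s hs => hD.strip τ' s hτ'0 hs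
  obtain ⟨G, hG⟩ : ∃ G : Finset ℝ, G = grid (1 / ω) (U - 1) (2 * U + 1) := ⟨_, rfl⟩
  have hSep : Pool.Agent.R838.ST.Sep G (1 / ω) := by rw [hG]; exact grid_sep h1ω
  have hGm : ∀ t ∈ G, U / 2 + 1 ≤ t ∧ t ≤ 3 * U - 1 := by
    intro t ht
    rw [hG] at ht
    have := grid_mem h1ω ht
    constructor <;> linarith
  have h1ω1 : 1 / ω ≤ 1 := by rw [div_le_one hω0]; linarith
  -- every element is near a point of the grid
  have hpt : ∀ y ∈ S, (nn (FT τ') y.1.im (H0 / ω) : ℝ) ^ k ≤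
      ∑ t ∈ G, (if |y.1.im - t| ≤ 1 / ω then (nn (FT τ') t (1 / ω + H0 / ω) : ℝ) ^ k else 0) := by
    intro y hy
    obtain ⟨-, hy1, hy2⟩ := hS y hy
    have hcov := grid_cov (ρ := 1 / ω) (u := U - 1) (v := 2 * U + 1) (x := y.1.im) (y := 1 / ω) h1ω
      (by linarith) (by linarith)
    have e1 : 2 * (1 / ω) / (1 / ω) - 1 = 1 := by field_simp; norm_num
    rw [e1, ← hG] at hcov
    have hne : (G.filter fun t => |t - y.1.im| ≤ 1 / ω).Nonempty := by
      rw [← Finset.card_pos]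
      have : (0 : ℝ) < ((G.filter fun t => |t - y.1.im| ≤ 1 / ω).card : ℝ) := by linarith
      exact_mod_cast this
    obtain ⟨t, ht⟩ := hne
    rw [Finset.mem_filter] at ht
    have h5 : (nn (FT τ') y.1.im (H0 / ω) : ℝ) ≤ nn (FT τ') t (1 / ω + H0 / ω) := by
      exact_mod_cast nn_mono hf hst (by rw [abs_sub_comm]; linarith [ht.2])
    have h6 : (nn (FT τ') y.1.im (H0 / ω) : ℝ) ^ k ≤
        (if |y.1.im - t| ≤ 1 / ω then (nn (FT τ') t (1 / ω + H0 / ω) : ℝ) ^ k else 0) := by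
      rw [if_pos (by rw [abs_sub_comm]; exact ht.2)]
      exact pow_le_pow_left₀ (Nat.cast_nonneg _) h5 k
    refine h6.trans (Finset.single_le_sum (f := fun t => (if |y.1.im - t| ≤ 1 / ω then
      (nn (FT τ') t (1 / ω + H0 / ω) : ℝ) ^ k else 0)) (fun t _ => ?_) ht.1)
    split_ifs
    · positivity
    · exact le_rfl
  refine (Finset.sum_le_sum hpt).trans ?_
  rw [Finset.sum_comm]
  -- the number of elements near a point of the grid
  obtain ⟨b, hb⟩ : ∃ b : ℝ → ℕ, b = fun t => (S.filter fun y => |y.1.im - t| ≤ 1 / ω).card := ⟨_, rfl⟩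
  have hinner : ∀ t : ℝ, ∑ y ∈ S, (if |y.1.im - t| ≤ 1 / ω then
      (nn (FT τ') t (1 / ω + H0 / ω) : ℝ) ^ k else 0) = b t * (nn (FT τ') t (1 / ω + H0 / ω) : ℝ) ^ k := by
    intro t
    rw [← Finset.sum_filter, Finset.sum_const, nsmul_eq_mul, hb]
  simp only [hinner]
  rw [← Finset.sum_filter_add_sum_filter_not G (fun t => GH F R η U a J t)]
  have hbsum : ∑ t ∈ G, (b t : ℝ) ≤ 3 * S.card := by
    have h7 := dc_up G S (fun y => y.1.im) (1 / ω) 3 (fun x _ => by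
      refine (hSep _ _ h1ω.le).trans (le_of_eq ?_)
      field_simp
      norm_num)
    rw [hb]
    exact h7
  have hgood : ∑ t ∈ G with GH F R η U a J t, (b t : ℝ) * (nn (FT τ') t (1 / ω + H0 / ω) : ℝ) ^ k ≤
      3 * C2 ^ k * (a ^ k * S.card) := by
    calc ∑ t ∈ G with GH F R η U a J t, (b t : ℝ) * (nn (FT τ') t (1 / ω + H0 / ω) : ℝ) ^ k
        ≤ ∑ t ∈ G with GH F R η U a J t, (b t : ℝ) * (C2 * a) ^ k := by
          refine Finset.sum_le_sum fun t ht => ?_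
          rw [Finset.mem_filter] at ht
          obtain ⟨h1, h2⟩ := hGm t ht.1
          refine mul_le_mul_of_nonneg_left ?_ (Nat.cast_nonneg _)
          exact pow_le_pow_left₀ (Nat.cast_nonneg _)
            (hN U τ τ' a t _ J hU2 ha2' hJ2 hτ'0 hτ'τ h1 h2 ht.2 hwin) _
      _ ≤ ∑ t ∈ G, (b t : ℝ) * (C2 * a) ^ k :=
          Finset.sum_le_sum_of_subset_of_nonneg (Finset.filter_subset _ _) fun _ _ _ => by positivity
      _ = (∑ t ∈ G, (b t : ℝ)) * (C2 * a) ^ k := by rw [Finset.sum_mul]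
      _ ≤ 3 * S.card * (C2 * a) ^ k := mul_le_mul_of_nonneg_right hbsum (by positivity)
      _ = _ := by rw [mul_pow]; ring
  have hbad : ∑ t ∈ G with ¬ GH F R η U a J t, (b t : ℝ) * (nn (FT τ') t (1 / ω + H0 / ω) : ℝ) ^ k ≤
      Cw * (U * ω) * Real.exp (-(c * a)) := by
    have h8 := hW U τ τ' a (1 / ω) (1 / ω + H0 / ω) J (G.filter fun t => ¬ GH F R η U a J t)
      hU1 ha1 hJw hτ'0 hτ'τ h1ω hρr hwin (fun t ht => by
        rw [Finset.mem_filter] at ht
        obtain ⟨h1, h2⟩ := hGm t ht.1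
        exact ⟨h1, h2, ht.2⟩) (hSep.subset (Finset.filter_subset _ _))
    have e2 : U / (1 / ω) = U * ω := by field_simp
    rw [e2] at h8
    refine le_trans (Finset.sum_le_sum fun t _ => ?_) h8
    rw [pow_succ, mul_comm]
    refine mul_le_mul_of_nonneg_left ?_ (by positivity)
    have h9 : b t ≤ nn (FT τ') t (1 / ω + H0 / ω) := by
      rw [hb]
      obtain ⟨Z, -, hfin, -⟩ := nn_spec hf hst t (1 / ω + H0 / ω)
      unfold nn
      dsimp only
      rw [← Set.ncard_coe_finset]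
      refine Set.ncard_le_ncard ?_ hfin
      intro y hy
      rw [Finset.mem_coe, Finset.mem_filter] at hy
      exact ⟨(hS y hy.1).1, by linarith [hy.2]⟩
    exact_mod_cast h9
  have h10 : 0 ≤ (3 * C2 ^ k) * (U * ω) * Real.exp (-(c * a)) := by positivity
  have h11 : 0 ≤ Cw * (a ^ k * S.card) := by positivity
  calc _ ≤ 3 * C2 ^ k * (a ^ k * S.card) + Cw * (U * ω) * Real.exp (-(c * a)) := add_le_add hgood hbad
    _ ≤ _ := by linarith


open Pool.Agent.H986R2.DBN (XT Ht)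

lemma nzf (τ : ℝ) (hτ : 0 ≤ τ) (V : ℝ) : (NZ (XT τ) V).Finite :=
  (inp_xi.fin τ hτ 0 V).subset fun _ hp => ⟨hp.1, hp.2.1.le, hp.2.2⟩

lemma nn_le {τ : ℝ} (hτ : 0 ≤ τ) (t : ℝ) {r r' : ℝ} (h : r ≤ r') : (nn (XT τ) t r : ℝ) ≤ nn (XT τ) t r' := by
  have h1 : nn (XT τ) t r ≤ nn (XT τ) t r' := by
    refine Set.ncard_le_ncard (fun p hp => ⟨hp.1, hp.2.trans h⟩) ?_
    refine (inp_xi.fin τ hτ (t - r') (t + r')).subset fun p hp => ?_
    have := abs_le.1 hp.2
    exact ⟨hp.1, by linarith [this.1], by linarith [this.2]⟩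
  exact_mod_cast h1

/-- one block -/
theorem blk {B0 : ℝ} (hB0 : 0 ≤ B0) : ∃ a C U0 : ℝ, 0 < a ∧ 0 < C ∧ 2 ≤ U0 ∧ ∀ (U τ r : ℝ) (S : Finset (ℂ × ℕ)),
    U0 ≤ U → 0 ≤ τ → τ * Real.log U ^ 2 ≤ a → r * Real.log U ≤ B0 →
    (∀ y ∈ S, y ∈ Zi (XT τ) ∧ U < y.1.im ∧ y.1.im ≤ 2 * U) →
    ∑ y ∈ S, (nn (XT τ) y.1.im r : ℝ) ≤ C * (U * Real.log U) := by
  obtain ⟨c0, a0, C1, c, U1, hc0, ha0, hC1, hc, hU1, h⟩ := momB' stb_xi unit0_xi
    Pool.Agent.W333.SDNGN.ngn Pool.Agent.W186.SD.HH.aw Pool.Agent.W186.SD.HH.cnt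
    Pool.Agent.W337.SD.cov 1 (B0 / 2) (by positivity)
  have ha0' : 0 < a0 := by linarith
  obtain ⟨C2, T2, hC2, hT2, h2⟩ := inp_xi.tot_le (show 0 < 4 * a0 by positivity)
  refine ⟨2 * a0, C1 * a0 * (4 * C2) + C1, max (max U1 T2) (max (Real.exp 1) (Real.exp (2 * a0 / c0))),
    by positivity, by positivity, hU1.trans ((le_max_left _ _).trans (le_max_left _ _)), ?_⟩
  intro U τ r S hU hτ hτa hr hS
  simp only [max_le_iff] at hU
  obtain ⟨⟨u1, u2⟩, u3, u4⟩ := hU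
  have hU2 : 2 ≤ U := hU1.trans u1
  have hL1 : 1 ≤ Real.log U := by rw [Real.le_log_iff_exp_le (by linarith)]; exact u3
  have hLc : 2 * a0 / c0 ≤ Real.log U := by rw [Real.le_log_iff_exp_le (by linarith)]; exact u4
  have hL : 0 < Real.log U := by linarith
  have hOm : Om U = Real.log U / 2 := rfl
  obtain ⟨θ, hθ⟩ : ∃ θ : ℝ, θ = 2 * a0 / Real.log U ^ 2 := ⟨_, rfl⟩
  have e1 : 2 * θ * Om U ^ 2 = a0 := by rw [hθ, hOm]; field_simp
  have e2 : 2 * θ * Om U ≤ c0 := by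
    have : 2 * θ * Om U = 2 * a0 / Real.log U := by rw [hθ, hOm]; field_simp
    rw [this, div_le_iff₀ hL]
    rw [div_le_iff₀ hc0] at hLc
    linarith
  have e3 : τ ≤ θ := by rw [hθ, le_div_iff₀ (by positivity)]; exact hτa
  have h3 := h U θ τ S u1 e1.ge e2 hτ e3 hS
  rw [e1, pow_one] at h3
  -- the number of elements
  have hlog2 : Real.log (2 * U) ≤ 2 * Real.log U := by
    rw [Real.log_mul (by norm_num) (by linarith)]
    have : Real.log 2 ≤ Real.log U := Real.log_le_log (by norm_num) hU2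
    linarith
  have hA : τ * Real.log (2 * U) ≤ 4 * a0 := by
    have g1 : τ * Real.log (2 * U) ≤ τ * (2 * Real.log U) := mul_le_mul_of_nonneg_left hlog2 hτ
    have g2 : τ * Real.log U ≤ τ * Real.log U ^ 2 := mul_le_mul_of_nonneg_left (by nlinarith) hτ
    linarith
  have h4 := h2 (2 * U) τ (by linarith) hτ hA
  have h5 : (S.card : ℝ) ≤ ((NZ (XT τ) (2 * U)).ncard : ℝ) := by
    rw [← Set.ncard_coe_finset]
    have : (S : Set (ℂ × ℕ)).ncard ≤ (NZ (XT τ) (2 * U)).ncard := by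
      refine Set.ncard_le_ncard (fun y hy => ?_) (nzf τ hτ _)
      have := hS y hy
      exact ⟨this.1, by linarith [this.2.1], this.2.2⟩
    exact_mod_cast this
  have h6 : (S.card : ℝ) ≤ 4 * C2 * (U * Real.log U) := by
    refine h5.trans (h4.trans ?_)
    have : C2 * (2 * U * Real.log (2 * U)) ≤ C2 * (2 * U * (2 * Real.log U)) :=
      mul_le_mul_of_nonneg_left (mul_le_mul_of_nonneg_left hlog2 (by linarith)) hC2.le
    linarith
  have h7 : Real.exp (-(c * a0)) ≤ 1 := by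
    rw [Real.exp_le_one_iff]
    have : 0 < c * a0 := by positivity
    linarith
  have h8 : C1 * (U * Om U) * Real.exp (-(c * a0)) ≤ C1 * (U * Real.log U) := by
    calc C1 * (U * Om U) * Real.exp (-(c * a0)) ≤ C1 * (U * Om U) * 1 := by
          refine mul_le_mul_of_nonneg_left h7 ?_
          rw [hOm]
          positivity
      _ ≤ C1 * (U * Real.log U) := by
          rw [mul_one, hOm]
          refine mul_le_mul_of_nonneg_left (mul_le_mul_of_nonneg_left (by linarith) (by linarith)) hC1.le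
  have h9 : ∑ y ∈ S, (nn (XT τ) y.1.im r : ℝ) ≤ ∑ y ∈ S, (nn (XT τ) y.1.im (B0 / 2 / Om U) : ℝ) ^ 1 := by
    refine Finset.sum_le_sum fun y _ => ?_
    rw [pow_one]
    refine nn_le hτ _ ?_
    have : B0 / 2 / Om U = B0 / Real.log U := by rw [hOm]; field_simp
    rw [this, le_div_iff₀ hL]
    exact hr
  have h10 : C1 * (a0 * S.card) ≤ C1 * (a0 * (4 * C2 * (U * Real.log U))) :=
    mul_le_mul_of_nonneg_left (mul_le_mul_of_nonneg_left h6 ha0'.le) hC1.le
  refine h9.trans (h3.trans ?_)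
  calc _ ≤ C1 * (a0 * (4 * C2 * (U * Real.log U))) + C1 * (U * Real.log U) := add_le_add h10 h8
    _ = _ := by ring

/-- all blocks -/
theorem blks {B0 : ℝ} (hB0 : 0 ≤ B0) : ∃ a C T0 : ℝ, 0 < a ∧ 0 < C ∧ 2 ≤ T0 ∧ ∀ (T τ r : ℝ) (hτ : 0 ≤ τ),
    T0 ≤ T → τ * Real.log T ^ 2 ≤ a → 0 ≤ r → r * Real.log T ≤ B0 →
    ∑ y ∈ (nzf τ hτ T).toFinset, (nn (XT τ) y.1.im r : ℝ) ≤ C * (T * Real.log T) := by
  classical
  obtain ⟨a, C, U0, ha, hC, hU0, hb⟩ := blk hB0
  obtain ⟨C2, T2, hC2, hT2, h2⟩ := inp_xi.tot_le ha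
  obtain ⟨C3, T3, hC3, hT3, h3⟩ := inp_xi.unit a ha
  obtain ⟨V, hV⟩ : ∃ V : ℝ, V = max (2 * U0) (max T2 T3) := ⟨_, rfl⟩
  have v1 : 2 * U0 ≤ V := by rw [hV]; exact le_max_left _ _
  have v2 : T2 ≤ V := by rw [hV]; exact (le_max_left _ _).trans (le_max_right _ _)
  have v3 : T3 ≤ V := by rw [hV]; exact (le_max_right _ _).trans (le_max_right _ _)
  have hV2 : 2 ≤ V := hT2.trans v2
  have hLV : 0 < Real.log V := Real.log_pos (by linarith)
  obtain ⟨D, hD⟩ : ∃ D : ℝ, D = (C2 * (V * Real.log V)) * (C3 * Real.log V) := ⟨_, rfl⟩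
  have hD0 : 0 ≤ D := by rw [hD]; positivity
  refine ⟨a, C + D, max V (max (Real.exp 1) (Real.exp B0)), ha, by positivity, hV2.trans (le_max_left _ _), ?_⟩
  intro T τ r hτ hT hτa hr0 hr
  simp only [max_le_iff] at hT
  obtain ⟨t1, t2, t3⟩ := hT
  have hT0 : 0 < T := by linarith
  have hL1 : 1 ≤ Real.log T := by rw [Real.le_log_iff_exp_le hT0]; exact t2
  have hLB : B0 ≤ Real.log T := by rw [Real.le_log_iff_exp_le hT0]; exact t3
  have hr1 : r ≤ 1 := by
    by_contra hcon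
    push Not at hcon
    have : 1 * Real.log T < r * Real.log T := mul_lt_mul_of_pos_right hcon (by linarith)
    linarith
  have key : ∀ (n : ℕ) (W : ℝ), 0 ≤ W → W ≤ T → W ≤ 2 ^ n * V →
      ∑ y ∈ (nzf τ hτ W).toFinset, (nn (XT τ) y.1.im r : ℝ) ≤ C * (W * Real.log T) + D := by
    intro n
    induction n with
    | zero =>
      intro W hW0 hWT hWV
      rw [pow_zero, one_mul] at hWV
      have hLVT : Real.log V ≤ Real.log T := Real.log_le_log (by linarith) t1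
      have hτA : τ * Real.log V ≤ a := by
        have g1 : τ * Real.log V ≤ τ * Real.log T := mul_le_mul_of_nonneg_left hLVT hτ
        have g2 : τ * Real.log T ≤ τ * Real.log T ^ 2 := mul_le_mul_of_nonneg_left (by nlinarith) hτ
        linarith
      have g1 : ∀ y ∈ (nzf τ hτ W).toFinset, (nn (XT τ) y.1.im r : ℝ) ≤ C3 * Real.log V := by
        intro y hy
        rw [Set.Finite.mem_toFinset] at hy
        refine (nn_le hτ _ hr1).trans ?_
        exact h3 V τ y.1.im v3 hτ hτA hy.2.1.le (by linarith [hy.2.2])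
      have g2 := Finset.sum_le_sum g1
      rw [Finset.sum_const, nsmul_eq_mul] at g2
      have g3 : ((nzf τ hτ W).toFinset.card : ℝ) ≤ C2 * (V * Real.log V) := by
        rw [← Set.ncard_eq_toFinset_card _ (nzf τ hτ W)]
        refine le_trans ?_ (h2 V τ v2 hτ hτA)
        have : (NZ (XT τ) W).ncard ≤ (NZ (XT τ) V).ncard :=
          Set.ncard_le_ncard (fun y hy => ⟨hy.1, hy.2.1, hy.2.2.trans hWV⟩) (nzf τ hτ V)
        exact_mod_cast this
      have g4 : ((nzf τ hτ W).toFinset.card : ℝ) * (C3 * Real.log V) ≤ D := by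
        rw [hD]
        exact mul_le_mul_of_nonneg_right g3 (by positivity)
      have g5 : 0 ≤ C * (W * Real.log T) := by positivity
      linarith
    | succ n ih =>
      intro W hW0 hWT hWV
      rcases le_or_gt W V with hc | hc
      · have g1 := ih W hW0 hWT (hc.trans (le_mul_of_one_le_left (by linarith) (one_le_pow₀ (by norm_num))))
        exact g1
      · have g1 := ih (W / 2) (by linarith) (by linarith) (by
          rw [pow_succ] at hWV
          linarith)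
        have g2 := hb (W / 2) τ r ((nzf τ hτ W).toFinset.filter fun y => W / 2 < y.1.im) (by linarith) hτ (by
          have hl : Real.log (W / 2) ≤ Real.log T := Real.log_le_log (by linarith) (by linarith)
          have hl0 : 0 ≤ Real.log (W / 2) := Real.log_nonneg (by linarith)
          have : τ * Real.log (W / 2) ^ 2 ≤ τ * Real.log T ^ 2 :=
            mul_le_mul_of_nonneg_left (pow_le_pow_left₀ hl0 hl 2) hτ
          linarith) (by
          have hl : Real.log (W / 2) ≤ Real.log T := Real.log_le_log (by linarith) (by linarith)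
          have := mul_le_mul_of_nonneg_left hl hr0
          linarith) (fun y hy => by
          rw [Finset.mem_filter, Set.Finite.mem_toFinset] at hy
          exact ⟨hy.1.1, hy.2, by linarith [hy.1.2.2]⟩)
        have g3 : Real.log (W / 2) ≤ Real.log T := Real.log_le_log (by linarith) (by linarith)
        have g4 : C * (W / 2 * Real.log (W / 2)) ≤ C * (W / 2 * Real.log T) :=
          mul_le_mul_of_nonneg_left (mul_le_mul_of_nonneg_left g3 (by linarith)) hC.le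
        have g5 : (nzf τ hτ W).toFinset.filter (fun y => ¬ W / 2 < y.1.im) ⊆ (nzf τ hτ (W / 2)).toFinset := by
          intro y hy
          rw [Finset.mem_filter, Set.Finite.mem_toFinset] at hy
          rw [Set.Finite.mem_toFinset]
          exact ⟨hy.1.1, hy.1.2.1, not_lt.1 hy.2⟩
        have g6 := Finset.sum_le_sum_of_subset_of_nonneg g5
          (f := fun y => (nn (XT τ) y.1.im r : ℝ)) (fun _ _ _ => Nat.cast_nonneg _)
        rw [← Finset.sum_filter_add_sum_filter_not (nzf τ hτ W).toFinset (fun y => W / 2 < y.1.im)]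
        have e : C * (W * Real.log T) = C * (W / 2 * Real.log T) + C * (W / 2 * Real.log T) := by ring
        rw [e]
        linarith
  obtain ⟨n, hn⟩ := pow_unbounded_of_one_lt (T / V) (by norm_num : (1 : ℝ) < 2)
  have h4 := key n T hT0.le le_rfl (by
    rw [div_lt_iff₀ (by linarith)] at hn
    exact hn.le)
  refine h4.trans ?_
  have h5 : D ≤ D * (T * Real.log T) := le_mul_of_one_le_right hD0 (by nlinarith)
  have e : (C + D) * (T * Real.log T) = C * (T * Real.log T) + D * (T * Real.log T) := by ring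
  rw [e]
  linarith

/-- number of pairs of zeros of `H_t`, below the time scale -/
theorem tup_bd {B : ℝ} (hB : 0 ≤ B) : ∃ a C T0 : ℝ, 0 < a ∧ 0 < C ∧ 2 ≤ T0 ∧ ∀ T t : ℝ, T0 ≤ T → 0 ≤ t →
    t * Real.log T ^ 2 ≤ a → ((Tuples (Zi (Ht t)) (fun z => z.re / 2) T (fun _ : Fin 1 => -B) (fun _ => B)).ncard : ℝ) ≤
      C * (T * Real.log T) := by
  classical
  obtain ⟨a, C, T0, ha, hC, hT0, h⟩ := blks (show 0 ≤ 2 * Real.pi * B by have := Real.pi_pos; positivity)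
  refine ⟨a, C, T0, ha, hC, hT0, fun T t hT ht hta => ?_⟩
  have hL : 0 < Real.log T := Real.log_pos (by linarith)
  have hpi := Real.pi_pos
  have ht4 : 0 ≤ t / 4 := by positivity
  obtain ⟨r, hr⟩ : ∃ r : ℝ, r = 2 * Real.pi * B / Real.log T := ⟨_, rfl⟩
  have hr0 : 0 ≤ r := by rw [hr]; positivity
  have hrL : r * Real.log T = 2 * Real.pi * B := by rw [hr]; field_simp
  have h1 := h T (t / 4) r ht4 hT (by nlinarith [mul_nonneg ht (sq_nonneg (Real.log T))]) hr0 hrL.le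
  have hct : (Tuples (Zi (Ht t)) (fun z => z.re / 2) T (fun _ : Fin 1 => -B) (fun _ => B)).ncard =
      (CT (XT (t / 4)) T (fun _ : Fin 1 => -B) (fun _ => B)).ncard := Pool.Agent.R838.ST.ht_ct ht T _ _
  rw [hct]
  refine le_trans ?_ h1
  set N := (nzf (t / 4) ht4 T).toFinset with hN
  have hW : ∀ p : ℂ × ℕ, {q : ℂ × ℕ | q ∈ Zi (XT (t / 4)) ∧ |q.1.im - p.1.im| ≤ r}.Finite := fun p =>
    (inp_xi.fin (t / 4) ht4 (p.1.im - r) (p.1.im + r)).subset fun q hq => by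
      have := abs_le.1 hq.2
      exact ⟨hq.1, by linarith [this.1], by linarith [this.2]⟩
  have hsub : CT (XT (t / 4)) T (fun _ : Fin 1 => -B) (fun _ => B) ⊆
      ⋃ p ∈ N, (fun q : ℂ × ℕ => (![p, q] : Fin 2 → ℂ × ℕ)) '' {q | q ∈ Zi (XT (t / 4)) ∧ |q.1.im - p.1.im| ≤ r} := by
    rintro x ⟨x1, x2, x3, x4⟩
    rw [Set.mem_iUnion₂]
    refine ⟨x 0, ?_, x 1, ⟨x1 1, ?_⟩, ?_⟩
    · rw [hN, Set.Finite.mem_toFinset]
      exact ⟨x1 0, x3 0⟩
    · have h5 := x4 0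
      have h6 : |((x 1).1.im - (x 0).1.im) * (Real.log T / (2 * Real.pi))| ≤ B := abs_le.2 h5
      rw [abs_mul, abs_of_pos (show 0 < Real.log T / (2 * Real.pi) by positivity)] at h6
      rw [hr, le_div_iff₀ hL]
      have e : |(x 1).1.im - (x 0).1.im| * Real.log T =
          2 * Real.pi * (|(x 1).1.im - (x 0).1.im| * (Real.log T / (2 * Real.pi))) := by field_simp
      rw [e]
      exact mul_le_mul_of_nonneg_left h6 (by positivity)
    · funext i
      fin_cases i <;> rfl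
  have h2 : (CT (XT (t / 4)) T (fun _ : Fin 1 => -B) (fun _ => B)).ncard ≤
      ∑ p ∈ N, nn (XT (t / 4)) p.1.im r := by
    refine (Set.ncard_le_ncard hsub (Set.Finite.biUnion (Finset.finite_toSet _) fun p _ =>
      (hW p).image _)).trans ((Finset.set_ncard_biUnion_le _ _).trans ?_)
    exact Finset.sum_le_sum fun p _ => Set.ncard_image_le (hW p)
  exact_mod_cast h2

/-- pairs of zeros of zeta -/
theorem zeta_bd : ∃ C T0 : ℝ, 0 < C ∧ 2 ≤ T0 ∧ ∀ T : ℝ, T0 ≤ T →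
    ((Tuples ZetaZ (fun z => z.im) T (fun _ : Fin 1 => -1) (fun _ => 1)).ncard : ℝ) ≤ C * (T * Real.log T) := by
  obtain ⟨a, C, T1, ha, hC, hT1, h1⟩ := tup_bd (show (0 : ℝ) ≤ 2 by norm_num)
  obtain ⟨δ, T2, hδ, hT2, h2⟩ := Pool.Agent.R838.ST.cmp 1 (fun _ => -1) (fun _ => 1) 1 one_pos
  refine ⟨C + 1, max T1 T2, by positivity, hT1.trans (le_max_left _ _), fun T hT => ?_⟩
  have g1 := h1 T 0 ((le_max_left _ _).trans hT) le_rfl (by rw [zero_mul]; exact ha.le)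
  have g2 : ((Tuples ZetaZ (fun z => z.im) T (fun _ : Fin 1 => -1) (fun _ => 1)).ncard : ℝ) ≤
      ((Tuples (Zi (Ht 0)) (fun z => z.re / 2) T (fun _ : Fin 1 => (-1 : ℝ) - 1) (fun _ => (1 : ℝ) + 1)).ncard : ℝ) +
        1 * (T * Real.log T) := (h2 T 0 ((le_max_right _ _).trans hT) le_rfl (by positivity)).1
  have e1 : (-1 : ℝ) - 1 = -2 := by norm_num
  have e2 : (1 : ℝ) + 1 = 2 := by norm_num
  rw [e1, e2] at g2
  linarith

end Run7.h422.PP
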