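import Pool.Agent.Run7.h422.PP.FF6
import Pool.Agent.Run7.h422.PP.FB

/-!
# The form factors of zeta and of `H_t` below the time scale
-/

set_option autoImplicit false

namespace Run7.h422.PP

open Complex Filter Topology Set MeasureTheory
open scoped SchwartzMap FourierTransform
open Pool.Agent.H986R2.DBN (XT Ht)
open Pool.Agent.R838.ST (Tuples ZetaZ)

/-- **the difference tends to zero** -/
theorem ff_diff {t : ℝ → ℝ} (ht : ∀ T, 0 ≤ t T) (ht2 : Tendsto (fun T => t T * Real.log T ^ 2) atTop (𝓝 0))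
    (φ : 𝓢(ℝ, ℂ)) {ε : ℝ} (hε : 0 < ε) :
    ∀ᶠ T in atTop, ‖(∫ α : ℝ, FFm (Zi (Ht (t T))) hh T α * φ α) - ∫ α : ℝ, FFm ZetaZ Complex.im T α * φ α‖ ≤ ε := by
  have hpi := Real.pi_pos
  have hf2 : ∀ T, {p | p ∈ Zi (Ht (t T)) ∧ 0 < hh p.1 ∧ hh p.1 ≤ T}.Finite := fun T => nh_fin (ht T) T
  have hc : ∀ a b δ' : ℝ, 0 < δ' → ∀ᶠ T : ℝ in atTop,
      nn2 (Ef (zfin' T)) (nd Complex.im T) a b ≤ nn2 (Ef (hf2 T)) (nd hh T) (a - δ') (b + δ') +
          δ' * (T * Real.log T) ∧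
      nn2 (Ef (hf2 T)) (nd hh T) a b ≤ nn2 (Ef (zfin' T)) (nd Complex.im T) (a - δ') (b + δ') +
          δ' * (T * Real.log T) := by
    intro a b δ' hδ'
    obtain ⟨δ, T0, hδ, hT0, h⟩ := Pool.Agent.R838.ST.cmp 1 (fun _ => a) (fun _ => b) δ' hδ'
    filter_upwards [ht2.eventually_lt_const hδ, eventually_ge_atTop T0,
      eventually_gt_atTop (1 : ℝ)] with T h2 h3 h4
    have hL : 0 < Real.log T := Real.log_pos h4
    rw [nn2_tup, nn2_tup, nn2_tup, nn2_tup]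
    exact h T (t T) h3 (ht T) (by rw [le_div_iff₀ (by positivity)]; exact h2.le)
  have hN : ∀ δ' : ℝ, 0 < δ' → ∀ᶠ T in atTop,
      |((Pf (zfin' T)).card : ℝ) - (Pf (hf2 T)).card| ≤ δ' * (T * Real.log T) := by
    intro δ' hδ'
    obtain ⟨δ, T0, hδ, hT0, h⟩ := Pool.Agent.R838.ST.cmp 0 (fun _ => 0) (fun _ => 0) δ' hδ'
    filter_upwards [ht2.eventually_lt_const hδ, eventually_ge_atTop T0,
      eventually_gt_atTop (1 : ℝ)] with T h2 h3 h4
    have hL : 0 < Real.log T := Real.log_pos h4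
    obtain ⟨k1, k2⟩ := h T (t T) h3 (ht T) (by rw [le_div_iff₀ (by positivity)]; exact h2.le)
    have c1 : ((Pf (zfin' T)).card : ℝ) = ({p | p ∈ ZetaZ ∧ 0 < Complex.im p.1 ∧ Complex.im p.1 ≤ T}.ncard : ℝ) := by
      unfold Pf
      rw [← Set.ncard_eq_toFinset_card _ (zfin' T)]
    have c2 : ((Pf (hf2 T)).card : ℝ) = ({p | p ∈ Zi (Ht (t T)) ∧ 0 < hh p.1 ∧ hh p.1 ≤ T}.ncard : ℝ) := by
      unfold Pf
      rw [← Set.ncard_eq_toFinset_card _ (hf2 T)]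
    have one : ∀ {Z : Set (ℂ × ℕ)} {h : ℂ → ℝ} (_ : {p | p ∈ Z ∧ 0 < h p.1 ∧ h p.1 ≤ T}.Finite)
        (α β : Fin 0 → ℝ), ((Tuples Z h T α β).ncard : ℝ) = ({p | p ∈ Z ∧ 0 < h p.1 ∧ h p.1 ≤ T}.ncard : ℝ) := by
      intro Z h hf α β
      have := le_antisymm (le_one hf α β) (one_le hf α β)
      exact_mod_cast this
    have k1' : ((Tuples ZetaZ Complex.im T (fun _ : Fin 0 => (0 : ℝ)) (fun _ => 0)).ncard : ℝ) ≤
      ((Tuples (Zi (Ht (t T))) hh T (fun _ : Fin 0 => (0 : ℝ) - δ') (fun _ => 0 + δ')).ncard : ℝ) +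
        δ' * (T * Real.log T) := k1
    have k2' : ((Tuples (Zi (Ht (t T))) hh T (fun _ : Fin 0 => (0 : ℝ)) (fun _ => 0)).ncard : ℝ) ≤
      ((Tuples ZetaZ Complex.im T (fun _ : Fin 0 => (0 : ℝ) - δ') (fun _ => 0 + δ')).ncard : ℝ) +
        δ' * (T * Real.log T) := k2
    rw [one (zfin' T), one (hf2 T)] at k1' k2'
    rw [c1, c2, abs_le]
    constructor <;> linarith
  obtain ⟨C1, T1, hC1, hT1, hz1⟩ := zeta_le
  obtain ⟨C2, T2, hC2, hT2, hz2⟩ := zeta_bd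
  have hQ : ∃ C : ℝ, ∀ᶠ T in atTop, QQ (Pf (zfin' T)) (nx Complex.im T) ≤ C * (T * Real.log T) := by
    refine ⟨C1 + C2, ?_⟩
    filter_upwards [eventually_ge_atTop T1, eventually_ge_atTop T2] with T t1 t2
    have e1 := QQ_le (zfin' T)
    have e2 := hz1 T t1
    have e3 := hz2 T t2
    have e4 : ((Pf (zfin' T)).card : ℝ) = ({p : ℂ × ℕ | p ∈ ZetaZ ∧ 0 < p.1.im ∧ p.1.im ≤ T}.ncard : ℝ) := by
      unfold Pf
      rw [← Set.ncard_eq_toFinset_card _ (zfin' T)]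
    rw [nn2_tup, e4] at e1
    have e5 : ((Tuples ZetaZ Complex.im T (fun _ : Fin 1 => -1) (fun _ => 1)).ncard : ℝ) ≤
      C2 * (T * Real.log T) := e3
    linarith
  have hs := ss_cmp (Z1 := fun _ => ZetaZ) (Z2 := fun T => Zi (Ht (t T))) (h1 := Complex.im) (h2 := hh)
      zfin' hf2 (fun a b δ hδ => (hc a b δ hδ).mono fun T g => g.1)
      (fun a b δ hδ => (hc a b δ hδ).mono fun T g => g.2) hN hQ (dec_sch (𝓕 φ))
      (show 0 < ε / (2 * Real.pi) by positivity)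
  filter_upwards [hs, eventually_gt_atTop (1 : ℝ)] with T t1 t3
  have hL0 : 0 < Real.log T := Real.log_pos t3
  have hX : 0 < T * Real.log T := mul_pos (by linarith) hL0
  have e1 := (FFm_int (zfin' T) t3 φ).2
  have e2 := (FFm_int (hf2 T) t3 φ).2
  rw [e1, e2, ← mul_sub, norm_mul, norm_inv, Complex.norm_real, Real.norm_eq_abs,
    abs_of_pos (by positivity), inv_mul_le_iff₀ (by positivity), norm_sub_rev]
  refine t1.trans (le_of_eq ?_)
  field_simp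

end Run7.h422.PP
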