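import Pool.Agent.Run7.h422.PP.N3

/-!
# Uniform forms: fixed multiples of the time `1 / log² T`
-/

set_option autoImplicit false

namespace Run7.h422.PP

open Complex Filter Topology Set

/-- If a property holds for large `T` along every admissible function `t(T)`, it holds uniformly. -/
theorem soft_gen {Q : ℕ → ℝ → ℝ → Prop} (hQ : ∀ n m : ℕ, n ≤ m → ∀ T s : ℝ, Q m T s → Q n T s)
    (d : ℝ → ℝ) (hd : ∀ n : ℕ, ∀ᶠ T in atTop, Q n T (d T)) {P : ℝ → ℝ → Prop}
    (h : ∀ t : ℝ → ℝ, (∀ n : ℕ, ∀ᶠ T in atTop, Q n T (t T)) → ∀ᶠ T in atTop, P T (t T)) :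
    ∃ n : ℕ, ∀ T s : ℝ, (n : ℝ) ≤ T → Q n T s → P T s := by
  by_contra hcon
  push Not at hcon
  have h1 : ∀ n : ℕ, ∃ p : ℝ × ℝ, (n : ℝ) ≤ p.1 ∧ Q n p.1 p.2 ∧ ¬ P p.1 p.2 := by
    intro n
    obtain ⟨T, s, q1, q2, q3⟩ := hcon n
    exact ⟨(T, s), q1, q2, q3⟩
  choose u hu1 hu2 hu3 using h1
  have hT : Tendsto (fun n => (u n).1) atTop atTop :=
    tendsto_atTop_mono hu1 tendsto_natCast_atTop_atTop
  obtain ⟨φ, hφ, hφ2⟩ := Filter.strictMono_subseq_of_tendsto_atTop hT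
  have hφ3 : StrictMono fun k => (u (φ k)).1 := hφ2
  classical
  let t : ℝ → ℝ := fun T => if h : ∃ k, (u (φ k)).1 = T then (u (φ h.choose)).2 else d T
  have ht : ∀ k, t (u (φ k)).1 = (u (φ k)).2 := by
    intro k
    have h : ∃ j, (u (φ j)).1 = (u (φ k)).1 := ⟨k, rfl⟩
    have e : h.choose = k := hφ3.injective h.choose_spec
    show (if h : ∃ j, (u (φ j)).1 = (u (φ k)).1 then (u (φ h.choose)).2 else d _) = _
    rw [dif_pos h, e]
  have ht' : ∀ T, (¬ ∃ k, (u (φ k)).1 = T) → t T = d T := by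
    intro T hT
    show (if h : ∃ j, (u (φ j)).1 = T then (u (φ h.choose)).2 else d _) = _
    rw [dif_neg hT]
  have hk : ∀ k, k ≤ φ k := fun k => hφ.id_le k
  have hadm : ∀ n : ℕ, ∀ᶠ T in atTop, Q n T (t T) := by
    intro n
    filter_upwards [hd n, eventually_gt_atTop (u (φ n)).1] with T h2 h3
    by_cases hT : ∃ k, (u (φ k)).1 = T
    · obtain ⟨k, rfl⟩ := hT
      rw [ht k]
      have h4 : n < k := by
        by_contra hc
        push Not at hc
        exact absurd h3 (not_lt.2 (hφ3.monotone hc))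
      exact hQ n (φ k) (h4.le.trans (hk k)) _ _ (hu2 (φ k))
    · rw [ht' T hT]
      exact h2
  have hP := h t hadm
  have hlim : Tendsto (fun k => (u (φ k)).1) atTop atTop := hT.comp hφ.tendsto_atTop
  obtain ⟨k, hk1⟩ := (hlim.eventually hP).exists
  rw [ht k] at hk1
  exact hu3 (φ k) hk1

/-- uniform form above the time scale -/
theorem soft_big {A : ℝ} (hA : 0 < A) {P : ℝ → ℝ → Prop}
    (h : ∀ t : ℝ → ℝ, Tendsto (fun T => t T * Real.log T ^ 2) atTop atTop →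
      (∀ᶠ T in atTop, t T * Real.log T ≤ A) → ∀ᶠ T in atTop, P T (t T)) :
    ∃ τ0 T0 : ℝ, 0 < τ0 ∧ 2 ≤ T0 ∧ ∀ T s : ℝ, T0 ≤ T → τ0 ≤ s * Real.log T ^ 2 →
      s * Real.log T ≤ A → P T s := by
  obtain ⟨n, hn⟩ := soft_gen (Q := fun n T s => (n : ℝ) ≤ s * Real.log T ^ 2 ∧ s * Real.log T ≤ A)
    (fun n m hnm T s hq => ⟨(Nat.cast_le.2 hnm).trans hq.1, hq.2⟩) (fun T => A / Real.log T)
    (fun n => by
      filter_upwards [Real.tendsto_log_atTop.eventually_ge_atTop (n / A),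
        Real.tendsto_log_atTop.eventually_gt_atTop 0] with T h1 h2
      rw [div_le_iff₀ hA] at h1
      have e1 : A / Real.log T * Real.log T ^ 2 = Real.log T * A := by field_simp
      have e2 : A / Real.log T * Real.log T = A := by field_simp
      rw [e1, e2]
      exact ⟨h1, le_rfl⟩) (P := P) (fun t ht => by
      refine h t ?_ ((ht 0).mono fun T h1 => h1.2)
      rw [tendsto_atTop]
      intro b
      obtain ⟨m, hm⟩ := exists_nat_ge b
      exact (ht m).mono fun T h1 => hm.trans h1.1)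
  refine ⟨n + 1, max n 2, by positivity, le_max_right _ _, fun T s h1 h2 h3 => ?_⟩
  exact hn T s ((le_max_left _ _).trans h1) ⟨by linarith, h3⟩

/-- uniform form below the time scale -/
theorem soft_small {P : ℝ → ℝ → Prop}
    (h : ∀ t : ℝ → ℝ, (∀ T, 0 ≤ t T) → Tendsto (fun T => t T * Real.log T ^ 2) atTop (𝓝 0) →
      ∀ᶠ T in atTop, P T (t T)) :
    ∃ δ T0 : ℝ, 0 < δ ∧ 2 ≤ T0 ∧ ∀ T s : ℝ, T0 ≤ T → 0 ≤ s → s * Real.log T ^ 2 ≤ δ → P T s := by
  obtain ⟨n, hn⟩ := soft_gen (Q := fun n T s => 0 ≤ s ∧ s * Real.log T ^ 2 ≤ 1 / ((n : ℝ) + 1))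
    (fun n m hnm T s hq => ⟨hq.1, hq.2.trans (by
      have : (n : ℝ) ≤ m := Nat.cast_le.2 hnm
      gcongr)⟩) (fun _ => 0)
    (fun n => Eventually.of_forall fun T => ⟨le_rfl, by rw [zero_mul]; positivity⟩) (P := P)
    (fun t ht => by
      have h1 : ∀ᶠ T in atTop, max (t T) 0 = t T := (ht 0).mono fun T h2 => max_eq_left h2.1
      have h2 := h (fun T => max (t T) 0) (fun T => le_max_right _ _) (by
        rw [Metric.tendsto_nhds]
        intro ε hε
        obtain ⟨m, hm⟩ := exists_nat_one_div_lt hε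
        filter_upwards [ht m, h1] with T h3 h4
        rw [h4, Real.dist_eq, sub_zero, abs_of_nonneg (mul_nonneg h3.1 (sq_nonneg _))]
        exact lt_of_le_of_lt h3.2 hm)
      filter_upwards [h1, h2] with T h3 h4
      rwa [h3] at h4)
  refine ⟨1 / (n + 1), max n 2, by positivity, le_max_right _ _, fun T s h1 h2 h3 => ?_⟩
  exact hn T s ((le_max_left _ _).trans h1) ⟨h2, h3⟩

/-- many zeros, uniform -/
theorem nh_geU {A : ℝ} (hA : 0 < A) : ∃ c T0 : ℝ, 0 < c ∧ 2 ≤ T0 ∧ ∀ T t : ℝ, T0 ≤ T → 0 ≤ t →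
    t * Real.log T ≤ A → c * (T * Real.log T) ≤ NH t T := by
  obtain ⟨c, T1, hc, hT1, h⟩ := inp_xi.tot A
  refine ⟨c, max T1 (Real.exp (8 * A)), hc, hT1.trans (le_max_left _ _), fun T t t1 t2 t3 => ?_⟩
  have hT1' : T1 ≤ T := (le_max_left _ _).trans t1
  have hT : 1 < T := by linarith
  have hL : 8 * A ≤ Real.log T := by
    rw [Real.le_log_iff_exp_le (by linarith)]
    exact (le_max_right _ _).trans t1
  have hL0 : 0 < Real.log T := Real.log_pos hT
  have hτ8 : t / 4 ≤ 1 / 8 := by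
    by_contra hcon
    push Not at hcon
    have h3 : 1 / 2 * (8 * A) < t * Real.log T := mul_lt_mul (by linarith) hL (by positivity) t2
    linarith
  unfold NH
  rw [ht_num t2]
  refine h T (t / 4) hT1' (by positivity) hτ8 ?_
  have : t / 4 * Real.log T ≤ t * Real.log T := mul_le_mul_of_nonneg_right (by linarith) hL0.le
  linarith

/-- no law continuous at `1`, abstract form -/
theorem fail_abs {F : Filter ℝ} [F.NeBot] {a b n : ℝ → ℝ} {k p q : ℝ} (hk : 0 < k)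
    (h1 : ∀ᶠ T in F, a T ≤ 1 / 4 * n T) (h2 : ∀ᶠ T in F, (1 - 1 / 4) * n T ≤ b T)
    (h3 : ∀ᶠ T in F, k ≤ n T) (ha : Tendsto a F (𝓝 p)) (hb : Tendsto b F (𝓝 q))
    (hpq : |q - p| < k / 4) : False := by
  have e1 : p ≤ 1 / 3 * q := by
    refine le_of_tendsto_of_tendsto ha (hb.const_mul (1 / 3)) ?_
    filter_upwards [h1, h2] with T t1 t2
    linarith
  have e2 : 3 / 4 * k ≤ q := by
    refine ge_of_tendsto hb ?_
    filter_upwards [h2, h3] with T t1 t2
    linarith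
  have := (abs_lt.1 hpq).2
  linarith

/-- from ratios to differences -/
theorem near_of {x N : ℝ → ℝ} {L ε : ℝ} (hε : 0 < ε) (hN : ∀ᶠ T in atTop, 0 < N T)
    (h : Tendsto (fun T => x T / N T) atTop (𝓝 L)) : ∀ᶠ T in atTop, |x T - L * N T| ≤ ε * N T := by
  rw [Metric.tendsto_nhds] at h
  filter_upwards [hN, h ε hε] with T h1 h2
  rw [Real.dist_eq] at h2
  have e : x T - L * N T = (x T / N T - L) * N T := by field_simp
  rw [e, abs_mul, abs_of_pos h1]
  exact mul_le_mul_of_nonneg_right h2.le h1.le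

/-- no continuous law, with a fixed `ε` -/
theorem no_lawU {Φ : ℝ → ℝ → ℝ} (hΦ : CtsLaw Φ) {c : ℝ} (hc : 0 < c) :
    ∃ ε : ℝ, 0 < ε ∧ ε ≤ 1 / 4 ∧ ∀ N : ℝ → ℝ → ℝ → ℝ,
      (∀ᶠ T : ℝ in atTop, c * (T * Real.log T) ≤ N T (1 - ε) (1 + ε)) →
      (∀ᶠ T : ℝ in atTop, N T (1 - ε) (1 + ε) + N T (1 + 2 * ε) 2 ≤ N T (1 - ε) 2) → ¬ Law N Φ := by
  have hpi := Real.pi_pos
  obtain ⟨ε0, hε0, hcc⟩ := cts_near hΦ one_pos one_lt_two (by positivity : 0 < Real.pi * c)
  obtain ⟨ε, hε, he1, he2⟩ : ∃ ε : ℝ, 0 < ε ∧ 2 * ε ≤ ε0 ∧ ε ≤ 1 / 4 :=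
    ⟨min (ε0 / 2) (1 / 4), by positivity, by linarith [min_le_left (ε0 / 2) (1 / 4 : ℝ)],
      min_le_right _ _⟩
  refine ⟨ε, hε, he2, fun N h1 h2 hL => ?_⟩
  have k : 2 * Real.pi * c + Φ (1 + 2 * ε) 2 ≤ Φ (1 - ε) 2 := by
    have l1 := hL (1 - ε) 2 (by linarith) (by linarith)
    have l2 := (hL (1 + 2 * ε) 2 (by linarith) (by linarith)).const_add (2 * Real.pi * c)
    refine le_of_tendsto_of_tendsto l2 l1 ?_
    filter_upwards [h1, h2, eventually_gt_atTop (1 : ℝ)] with T t1 t2 t3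
    have hT : 0 < T * Real.log T := mul_pos (by linarith) (Real.log_pos t3)
    have hT' : 0 < T * Real.log T / (2 * Real.pi) := by positivity
    rw [le_div_iff₀ hT', add_mul, div_mul_cancel₀ _ hT'.ne']
    have : 2 * Real.pi * c * (T * Real.log T / (2 * Real.pi)) = c * (T * Real.log T) := by
      field_simp
    rw [this]
    linarith
  have a1 := hcc (1 - ε) 2 (by rw [sub_sub_cancel_left, abs_neg, abs_of_pos hε]; linarith)
    (by rw [sub_self, abs_zero]; exact hε0.le)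
  have a2 := hcc (1 + 2 * ε) 2 (by rw [add_sub_cancel_left, abs_of_pos (by positivity)]; exact he1)
    (by rw [sub_self, abs_zero]; exact hε0.le)
  rw [abs_lt] at a1 a2
  linarith [a1.2, a2.1]

/-- partners at every integral distance, uniform -/
theorem ph_geU {A : ℝ} (hA : 0 < A) {m : ℕ} (hm : 1 ≤ m) {ε η : ℝ} (hε : 0 < ε) (hη : 0 < η) :
    ∃ τ0 T0 : ℝ, 0 < τ0 ∧ 2 ≤ T0 ∧ ∀ T t : ℝ, T0 ≤ T → τ0 ≤ t * Real.log T ^ 2 →
      t * Real.log T ≤ A → (1 - η) * NH t T ≤ PH t T (m - ε) (m + ε) :=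
  soft_big hA fun _ ht hA' => ph_ge hA hA' ht hm hε hη

/-- no continuous law at large multiples of the critical time -/
theorem no_cts_lawU {A : ℝ} (hA : 0 < A) {Φ : ℝ → ℝ → ℝ} (hΦ : CtsLaw Φ) :
    ∃ τ0 : ℝ, 0 < τ0 ∧ ∀ t : ℝ → ℝ,
      (∀ᶠ T in atTop, τ0 ≤ t T * Real.log T ^ 2 ∧ t T * Real.log T ≤ A) →
      ¬ Law (fun T => PH (t T) T) Φ := by
  obtain ⟨c, T1, hc, hT1, hge⟩ := nh_geU hA
  obtain ⟨ε, hε, hε4, hno⟩ := no_lawU hΦ (c := c / 2) (by positivity)
  obtain ⟨τ0, T0, hτ0, hT0, hph⟩ := ph_geU hA (m := 1) le_rfl hε (η := 1 / 2) (by norm_num)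
  refine ⟨τ0, hτ0, fun t ht => hno _ ?_ ?_⟩
  · filter_upwards [ht, eventually_ge_atTop T0, eventually_ge_atTop T1] with T t1 t2 t3
    have hL : 0 < Real.log T := Real.log_pos (by linarith)
    have ht0 : 0 ≤ t T := by
      have h5 : 0 < t T * Real.log T ^ 2 := lt_of_lt_of_le hτ0 t1.1
      exact ((pos_iff_pos_of_mul_pos h5).2 (by positivity)).le
    have h1 := hph T (t T) t2 t1.1 t1.2
    have h2 := hge T (t T) t3 ht0 t1.2
    rw [Nat.cast_one] at h1
    show c / 2 * (T * Real.log T) ≤ PH (t T) T (1 - ε) (1 + ε)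
    linarith
  · filter_upwards [ht, eventually_gt_atTop (1 : ℝ)] with T t1 t3
    have hL : 0 < Real.log T := Real.log_pos t3
    have ht0 : 0 ≤ t T := by
      have h5 : 0 < t T * Real.log T ^ 2 := lt_of_lt_of_le hτ0 t1.1
      exact ((pos_iff_pos_of_mul_pos h5).2 (by positivity)).le
    have h1 := PG_add (nh_fin ht0 T) (P := fun D => 1 - ε ≤ D ∧ D ≤ 1 + ε)
      (Q := fun D => 1 + 2 * ε ≤ D ∧ D ≤ 2) (R := fun D => 1 - ε ≤ D ∧ D ≤ 2)
      (fun D hD => ⟨hD.1, by linarith [hD.2]⟩) (fun D hD => ⟨by linarith [hD.1], hD.2⟩)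
      (fun D hD hD' => by linarith [hD.2, hD'.1])
    unfold PH
    exact_mod_cast h1

/-- Two boxes that differ little, one without and one with one vector of different nonzero integers. -/
theorem fail_box {k : ℕ} {Ψ : (Fin (k + 1) → ℝ) → (Fin (k + 1) → ℝ) → ℝ}
    (hΨ : ContinuousOn (fun x : (Fin (k + 1) → ℝ) × (Fin (k + 1) → ℝ) => Ψ x.1 x.2) {x | ∀ i, x.1 i < x.2 i})
    {κ : ℝ} (hκ : 0 < κ) : ∃ α β₁ β₂ : Fin (k + 1) → ℝ,
    (∀ i, ∀ a : ℤ, α i ≠ a) ∧ (∀ i, ∀ a : ℤ, β₁ i ≠ a) ∧ (∀ i, ∀ a : ℤ, β₂ i ≠ a) ∧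
    (∀ i, α i < β₁ i) ∧ (∀ i, α i < β₂ i) ∧ |Ψ α β₂ - Ψ α β₁| < κ ∧
    ({a : Fin (k + 1) → ℤ | Function.Injective a ∧ ∀ i, a i ≠ 0 ∧ α i ≤ a i ∧ (a i : ℝ) ≤ β₁ i}.ncard : ℝ) = 0 ∧
    ({a : Fin (k + 1) → ℤ | Function.Injective a ∧ ∀ i, a i ≠ 0 ∧ α i ≤ a i ∧ (a i : ℝ) ≤ β₂ i}.ncard : ℝ) = 1 := by
  set α : Fin (k + 1) → ℝ := fun i => (i : ℝ) + 1 / 2 with hα
  set β : ℝ → Fin (k + 1) → ℝ := fun η i => if i = 0 then 1 + η else (i : ℝ) + 3 / 2 with hβ
  have hαi : ∀ i, α i = (i : ℝ) + 1 / 2 := fun i => rfl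
  have hβ0 : ∀ η, β η 0 = 1 + η := fun η => by simp [hβ]
  have hβi : ∀ η i, i ≠ 0 → β η i = (i : ℝ) + 3 / 2 := fun η i hi => by simp [hβ, hi]
  have hlt : ∀ η : ℝ, |η| < 1 / 2 → ∀ i, α i < β η i := by
    intro η hη i
    rw [abs_lt] at hη
    by_cases hi : i = 0
    · subst hi
      rw [hβ0, hαi]
      simp only [Fin.val_zero, Nat.cast_zero]
      linarith
    · rw [hβi η i hi, hαi]
      linarith
  have hcont : Continuous β := by
    refine continuous_pi fun i => ?_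
    by_cases hi : i = 0
    · subst hi
      simp only [hβ0]
      fun_prop
    · simp only [hβi _ i hi]
      fun_prop
  have hopen : IsOpen {x : (Fin (k + 1) → ℝ) × (Fin (k + 1) → ℝ) | ∀ i, x.1 i < x.2 i} := by
    have : {x : (Fin (k + 1) → ℝ) × (Fin (k + 1) → ℝ) | ∀ i, x.1 i < x.2 i} =
        ⋂ i, {x | x.1 i < x.2 i} := by ext x; simp
    rw [this]
    exact isOpen_iInter_of_finite fun i => isOpen_lt (by fun_prop) (by fun_prop)
  have hc1 : ContinuousAt (fun x : (Fin (k + 1) → ℝ) × (Fin (k + 1) → ℝ) => Ψ x.1 x.2) (α, β 0) :=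
    hΨ.continuousAt (hopen.mem_nhds (hlt 0 (by rw [abs_zero]; norm_num)))
  have hc2 : ContinuousAt (fun η : ℝ => Ψ α (β η)) 0 := by
    have h1 : ContinuousAt (fun η : ℝ => ((α, β η) : (Fin (k + 1) → ℝ) × (Fin (k + 1) → ℝ))) 0 :=
      (continuous_const.prodMk hcont).continuousAt
    exact ContinuousAt.comp (f := fun η : ℝ => ((α, β η) : (Fin (k + 1) → ℝ) × (Fin (k + 1) → ℝ))) hc1 h1
  obtain ⟨θ, hθ, hθ2⟩ := Metric.continuousAt_iff.1 hc2 (κ / 2) (by positivity)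
  set η : ℝ := min (θ / 2) (1 / 4) with hη
  have hη0 : 0 < η := lt_min (by positivity) (by norm_num)
  have hη1 : η ≤ 1 / 4 := min_le_right _ _
  have hη2 : η < θ := lt_of_le_of_lt (min_le_left _ _) (by linarith)
  have hint : ∀ (n : ℕ) (x : ℝ), 0 < x → x < 1 → ∀ a : ℤ, (n : ℝ) + x ≠ a := by
    intro n x h1 h2 a ha
    have h3 : ((n : ℤ) : ℝ) < a := by push_cast; linarith
    have h4 : (a : ℝ) < ((n + 1 : ℤ) : ℝ) := by push_cast; linarith
    have h5 : (n : ℤ) < a := by exact_mod_cast h3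
    have h6 : a < n + 1 := by exact_mod_cast h4
    omega
  have hcoord : ∀ (ζ : ℝ), |ζ| < 1 / 2 → ∀ (a : Fin (k + 1) → ℤ), (∀ i, α i ≤ a i ∧ (a i : ℝ) ≤ β ζ i) →
      ∀ i, a i = (i : ℤ) + 1 := by
    intro ζ hζ a ha i
    obtain ⟨h1, h2⟩ := ha i
    have h3 : β ζ i ≤ (i : ℝ) + 3 / 2 := by
      by_cases hi : i = 0
      · subst hi
        rw [hβ0]
        have := (abs_lt.1 hζ).2
        simp only [Fin.val_zero, Nat.cast_zero]
        linarith
      · rw [hβi ζ i hi]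
    rw [hαi] at h1
    have h4 : (((i : ℕ) : ℤ) : ℝ) < a i := by push_cast; linarith
    have h5 : (a i : ℝ) < (((i : ℕ) : ℤ) + 2 : ℤ) := by push_cast; linarith
    have h6 : ((i : ℕ) : ℤ) < a i := by exact_mod_cast h4
    have h7 : a i < ((i : ℕ) : ℤ) + 2 := by exact_mod_cast h5
    omega
  refine ⟨α, β (-η), β η, ?_, ?_, ?_, hlt _ (by rw [abs_neg, abs_of_pos hη0]; linarith),
    hlt _ (by rw [abs_of_pos hη0]; linarith), ?_, ?_, ?_⟩
  · intro i a
    rw [hαi]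
    exact hint _ _ (by norm_num) (by norm_num) a
  · intro i a
    by_cases hi : i = 0
    · subst hi
      rw [hβ0]
      have := hint 0 (1 - η) (by linarith) (by linarith) a
      intro h
      apply this
      rw [← h]
      push_cast
      ring
    · rw [hβi _ i hi]
      have := hint ((i : ℕ) + 1) (1 / 2) (by norm_num) (by norm_num) a
      intro h
      apply this
      rw [← h]
      push_cast
      ring
  · intro i a
    by_cases hi : i = 0
    · subst hi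
      rw [hβ0]
      have := hint 1 η (by linarith) (by linarith) a
      intro h
      apply this
      rw [← h]
      push_cast
      ring
    · rw [hβi _ i hi]
      have := hint ((i : ℕ) + 1) (1 / 2) (by norm_num) (by norm_num) a
      intro h
      apply this
      rw [← h]
      push_cast
      ring
  · have h1 := hθ2 (x := -η) (by rw [Real.dist_eq, sub_zero, abs_neg, abs_of_pos hη0]; exact hη2)
    have h2 := hθ2 (x := η) (by rw [Real.dist_eq, sub_zero, abs_of_pos hη0]; exact hη2)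
    rw [Real.dist_eq, abs_lt] at h1 h2
    rw [abs_lt]
    constructor <;> linarith [h1.1, h1.2, h2.1, h2.2]
  · have he : {a : Fin (k + 1) → ℤ | Function.Injective a ∧
        ∀ i, a i ≠ 0 ∧ α i ≤ a i ∧ (a i : ℝ) ≤ β (-η) i} = ∅ := by
      rw [Set.eq_empty_iff_forall_notMem]
      rintro a ⟨_, ha⟩
      have h1 := hcoord (-η) (by rw [abs_neg, abs_of_pos hη0]; linarith) a (fun i => (ha i).2) 0
      have h2 := (ha 0).2.2
      rw [h1, hβ0] at h2
      simp only [Fin.val_zero, Nat.cast_zero, zero_add, Int.cast_one] at h2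
      linarith
    rw [he, Set.ncard_empty, Nat.cast_zero]
  · have he : {a : Fin (k + 1) → ℤ | Function.Injective a ∧
        ∀ i, a i ≠ 0 ∧ α i ≤ a i ∧ (a i : ℝ) ≤ β η i} = {fun i : Fin (k + 1) => ((i : ℕ) : ℤ) + 1} := by
      ext a
      rw [Set.mem_singleton_iff]
      constructor
      · rintro ⟨_, ha⟩
        funext i
        exact hcoord η (by rw [abs_of_pos hη0]; linarith) a (fun i => (ha i).2) i
      · rintro rfl
        refine ⟨fun i j hij => ?_, fun i => ⟨?_, ?_, ?_⟩⟩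
        · simp only [add_left_inj, Nat.cast_inj] at hij
          exact Fin.ext hij
        · positivity
        · rw [hαi]
          push_cast
          linarith
        · by_cases hi : i = 0
          · subst hi
            rw [hβ0]
            simp only [Fin.val_zero, Nat.cast_zero, zero_add, Int.cast_one]
            linarith
          · rw [hβi _ i hi]
            push_cast
            linarith
    rw [he, Set.ncard_singleton, Nat.cast_one]

end Run7.h422.PP
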