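import Pool.Agent.Run7.h422.PP.G6
import Pool.Agent.Run7.h422.PP.N4

/-!
# Many zeros of the heat flow of a completed L-function, uniform form
-/

set_option autoImplicit false

namespace Run7.h422.PP

open Complex Filter Topology Set
open Pool.Agent.R838.IS (HX ord_aff ratio_num heat_zero)
open Pool.Agent.W169.HF (heat)

variable {κ a : ℝ} {u : ℂ} {Λ F : ℂ → ℂ} {FT : ℝ → ℂ → ℂ}

/-- the number of zeros of the flow -/
theorem nz_geU (h : HX κ a u Λ F FT) (htot : TOT FT) (A : ℝ) :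
    ∃ c T0 : ℝ, 0 < c ∧ 2 ≤ T0 ∧ ∀ T t : ℝ, T0 ≤ T → 0 ≤ t → t * Real.log T ≤ A →
      (NZ (heat t Λ) T).Finite ∧ c * (T * Real.log T) ≤ ((NZ (heat t Λ) T).ncard : ℝ) := by
  obtain ⟨b, hb2⟩ : ∃ b : ℝ, b = 2 * κ := ⟨_, rfl⟩
  have hκ := h.kap
  have hb1 : 1 ≤ b := by rw [hb2]; linarith
  have hb0 : 0 < b := by linarith
  have hbc : (b : ℂ) ≠ 0 := by exact_mod_cast hb0.ne'
  have heqn := h.eqn
  rw [← hb2] at heqn
  have hI : Inp FT := inp_stb h.stb h.u0 htot
  obtain ⟨c, T0, hc, hT0, H⟩ := hI.tot (2 * b ^ 2 * (|A| + 1))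
  refine ⟨c, max (max T0 b) (Real.exp (8 * b ^ 2 * (|A| + 1))), hc,
    hT0.trans ((le_max_left _ _).trans (le_max_left _ _)), fun T t k1 ht0 h1 => ?_⟩
  have h3 : T0 ≤ T := ((le_max_left _ _).trans (le_max_left _ _)).trans k1
  have h4 : (2 : ℝ) ≤ T := hT0.trans h3
  have h5 : b ≤ T := ((le_max_right _ _).trans (le_max_left _ _)).trans k1
  have h6 : 8 * b ^ 2 * (|A| + 1) ≤ Real.log T := by
    rw [Real.le_log_iff_exp_le (by linarith)]
    exact (le_max_right _ _).trans k1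
  obtain ⟨hL, r1, r2, r3, r4⟩ := ratio_num hb1 h4 h5
  have hT0' : 0 < T := by linarith
  have hbT : T ≤ b * T := le_mul_of_one_le_left hT0'.le hb1
  have h7 := le_abs_self A
  have h8 : b ^ 2 * t * Real.log (b * T) ≤ 2 * b ^ 2 * (|A| + 1) := by
    have g1 : b ^ 2 * t * Real.log (b * T) ≤ b ^ 2 * t * (2 * Real.log T) :=
      mul_le_mul_of_nonneg_left r3 (by positivity)
    have g2 : b ^ 2 * t * (2 * Real.log T) = 2 * b ^ 2 * (t * Real.log T) := by ring
    have g3 : 2 * b ^ 2 * (t * Real.log T) ≤ 2 * b ^ 2 * (|A| + 1) :=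
      mul_le_mul_of_nonneg_left (by linarith) (by positivity)
    linarith
  have h9 : b ^ 2 * t ≤ 1 / 8 := by
    by_contra hcon
    push Not at hcon
    have g1 : 1 / 8 * (8 * b ^ 2 * (|A| + 1)) ≤ 1 / 8 * Real.log T :=
      mul_le_mul_of_nonneg_left h6 (by norm_num)
    have g2 : 1 / 8 * Real.log T < b ^ 2 * t * Real.log T := mul_lt_mul_of_pos_right hcon hL
    have g3 : b ^ 2 * (t * Real.log T) ≤ b ^ 2 * (|A| + 1) * (1 : ℝ) := by
      rw [mul_one]
      exact mul_le_mul_of_nonneg_left (by linarith) (by positivity)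
    linarith
  have h10 := H (b * T) (b ^ 2 * t) (h3.trans hbT) (by positivity) h9 h8
  have hcard := NZ_card (h.diff t ht0) h.une hb1 (heqn t ht0) (a := a) T
  have hbig : 0 < c * (b * T * Real.log (b * T)) := by
    have : 0 < Real.log (b * T) := by linarith
    positivity
  rw [← hcard] at h10
  constructor
  · refine Set.finite_of_ncard_pos ?_
    have : (0 : ℝ) < ((NZ (heat t Λ) T).ncard : ℝ) := lt_of_lt_of_le hbig h10
    exact_mod_cast this
  · refine le_trans ?_ h10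
    refine mul_le_mul_of_nonneg_left ?_ hc.le
    exact mul_le_mul hbT r4 hL.le (by positivity)

end Run7.h422.PP
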