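import Pool.Agent.Run7.h422.PP.N4

/-!
# Pairs of zeros whose distance is not near a given set
-/

set_option autoImplicit false

namespace Run7.h422.PP

open Complex Filter Topology Set
open Pool.Agent.H986R2.DBN (XT Ht)
open Pool.Agent.R838.ST (Tuples ZetaZ)

/-- an upper bound for the number of zeros -/
theorem Inp.tot_le {X : ℝ → ℂ → ℂ} (hI : Inp X) {A : ℝ} (hA : 0 < A) : ∃ C T0 : ℝ, 0 < C ∧ 2 ≤ T0 ∧
    ∀ T τ : ℝ, T0 ≤ T → 0 ≤ τ → τ * Real.log T ≤ A → ((NZ (X τ) T).ncard : ℝ) ≤ C * (T * Real.log T) := by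
  obtain ⟨C, T0, hC, hT0, h⟩ := hI.unit A hA
  refine ⟨2 * C, T0, by positivity, hT0, fun T τ hT hτ hτA => ?_⟩
  have hT2 : 2 ≤ T := hT0.trans hT
  have hL : 0 < Real.log T := Real.log_pos (by linarith)
  have hsub : NZ (X τ) T ⊆ ⋃ n ∈ Finset.range (⌊T⌋₊ + 1), {p : ℂ × ℕ | p ∈ Zi (X τ) ∧ |p.1.im - n| ≤ 1} := by
    rintro p ⟨h1, h2, h3⟩
    rw [Set.mem_iUnion₂]
    refine ⟨⌊p.1.im⌋₊, ?_, h1, ?_⟩
    · rw [Finset.mem_range]
      exact Nat.lt_succ_of_le (Nat.floor_le_floor h3)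
    · have h4 := Nat.floor_le h2.le
      have h5 := Nat.lt_floor_add_one p.1.im
      rw [abs_le]
      constructor <;> linarith
  have hfin : ∀ n : ℕ, {p : ℂ × ℕ | p ∈ Zi (X τ) ∧ |p.1.im - n| ≤ 1}.Finite := fun n =>
    (hI.fin τ hτ (n - 1) (n + 1)).subset fun p hp => ⟨hp.1, by linarith [(abs_le.1 hp.2).1], by
      linarith [(abs_le.1 hp.2).2]⟩
  have h1 : (NZ (X τ) T).ncard ≤ ∑ n ∈ Finset.range (⌊T⌋₊ + 1),
      {p : ℂ × ℕ | p ∈ Zi (X τ) ∧ |p.1.im - n| ≤ 1}.ncard :=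
    (Set.ncard_le_ncard hsub (Set.Finite.biUnion (Finset.finite_toSet _) fun n _ => hfin n)).trans
      (Finset.set_ncard_biUnion_le _ _)
  have h2 : ((NZ (X τ) T).ncard : ℝ) ≤ ∑ n ∈ Finset.range (⌊T⌋₊ + 1),
      ({p : ℂ × ℕ | p ∈ Zi (X τ) ∧ |p.1.im - n| ≤ 1}.ncard : ℝ) := by exact_mod_cast h1
  have h3 : ∑ n ∈ Finset.range (⌊T⌋₊ + 1),
      ({p : ℂ × ℕ | p ∈ Zi (X τ) ∧ |p.1.im - n| ≤ 1}.ncard : ℝ) ≤
      ∑ _n ∈ Finset.range (⌊T⌋₊ + 1), C * Real.log T := by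
    refine Finset.sum_le_sum fun n hn => h T τ n hT hτ hτA (Nat.cast_nonneg n) ?_
    rw [Finset.mem_range] at hn
    have h4 : (n : ℝ) ≤ ⌊T⌋₊ := by exact_mod_cast Nat.lt_succ_iff.1 hn
    have h5 := Nat.floor_le (show (0 : ℝ) ≤ T by linarith)
    linarith
  rw [Finset.sum_const, Finset.card_range, nsmul_eq_mul] at h3
  have h5 := Nat.floor_le (show (0 : ℝ) ≤ T by linarith)
  have h6 : ((⌊T⌋₊ + 1 : ℕ) : ℝ) ≤ 2 * T := by push_cast; linarith
  calc ((NZ (X τ) T).ncard : ℝ) ≤ ((⌊T⌋₊ + 1 : ℕ) : ℝ) * (C * Real.log T) := h2.trans h3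
    _ ≤ 2 * T * (C * Real.log T) := mul_le_mul_of_nonneg_right h6 (by positivity)
    _ = 2 * C * (T * Real.log T) := by ring

/-- the number of zeros of `H_t` is `O (T log T)` -/
theorem nh_leU {A : ℝ} (hA : 0 < A) : ∃ C T0 : ℝ, 0 < C ∧ 2 ≤ T0 ∧ ∀ T t : ℝ, T0 ≤ T → 0 ≤ t →
    t * Real.log T ≤ A → NH t T ≤ C * (T * Real.log T) := by
  obtain ⟨C, T1, hC, hT1, h⟩ := inp_xi.tot_le hA
  refine ⟨C, T1, hC, hT1, fun T t t1 t2 t3 => ?_⟩
  have hL0 : 0 < Real.log T := Real.log_pos (by linarith)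
  unfold NH
  rw [ht_num t2]
  refine h T (t / 4) t1 (by positivity) ?_
  have : t / 4 * Real.log T ≤ t * Real.log T := mul_le_mul_of_nonneg_right (by linarith) hL0.le
  linarith

/-- ordered pairs of different elements whose normalised difference is in `C` -/
def OP (Z : Set (ℂ × ℕ)) (h : ℂ → ℝ) (T : ℝ) (C : Set ℝ) : Set ((ℂ × ℕ) × (ℂ × ℕ)) :=
  {x | (x.1 ∈ Z ∧ 0 < h x.1.1 ∧ h x.1.1 ≤ T) ∧ (x.2 ∈ Z ∧ 0 < h x.2.1 ∧ h x.2.1 ≤ T) ∧ x.1 ≠ x.2 ∧
    (h x.1.1 - h x.2.1) * (Real.log T / (2 * Real.pi)) ∈ C}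

/-- distances up to `K` which are not near `S` -/
def CK (S : Set ℝ) (K ε : ℝ) : Set ℝ := {D | |D| ≤ K ∧ ε ≤ Metric.infDist D S}

variable {Z : Set (ℂ × ℕ)} {h : ℂ → ℝ} {T : ℝ}

lemma op_fin (hf : {p | p ∈ Z ∧ 0 < h p.1 ∧ h p.1 ≤ T}.Finite) (C : Set ℝ) : (OP Z h T C).Finite :=
  (hf.prod hf).subset fun _ hx => ⟨hx.1, hx.2.1⟩

lemma tu_le (hf : {p | p ∈ Z ∧ 0 < h p.1 ∧ h p.1 ≤ T}.Finite) {a b : ℝ} {C : Set ℝ} (hC : Icc a b ⊆ C) :
    (Tuples Z h T (fun _ : Fin 1 => a) (fun _ => b)).ncard ≤ (OP Z h T C).ncard := by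
  refine Set.ncard_le_ncard_of_injOn (fun x => (x 1, x 0)) ?_ ?_ (op_fin hf C)
  · rintro x ⟨h1, h2, h3, h4⟩
    refine ⟨⟨h1 1, h3 1⟩, ⟨h1 0, h3 0⟩, fun h5 => ?_, hC ⟨(h4 0).1, (h4 0).2⟩⟩
    exact absurd (h2 h5) (by decide)
  · intro x _ y _ hxy
    have h1 : x 1 = y 1 := (Prod.ext_iff.1 hxy).1
    have h2 : x 0 = y 0 := (Prod.ext_iff.1 hxy).2
    funext i
    fin_cases i
    · exact h2
    · exact h1

lemma tu_fin (hf : {p | p ∈ Z ∧ 0 < h p.1 ∧ h p.1 ≤ T}.Finite) (a b : ℝ) :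
    (Tuples Z h T (fun _ : Fin 1 => a) (fun _ => b)).Finite := by
  have h1 : (Set.univ.pi fun _ : Fin 2 => {p | p ∈ Z ∧ 0 < h p.1 ∧ h p.1 ≤ T}).Finite :=
    Set.Finite.pi fun _ => hf
  exact h1.subset fun x hx i _ => ⟨hx.1 i, hx.2.2.1 i⟩

lemma op_le (hf : {p | p ∈ Z ∧ 0 < h p.1 ∧ h p.1 ≤ T}.Finite) {ι : Type} (J : Finset ι) (a b : ι → ℝ) {C : Set ℝ}
    (hC : C ⊆ ⋃ j ∈ J, Icc (a j) (b j)) :
    (OP Z h T C).ncard ≤ ∑ j ∈ J, (Tuples Z h T (fun _ : Fin 1 => a j) (fun _ => b j)).ncard := by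
  have h1 : (OP Z h T C).ncard ≤ (⋃ j ∈ J, Tuples Z h T (fun _ : Fin 1 => a j) (fun _ => b j)).ncard := by
    refine Set.ncard_le_ncard_of_injOn (fun x => ![x.2, x.1]) ?_ ?_
      (Set.Finite.biUnion (Finset.finite_toSet _) fun j _ => tu_fin hf (a j) (b j))
    · rintro x ⟨h1, h2, h3, h4⟩
      obtain ⟨j, hj, hj1, hj2⟩ := Set.mem_iUnion₂.1 (hC h4)
      rw [Set.mem_iUnion₂]
      refine ⟨j, hj, ?_, ?_, ?_, ?_⟩
      · intro i
        fin_cases i
        · exact h2.1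
        · exact h1.1
      · intro i j hij
        fin_cases i <;> fin_cases j
        · rfl
        · exact absurd hij.symm h3
        · exact absurd hij h3
        · rfl
      · intro i
        fin_cases i
        · exact h2.2
        · exact h1.2
      · intro i
        fin_cases i
        exact ⟨hj1, hj2⟩
    · intro x _ y _ hxy
      have e1 : x.2 = y.2 := congrFun hxy 0
      have e2 : x.1 = y.1 := congrFun hxy 1
      exact Prod.ext e2 e1
  exact h1.trans (Finset.set_ncard_biUnion_le _ _)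

/-- a covering of the set of bad distances -/
lemma cover_CK {S : Set ℝ} {K ε : ℝ} (hK : 0 < K) (hε : 0 < ε) : ∃ (J : Finset ℕ) (a b : ℕ → ℝ),
    CK S K ε ⊆ (⋃ j ∈ J, Icc (a j) (b j)) ∧
    ∀ j ∈ J, ∀ δ : ℝ, 0 ≤ δ → δ ≤ ε / 4 → Icc (a j - δ) (b j + δ) ⊆ CK S (K + ε) (ε / 2) := by
  classical
  set a : ℕ → ℝ := fun n => -K + n * (ε / 4) with ha
  set b : ℕ → ℝ := fun n => -K + (n + 1) * (ε / 4) with hb
  set M : ℕ := ⌊2 * K / (ε / 4)⌋₊ + 1 with hM
  refine ⟨(Finset.range M).filter fun n => (Icc (a n) (b n) ∩ CK S K ε).Nonempty, a, b, ?_, ?_⟩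
  · intro D hD
    have h1 := (abs_le.1 hD.1)
    have h2 : 0 ≤ (D + K) / (ε / 4) := div_nonneg (by linarith [h1.1]) (by positivity)
    have h3 := Nat.floor_le h2
    have h4 := Nat.lt_floor_add_one ((D + K) / (ε / 4))
    rw [le_div_iff₀ (by positivity)] at h3
    rw [div_lt_iff₀ (by positivity)] at h4
    have hmem : D ∈ Icc (a ⌊(D + K) / (ε / 4)⌋₊) (b ⌊(D + K) / (ε / 4)⌋₊) := by
      constructor
      · simp only [ha]; linarith
      · simp only [hb]; linarith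
    rw [Set.mem_iUnion₂]
    refine ⟨_, Finset.mem_filter.2 ⟨?_, ⟨D, hmem, hD⟩⟩, hmem⟩
    rw [Finset.mem_range, hM]
    refine Nat.lt_succ_of_le (Nat.floor_le_floor ?_)
    exact div_le_div_of_nonneg_right (by linarith [h1.2]) (by positivity)
  · intro j hj δ hδ hδ2 x hx
    obtain ⟨-, y, hy1, hy2⟩ := Finset.mem_filter.1 hj
    have h1 : |x - y| ≤ ε / 2 := by
      rw [abs_le]
      have e : b j - a j = ε / 4 := by simp only [ha, hb]; ring
      constructor <;> linarith [hx.1, hx.2, hy1.1, hy1.2]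
    constructor
    · have h2 : |x| ≤ |x - y| + |y| := by
        calc |x| = |(x - y) + y| := by ring_nf
          _ ≤ _ := abs_add_le _ _
      linarith [hy2.1]
    · have h2 := Metric.infDist_le_infDist_add_dist (s := S) (x := y) (y := x)
      have h3 := hy2.2
      rw [Real.dist_eq, abs_sub_comm] at h2
      linarith

/-- transfer of the hypothesis -/
theorem off_tr {Z1 Z2 : ℝ → Set (ℂ × ℕ)} {h1 h2 : ℂ → ℝ}
    (hf1 : ∀ T, {p | p ∈ Z1 T ∧ 0 < h1 p.1 ∧ h1 p.1 ≤ T}.Finite)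
    (hf2 : ∀ T, {p | p ∈ Z2 T ∧ 0 < h2 p.1 ∧ h2 p.1 ≤ T}.Finite)
    (hcmp : ∀ a b δ : ℝ, 0 < δ → ∀ᶠ T : ℝ in atTop,
      ((Tuples (Z1 T) h1 T (fun _ : Fin 1 => a) (fun _ => b)).ncard : ℝ) ≤
        ((Tuples (Z2 T) h2 T (fun _ : Fin 1 => a - δ) (fun _ => b + δ)).ncard : ℝ) + δ * (T * Real.log T))
    {S : Set ℝ} (h : ∀ K ε κ : ℝ, 0 < K → 0 < ε → 0 < κ → ∀ᶠ T : ℝ in atTop,
      ((OP (Z2 T) h2 T (CK S K ε)).ncard : ℝ) ≤ κ * (T * Real.log T)) {K ε κ : ℝ} (hK : 0 < K) (hε : 0 < ε)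
    (hκ : 0 < κ) : ∀ᶠ T : ℝ in atTop, ((OP (Z1 T) h1 T (CK S K ε)).ncard : ℝ) ≤ κ * (T * Real.log T) := by
  obtain ⟨J, a, b, hcov, hin⟩ := cover_CK (S := S) hK hε
  set m : ℝ := (J.card : ℝ) + 1 with hm
  have hm0 : 0 < m := by positivity
  set δ : ℝ := min (ε / 4) (κ / (2 * m)) with hδ
  have hδ0 : 0 < δ := lt_min (by positivity) (by positivity)
  have hδ1 : δ ≤ κ / (2 * m) := min_le_right _ _
  have hall : ∀ᶠ T : ℝ in atTop, ∀ j ∈ J,
      ((Tuples (Z1 T) h1 T (fun _ : Fin 1 => a j) (fun _ => b j)).ncard : ℝ) ≤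
        ((Tuples (Z2 T) h2 T (fun _ : Fin 1 => a j - δ) (fun _ => b j + δ)).ncard : ℝ) +
          δ * (T * Real.log T) := by
    rw [Finset.eventually_all]
    exact fun j _ => hcmp (a j) (b j) δ hδ0
  filter_upwards [hall, h (K + ε) (ε / 2) (κ / (2 * m)) (by positivity) (by positivity) (by positivity),
    eventually_gt_atTop (1 : ℝ)] with T t1 t2 t3
  have hX : 0 < T * Real.log T := mul_pos (by linarith) (Real.log_pos t3)
  have e1 : ((OP (Z1 T) h1 T (CK S K ε)).ncard : ℝ) ≤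
      ∑ j ∈ J, ((Tuples (Z1 T) h1 T (fun _ : Fin 1 => a j) (fun _ => b j)).ncard : ℝ) := by
    exact_mod_cast op_le (hf1 T) J a b hcov
  have e2 : ∀ j ∈ J, ((Tuples (Z1 T) h1 T (fun _ : Fin 1 => a j) (fun _ => b j)).ncard : ℝ) ≤
      κ / m * (T * Real.log T) := by
    intro j hj
    have e3 : ((Tuples (Z2 T) h2 T (fun _ : Fin 1 => a j - δ) (fun _ => b j + δ)).ncard : ℝ) ≤
        ((OP (Z2 T) h2 T (CK S (K + ε) (ε / 2))).ncard : ℝ) := by
      exact_mod_cast tu_le (hf2 T) (hin j hj δ hδ0.le (min_le_left _ _))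
    have e4 := t1 j hj
    have e5 : δ * (T * Real.log T) ≤ κ / (2 * m) * (T * Real.log T) := mul_le_mul_of_nonneg_right hδ1 hX.le
    have e6 : κ / (2 * m) * (T * Real.log T) + κ / (2 * m) * (T * Real.log T) = κ / m * (T * Real.log T) := by
      field_simp
      ring
    linarith
  have e7 := Finset.sum_le_sum e2
  rw [Finset.sum_const, nsmul_eq_mul] at e7
  refine e1.trans (e7.trans ?_)
  have e8 : (J.card : ℝ) * (κ / m * (T * Real.log T)) ≤ m * (κ / m * (T * Real.log T)) :=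
    mul_le_mul_of_nonneg_right (by rw [hm]; linarith) (by positivity)
  refine e8.trans (le_of_eq ?_)
  field_simp

/-- the nonzero integers -/
def NI : Set ℝ := {x | ∃ m : ℤ, m ≠ 0 ∧ x = m}

/-- above the time scale all distances are near nonzero integers -/
theorem off_big {t : ℝ → ℝ} {A : ℝ} (hA : 0 < A) (hA' : ∀ᶠ T in atTop, t T * Real.log T ≤ A)
    (ht2 : Tendsto (fun T => t T * Real.log T ^ 2) atTop atTop) {K ε κ : ℝ} (hK : 0 < K) (hε : 0 < ε)
    (hκ : 0 < κ) : ∀ᶠ T : ℝ in atTop,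
      ((OP (Zi (Ht (t T))) (fun z => z.re / 2) T (CK NI K ε)).ncard : ℝ) ≤ κ * (T * Real.log T) := by
  classical
  have ht0 : ∀ᶠ T in atTop, 0 < t T := by
    filter_upwards [ht2.eventually_gt_atTop 0, eventually_gt_atTop (1 : ℝ)] with T h2 h3
    have h5 : 0 < Real.log T ^ 2 := by have := Real.log_pos h3; positivity
    exact (pos_iff_pos_of_mul_pos h2).2 h5
  set ε' : ℝ := min ε (1 / 4) with hε'
  have he0 : 0 < ε' := lt_min hε (by norm_num)
  have he1 : ε' ≤ 1 / 4 := min_le_right _ _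
  have he2 : ε' ≤ ε := min_le_left _ _
  set M : ℤ := ⌈K⌉ + 1 with hM
  set J : Finset ℤ := Finset.Icc (-M - 1) (M + 1) with hJ
  set a : ℤ → ℝ := fun m => if m = 0 ∨ m = -1 then -1 + ε' else m + ε' with ha
  set b : ℤ → ℝ := fun m => if m = 0 ∨ m = -1 then 1 - ε' else m + 1 - ε' with hb
  have hnear : ∀ D : ℝ, ε ≤ Metric.infDist D NI → ∀ m : ℤ, m ≠ 0 → ε ≤ |D - m| := by
    intro D hD m hm
    have h1 := Metric.infDist_le_dist_of_mem (x := D) (show (m : ℝ) ∈ NI from ⟨m, hm, rfl⟩)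
    rw [Real.dist_eq] at h1
    exact hD.trans h1
  have hcov : CK NI K ε ⊆ ⋃ m ∈ J, Icc (a m) (b m) := by
    rintro D ⟨h1, h2⟩
    have h3 := Int.floor_le D
    have h4 := Int.lt_floor_add_one D
    have h5 := hnear D h2
    rw [abs_le] at h1
    rw [Set.mem_iUnion₂]
    refine ⟨⌊D⌋, ?_, ?_⟩
    · rw [hJ, Finset.mem_Icc]
      have h6 := Int.le_ceil K
      constructor
      · rw [Int.le_floor]
        push_cast [hM]
        linarith
      · have h7 : (⌊D⌋ : ℝ) ≤ ((M + 1 : ℤ) : ℝ) := by push_cast [hM]; linarith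
        exact_mod_cast h7
    · by_cases hm : ⌊D⌋ = 0 ∨ ⌊D⌋ = -1
      · simp only [ha, hb, if_pos hm]
        rcases hm with hm | hm
        · rw [hm] at h3 h4
          push_cast at h3 h4
          have h6 := h5 1 one_ne_zero
          push_cast at h6
          rw [abs_of_neg (by linarith)] at h6
          constructor <;> linarith
        · rw [hm] at h3 h4
          push_cast at h3 h4
          have h6 := h5 (-1) (by norm_num)
          push_cast at h6
          rw [abs_of_nonneg (by linarith)] at h6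
          constructor <;> linarith
      · simp only [ha, hb, if_neg hm]
        push Not at hm
        have h6 := h5 ⌊D⌋ hm.1
        have h7 := h5 (⌊D⌋ + 1) (by intro h; apply hm.2; omega)
        push_cast at h7
        rw [abs_of_nonneg (by linarith)] at h6
        rw [abs_of_neg (by linarith)] at h7
        constructor <;> linarith
  have hint : ∀ (n : ℤ) (x : ℝ), 0 < x → x < 1 → ∀ c : ℤ, (n : ℝ) + x ≠ c := by
    intro n x h1 h2 c hc
    have h3 : (n : ℝ) < c := by linarith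
    have h4 : (c : ℝ) < ((n + 1 : ℤ) : ℝ) := by push_cast; linarith
    have h5 : n < c := by exact_mod_cast h3
    have h6 : c < n + 1 := by exact_mod_cast h4
    omega
  have hai : ∀ m : ℤ, ∀ c : ℤ, a m ≠ c := by
    intro m c
    by_cases hm : m = 0 ∨ m = -1
    · simp only [ha, if_pos hm]
      have := hint (-1) ε' he0 (by linarith) c
      push_cast at this
      exact this
    · simp only [ha, if_neg hm]
      exact hint m ε' he0 (by linarith) c
  have hbi : ∀ m : ℤ, ∀ c : ℤ, b m ≠ c := by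
    intro m c
    by_cases hm : m = 0 ∨ m = -1
    · simp only [hb, if_pos hm]
      have := hint 0 (1 - ε') (by linarith) (by linarith) c
      push_cast at this
      rw [zero_add] at this
      exact this
    · simp only [hb, if_neg hm]
      have := hint m (1 - ε') (by linarith) (by linarith) c
      intro h
      apply this
      rw [← h]
      ring
  have hIV : ∀ m : ℤ, (IV (fun _ : Fin 1 => a m) (fun _ : Fin 1 => b m)).ncard = 0 := by
    intro m
    have he : IV (fun _ : Fin 1 => a m) (fun _ : Fin 1 => b m) = ∅ := by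
      rw [Set.eq_empty_iff_forall_notMem]
      rintro x ⟨-, hx⟩
      obtain ⟨x0, x1, x2⟩ := hx 0
      by_cases hm : m = 0 ∨ m = -1
      · simp only [ha, hb, if_pos hm] at x1 x2
        have y1 : ((-1 : ℤ) : ℝ) < x 0 := by push_cast; linarith
        have y2 : (x 0 : ℝ) < ((1 : ℤ) : ℝ) := by push_cast; linarith
        have y3 : -1 < x 0 := by exact_mod_cast y1
        have y4 : x 0 < 1 := by exact_mod_cast y2
        omega
      · simp only [ha, hb, if_neg hm] at x1 x2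
        have y1 : (m : ℝ) < x 0 := by linarith
        have y2 : (x 0 : ℝ) < ((m + 1 : ℤ) : ℝ) := by push_cast; linarith
        have y3 : m < x 0 := by exact_mod_cast y1
        have y4 : x 0 < m + 1 := by exact_mod_cast y2
        omega
    rw [he, Set.ncard_empty]
  obtain ⟨C, T0, hC, hT0, hle⟩ := nh_leU hA
  obtain ⟨c, T1, hc, hT1, hge⟩ := nh_geU hA
  set η : ℝ := κ / (C * (J.card + 1)) with hη
  have hη0 : 0 < η := by positivity
  have hall : ∀ᶠ T : ℝ in atTop, ∀ m ∈ J, TH (t T) T (fun _ : Fin 1 => a m) (fun _ => b m) ≤ η * NH (t T) T := by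
    rw [Finset.eventually_all]
    intro m _
    have h1 := ht_latticeKS hA hA' ht2 (k := 1) (α := fun _ => a m) (β := fun _ => b m)
      (fun _ => hai m) (fun _ => hbi m)
    rw [hIV m, Nat.cast_zero] at h1
    have hN : ∀ᶠ T in atTop, 0 < NH (t T) T := by
      filter_upwards [hA', ht0, eventually_ge_atTop T1] with T g1 g2 g3
      refine lt_of_lt_of_le ?_ (hge T (t T) g3 g2.le g1)
      have hT : 1 < T := by linarith
      have := Real.log_pos hT
      positivity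
    filter_upwards [near_of hη0 hN h1] with T g1
    rw [zero_mul, sub_zero] at g1
    exact (le_abs_self _).trans g1
  filter_upwards [hall, hA', ht0, eventually_ge_atTop T0] with T g1 g2 g3 g4
  have hT : 1 < T := by linarith
  have hX : 0 < T * Real.log T := mul_pos (by linarith) (Real.log_pos hT)
  have hf : {p | p ∈ Zi (Ht (t T)) ∧ 0 < (fun z : ℂ => z.re / 2) p.1 ∧ (fun z : ℂ => z.re / 2) p.1 ≤ T}.Finite :=
    nh_fin g3.le T
  have e1 : ((OP (Zi (Ht (t T))) (fun z => z.re / 2) T (CK NI K ε)).ncard : ℝ) ≤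
      ∑ m ∈ J, TH (t T) T (fun _ : Fin 1 => a m) (fun _ => b m) := by
    have e0 := op_le (Z := Zi (Ht (t T))) (h := fun z : ℂ => z.re / 2) (T := T) hf J a b hcov
    unfold TH
    exact_mod_cast e0
  have e2 := Finset.sum_le_sum g1
  rw [Finset.sum_const, nsmul_eq_mul] at e2
  refine e1.trans (e2.trans ?_)
  have e3 := hle T (t T) g4 g3.le g2
  have e4 : (J.card : ℝ) * (η * NH (t T) T) ≤ ((J.card : ℝ) + 1) * (η * (C * (T * Real.log T))) := by
    refine mul_le_mul (by linarith) (mul_le_mul_of_nonneg_left e3 hη0.le) ?_ (by positivity)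
    have : 0 ≤ NH (t T) T := Nat.cast_nonneg _
    positivity
  refine e4.trans (le_of_eq ?_)
  rw [hη]
  field_simp

end Run7.h422.PP
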