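import Pool.Agent.Run7.h422.PP.AH

/-!
# From consecutive zeros to all pairs
-/

set_option autoImplicit false

namespace Run7.h422.PP

open Complex Filter Topology Set
open Pool.Agent.H986R2.DBN (XT Ht)
open Pool.Agent.R838.ST (Tuples ZetaZ)

/-- the zeros strictly between -/
def Bt (Z : Set (ℂ × ℕ)) (y x : ℂ × ℕ) : Set (ℂ × ℕ) := {z | z ∈ Z ∧ y.1.im < z.1.im ∧ z.1.im < x.1.im}

/-- the normalised spacing -/
noncomputable def sp (x y : ℂ × ℕ) : ℝ :=
  (x.1.im * Real.log x.1.im - y.1.im * Real.log y.1.im) / (2 * Real.pi)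

/-- consecutive zeros above `Y` have normalised spacings near positive half-integers -/
def AHat (Z : Set (ℂ × ℕ)) (ε Y : ℝ) : Prop := ∀ x ∈ Z, ∀ y ∈ Z, x ≠ y → Y ≤ y.1.im → y.1.im ≤ x.1.im →
  (∀ z ∈ Z, ¬ (y.1.im < z.1.im ∧ z.1.im < x.1.im)) → ∃ m : ℕ, 1 ≤ m ∧ |sp x y - m / 2| ≤ ε

variable {Z : Set (ℂ × ℕ)} {ε Y : ℝ}

lemma no_same (hε : ε < 1 / 2) (h : AHat Z ε Y) {x y : ℂ × ℕ} (hx : x ∈ Z) (hy : y ∈ Z) (hxy : x ≠ y)
    (hY : Y ≤ y.1.im) (he : x.1.im = y.1.im) : False := by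
  obtain ⟨m, hm, h1⟩ := h x hx y hy hxy hY he.ge (fun z _ hz => by linarith [hz.1, hz.2])
  have h2 : sp x y = 0 := by
    unfold sp
    rw [he, sub_self, zero_div]
  rw [h2, zero_sub, abs_neg, abs_of_nonneg (by positivity)] at h1
  have h3 : (1 : ℝ) ≤ m := by exact_mod_cast hm
  linarith

lemma sp_add (x z y : ℂ × ℕ) : sp x y = sp x z + sp z y := by
  unfold sp
  ring

lemma chain (hf : ∀ u v : ℝ, {p | p ∈ Z ∧ u ≤ p.1.im ∧ p.1.im ≤ v}.Finite) (hε : ε < 1 / 2)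
    (h : AHat Z ε Y) : ∀ (n : ℕ) (x y : ℂ × ℕ), x ∈ Z → y ∈ Z → x ≠ y → Y ≤ y.1.im → y.1.im ≤ x.1.im →
    (Bt Z y x).ncard = n →
    (∃ m : ℕ, 1 ≤ m ∧ |sp x y - m / 2| ≤ (n + 1) * ε) ∧ (n + 1) * (1 / 2 - ε) ≤ sp x y := by
  have hbf : ∀ x y : ℂ × ℕ, (Bt Z y x).Finite := fun x y =>
    (hf y.1.im x.1.im).subset fun z hz => ⟨hz.1, hz.2.1.le, hz.2.2.le⟩
  intro n
  induction n with
  | zero =>
    intro x y hx hy hxy hY hle hn
    have h1 : Bt Z y x = ∅ := (Set.ncard_eq_zero (hbf x y)).1 hn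
    obtain ⟨m, hm, h2⟩ := h x hx y hy hxy hY hle (fun z hz hz2 => by
      have : z ∈ Bt Z y x := ⟨hz, hz2⟩
      rw [h1] at this
      exact this)
    have h3 : (1 : ℝ) ≤ m := by exact_mod_cast hm
    push_cast
    refine ⟨⟨m, hm, by linarith⟩, ?_⟩
    have := (abs_le.1 h2).1
    linarith
  | succ n ih =>
    intro x y hx hy hxy hY hle hn
    have hne : (Bt Z y x).Nonempty := by
      rw [Set.nonempty_iff_ne_empty]
      intro h1
      rw [h1, Set.ncard_empty] at hn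
      omega
    obtain ⟨z, hz, hmax⟩ := Set.exists_max_image (Bt Z y x) (fun z => z.1.im) (hbf x y) hne
    obtain ⟨hz1, hz2, hz3⟩ := hz
    have hxz : x ≠ z := by
      rintro rfl
      exact lt_irrefl _ hz3
    have hzy : z ≠ y := by
      rintro rfl
      exact lt_irrefl _ hz2
    have hYz : Y ≤ z.1.im := by linarith
    obtain ⟨m1, hm1, g1⟩ := h x hx z hz1 hxz hYz hz3.le (fun w hw hw2 => by
      have h4 := hmax w ⟨hw, hz2.trans hw2.1, hw2.2⟩
      exact absurd hw2.1 (not_lt.2 h4))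
    have hins : Bt Z y x = insert z (Bt Z y z) := by
      ext w
      constructor
      · intro hw
        rcases (hmax w hw).lt_or_eq with h4 | h4
        · exact Or.inr ⟨hw.1, hw.2.1, h4⟩
        · left
          by_contra hwz
          exact no_same hε h hw.1 hz1 hwz hYz h4
      · rintro (rfl | hw)
        · exact ⟨hz1, hz2, hz3⟩
        · exact ⟨hw.1, hw.2.1, hw.2.2.trans hz3⟩
    have hcard : (Bt Z y z).ncard = n := by
      rw [hins, Set.ncard_insert_of_notMem (fun h4 => lt_irrefl _ h4.2.2) (hbf z y)] at hn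
      omega
    obtain ⟨⟨m2, hm2, g2⟩, g3⟩ := ih z y hz1 hy hzy hY hz2.le hcard
    have h3 : (1 : ℝ) ≤ m1 := by exact_mod_cast hm1
    rw [sp_add x z y]
    have g4 := abs_le.1 g1
    have g5 := abs_le.1 g2
    refine ⟨⟨m1 + m2, by omega, ?_⟩, ?_⟩
    · push_cast
      rw [abs_le]
      constructor <;> linarith [g4.1, g4.2, g5.1, g5.2]
    · push_cast
      linarith [g4.1]

lemma up_count (hf : ∀ u v : ℝ, {p | p ∈ Z ∧ u ≤ p.1.im ∧ p.1.im ≤ v}.Finite) (hε : ε < 1 / 2)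
    (h : AHat Z ε Y) {y : ℂ × ℕ} (hy : y ∈ Z) (hY : Y ≤ y.1.im) {v B : ℝ} (hB0 : 0 ≤ B)
    (hB : ∀ x ∈ Z, x ≠ y → y.1.im ≤ x.1.im → x.1.im ≤ v → sp x y ≤ B) :
    ({x | x ∈ Z ∧ x ≠ y ∧ y.1.im ≤ x.1.im ∧ x.1.im ≤ v}.ncard : ℝ) * (1 / 2 - ε) ≤ B := by
  set U : Set (ℂ × ℕ) := {x | x ∈ Z ∧ x ≠ y ∧ y.1.im ≤ x.1.im ∧ x.1.im ≤ v} with hU
  have hUf : U.Finite := (hf y.1.im v).subset fun x hx => ⟨hx.1, hx.2.2.1, hx.2.2.2⟩
  rcases U.eq_empty_or_nonempty with hUe | hUn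
  · rw [hUe, Set.ncard_empty, Nat.cast_zero, zero_mul]
    exact hB0
  · obtain ⟨x, hx, hmax⟩ := Set.exists_max_image U (fun z => z.1.im) hUf hUn
    have hbf : (Bt Z y x).Finite := (hf y.1.im x.1.im).subset fun z hz => ⟨hz.1, hz.2.1.le, hz.2.2.le⟩
    have hsub : U ⊆ insert x (Bt Z y x) := by
      intro w hw
      by_cases hwx : w = x
      · exact Or.inl hwx
      · right
        refine ⟨hw.1, lt_of_le_of_ne hw.2.2.1 fun h1 => ?_, lt_of_le_of_ne (hmax w hw) fun h1 => ?_⟩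
        · exact no_same hε h hw.1 hy hw.2.1 hY h1.symm
        · exact no_same hε h hw.1 hx.1 hwx (hY.trans hx.2.2.1) h1
    have h1 : U.ncard ≤ (Bt Z y x).ncard + 1 :=
      (Set.ncard_le_ncard hsub (hbf.insert x)).trans (Set.ncard_insert_le _ _)
    have h2 := (chain hf hε h _ x y hx.1 hy hx.2.1 hY hx.2.2.1 rfl).2
    have h3 : (U.ncard : ℝ) ≤ (Bt Z y x).ncard + 1 := by exact_mod_cast h1
    have h4 := hB x hx.1 hx.2.1 hx.2.2.1 hx.2.2.2
    have h5 : (U.ncard : ℝ) * (1 / 2 - ε) ≤ ((Bt Z y x).ncard + 1) * (1 / 2 - ε) :=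
      mul_le_mul_of_nonneg_right h3 (by linarith)
    linarith

lemma ulog_le {u v : ℝ} (hv : 0 < v) (huv : v ≤ u) :
    u * Real.log u - v * Real.log v ≤ (u - v) * (Real.log u + 1) := by
  have hu : 0 < u := lt_of_lt_of_le hv huv
  have h1 : Real.log (u / v) ≤ u / v - 1 := Real.log_le_sub_one_of_pos (by positivity)
  rw [Real.log_div hu.ne' hv.ne'] at h1
  have h2 : v * (Real.log u - Real.log v) ≤ v * (u / v - 1) := mul_le_mul_of_nonneg_left h1 hv.le
  have h3 : v * (u / v - 1) = u - v := by field_simp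
  linarith

lemma le_ulog {u v : ℝ} (hv : 0 < v) (huv : v ≤ u) :
    (u - v) * (Real.log v + 1) ≤ u * Real.log u - v * Real.log v := by
  have hu : 0 < u := lt_of_lt_of_le hv huv
  have h1 : Real.log (v / u) ≤ v / u - 1 := Real.log_le_sub_one_of_pos (by positivity)
  rw [Real.log_div hv.ne' hu.ne'] at h1
  have h2 : u * (Real.log v - Real.log u) ≤ u * (v / u - 1) := mul_le_mul_of_nonneg_left h1 hu.le
  have h3 : u * (v / u - 1) = v - u := by field_simp
  linarith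

/-- the nonzero half-integers -/
def HI : Set ℝ := {x | ∃ m : ℤ, m ≠ 0 ∧ x = m / 2}

lemma hi_dist {D ε : ℝ} {m : ℕ} (hm : 1 ≤ m) (h : |(|D|) - m / 2| ≤ ε) : Metric.infDist D HI ≤ ε := by
  rcases le_or_gt 0 D with hD | hD
  · rw [abs_of_nonneg hD] at h
    refine (Metric.infDist_le_dist_of_mem (show (m : ℝ) / 2 ∈ HI from ⟨m, by omega, by push_cast; rfl⟩)).trans ?_
    rw [Real.dist_eq]
    exact h
  · rw [abs_of_neg hD] at h
    refine (Metric.infDist_le_dist_of_mem (show -((m : ℝ) / 2) ∈ HI from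
      ⟨-m, by omega, by push_cast; ring⟩)).trans ?_
    rw [Real.dist_eq, ← abs_neg]
    have e : -(D - -((m : ℝ) / 2)) = -D - m / 2 := by ring
    rw [e]
    exact h

lemma AHat.mono {Y' : ℝ} (h : AHat Z ε Y) (hY : Y ≤ Y') : AHat Z ε Y' :=
  fun x hx y hy hxy h1 => h x hx y hy hxy (hY.trans h1)

/-- comparison of the two normalisations -/
lemma sp_near {x y : ℂ × ℕ} {T M K : ℝ} (hM : 1 ≤ M) (hT : 1 < T) (hy1 : 0 < y.1.im) (hyM : T / M ≤ y.1.im)
    (hle : y.1.im ≤ x.1.im) (hxT : x.1.im ≤ T)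
    (hK : (x.1.im - y.1.im) * (Real.log T / (2 * Real.pi)) ≤ K) :
    |sp x y - (x.1.im - y.1.im) * (Real.log T / (2 * Real.pi))| ≤ K * (Real.log M + 1) / Real.log T := by
  have hpi := Real.pi_pos
  have hL : 0 < Real.log T := Real.log_pos hT
  have hx1 : 0 < x.1.im := by linarith
  have hlM : 0 ≤ Real.log M := Real.log_nonneg hM
  have h1 := ulog_le hy1 hle
  have h2 := le_ulog hy1 hle
  have h3 : Real.log x.1.im ≤ Real.log T := Real.log_le_log hx1 hxT
  have h4 : Real.log T - Real.log M ≤ Real.log y.1.im := by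
    rw [← Real.log_div (by linarith) (by linarith)]
    exact Real.log_le_log (by positivity) hyM
  have hd : 0 ≤ x.1.im - y.1.im := by linarith
  have hd2 : (x.1.im - y.1.im) / (2 * Real.pi) ≤ K / Real.log T := by
    rw [le_div_iff₀ hL]
    calc (x.1.im - y.1.im) / (2 * Real.pi) * Real.log T =
        (x.1.im - y.1.im) * (Real.log T / (2 * Real.pi)) := by ring
      _ ≤ K := hK
  have hd3 : 0 ≤ (x.1.im - y.1.im) / (2 * Real.pi) := by positivity
  have e1 : sp x y ≤ (x.1.im - y.1.im) * (Real.log T / (2 * Real.pi)) + (x.1.im - y.1.im) / (2 * Real.pi) := by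
    unfold sp
    rw [div_le_iff₀ (by positivity)]
    have e : ((x.1.im - y.1.im) * (Real.log T / (2 * Real.pi)) + (x.1.im - y.1.im) / (2 * Real.pi)) *
        (2 * Real.pi) = (x.1.im - y.1.im) * (Real.log T + 1) := by field_simp
    rw [e]
    exact h1.trans (mul_le_mul_of_nonneg_left (by linarith) hd)
  have e2 : (x.1.im - y.1.im) * (Real.log T / (2 * Real.pi)) -
      (x.1.im - y.1.im) / (2 * Real.pi) * Real.log M ≤ sp x y := by
    unfold sp
    rw [le_div_iff₀ (by positivity)]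
    have e : ((x.1.im - y.1.im) * (Real.log T / (2 * Real.pi)) -
        (x.1.im - y.1.im) / (2 * Real.pi) * Real.log M) *
        (2 * Real.pi) = (x.1.im - y.1.im) * (Real.log T - Real.log M) := by field_simp
    rw [e]
    refine le_trans ?_ h2
    exact mul_le_mul_of_nonneg_left (by linarith) hd
  have e3 : K * (Real.log M + 1) / Real.log T = K / Real.log T * Real.log M + K / Real.log T := by ring
  have e4 : (x.1.im - y.1.im) / (2 * Real.pi) * Real.log M ≤ K / Real.log T * Real.log M :=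
    mul_le_mul_of_nonneg_right hd2 hlM
  have e5 : 0 ≤ K / Real.log T := hd3.trans hd2
  have e6 : 0 ≤ K / Real.log T * Real.log M := mul_nonneg e5 hlM
  rw [e3, abs_le]
  constructor <;> linarith

/-- **the hypothesis on consecutive zeros implies the hypothesis on all pairs** -/
theorem ah_hyp (hf : ∀ u v : ℝ, {p | p ∈ Z ∧ u ≤ p.1.im ∧ p.1.im ≤ v}.Finite)
    (hN : ∃ C T0 : ℝ, 0 < C ∧ 2 ≤ T0 ∧ ∀ T : ℝ, T0 ≤ T →
      ({p | p ∈ Z ∧ 0 < p.1.im ∧ p.1.im ≤ T}.ncard : ℝ) ≤ C * (T * Real.log T))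
    (hAH : ∀ ε : ℝ, 0 < ε → ∃ Y : ℝ, AHat Z ε Y) {K ε κ : ℝ} (hK : 0 < K) (hε : 0 < ε) (hκ : 0 < κ) :
    ∀ᶠ T : ℝ in atTop, ((OP Z (fun z => z.im) T (CK HI K ε)).ncard : ℝ) ≤ κ * (T * Real.log T) := by
  classical
  have hpi := Real.pi_pos
  obtain ⟨C, T1, hC, hT1, hN⟩ := hN
  obtain ⟨ε0, h00, h01, h02⟩ : ∃ ε0 : ℝ, 0 < ε0 ∧ ε0 ≤ 1 / 4 ∧ 4 * (K + 1) * ε0 ≤ ε / 4 := by
    refine ⟨min (1 / 4) (ε / (16 * (K + 1))), lt_min (by norm_num) (by positivity), min_le_left _ _, ?_⟩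
    calc 4 * (K + 1) * min (1 / 4) (ε / (16 * (K + 1))) ≤ 4 * (K + 1) * (ε / (16 * (K + 1))) :=
          mul_le_mul_of_nonneg_left (min_le_right _ _) (by positivity)
      _ = ε / 4 := by field_simp; ring
  obtain ⟨Y0, hY0⟩ := hAH ε0 h00
  obtain ⟨Y, hY1, hAHY⟩ : ∃ Y : ℝ, 1 ≤ Y ∧ AHat Z ε0 Y := ⟨max Y0 1, le_max_right _ _, hY0.mono (le_max_left _ _)⟩
  have hlt : ε0 < 1 / 2 := by linarith
  obtain ⟨M, hM2, hMK⟩ : ∃ M : ℝ, 2 ≤ M ∧ 16 * (K + 1) * C ≤ κ * M := by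
    refine ⟨max 2 (16 * (K + 1) * C / κ), le_max_left _ _, ?_⟩
    calc 16 * (K + 1) * C = κ * (16 * (K + 1) * C / κ) := by field_simp
      _ ≤ κ * max 2 (16 * (K + 1) * C / κ) := mul_le_mul_of_nonneg_left (le_max_right _ _) hκ.le
  have hM0 : 0 < M := by linarith
  set F : Set (ℂ × ℕ) := {p | p ∈ Z ∧ 0 ≤ p.1.im ∧ p.1.im ≤ Y + 1} with hF
  have hFf : F.Finite := hf 0 (Y + 1)
  have hXX : Tendsto (fun T : ℝ => T * Real.log T) atTop atTop :=
    tendsto_id.atTop_mul_atTop₀ Real.tendsto_log_atTop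
  have hlogM : 0 ≤ Real.log M := Real.log_nonneg (by linarith)
  filter_upwards [eventually_ge_atTop (M * T1), eventually_ge_atTop (M * Y), eventually_gt_atTop (2 : ℝ),
    Real.tendsto_log_atTop.eventually_ge_atTop (K * (Real.log M + 1)),
    Real.tendsto_log_atTop.eventually_ge_atTop (K * (Real.log M + 1) / (ε / 4)),
    Real.tendsto_log_atTop.eventually_ge_atTop (2 * Real.pi * K),
    hXX.eventually_ge_atTop ((F.ncard : ℝ) * F.ncard / (κ / 2))] with T g1 g2 g3 g4 g5 g6 g7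
  have hT0 : 0 < T := by linarith
  have hL : 0 < Real.log T := Real.log_pos (by linarith)
  have hTM1 : T1 ≤ T / M := by rw [le_div_iff₀ hM0]; linarith
  have hTMY : Y ≤ T / M := by rw [le_div_iff₀ hM0]; linarith
  have hTM2 : T / M ≤ T / 2 := div_le_div_of_nonneg_left hT0.le (by norm_num) hM2
  set w : ℝ := 2 * Real.pi * K / Real.log T with hw
  have hw1 : w ≤ 1 := by rw [hw, div_le_one hL]; exact g6
  have hw0 : 0 < w := by positivity
  have hwK : w * (Real.log T / (2 * Real.pi)) = K := by rw [hw]; field_simp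
  have he1 : K * (Real.log M + 1) / Real.log T ≤ 1 := by rw [div_le_one hL]; exact g4
  have he2 : K * (Real.log M + 1) / Real.log T ≤ ε / 4 := by
    rw [div_le_iff₀ (by positivity)] at g5
    rw [div_le_iff₀ hL]
    linarith
  have hwd : ∀ d : ℝ, d * (Real.log T / (2 * Real.pi)) ≤ K → d ≤ w := by
    intro d hd
    rw [← hwK] at hd
    exact le_of_mul_le_mul_right hd (by positivity)
  -- one side
  have side : ∀ x ∈ Z, ∀ y ∈ Z, x ≠ y → 0 < y.1.im → y.1.im ≤ x.1.im → x.1.im ≤ T →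
      (x.1.im - y.1.im) * (Real.log T / (2 * Real.pi)) ≤ K →
      (∀ m : ℕ, 1 ≤ m → ε / 2 < |(x.1.im - y.1.im) * (Real.log T / (2 * Real.pi)) - m / 2|) →
      (Y ≤ y.1.im ∧ y.1.im ≤ T / M ∧ x ∈ {x | x ∈ Z ∧ x ≠ y ∧ y.1.im ≤ x.1.im ∧ x.1.im ≤ y.1.im + w}) ∨
        (x ∈ F ∧ y ∈ F) := by
    intro x hx y hy hxy hy0 hle hxT hD hfar
    have hd := hwd _ hD
    rcases lt_or_ge y.1.im Y with h1 | h1
    · right
      exact ⟨⟨hx, by linarith, by linarith⟩, ⟨hy, hy0.le, by linarith⟩⟩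
    · rcases le_or_gt y.1.im (T / M) with h2 | h2
      · left
        exact ⟨h1, h2, hx, hxy, hle, by linarith⟩
      · exfalso
        have h3 := sp_near (M := M) (by linarith) (by linarith) hy0 h2.le hle hxT hD
        obtain ⟨⟨m, hm, h4⟩, h5⟩ := chain hf hlt hAHY _ x y hx hy hxy h1 hle rfl
        have h6 := abs_le.1 h3
        set n : ℝ := ((Bt Z y x).ncard : ℝ) + 1 with hn
        have hn0 : 0 < n := by positivity
        have h7 : n * (1 / 4) ≤ K + 1 := by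
          have : n * (1 / 4) ≤ n * (1 / 2 - ε0) := mul_le_mul_of_nonneg_left (by linarith) hn0.le
          linarith [h6.2]
        have h8 : n * ε0 ≤ ε / 4 := by
          refine le_trans ?_ h02
          exact mul_le_mul_of_nonneg_right (by linarith) h00.le
        have h9 := hfar m hm
        have h10 := abs_le.1 h4
        have h11 : |(x.1.im - y.1.im) * (Real.log T / (2 * Real.pi)) - m / 2| ≤ ε / 2 := by
          rw [abs_le]
          constructor <;> linarith [h6.1, h6.2, h10.1, h10.2]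
        linarith
  set L : Set (ℂ × ℕ) := {y | y ∈ Z ∧ Y ≤ y.1.im ∧ y.1.im ≤ T / M} with hLdef
  have hLf : L.Finite := hf Y (T / M)
  set U : ℂ × ℕ → Set (ℂ × ℕ) := fun y => {x | x ∈ Z ∧ x ≠ y ∧ y.1.im ≤ x.1.im ∧ x.1.im ≤ y.1.im + w} with hU
  have hUf : ∀ y, (U y).Finite := fun y => (hf y.1.im (y.1.im + w)).subset fun x hx => ⟨hx.1, hx.2.2.1, hx.2.2.2⟩
  have hsub : OP Z (fun z => z.im) T (CK HI K ε) ⊆
      (⋃ y ∈ hLf.toFinset, (U y ×ˢ {y}) ∪ ({y} ×ˢ U y)) ∪ F ×ˢ F := by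
    rintro ⟨p, q⟩ ⟨⟨hp, hp0, hpT⟩, ⟨hq, hq0, hqT⟩, hpq, hD1, hD2⟩
    simp only at hp hp0 hpT hq hq0 hqT hpq hD1 hD2
    have hfar : ∀ m : ℕ, 1 ≤ m → ε / 2 < |(|(p.1.im - q.1.im) * (Real.log T / (2 * Real.pi))|) - m / 2| := by
      intro m hm
      by_contra hcon
      push Not at hcon
      have := hi_dist hm hcon
      linarith
    have hc0 : 0 < Real.log T / (2 * Real.pi) := by positivity
    rcases le_total q.1.im p.1.im with hle | hle
    · have e : |(p.1.im - q.1.im) * (Real.log T / (2 * Real.pi))| =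
          (p.1.im - q.1.im) * (Real.log T / (2 * Real.pi)) := abs_of_nonneg (mul_nonneg (by linarith) hc0.le)
      rw [e] at hD1 hfar
      rcases side p hp q hq hpq hq0 hle hpT hD1 hfar with ⟨h1, h2, h3⟩ | ⟨h1, h2⟩
      · left
        rw [Set.mem_iUnion₂]
        exact ⟨q, hLf.mem_toFinset.2 ⟨hq, h1, h2⟩, Or.inl ⟨h3, rfl⟩⟩
      · right
        exact ⟨h1, h2⟩
    · have e : |(p.1.im - q.1.im) * (Real.log T / (2 * Real.pi))| =
          (q.1.im - p.1.im) * (Real.log T / (2 * Real.pi)) := by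
        rw [abs_of_nonpos (mul_nonpos_of_nonpos_of_nonneg (by linarith) hc0.le)]
        ring
      rw [e] at hD1 hfar
      rcases side q hq p hp (Ne.symm hpq) hp0 hle hqT hD1 hfar with ⟨h1, h2, h3⟩ | ⟨h1, h2⟩
      · left
        rw [Set.mem_iUnion₂]
        exact ⟨p, hLf.mem_toFinset.2 ⟨hp, h1, h2⟩, Or.inr ⟨rfl, h3⟩⟩
      · right
        exact ⟨h2, h1⟩
  have hcU : ∀ y ∈ L, ((U y).ncard : ℝ) ≤ 4 * (K + 1) := by
    rintro y ⟨hy, hy1, hy2⟩
    have hy0 : 0 < y.1.im := by linarith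
    have h1 := up_count hf hlt hAHY hy hy1 (v := y.1.im + w) (B := K + 1) (by positivity) (by
      intro x hx _ hle hxv
      have h2 := ulog_le hy0 hle
      have hx0 : 0 < x.1.im := by linarith
      have hxT : x.1.im ≤ T := by linarith
      have h3 : Real.log x.1.im ≤ Real.log T := Real.log_le_log hx0 hxT
      unfold sp
      rw [div_le_iff₀ (by positivity)]
      have h4 : (x.1.im - y.1.im) * (Real.log x.1.im + 1) ≤ w * (Real.log T + 1) :=
        mul_le_mul (by linarith) (by linarith) (by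
          have : 0 ≤ Real.log x.1.im := Real.log_nonneg (by linarith)
          linarith) hw0.le
      have h5 : w * Real.log T = 2 * Real.pi * K := by rw [hw]; field_simp
      have h6 : w ≤ 2 * Real.pi := by linarith [Real.pi_gt_three]
      linarith)
    have h2 : ((U y).ncard : ℝ) * (1 / 4) ≤ ((U y).ncard : ℝ) * (1 / 2 - ε0) :=
      mul_le_mul_of_nonneg_left (by linarith) (Nat.cast_nonneg _)
    have h3 : ((U y).ncard : ℝ) * (1 / 2 - ε0) ≤ K + 1 := h1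
    linarith
  have hAf : ∀ y, ((U y ×ˢ {y}) ∪ ({y} ×ˢ U y) : Set ((ℂ × ℕ) × (ℂ × ℕ))).Finite := fun y =>
    ((hUf y).prod (Set.finite_singleton y)).union ((Set.finite_singleton y).prod (hUf y))
  have k1 : (OP Z (fun z => z.im) T (CK HI K ε)).ncard ≤
      (∑ y ∈ hLf.toFinset, ((U y ×ˢ {y}) ∪ ({y} ×ˢ U y) : Set ((ℂ × ℕ) × (ℂ × ℕ))).ncard) + F.ncard * F.ncard := by
    refine (Set.ncard_le_ncard hsub ((Set.Finite.biUnion (Finset.finite_toSet _) fun y _ => hAf y).union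
      (hFf.prod hFf))).trans ((Set.ncard_union_le _ _).trans ?_)
    exact add_le_add (Finset.set_ncard_biUnion_le _ _) (Set.ncard_prod).le
  have k2 : ∀ y ∈ hLf.toFinset, (((U y ×ˢ {y}) ∪ ({y} ×ˢ U y) : Set ((ℂ × ℕ) × (ℂ × ℕ))).ncard : ℝ) ≤
      8 * (K + 1) := by
    intro y hy
    have h1 := hcU y (hLf.mem_toFinset.1 hy)
    have h2 : ((U y ×ˢ {y}) ∪ ({y} ×ˢ U y) : Set ((ℂ × ℕ) × (ℂ × ℕ))).ncard ≤ (U y).ncard + (U y).ncard := by
      refine (Set.ncard_union_le _ _).trans ?_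
      rw [Set.ncard_prod, Set.ncard_prod, Set.ncard_singleton, mul_one, one_mul]
    have h3 : (((U y ×ˢ {y}) ∪ ({y} ×ˢ U y) : Set ((ℂ × ℕ) × (ℂ × ℕ))).ncard : ℝ) ≤
        (U y).ncard + (U y).ncard := by exact_mod_cast h2
    linarith
  have k3 := Finset.sum_le_sum k2
  rw [Finset.sum_const, nsmul_eq_mul] at k3
  have k4 : (hLf.toFinset.card : ℝ) ≤ C * (T / M * Real.log T) := by
    rw [← Set.ncard_eq_toFinset_card L hLf]
    have h1 : L.ncard ≤ {p | p ∈ Z ∧ 0 < p.1.im ∧ p.1.im ≤ T / M}.ncard :=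
      Set.ncard_le_ncard (fun y hy => ⟨hy.1, by linarith [hy.2.1], hy.2.2⟩)
        ((hf 0 (T / M)).subset fun p hp => ⟨hp.1, hp.2.1.le, hp.2.2⟩)
    have h2 : (L.ncard : ℝ) ≤ ({p | p ∈ Z ∧ 0 < p.1.im ∧ p.1.im ≤ T / M}.ncard : ℝ) := by exact_mod_cast h1
    refine h2.trans ((hN (T / M) hTM1).trans ?_)
    refine mul_le_mul_of_nonneg_left ?_ hC.le
    refine mul_le_mul_of_nonneg_left ?_ (by positivity)
    exact Real.log_le_log (by positivity) (div_le_self hT0.le (by linarith))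
  have k5 : ((OP Z (fun z => z.im) T (CK HI K ε)).ncard : ℝ) ≤
      (∑ y ∈ hLf.toFinset, (((U y ×ˢ {y}) ∪ ({y} ×ˢ U y) : Set ((ℂ × ℕ) × (ℂ × ℕ))).ncard : ℝ)) +
        (F.ncard : ℝ) * F.ncard := by exact_mod_cast k1
  have k6 : (F.ncard : ℝ) * F.ncard ≤ κ / 2 * (T * Real.log T) := by
    rw [div_le_iff₀ (by positivity)] at g7
    linarith
  have k7 : (hLf.toFinset.card : ℝ) * (8 * (K + 1)) ≤ C * (T / M * Real.log T) * (8 * (K + 1)) :=
    mul_le_mul_of_nonneg_right k4 (by positivity)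
  have k8 : C * (T / M * Real.log T) * (8 * (K + 1)) ≤ κ / 2 * (T * Real.log T) := by
    have h1 : C * (T / M * Real.log T) * (8 * (K + 1)) = 16 * (K + 1) * C / M * (T * Real.log T) / 2 := by
      field_simp
      ring
    have h2 : 16 * (K + 1) * C / M ≤ κ := by rw [div_le_iff₀ hM0]; exact hMK
    rw [h1]
    have h3 : 16 * (K + 1) * C / M * (T * Real.log T) ≤ κ * (T * Real.log T) :=
      mul_le_mul_of_nonneg_right h2 (by positivity)
    linarith
  linarith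

end Run7.h422.PP
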