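import Pool.Agent.Run7.h422.PP.Tr

/-!
# Pairs of zeros of a heat flow: asymptotic bounds
-/

set_option autoImplicit false

namespace Run7.h422.PP

open Complex Filter Topology Set

/-- what is used of the heat flow -/
structure Inp (X : ℝ → ℂ → ℂ) : Prop where
  diff : ∀ τ : ℝ, 0 ≤ τ → Differentiable ℂ (X τ)
  fin : ∀ τ : ℝ, 0 ≤ τ → ∀ u v : ℝ, {p : ℂ × ℕ | p ∈ Zi (X τ) ∧ u ≤ p.1.im ∧ p.1.im ≤ v}.Finite
  unit : ∀ A : ℝ, 0 < A → ∃ C T0 : ℝ, 0 < C ∧ 2 ≤ T0 ∧ ∀ T τ t : ℝ, T0 ≤ T → 0 ≤ τ →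
    τ * Real.log T ≤ A → 0 ≤ t → t ≤ T + 2 →
    ({p : ℂ × ℕ | p ∈ Zi (X τ) ∧ |p.1.im - t| ≤ 1}.ncard : ℝ) ≤ C * Real.log T
  irr : ∀ ε A : ℝ, 0 < ε → ∃ c C : ℝ, 0 < c ∧ 0 < C ∧ ∀ T τ : ℝ, 2 ≤ T → 0 < τ → τ ≤ 1 / 8 →
    τ * Real.log T ≤ A → ((Ir (X τ) ε T (2 * T)).ncard : ℝ) ≤
      C * T * Real.log T * Real.exp (-(c * τ * Real.log T ^ 2))
  tot : ∀ A : ℝ, ∃ c T0 : ℝ, 0 < c ∧ 2 ≤ T0 ∧ ∀ T τ : ℝ, T0 ≤ T → 0 ≤ τ → τ ≤ 1 / 8 →
    τ * Real.log T ≤ A → c * (T * Real.log T) ≤ ((NZ (X τ) T).ncard : ℝ)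

variable {X : ℝ → ℂ → ℂ}

/-- irregular zeros, many dyadic blocks -/
theorem Inp.irr_all (hI : Inp X) (ε A : ℝ) (hε : 0 < ε) : ∃ c C : ℝ, 0 < c ∧ 0 < C ∧
    ∀ T τ : ℝ, 2 ≤ T → 0 < τ → τ ≤ 1 / 8 → τ * Real.log T ≤ A → ∀ n : ℕ, 2 ≤ T / 2 ^ n →
    Real.log T / 2 ≤ Real.log (T / 2 ^ n) → ((Ir (X τ) ε (T / 2 ^ n) (2 * T)).ncard : ℝ) ≤
      C * (T * Real.log T) * Real.exp (-(c * (τ * Real.log T ^ 2))) := by
  obtain ⟨c, C, hc, hC, h⟩ := hI.irr ε A hε
  refine ⟨c / 4, 2 * C, by positivity, by positivity, fun T τ hT hτ hτ8 hτA => ?_⟩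
  have hL : 0 < Real.log T := Real.log_pos (by linarith)
  set B : ℝ := C * (T * Real.log T) * Real.exp (-(c / 4 * (τ * Real.log T ^ 2))) with hB
  have hB0 : 0 ≤ B := by rw [hB]; have : 0 < T := by linarith
                         positivity
  have hirf : ∀ u v : ℝ, (Ir (X τ) ε u v).Finite := fun u v =>
    (hI.fin τ hτ.le u v).subset fun p hp => ⟨hp.1, hp.2.1.le, hp.2.2.1⟩
  have hblk : ∀ n : ℕ, 2 ≤ T / 2 ^ n → Real.log T / 2 ≤ Real.log (T / 2 ^ n) →
      ((Ir (X τ) ε (T / 2 ^ n) (2 * (T / 2 ^ n))).ncard : ℝ) ≤ B / 2 ^ n := by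
    intro n hn1 hn2
    have hn0 : (0 : ℝ) < 2 ^ n := by positivity
    have hle : T / 2 ^ n ≤ T := div_le_self (by linarith) (one_le_pow₀ (by norm_num))
    have hlog : Real.log (T / 2 ^ n) ≤ Real.log T := Real.log_le_log (by linarith) hle
    refine (h (T / 2 ^ n) τ hn1 hτ hτ8
      ((mul_le_mul_of_nonneg_left hlog hτ.le).trans hτA)).trans ?_
    have e1 : Real.exp (-(c * τ * Real.log (T / 2 ^ n) ^ 2)) ≤
        Real.exp (-(c / 4 * (τ * Real.log T ^ 2))) := by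
      apply Real.exp_le_exp.2
      have h1 : (Real.log T / 2) ^ 2 ≤ Real.log (T / 2 ^ n) ^ 2 :=
        pow_le_pow_left₀ (by linarith) hn2 2
      have h2 : c * τ * (Real.log T / 2) ^ 2 ≤ c * τ * Real.log (T / 2 ^ n) ^ 2 :=
        mul_le_mul_of_nonneg_left h1 (by positivity)
      have h3 : c * τ * (Real.log T / 2) ^ 2 = c / 4 * (τ * Real.log T ^ 2) := by ring
      linarith
    have hTn : 0 ≤ C * (T / 2 ^ n) := by
      have : 0 < T / 2 ^ n := by linarith
      positivity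
    calc C * (T / 2 ^ n) * Real.log (T / 2 ^ n) * Real.exp (-(c * τ * Real.log (T / 2 ^ n) ^ 2))
        ≤ C * (T / 2 ^ n) * Real.log T * Real.exp (-(c / 4 * (τ * Real.log T ^ 2))) := by
          apply mul_le_mul (mul_le_mul_of_nonneg_left hlog hTn) e1 (Real.exp_pos _).le
          positivity
      _ = B / 2 ^ n := by rw [hB]; ring
  have key : ∀ n : ℕ, 2 ≤ T / 2 ^ n → Real.log T / 2 ≤ Real.log (T / 2 ^ n) →
      ((Ir (X τ) ε (T / 2 ^ n) (2 * T)).ncard : ℝ) ≤ B * (2 - 1 / 2 ^ n) := by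
    intro n
    induction n with
    | zero =>
      intro h1 h2
      have h3 := hblk 0 h1 h2
      simp only [pow_zero, div_one] at h3 ⊢
      linarith
    | succ n ih =>
      intro h1 h2
      have h2n : (0 : ℝ) < 2 ^ n := by positivity
      have e1 : 2 * (T / 2 ^ (n + 1)) = T / 2 ^ n := by rw [pow_succ]; field_simp
      have hge : T / 2 ^ (n + 1) ≤ T / 2 ^ n := by linarith
      have h3 := ih (by linarith) (h2.trans (Real.log_le_log (by linarith) hge))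
      have h4 := hblk (n + 1) h1 h2
      rw [e1] at h4
      have hsub : Ir (X τ) ε (T / 2 ^ (n + 1)) (2 * T) ⊆
          Ir (X τ) ε (T / 2 ^ (n + 1)) (T / 2 ^ n) ∪ Ir (X τ) ε (T / 2 ^ n) (2 * T) := by
        rintro p ⟨q1, q2, q3, q4⟩
        rcases le_or_gt p.1.im (T / 2 ^ n) with h5 | h5
        · exact Or.inl ⟨q1, q2, h5, q4⟩
        · exact Or.inr ⟨q1, h5, q3, q4⟩
      have h5 : (Ir (X τ) ε (T / 2 ^ (n + 1)) (2 * T)).ncard ≤
          (Ir (X τ) ε (T / 2 ^ (n + 1)) (T / 2 ^ n)).ncard +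
          (Ir (X τ) ε (T / 2 ^ n) (2 * T)).ncard :=
        (Set.ncard_le_ncard hsub ((hirf _ _).union (hirf _ _))).trans (Set.ncard_union_le _ _)
      have h6 : ((Ir (X τ) ε (T / 2 ^ (n + 1)) (2 * T)).ncard : ℝ) ≤
          (Ir (X τ) ε (T / 2 ^ (n + 1)) (T / 2 ^ n)).ncard +
          (Ir (X τ) ε (T / 2 ^ n) (2 * T)).ncard := by exact_mod_cast h5
      have e2 : B * (2 - 1 / 2 ^ (n + 1)) = B / 2 ^ (n + 1) + B * (2 - 1 / 2 ^ n) := by
        rw [pow_succ]; field_simp; ring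
      linarith
  intro n hn1 hn2
  have h1 := key n hn1 hn2
  have h2 : B * (2 - 1 / 2 ^ n) ≤ 2 * B := by
    have : 0 ≤ B * (1 / 2 ^ n) := by positivity
    linarith
  calc ((Ir (X τ) ε (T / 2 ^ n) (2 * T)).ncard : ℝ) ≤ 2 * B := h1.trans h2
    _ = _ := by rw [hB]; ring

/-- the data for large `T` -/
theorem Inp.hyp (hI : Inp X) {θ A : ℝ} (hθ : 0 < θ) (hθ1 : θ ≤ 1) (hA : 0 < A) (M : ℕ) :
    ∃ c C K : ℝ, 0 < c ∧ 0 < C ∧ 0 < K ∧ ∀ n : ℕ, ∃ T0 : ℝ, 2 ≤ T0 ∧ ∀ T τ : ℝ, T0 ≤ T → 0 < τ →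
    τ * Real.log T ≤ A → τ ≤ 1 / 8 ∧ (1 - θ / 4) * Real.log T ≤ Real.log (T / 2 ^ n) ∧
    ∀ k : ℕ, 2 ≤ T / 2 ^ k → Real.log T / 2 ≤ Real.log (T / 2 ^ k) →
    Hyp (X τ) T θ (K * Real.log T) (T / 2 ^ k)
      (C * (T * Real.log T) * Real.exp (-(c * (τ * Real.log T ^ 2)))) M := by
  obtain ⟨c, C, hc, hC, hirr⟩ := hI.irr_all (θ / 4) A (by positivity)
  obtain ⟨K, T1, hK, hT1, hun⟩ := hI.unit A hA
  refine ⟨c, C, K, hc, hC, hK, fun n => ⟨max T1 (Real.exp (8 * A + 20 * M + 4 * (n + 1) / θ)),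
    hT1.trans (le_max_left _ _), fun T τ hT hτ hτA => ?_⟩⟩
  have hTT : T1 ≤ T := (le_max_left _ _).trans hT
  have hT0 : 0 < T := by linarith
  have hL : 8 * A + 20 * M + 4 * (n + 1) / θ ≤ Real.log T := by
    rw [Real.le_log_iff_exp_le hT0]
    exact (le_max_right _ _).trans hT
  have hM0 : (0 : ℝ) ≤ M := Nat.cast_nonneg _
  have hn0 : (0 : ℝ) ≤ n := Nat.cast_nonneg _
  have hq : 0 < 4 * ((n : ℝ) + 1) / θ := by positivity
  have hL0 : 0 < Real.log T := by linarith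
  have hl2 : Real.log 2 < 1 := by
    have := Real.log_two_lt_d9
    norm_num at this
    linarith
  have hl20 : 0 < Real.log 2 := Real.log_pos (by norm_num)
  have hτ8 : τ ≤ 1 / 8 := by
    by_contra hcon
    push Not at hcon
    have h3 : 1 / 8 * (8 * A + 4 * ((n : ℝ) + 1) / θ) ≤ τ * Real.log T :=
      mul_le_mul hcon.le (by linarith) (by positivity) hτ.le
    linarith
  have hq2 : 4 * ((n : ℝ) + 1) ≤ θ * Real.log T := by
    have h1 : 4 * ((n : ℝ) + 1) / θ ≤ Real.log T := by linarith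
    rw [div_le_iff₀ hθ] at h1
    linarith
  refine ⟨hτ8, ?_, fun k hk1 hk2 => ?_⟩
  · rw [Real.log_div hT0.ne' (by positivity), Real.log_pow]
    have h1 : (n : ℝ) * Real.log 2 ≤ n * 1 := mul_le_mul_of_nonneg_left hl2.le hn0
    linarith
  · exact
    { diff := hI.diff τ hτ.le
      fin := hI.fin τ hτ.le
      unit := fun t ht1 ht2 => hun T τ t hTT hτ.le hτA ht1 ht2
      irr := hirr T τ (by linarith) hτ hτ8 hτA k hk1 hk2
      th0 := hθ
      th1 := hθ1
      K0 := by positivity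
      u1 := by linarith
      T1 := by linarith
      big := by linarith
      logu := hk2
      log2 := by
        rw [Real.log_mul (by norm_num) hT0.ne']
        nlinarith }

lemma pow_two_gt (x : ℝ) : ∃ n : ℕ, x < 2 ^ n := pow_unbounded_of_one_lt x (by norm_num)

lemma exp_small {τ : ℝ → ℝ} (hτ : Tendsto (fun T => τ T * Real.log T ^ 2) atTop atTop) {c : ℝ}
    (hc : 0 < c) {e : ℝ} (he : 0 < e) :
    ∀ᶠ T in atTop, Real.exp (-(c * (τ T * Real.log T ^ 2))) ≤ e := by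
  have h1 : Tendsto (fun T => Real.exp (-(c * (τ T * Real.log T ^ 2)))) atTop (𝓝 0) :=
    Real.tendsto_exp_atBot.comp (tendsto_neg_atTop_atBot.comp (hτ.const_mul_atTop hc))
  exact h1.eventually (eventually_le_nhds he)

lemma log_block (n : ℕ) : ∀ᶠ T : ℝ in atTop, 2 ≤ T / 2 ^ n ∧
    Real.log T / 2 ≤ Real.log (T / 2 ^ n) := by
  have h2n : (0 : ℝ) < 2 ^ n := by positivity
  filter_upwards [eventually_ge_atTop ((2 : ℝ) * 2 ^ n), eventually_ge_atTop (Real.exp (2 * n)),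
    eventually_gt_atTop (1 : ℝ)] with T h1 h2 h3
  have hT : 0 < T := by linarith
  refine ⟨by rw [le_div_iff₀ h2n]; linarith, ?_⟩
  have h4 : 2 * (n : ℝ) ≤ Real.log T := by rw [Real.le_log_iff_exp_le hT]; exact h2
  rw [Real.log_div hT.ne' h2n.ne', Real.log_pow]
  have hl2 : Real.log 2 < 1 := by
    have := Real.log_two_lt_d9
    norm_num at this
    linarith
  have h5 : (n : ℝ) * Real.log 2 ≤ n * 1 := mul_le_mul_of_nonneg_left hl2.le (Nat.cast_nonneg _)
  linarith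

/-- almost all zeros have a partner at the distance `m` -/
theorem Inp.low (hI : Inp X) {τ : ℝ → ℝ} {A : ℝ} (hA : 0 < A) (h0 : ∀ᶠ T in atTop, 0 < τ T)
    (hτA : ∀ᶠ T in atTop, τ T * Real.log T ≤ A)
    (hτ : Tendsto (fun T => τ T * Real.log T ^ 2) atTop atTop) {θ : ℝ} (hθ : 0 < θ) (hθ1 : θ ≤ 1)
    {M : ℕ} (hM : 1 ≤ M) {P : ℝ → Prop} (J : Finset ℕ)
    (hJ : ∀ j ∈ J, 1 ≤ j ∧ j ≤ M ∧ ∀ D : ℝ, j * (1 - θ) ≤ D → D ≤ j * (1 + θ) → P D)
    {η : ℝ} (hη : 0 < η) :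
    ∀ᶠ T in atTop, (J.card : ℝ) * (((NZ (X (τ T)) T).ncard : ℝ) - η * (T * Real.log T)) ≤
      ((PQ (X (τ T)) T P).ncard : ℝ) := by
  obtain ⟨c, C, K, hc, hC, hK, hyp⟩ := hI.hyp hθ hθ1 hA M
  obtain ⟨n, hn⟩ := pow_two_gt (4 * K / η)
  obtain ⟨T3, hT3, hyp⟩ := hyp n
  have h2n : (0 : ℝ) < 2 ^ n := by positivity
  have hM1 : (1 : ℝ) ≤ M := by exact_mod_cast hM
  filter_upwards [h0, hτA, exp_small hτ hc (e := η / (4 * M * C)) (by positivity), log_block n,
    eventually_ge_atTop T3, eventually_ge_atTop (8 * K / η), eventually_gt_atTop (1 : ℝ)]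
    with T t1 t2 t3 t4 t5 t6 t7
  have hT : 0 < T := by linarith
  have hL : 0 < Real.log T := Real.log_pos t7
  obtain ⟨-, hv, hh⟩ := hyp T (τ T) t5 t1 t2
  have h := (hh n t4.1 t4.2).lower hM hv le_rfl (div_le_self hT.le (one_le_pow₀ (by norm_num))) J hJ
  refine le_trans (mul_le_mul_of_nonneg_left ?_ (Nat.cast_nonneg _)) h
  have hTL : 0 < T * Real.log T := by positivity
  -- first term
  have e1 : K * Real.log T * (T / 2 ^ n + 1) ≤ η / 4 * (T * Real.log T) + K * Real.log T := by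
    have h1 : K / 2 ^ n ≤ η / 4 := by
      rw [div_lt_iff₀ hη] at hn
      rw [div_le_iff₀ h2n]
      linarith
    have h2 : K / 2 ^ n * (T * Real.log T) ≤ η / 4 * (T * Real.log T) :=
      mul_le_mul_of_nonneg_right h1 hTL.le
    calc K * Real.log T * (T / 2 ^ n + 1) = K / 2 ^ n * (T * Real.log T) + K * Real.log T := by ring
      _ ≤ _ := by linarith
  have e2 : K * Real.log T ≤ η / 8 * (T * Real.log T) := by
    have h1 : K ≤ η / 8 * T := by
      rw [div_le_iff₀ hη] at t6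
      linarith
    calc K * Real.log T ≤ η / 8 * T * Real.log T := mul_le_mul_of_nonneg_right h1 hL.le
      _ = _ := by ring
  have e3 : (M : ℝ) * (C * (T * Real.log T) * Real.exp (-(c * (τ T * Real.log T ^ 2)))) ≤
      η / 4 * (T * Real.log T) := by
    have h1 : (M : ℝ) * C * Real.exp (-(c * (τ T * Real.log T ^ 2))) ≤ M * C * (η / (4 * M * C)) :=
      mul_le_mul_of_nonneg_left t3 (by positivity)
    have h2 : (M : ℝ) * C * (η / (4 * M * C)) = η / 4 := by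
      have : (M : ℝ) ≠ 0 := by linarith
      field_simp
    rw [h2] at h1
    calc (M : ℝ) * (C * (T * Real.log T) * Real.exp (-(c * (τ T * Real.log T ^ 2)))) =
        (M * C * Real.exp (-(c * (τ T * Real.log T ^ 2)))) * (T * Real.log T) := by ring
      _ ≤ _ := mul_le_mul_of_nonneg_right h1 hTL.le
  have e4 : 0 < η * (T * Real.log T) := by positivity
  linarith

/-- the number of pairs is not larger, if the time is slightly longer -/
theorem Inp.up (hI : Inp X) {τ : ℝ → ℝ} {A : ℝ} (hA : 0 < A) (h0 : ∀ᶠ T in atTop, 0 < τ T)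
    (hτA : ∀ᶠ T in atTop, τ T * Real.log T ≤ A)
    (hτ : Tendsto (fun T => τ T * Real.log T ^ 2 / Real.log (Real.log T)) atTop atTop)
    {θ : ℝ} (hθ : 0 < θ) (hθ1 : θ ≤ 1) {M : ℕ} (hM : 1 ≤ M) {P : ℝ → Prop} {b : ℝ}
    (hb : b < M * (1 - θ)) (hP : ∀ D, P D → 0 < D ∧ D ≤ b) (J : Finset ℕ)
    (hJ : ∀ j, 1 ≤ j → j ≤ M → ∀ D : ℝ, j * (1 - θ) ≤ D → D ≤ j * (1 + θ) → P D → j ∈ J)
    {η : ℝ} (hη : 0 < η) :
    ∀ᶠ T in atTop, ((PQ (X (τ T)) T P).ncard : ℝ) ≤
      (J.card : ℝ) * ((NZ (X (τ T)) T).ncard : ℝ) + η * (T * Real.log T) := by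
  obtain ⟨c, C, K, hc, hC, hK, hyp⟩ := hI.hyp hθ hθ1 hA M
  obtain ⟨n, hn⟩ := pow_two_gt (4 * M * K / η)
  obtain ⟨T3, hT3, hyp⟩ := hyp n
  have h2n : (0 : ℝ) < 2 ^ n := by positivity
  have hM1 : (1 : ℝ) ≤ M := by exact_mod_cast hM
  have hτ2 := hτ.eventually_ge_atTop (2 / c)
  have hLL : Tendsto (fun T : ℝ => Real.log T) atTop atTop := Real.tendsto_log_atTop
  filter_upwards [h0, hτA, hτ2, log_block n,
    eventually_ge_atTop T3, eventually_ge_atTop (8 * M * K / η), eventually_gt_atTop (1 : ℝ),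
    hLL.eventually_ge_atTop (4 * (M * C * K) / η), hLL.eventually_gt_atTop (Real.exp 1),
    eventually_ge_atTop ((2 * 2 ^ n : ℝ) ^ 2), eventually_ge_atTop ((48 * K ^ 2 / η) ^ 4),
    hLL.eventually_ge_atTop (2 * Real.pi * b)]
    with T t1 t2 t3 t4 t5 t6 t7 t8 t9 t10 t11 t12
  have hT : 0 < T := by linarith
  have hL : 0 < Real.log T := Real.log_pos t7
  have hL1 : 1 < Real.log T := by
    have := Real.add_one_le_exp 1
    linarith
  have hLL0 : 0 < Real.log (Real.log T) := Real.log_pos hL1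
  obtain ⟨-, hv, hh⟩ := hyp T (τ T) t5 t1 t2
  -- the square root
  have hsq : Real.sqrt T * Real.sqrt T = T := Real.mul_self_sqrt hT.le
  have hs1 : 2 * 2 ^ n ≤ Real.sqrt T := Real.le_sqrt_of_sq_le t10
  have h1n : (1 : ℝ) ≤ 2 ^ n := one_le_pow₀ (by norm_num)
  have hs0 : 0 < Real.sqrt T := by linarith
  obtain ⟨k, hk1, hk2⟩ := exists_nat_pow_near (x := Real.sqrt T) (y := (2 : ℝ)) (by linarith)
    (by norm_num)
  have h2k : (0 : ℝ) < 2 ^ k := by positivity
  have hVl : Real.sqrt T ≤ T / 2 ^ k := by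
    rw [le_div_iff₀ h2k]
    calc Real.sqrt T * 2 ^ k ≤ Real.sqrt T * Real.sqrt T := mul_le_mul_of_nonneg_left hk1 hs0.le
      _ = T := hsq
  have hVu : T / 2 ^ k ≤ 2 * Real.sqrt T := by
    rw [div_le_iff₀ h2k]
    rw [pow_succ] at hk2
    have h1 := mul_le_mul_of_nonneg_left hk2.le hs0.le
    rw [hsq] at h1
    linarith
  have hlogk : Real.log T / 2 ≤ Real.log (T / 2 ^ k) := by
    have h1 : Real.log (Real.sqrt T) = Real.log T / 2 := Real.log_sqrt hT.le
    rw [← h1]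
    exact Real.log_le_log hs0 hVl
  have hkn : T / 2 ^ k ≤ T / 2 ^ n := by
    refine hVu.trans ?_
    rw [le_div_iff₀ h2n]
    calc 2 * Real.sqrt T * 2 ^ n = Real.sqrt T * (2 * 2 ^ n) := by ring
      _ ≤ Real.sqrt T * Real.sqrt T := mul_le_mul_of_nonneg_left hs1 hs0.le
      _ = T := hsq
  have h := (hh k (by linarith) hlogk).upper hM hv hkn
    (div_le_self hT.le h1n) hb t12 hP J hJ
  refine h.trans ?_
  have hTL : 0 < T * Real.log T := by positivity
  -- first term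
  have e1 : (M : ℝ) * (K * Real.log T * (T / 2 ^ n + 1)) ≤
      η / 4 * (T * Real.log T) + η / 8 * (T * Real.log T) := by
    have h1 : M * K / 2 ^ n ≤ η / 4 := by
      rw [div_lt_iff₀ hη] at hn
      rw [div_le_iff₀ h2n]
      linarith
    have h2 : M * K / 2 ^ n * (T * Real.log T) ≤ η / 4 * (T * Real.log T) :=
      mul_le_mul_of_nonneg_right h1 hTL.le
    have h3 : M * K ≤ η / 8 * T := by
      rw [div_le_iff₀ hη] at t6
      linarith
    have h4 : M * K * Real.log T ≤ η / 8 * T * Real.log T := mul_le_mul_of_nonneg_right h3 hL.le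
    calc (M : ℝ) * (K * Real.log T * (T / 2 ^ n + 1)) =
        M * K / 2 ^ n * (T * Real.log T) + M * K * Real.log T := by ring
      _ ≤ _ := by linarith
  -- second term
  have e2 : K * Real.log T * (M * (C * (T * Real.log T) *
      Real.exp (-(c * (τ T * Real.log T ^ 2))))) ≤ η / 4 * (T * Real.log T) := by
    have h1 : Real.exp (-(c * (τ T * Real.log T ^ 2))) ≤ 1 / Real.log T ^ 2 := by
      rw [le_div_iff₀ hLL0] at t3
      have h2 : 2 * Real.log (Real.log T) ≤ c * (τ T * Real.log T ^ 2) := by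
        have h3 := mul_le_mul_of_nonneg_left t3 hc.le
        have h4 : c * (2 / c * Real.log (Real.log T)) = 2 * Real.log (Real.log T) := by
          field_simp
        linarith
      calc Real.exp (-(c * (τ T * Real.log T ^ 2))) ≤ Real.exp (-(2 * Real.log (Real.log T))) :=
            Real.exp_le_exp.2 (by linarith)
        _ = 1 / Real.log T ^ 2 := by
            rw [Real.exp_neg, two_mul, Real.exp_add, Real.exp_log hL, one_div, sq]
    have h5 : M * C * K / Real.log T ≤ η / 4 := by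
      rw [div_le_iff₀ hη] at t8
      rw [div_le_iff₀ hL]
      linarith
    have h6 : K * Real.log T * (M * (C * (T * Real.log T) *
        Real.exp (-(c * (τ T * Real.log T ^ 2))))) ≤
        K * Real.log T * (M * (C * (T * Real.log T) * (1 / Real.log T ^ 2))) := by
      apply mul_le_mul_of_nonneg_left _ (by positivity)
      apply mul_le_mul_of_nonneg_left _ (by positivity)
      exact mul_le_mul_of_nonneg_left h1 (by positivity)
    refine h6.trans ?_
    calc K * Real.log T * (M * (C * (T * Real.log T) * (1 / Real.log T ^ 2))) =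
        (M * C * K / Real.log T) * (T * Real.log T) := by
          field_simp
      _ ≤ _ := mul_le_mul_of_nonneg_right h5 hTL.le
  -- third term
  have e3 : K * Real.log T * (K * Real.log T * (T / 2 ^ k + 1)) ≤ η / 4 * (T * Real.log T) := by
    have hsq2 : 0 ≤ Real.sqrt (Real.sqrt T) := Real.sqrt_nonneg _
    have hqq : Real.sqrt (Real.sqrt T) * Real.sqrt (Real.sqrt T) = Real.sqrt T :=
      Real.mul_self_sqrt hs0.le
    have h1 : Real.log T ≤ 4 * Real.sqrt (Real.sqrt T) := by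
      have h2 : Real.log (Real.sqrt T) = Real.log T / 2 := Real.log_sqrt hT.le
      have h3 : Real.log (Real.sqrt (Real.sqrt T)) = Real.log (Real.sqrt T) / 2 :=
        Real.log_sqrt hs0.le
      have h4 := Real.log_le_sub_one_of_pos (Real.sqrt_pos.2 hs0)
      linarith
    have h5 : 48 * K ^ 2 / η ≤ Real.sqrt (Real.sqrt T) := by
      apply Real.le_sqrt_of_sq_le
      apply Real.le_sqrt_of_sq_le
      calc ((48 * K ^ 2 / η) ^ 2) ^ 2 = (48 * K ^ 2 / η) ^ 4 := by ring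
        _ ≤ T := t11
    have h6 : T / 2 ^ k + 1 ≤ 3 * Real.sqrt T := by linarith
    rw [div_le_iff₀ hη] at h5
    calc K * Real.log T * (K * Real.log T * (T / 2 ^ k + 1)) =
        K ^ 2 * (Real.log T * (T / 2 ^ k + 1)) * Real.log T := by ring
      _ ≤ K ^ 2 * (4 * Real.sqrt (Real.sqrt T) * (3 * Real.sqrt T)) * Real.log T := by
          apply mul_le_mul_of_nonneg_right _ hL.le
          apply mul_le_mul_of_nonneg_left _ (by positivity)
          exact mul_le_mul h1 h6 (by positivity) (by positivity)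
      _ = (48 * K ^ 2) / 4 * Real.sqrt (Real.sqrt T) * Real.sqrt T * Real.log T := by ring
      _ ≤ (Real.sqrt (Real.sqrt T) * η) / 4 * Real.sqrt (Real.sqrt T) * Real.sqrt T *
          Real.log T := by
          apply mul_le_mul_of_nonneg_right _ hL.le
          apply mul_le_mul_of_nonneg_right _ hs0.le
          apply mul_le_mul_of_nonneg_right _ hsq2
          linarith
      _ = η / 4 * ((Real.sqrt (Real.sqrt T) * Real.sqrt (Real.sqrt T)) * Real.sqrt T) *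
          Real.log T := by ring
      _ = η / 4 * (T * Real.log T) := by rw [hqq, hsq]; ring
  have e4 : 0 < η * (T * Real.log T) := by positivity
  have e5 : K * Real.log T * ((M : ℝ) * (C * (T * Real.log T) *
      Real.exp (-(c * (τ T * Real.log T ^ 2)))) + K * Real.log T * (T / 2 ^ k + 1)) =
      K * Real.log T * (M * (C * (T * Real.log T) *
      Real.exp (-(c * (τ T * Real.log T ^ 2))))) +
      K * Real.log T * (K * Real.log T * (T / 2 ^ k + 1)) := by ring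
  rw [e5]
  linarith

end Run7.h422.PP
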