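import Mathlib

/-!
# Chains of regular zeros
-/

set_option autoImplicit false

namespace Run7.h422.PP

open Complex Filter Topology Set

/-- `s` and `s1` are simple zeros, consecutive, `s` is on the line and the distance is close to
`2 π / log y` at the height `y`. -/
def Stp (f : ℂ → ℂ) (ε : ℝ) (s s1 : ℂ) : Prop :=
  s.re = 0 ∧ deriv f s ≠ 0 ∧ ∃ g : ℝ, 0 < g ∧ |g * (Real.log s.im / 2) - Real.pi| ≤ ε ∧
    f (s + g * I) = 0 ∧ deriv f (s + g * I) ≠ 0 ∧
    (∀ z : ℂ, f z = 0 → s.im ≤ z.im → z.im ≤ s.im + g → z = s ∨ z = s + g * I) ∧ s1 = s + g * I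

/-- chains -/
def Ch (f : ℂ → ℂ) (ε : ℝ) : ℕ → ℂ → ℂ → Prop
  | 0, s, s' => s' = s
  | (m + 1), s, s' => ∃ s1, Stp f ε s s1 ∧ Ch f ε m s1 s'

lemma Stp.im {f : ℂ → ℂ} {ε : ℝ} {s s1 : ℂ} (h : Stp f ε s s1) :
    s.im < s1.im ∧ |(s1.im - s.im) * (Real.log s.im / 2) - Real.pi| ≤ ε ∧ f s1 = 0 ∧
      deriv f s1 ≠ 0 := by
  obtain ⟨-, -, g, hg, h1, h2, h3, -, rfl⟩ := h
  have him : (s + g * I).im = s.im + g := by simp
  refine ⟨by rw [him]; linarith, ?_, h2, h3⟩
  rw [him, add_sub_cancel_left]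
  exact h1

lemma Stp.inj {f : ℂ → ℂ} {ε : ℝ} {s s' s1 : ℂ} (hs : f s = 0) (hs' : f s' = 0)
    (h : Stp f ε s s1) (h' : Stp f ε s' s1) : s = s' := by
  wlog hle : s.im ≤ s'.im generalizing s s'
  · exact (this hs' hs h' h (le_of_not_ge hle)).symm
  have hlt := h'.im.1
  obtain ⟨-, -, g, hg, h1, h2, h3, h4, rfl⟩ := h
  have him : (s + g * I).im = s.im + g := by simp
  rw [him] at hlt
  rcases h4 s' hs' hle hlt.le with h5 | h5
  · exact h5.symm
  · exfalso
    rw [h5, him] at hlt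
    exact lt_irrefl _ hlt

/-- the zeros as an index set -/
def Zi (f : ℂ → ℂ) : Set (ℂ × ℕ) := {p | p.2 < analyticOrderNatAt f p.1}

lemma order_one {f : ℂ → ℂ} (hf : Differentiable ℂ f) {s : ℂ} (hs : f s = 0)
    (hd : deriv f s ≠ 0) : analyticOrderNatAt f s = 1 := by
  have ha : AnalyticAt ℂ f s := hf.analyticAt s
  have h1 : analyticOrderAt f s = 1 := by
    have h2 := ha.analyticOrderAt_deriv_add_one
    have h3 : analyticOrderAt (deriv f) s = 0 := (ha.deriv.analyticOrderAt_eq_zero).2 hd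
    rw [h3, zero_add] at h2
    have e : (fun x => f x - f s) = f := by
      funext x
      rw [hs, sub_zero]
    rw [e] at h2
    exact h2.symm
  unfold analyticOrderNatAt
  rw [h1]
  rfl

lemma Zi_zero {f : ℂ → ℂ} (hf : Differentiable ℂ f) {p : ℂ × ℕ} (hp : p ∈ Zi f) : f p.1 = 0 := by
  by_contra h
  have h1 := (hf.analyticAt p.1).analyticOrderAt_eq_zero.2 h
  have h2 : p.2 < analyticOrderNatAt f p.1 := hp
  unfold analyticOrderNatAt at h2
  rw [h1] at h2
  simp at h2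

/-- the elements of `Zi f` at heights in `(u, v]` which do not begin a chain of `m` steps -/
def Bd (f : ℂ → ℂ) (ε : ℝ) (m : ℕ) (u v : ℝ) : Set (ℂ × ℕ) :=
  {p | p ∈ Zi f ∧ u < p.1.im ∧ p.1.im ≤ v ∧ ¬ ∃ s', Ch f ε m p.1 s'}

/-- the irregular ones -/
def Ir (f : ℂ → ℂ) (ε : ℝ) (u v : ℝ) : Set (ℂ × ℕ) :=
  {p | p ∈ Zi f ∧ u < p.1.im ∧ p.1.im ≤ v ∧ ¬ ∃ s', Stp f ε p.1 s'}

theorem bd_le {f : ℂ → ℂ} (hf : Differentiable ℂ f) {ε u ρ : ℝ} (hu : 1 < u)
    (hε : ε ≤ 1) (hρ : 10 ≤ ρ * Real.log u)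
    (hfin : ∀ v, {p | p ∈ Zi f ∧ u < p.1.im ∧ p.1.im ≤ v}.Finite) (m : ℕ) :
    ∀ v w : ℝ, v + m * ρ ≤ w → (Bd f ε m u v).ncard ≤ m * (Ir f ε u w).ncard := by
  have hlogu : 0 < Real.log u := Real.log_pos hu
  have hρ0 : 0 < ρ := by
    by_contra h
    push Not at h
    nlinarith
  have hirf : ∀ v, (Ir f ε u v).Finite := fun v => (hfin v).subset fun p hp => ⟨hp.1, hp.2.1, hp.2.2.1⟩
  have hbdf : ∀ m v, (Bd f ε m u v).Finite := fun m v =>
    (hfin v).subset fun p hp => ⟨hp.1, hp.2.1, hp.2.2.1⟩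
  induction m with
  | zero =>
    intro v w _
    have : Bd f ε 0 u v = ∅ := by
      ext p
      simp only [Bd, Ch, mem_setOf_eq, mem_empty_iff_false, iff_false]
      rintro ⟨-, -, -, h⟩
      exact h ⟨_, rfl⟩
    rw [this]
    simp
  | succ m ih =>
    intro v w hvw
    push_cast at hvw
    have hm0 : (0 : ℝ) ≤ m * ρ := by positivity
    -- the map to the next zero
    classical
    set N : ℂ × ℕ → ℂ × ℕ := fun p => if h : ∃ s', Stp f ε p.1 s' then (h.choose, 0) else p with hN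
    have hsub : Bd f ε (m + 1) u v ⊆ Ir f ε u w ∪ (Bd f ε (m + 1) u v \ Ir f ε u w) := by
      intro p hp
      by_cases h : p ∈ Ir f ε u w
      · exact Or.inl h
      · exact Or.inr ⟨hp, h⟩
    have hreg : ∀ p ∈ Bd f ε (m + 1) u v \ Ir f ε u w, ∃ h : ∃ s', Stp f ε p.1 s',
        N p = (h.choose, 0) := by
      rintro p ⟨hp, hp2⟩
      have h : ∃ s', Stp f ε p.1 s' := by
        by_contra hcon
        exact hp2 ⟨hp.1, hp.2.1, by linarith [hp.2.2.1], hcon⟩
      exact ⟨h, by rw [hN]; simp only; rw [dif_pos h]⟩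
    have hinj : InjOn N (Bd f ε (m + 1) u v \ Ir f ε u w) := by
      intro p hp q hq hpq
      obtain ⟨h1, e1⟩ := hreg p hp
      obtain ⟨h2, e2⟩ := hreg q hq
      rw [e1, e2] at hpq
      have e3 := congrArg Prod.fst hpq
      simp only at e3
      have s1 := h1.choose_spec
      have s2 := h2.choose_spec
      rw [← e3] at s2
      have zp := Zi_zero hf hp.1.1
      have zq := Zi_zero hf hq.1.1
      have e4 := Stp.inj zp zq s1 s2
      have o1 := order_one hf zp s1.2.1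
      have o2 := order_one hf zq s2.2.1
      have p1 : p.2 < analyticOrderNatAt f p.1 := hp.1.1
      have q1 : q.2 < analyticOrderNatAt f q.1 := hq.1.1
      rw [o1] at p1
      rw [o2] at q1
      exact Prod.ext e4 (by omega)
    have hmap : MapsTo N (Bd f ε (m + 1) u v \ Ir f ε u w) (Bd f ε m u (v + ρ)) := by
      intro p hp
      obtain ⟨h1, e1⟩ := hreg p hp
      rw [e1]
      have s1 := h1.choose_spec
      obtain ⟨i1, i2, i3, i4⟩ := s1.im
      refine ⟨?_, ?_, ?_, ?_⟩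
      · show 0 < analyticOrderNatAt f h1.choose
        rw [order_one hf i3 i4]
        exact one_pos
      · show u < h1.choose.im
        linarith [hp.1.2.1]
      · show h1.choose.im ≤ v + ρ
        have h2 : Real.log u ≤ Real.log p.1.im := Real.log_le_log (by linarith) hp.1.2.1.le
        rw [abs_le] at i2
        have h3 := Real.pi_le_four
        have h4 : (h1.choose.im - p.1.im) * Real.log u ≤ 10 := by
          have h5 : (h1.choose.im - p.1.im) * Real.log u ≤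
              (h1.choose.im - p.1.im) * Real.log p.1.im :=
            mul_le_mul_of_nonneg_left h2 (by linarith)
          linarith [i2.2]
        have h6 : h1.choose.im - p.1.im ≤ ρ := by
          have h7 : (h1.choose.im - p.1.im) * Real.log u ≤ ρ * Real.log u := h4.trans hρ
          exact le_of_mul_le_mul_right h7 hlogu
        linarith [hp.1.2.2.1]
      · rintro ⟨s', hs'⟩
        exact hp.1.2.2.2 ⟨s', h1.choose, s1, hs'⟩
    have hc1 : (Bd f ε (m + 1) u v \ Ir f ε u w).ncard ≤ (Bd f ε m u (v + ρ)).ncard :=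
      Set.ncard_le_ncard_of_injOn N hmap hinj (hbdf _ _)
    have hc2 := ih (v + ρ) w (by linarith)
    calc (Bd f ε (m + 1) u v).ncard
        ≤ (Ir f ε u w ∪ (Bd f ε (m + 1) u v \ Ir f ε u w)).ncard :=
          Set.ncard_le_ncard hsub ((hirf w).union ((hbdf _ _).subset diff_subset))
      _ ≤ (Ir f ε u w).ncard + (Bd f ε (m + 1) u v \ Ir f ε u w).ncard :=
          Set.ncard_union_le _ _
      _ ≤ (Ir f ε u w).ncard + m * (Ir f ε u w).ncard := by omega
      _ = (m + 1) * (Ir f ε u w).ncard := by ring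

/-- a chain as a function -/
structure ChF (f : ℂ → ℂ) (ε : ℝ) (m : ℕ) (s : ℂ) (p : ℕ → ℂ) : Prop where
  zero : p 0 = s
  stp : ∀ j < m, Stp f ε (p j) (p (j + 1))

lemma Ch.fn {f : ℂ → ℂ} {ε : ℝ} (m : ℕ) : ∀ {s s' : ℂ}, Ch f ε m s s' → ∃ p, ChF f ε m s p := by
  induction m with
  | zero =>
    intro s s' _
    exact ⟨fun _ => s, rfl, fun j hj => absurd hj (Nat.not_lt_zero j)⟩
  | succ m ih =>
    rintro s s' ⟨s1, h1, h2⟩
    obtain ⟨p, hp0, hp⟩ := ih h2
    refine ⟨fun j => Nat.casesOn j s p, rfl, ?_⟩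
    intro j hj
    cases j with
    | zero =>
      show Stp f ε s (p 0)
      rw [hp0]
      exact h1
    | succ j => exact hp j (by omega)

lemma ChF.mono {f : ℂ → ℂ} {ε : ℝ} {m : ℕ} {s : ℂ} {p : ℕ → ℂ} (h : ChF f ε m s p) :
    ∀ {i j : ℕ}, i ≤ j → j ≤ m → (p i).im ≤ (p j).im := by
  intro i j hij
  induction j, hij using Nat.le_induction with
  | base => intro _; exact le_rfl
  | succ j hij ih =>
    intro hj
    exact (ih (by omega)).trans (h.stp j (by omega)).im.1.le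

lemma ChF.smono {f : ℂ → ℂ} {ε : ℝ} {m : ℕ} {s : ℂ} {p : ℕ → ℂ} (h : ChF f ε m s p)
    {i j : ℕ} (hij : i < j) (hj : j ≤ m) : (p i).im < (p j).im :=
  lt_of_lt_of_le (h.stp i (by omega)).im.1 (h.mono (i := i + 1) (by omega) hj)

lemma ChF.root {f : ℂ → ℂ} {ε : ℝ} {m : ℕ} {s : ℂ} {p : ℕ → ℂ} (h : ChF f ε m s p)
    {j : ℕ} (hj0 : 1 ≤ j) (hj : j ≤ m) : f (p j) = 0 ∧ deriv f (p j) ≠ 0 := by
  obtain ⟨i, rfl⟩ : ∃ i, j = i + 1 := ⟨j - 1, by omega⟩
  exact ⟨(h.stp i (by omega)).im.2.2.1, (h.stp i (by omega)).im.2.2.2⟩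

lemma ChF.all {f : ℂ → ℂ} {ε : ℝ} (m : ℕ) : ∀ {s : ℂ} {p : ℕ → ℂ}, ChF f ε m s p →
    ∀ z : ℂ, f z = 0 → s.im < z.im → z.im ≤ (p m).im → ∃ j, 1 ≤ j ∧ j ≤ m ∧ z = p j := by
  induction m with
  | zero =>
    intro s p h z _ h1 h2
    rw [h.zero] at h2
    exact absurd h2 (not_le.2 h1)
  | succ m ih =>
    intro s p h z hz h1 h2
    rcases le_or_gt z.im (p m).im with h3 | h3
    · have h' : ChF f ε m s p := ⟨h.zero, fun j hj => h.stp j (by omega)⟩
      obtain ⟨j, hj1, hj2, hj3⟩ := ih h' z hz h1 h3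
      exact ⟨j, hj1, by omega, hj3⟩
    · obtain ⟨-, -, g, hg, h4, h5, h6, h7, h8⟩ := h.stp m (by omega)
      have him : (p (m + 1)).im = (p m).im + g := by rw [h8]; simp
      rcases h7 z hz h3.le (by rw [← him]; exact h2) with h9 | h9
      · rw [h9] at h3
        exact absurd h3 (lt_irrefl _)
      · exact ⟨m + 1, by omega, le_rfl, by rw [h9, ← h8]⟩

lemma ChF.low {f : ℂ → ℂ} {ε L : ℝ} {m : ℕ} {s : ℂ} {p : ℕ → ℂ} (h : ChF f ε m s p)
    (hs : 1 < s.im) (hε : ε ≤ 3) {j : ℕ} (hj : j ≤ m) (hL : Real.log (p j).im ≤ L) :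
    j * (Real.pi - ε) ≤ ((p j).im - s.im) * (L / 2) := by
  induction j with
  | zero => simp [h.zero]
  | succ j ih =>
    have h1 := h.stp j (by omega)
    obtain ⟨i1, i2, -, -⟩ := h1.im
    have hpi := Real.pi_gt_three
    have h2 : s.im ≤ (p j).im := by
      have := h.mono (i := 0) (j := j) (by omega) (by omega)
      rwa [h.zero] at this
    have h3 : Real.log (p j).im ≤ L :=
      (Real.log_le_log (by linarith) i1.le).trans hL
    have h4 := ih (by omega) h3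
    rw [abs_le] at i2
    have h5 : ((p (j + 1)).im - (p j).im) * (Real.log (p j).im / 2) ≤
        ((p (j + 1)).im - (p j).im) * (L / 2) :=
      mul_le_mul_of_nonneg_left (by linarith) (by linarith)
    push_cast
    nlinarith [i2.1]

lemma ChF.up {f : ℂ → ℂ} {ε ℓ : ℝ} {m : ℕ} {s : ℂ} {p : ℕ → ℂ} (h : ChF f ε m s p)
    (hs : 1 < s.im) {j : ℕ} (hj : j ≤ m) (hℓ : ℓ ≤ Real.log s.im) :
    ((p j).im - s.im) * (ℓ / 2) ≤ j * (Real.pi + ε) := by
  induction j with
  | zero => simp [h.zero]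
  | succ j ih =>
    have h1 := h.stp j (by omega)
    obtain ⟨i1, i2, -, -⟩ := h1.im
    have h2 : s.im ≤ (p j).im := by
      have := h.mono (i := 0) (j := j) (by omega) (by omega)
      rwa [h.zero] at this
    have h3 : ℓ ≤ Real.log (p j).im :=
      hℓ.trans (Real.log_le_log (by linarith) h2)
    have h4 := ih (by omega)
    rw [abs_le] at i2
    have h5 : ((p (j + 1)).im - (p j).im) * (ℓ / 2) ≤
        ((p (j + 1)).im - (p j).im) * (Real.log (p j).im / 2) :=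
      mul_le_mul_of_nonneg_left (by linarith) (by linarith)
    push_cast
    nlinarith [i2.2]

end Run7.h422.PP
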