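import Pool.Agent.Run7.h422.PP.Ch

/-!
# Counting pairs of zeros by means of chains
-/

set_option autoImplicit false

namespace Run7.h422.PP

open Complex Filter Topology Set

/-- zeros at heights in `(0, T]` -/
def NZ (f : ℂ → ℂ) (T : ℝ) : Set (ℂ × ℕ) := {p | p ∈ Zi f ∧ 0 < p.1.im ∧ p.1.im ≤ T}

/-- normalised difference of the heights -/
noncomputable def DD (T : ℝ) (x y : ℂ × ℕ) : ℝ :=
  (x.1.im - y.1.im) * (Real.log T / (2 * Real.pi))

/-- pairs -/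
def PQ (f : ℂ → ℂ) (T : ℝ) (P : ℝ → Prop) : Set ((ℂ × ℕ) × (ℂ × ℕ)) :=
  {x | x.1 ∈ NZ f T ∧ x.2 ∈ NZ f T ∧ P (DD T x.1 x.2)}

open Classical in
/-- number of partners -/
noncomputable def cc (N : Finset (ℂ × ℕ)) (T : ℝ) (P : ℝ → Prop) (y : ℂ × ℕ) : ℕ :=
  (N.filter fun x => P (DD T x y)).card

lemma PQ_card {f : ℂ → ℂ} {T : ℝ} {P : ℝ → Prop} (N : Finset (ℂ × ℕ))
    (hN : ∀ x, x ∈ N ↔ x ∈ NZ f T) : (PQ f T P).ncard = ∑ y ∈ N, cc N T P y := by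
  classical
  have e : PQ f T P = (((N ×ˢ N).filter fun x => P (DD T x.1 x.2) : Finset _) : Set _) := by
    ext x
    rw [Finset.mem_coe, Finset.mem_filter, Finset.mem_product, hN, hN]
    unfold PQ
    constructor
    · rintro ⟨h1, h2, h3⟩
      exact ⟨⟨h1, h2⟩, h3⟩
    · rintro ⟨⟨h1, h2⟩, h3⟩
      exact ⟨h1, h2, h3⟩
  rw [e, Set.ncard_coe_finset, Finset.card_filter, Finset.sum_product_right]
  refine Finset.sum_congr rfl fun y _ => ?_
  unfold cc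
  rw [Finset.card_filter]

/-- the data at one height `T` -/
structure Hyp (f : ℂ → ℂ) (T θ K u ι : ℝ) (M : ℕ) : Prop where
  diff : Differentiable ℂ f
  fin : ∀ u v : ℝ, {p : ℂ × ℕ | p ∈ Zi f ∧ u ≤ p.1.im ∧ p.1.im ≤ v}.Finite
  unit : ∀ t : ℝ, 0 ≤ t → t ≤ T + 2 → ({p : ℂ × ℕ | p ∈ Zi f ∧ |p.1.im - t| ≤ 1}.ncard : ℝ) ≤ K
  irr : ((Ir f (θ / 4) u (2 * T)).ncard : ℝ) ≤ ι
  th0 : 0 < θ
  th1 : θ ≤ 1
  K0 : 0 ≤ K
  u1 : 1 < u
  T1 : 1 < T
  big : 20 * M ≤ Real.log T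
  logu : Real.log T / 2 ≤ Real.log u
  log2 : Real.log (2 * T) ≤ (1 + θ / 4) * Real.log T

variable {f : ℂ → ℂ} {T θ K u ι : ℝ} {M : ℕ}

lemma Hyp.nz_fin (h : Hyp f T θ K u ι M) (X : ℝ) : (NZ f X).Finite :=
  (h.fin 0 X).subset fun _ hp => ⟨hp.1, hp.2.1.le, hp.2.2⟩

lemma Hyp.low_le (h : Hyp f T θ K u ι M) {X : ℝ} (hX0 : 0 ≤ X) (hX : X ≤ T) :
    ((NZ f X).ncard : ℝ) ≤ K * (X + 1) := by
  classical
  have hsub : NZ f X ⊆ ⋃ k ∈ Finset.range ⌈X⌉₊, {p : ℂ × ℕ | p ∈ Zi f ∧ |p.1.im - (k : ℝ)| ≤ 1} := by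
    rintro p ⟨h1, h2, h3⟩
    have h4 : 0 < ⌈p.1.im⌉₊ := Nat.ceil_pos.2 h2
    obtain ⟨k, hk⟩ : ∃ k, ⌈p.1.im⌉₊ = k + 1 := ⟨⌈p.1.im⌉₊ - 1, by omega⟩
    have h5 : (k : ℝ) < p.1.im := by
      have : k < ⌈p.1.im⌉₊ := by omega
      exact Nat.lt_ceil.1 this
    have h6 : p.1.im ≤ k + 1 := by
      have := Nat.le_ceil p.1.im
      rw [hk] at this
      push_cast at this
      exact this
    have h7 : ⌈p.1.im⌉₊ ≤ ⌈X⌉₊ := Nat.ceil_mono h3
    simp only [Set.mem_iUnion]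
    refine ⟨k, Finset.mem_range.2 (by omega), h1, ?_⟩
    rw [abs_le]
    constructor <;> linarith
  have hf : ∀ k : ℕ, {p : ℂ × ℕ | p ∈ Zi f ∧ |p.1.im - (k : ℝ)| ≤ 1}.Finite := fun k =>
    (h.fin (k - 1) (k + 1)).subset fun p hp => by
      have := abs_le.1 hp.2
      exact ⟨hp.1, by linarith [this.1], by linarith [this.2]⟩
  have h1 : (NZ f X).ncard ≤ ∑ k ∈ Finset.range ⌈X⌉₊,
      {p : ℂ × ℕ | p ∈ Zi f ∧ |p.1.im - (k : ℝ)| ≤ 1}.ncard := by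
    refine (Set.ncard_le_ncard hsub ?_).trans (Finset.set_ncard_biUnion_le _ _)
    exact (Finset.range ⌈X⌉₊).finite_toSet.biUnion fun k _ => hf k
  have h2 : (∑ k ∈ Finset.range ⌈X⌉₊,
      ({p : ℂ × ℕ | p ∈ Zi f ∧ |p.1.im - (k : ℝ)| ≤ 1}.ncard : ℝ)) ≤
      ∑ k ∈ Finset.range ⌈X⌉₊, K := by
    refine Finset.sum_le_sum fun k hk => h.unit k (Nat.cast_nonneg _) ?_
    have h3 : (k : ℝ) < X := Nat.lt_ceil.1 (Finset.mem_range.1 hk)
    linarith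
  rw [Finset.sum_const, Finset.card_range, nsmul_eq_mul] at h2
  have h3 : (⌈X⌉₊ : ℝ) ≤ X + 1 := (Nat.ceil_lt_add_one hX0).le
  calc ((NZ f X).ncard : ℝ) ≤ ((∑ k ∈ Finset.range ⌈X⌉₊,
      {p : ℂ × ℕ | p ∈ Zi f ∧ |p.1.im - (k : ℝ)| ≤ 1}.ncard : ℕ) : ℝ) := by exact_mod_cast h1
    _ = ∑ k ∈ Finset.range ⌈X⌉₊,
      ({p : ℂ × ℕ | p ∈ Zi f ∧ |p.1.im - (k : ℝ)| ≤ 1}.ncard : ℝ) := by push_cast; rfl
    _ ≤ ⌈X⌉₊ * K := h2
    _ ≤ (X + 1) * K := mul_le_mul_of_nonneg_right h3 h.K0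
    _ = K * (X + 1) := by ring

lemma Hyp.bad_le (h : Hyp f T θ K u ι M) (hM : 1 ≤ M) :
    ((Bd f (θ / 4) M u T).ncard : ℝ) ≤ M * ι := by
  have hM1 : (1 : ℝ) ≤ M := by exact_mod_cast hM
  have hL : 0 < Real.log T := by
    have := h.big
    linarith
  have hlu : 0 < Real.log u := by
    have := h.logu
    linarith
  have h1 := bd_le h.diff (ε := θ / 4) (u := u) (ρ := 10 / Real.log u) h.u1 (by linarith [h.th1])
    (by rw [div_mul_cancel₀ _ hlu.ne']) (fun v => (h.fin u v).subset fun p hp =>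
      ⟨hp.1, hp.2.1.le, hp.2.2⟩) M T (2 * T) (by
      have h2 : (M : ℝ) * (10 / Real.log u) ≤ 1 := by
        rw [← mul_div_assoc, div_le_one hlu]
        have := h.big
        have := h.logu
        linarith
      linarith [h.T1])
  have h2 : ((Bd f (θ / 4) M u T).ncard : ℝ) ≤ M * ((Ir f (θ / 4) u (2 * T)).ncard : ℝ) := by
    exact_mod_cast h1
  exact h2.trans (mul_le_mul_of_nonneg_left h.irr (by linarith))

/-- the chain of a good zero -/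
lemma Hyp.good (h : Hyp f T θ K u ι M) {y : ℂ × ℕ} (hy : y ∈ NZ f T) (hu : u < y.1.im)
    (hb : y ∉ Bd f (θ / 4) M u T) : ∃ p, ChF f (θ / 4) M y.1 p := by
  have : ∃ s', Ch f (θ / 4) M y.1 s' := by
    by_contra hcon
    exact hb ⟨hy.1, hu, hy.2.2, hcon⟩
  obtain ⟨s', hs'⟩ := this
  exact hs'.fn

lemma Hyp.short (h : Hyp f T θ K u ι M) {y : ℂ × ℕ} (hu : u < y.1.im)
    {p : ℕ → ℂ} (hp : ChF f (θ / 4) M y.1 p) {j : ℕ} (hj : j ≤ M) : (p j).im ≤ y.1.im + 1 := by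
  have hu1 := h.u1
  have h1 := hp.up (by linarith) hj (ℓ := Real.log T / 2)
    (h.logu.trans (Real.log_le_log (by linarith) hu.le))
  have hpi := Real.pi_lt_d2
  norm_num at hpi
  have h2 : (j : ℝ) ≤ M := by exact_mod_cast hj
  have hth := h.th1
  have hth0 := h.th0
  have hj0 : (0 : ℝ) ≤ j := Nat.cast_nonneg j
  have hb := h.big
  by_contra hcon
  push Not at hcon
  have hT := Real.log_pos h.T1
  have h3 : 1 * (Real.log T / 2 / 2) < ((p j).im - y.1.im) * (Real.log T / 2 / 2) :=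
    mul_lt_mul_of_pos_right (by linarith) (by linarith)
  have h4 : (j : ℝ) * (Real.pi + θ / 4) ≤ M * 4 := by
    apply mul_le_mul h2 (by linarith) (by positivity) (by linarith)
  linarith

/-- the normalised distances in a chain are at least `j (1 - θ)` -/
lemma Hyp.dlow (h : Hyp f T θ K u ι M) {y : ℂ × ℕ} (hyT : y.1.im ≤ T) (hu : u < y.1.im)
    {p : ℕ → ℂ} (hp : ChF f (θ / 4) M y.1 p) {j : ℕ} (hj : j ≤ M) (i : ℕ) :
    j * (1 - θ) ≤ DD T (p j, i) y := by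
  have hu1 := h.u1
  have h1 := h.short hu hp hj
  have hT1 := h.T1
  have hmono : y.1.im ≤ (p j).im := by
    have := hp.mono (i := 0) (j := j) (Nat.zero_le j) hj
    rwa [hp.zero] at this
  have h2 := hp.low (by linarith) (by linarith [h.th1]) hj (L := (1 + θ / 4) * Real.log T)
    ((Real.log_le_log (by linarith) (by linarith)).trans h.log2)
  have hpi := Real.pi_gt_three
  have hth := h.th1
  have hth0 := h.th0
  have hj0 : (0 : ℝ) ≤ j := Nat.cast_nonneg j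
  unfold DD
  simp only
  have e : ((p j).im - y.1.im) * ((1 + θ / 4) * Real.log T / 2) =
      (1 + θ / 4) * Real.pi * (((p j).im - y.1.im) * (Real.log T / (2 * Real.pi))) := by
    field_simp
  rw [e] at h2
  set D := ((p j).im - y.1.im) * (Real.log T / (2 * Real.pi)) with hD
  by_contra hcon
  push Not at hcon
  have h5 : (1 + θ / 4) * Real.pi * D < (1 + θ / 4) * Real.pi * (j * (1 - θ)) :=
    mul_lt_mul_of_pos_left hcon (by positivity)
  have h6 : (1 + θ / 4) * Real.pi * (j * (1 - θ)) ≤ j * (Real.pi - θ / 4) := by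
    have h7 : (1 + θ / 4) * (1 - θ) ≤ 1 - 3 / 4 * θ := by nlinarith
    have h8 : Real.pi * ((1 + θ / 4) * (1 - θ)) ≤ Real.pi * (1 - 3 / 4 * θ) :=
      mul_le_mul_of_nonneg_left h7 Real.pi_pos.le
    have h9 : Real.pi * (1 - 3 / 4 * θ) ≤ Real.pi - θ / 4 := by nlinarith
    have h10 := mul_le_mul_of_nonneg_left (h8.trans h9) hj0
    calc (1 + θ / 4) * Real.pi * (j * (1 - θ)) = j * (Real.pi * ((1 + θ / 4) * (1 - θ))) := by ring
      _ ≤ _ := h10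
  linarith

/-- the normalised distances in a chain are at most `j (1 + θ)` -/
lemma Hyp.dup (h : Hyp f T θ K u ι M) {v : ℝ} (hv : (1 - θ / 4) * Real.log T ≤ Real.log v)
    (hv1 : 1 < v) {y : ℂ × ℕ} (hu : v < y.1.im)
    {p : ℕ → ℂ} (hp : ChF f (θ / 4) M y.1 p) {j : ℕ} (hj : j ≤ M) (i : ℕ) :
    DD T (p j, i) y ≤ j * (1 + θ) := by
  have h1 := hp.up (by linarith) hj (ℓ := (1 - θ / 4) * Real.log T)
    (hv.trans (Real.log_le_log (by linarith) hu.le))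
  have hpi := Real.pi_gt_three
  have hth := h.th1
  have hth0 := h.th0
  have hj0 : (0 : ℝ) ≤ j := Nat.cast_nonneg j
  unfold DD
  simp only
  have e : ((p j).im - y.1.im) * ((1 - θ / 4) * Real.log T / 2) =
      (1 - θ / 4) * Real.pi * (((p j).im - y.1.im) * (Real.log T / (2 * Real.pi))) := by
    field_simp
  rw [e] at h1
  set D := ((p j).im - y.1.im) * (Real.log T / (2 * Real.pi)) with hD
  by_contra hcon
  push Not at hcon
  have h0 : 0 < (1 - θ / 4) * Real.pi := mul_pos (by linarith) Real.pi_pos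
  have h5 : (1 - θ / 4) * Real.pi * (j * (1 + θ)) < (1 - θ / 4) * Real.pi * D :=
    mul_lt_mul_of_pos_left hcon h0
  have h6 : j * (Real.pi + θ / 4) ≤ (1 - θ / 4) * Real.pi * (j * (1 + θ)) := by
    have h7 : 1 + θ / 2 ≤ (1 - θ / 4) * (1 + θ) := by nlinarith
    have h8 : Real.pi * (1 + θ / 2) ≤ Real.pi * ((1 - θ / 4) * (1 + θ)) :=
      mul_le_mul_of_nonneg_left h7 Real.pi_pos.le
    have h9 : Real.pi + θ / 4 ≤ Real.pi * (1 + θ / 2) := by nlinarith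
    have h10 := mul_le_mul_of_nonneg_left (h9.trans h8) hj0
    calc (j : ℝ) * (Real.pi + θ / 4) ≤ j * (Real.pi * ((1 - θ / 4) * (1 + θ))) := h10
      _ = _ := by ring
  linarith

end Run7.h422.PP
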