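import Pool.Agent.Run7.h422.PP.Cnt

/-!
# Counting pairs of zeros by means of chains: the bounds
-/

set_option autoImplicit false

namespace Run7.h422.PP

open Complex Filter Topology Set

variable {f : ℂ → ℂ} {T θ K u ι : ℝ} {M : ℕ}

lemma ChF.zi (hf : Differentiable ℂ f) {ε : ℝ} {s : ℂ} {p : ℕ → ℂ} (h : ChF f ε M s p)
    {j : ℕ} (hj0 : 1 ≤ j) (hj : j ≤ M) : analyticOrderNatAt f (p j) = 1 := by
  obtain ⟨h1, h2⟩ := h.root hj0 hj
  exact order_one hf h1 h2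

/-- many partners -/
lemma Hyp.cc_ge (h : Hyp f T θ K u ι M) {v : ℝ} (hv : (1 - θ / 4) * Real.log T ≤ Real.log v)
    (huv : u ≤ v) {P : ℝ → Prop} (J : Finset ℕ)
    (hJ : ∀ j ∈ J, 1 ≤ j ∧ j ≤ M ∧ ∀ D : ℝ, j * (1 - θ) ≤ D → D ≤ j * (1 + θ) → P D)
    (N : Finset (ℂ × ℕ)) (hN : ∀ x, x ∈ N ↔ x ∈ NZ f T) {y : ℂ × ℕ} (hy : y ∈ N)
    (hvy : v < y.1.im) (hyT : y.1.im ≤ T - 1) (hb : y ∉ Bd f (θ / 4) M u T) :
    J.card ≤ cc N T P y := by
  classical
  obtain ⟨p, hp⟩ := h.good ((hN y).1 hy) (by linarith) hb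
  have huy : u < y.1.im := by linarith
  have hu1 := h.u1
  unfold cc
  refine Finset.card_le_card_of_injOn (fun j => (p j, 0)) ?_ ?_
  · intro j hj
    obtain ⟨hj1, hj2, hj3⟩ := hJ j hj
    rw [Finset.mem_coe, Finset.mem_filter, hN]
    have h1 := h.short huy hp hj2
    have h2 : y.1.im < (p j).im := by
      have := hp.smono (i := 0) (j := j) (by omega) hj2
      rwa [hp.zero] at this
    refine ⟨⟨?_, ?_, ?_⟩, ?_⟩
    · show 0 < analyticOrderNatAt f (p j)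
      rw [hp.zi h.diff hj1 hj2]
      exact one_pos
    · show 0 < (p j).im
      linarith
    · show (p j).im ≤ T
      linarith
    · exact hj3 _ (h.dlow (by linarith) huy hp hj2 0) (h.dup hv (by linarith) hvy hp hj2 0)
  · intro i hi j hj hij
    have h1 := congrArg Prod.fst hij
    simp only at h1
    obtain ⟨hi1, hi2, -⟩ := hJ i hi
    obtain ⟨hj1, hj2, -⟩ := hJ j hj
    rcases lt_trichotomy i j with h2 | h2 | h2
    · have := hp.smono h2 hj2
      rw [h1] at this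
      exact absurd this (lt_irrefl _)
    · exact h2
    · have := hp.smono h2 hi2
      rw [h1] at this
      exact absurd this (lt_irrefl _)

theorem Hyp.lower (h : Hyp f T θ K u ι M) (hM : 1 ≤ M) {v : ℝ}
    (hv : (1 - θ / 4) * Real.log T ≤ Real.log v)
    (huv : u ≤ v) (hvT : v ≤ T) {P : ℝ → Prop} (J : Finset ℕ)
    (hJ : ∀ j ∈ J, 1 ≤ j ∧ j ≤ M ∧ ∀ D : ℝ, j * (1 - θ) ≤ D → D ≤ j * (1 + θ) → P D) :
    (J.card : ℝ) * ((NZ f T).ncard - K * (v + 1) - K - M * ι) ≤ (PQ f T P).ncard := by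
  classical
  have hu1 := h.u1
  obtain ⟨N, hN⟩ : ∃ N : Finset (ℂ × ℕ), N = (h.nz_fin T).toFinset := ⟨_, rfl⟩
  have hN' : ∀ x, x ∈ N ↔ x ∈ NZ f T := fun x => by rw [hN, Set.Finite.mem_toFinset]
  have hNc : (NZ f T).ncard = N.card := by
    rw [hN, Set.ncard_eq_toFinset_card _ (h.nz_fin T)]
  obtain ⟨G, hG⟩ : ∃ G : Finset (ℂ × ℕ), G = N.filter fun y => v < y.1.im ∧ y.1.im ≤ T - 1 ∧
    y ∉ Bd f (θ / 4) M u T := ⟨_, rfl⟩
  have hWf : {p : ℂ × ℕ | p ∈ Zi f ∧ |p.1.im - T| ≤ 1}.Finite :=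
    (h.fin (T - 1) (T + 1)).subset fun p hp => by
      have := abs_le.1 hp.2
      exact ⟨hp.1, by linarith [this.1], by linarith [this.2]⟩
  have hBf : (Bd f (θ / 4) M u T).Finite :=
    (h.fin u T).subset fun p hp => ⟨hp.1, hp.2.1.le, hp.2.2.1⟩
  have hsub : NZ f T ⊆ ((G : Set (ℂ × ℕ)) ∪ NZ f v) ∪
      ({p : ℂ × ℕ | p ∈ Zi f ∧ |p.1.im - T| ≤ 1} ∪ Bd f (θ / 4) M u T) := by
    intro y hy
    by_cases h1 : v < y.1.im
    · by_cases h2 : y.1.im ≤ T - 1
      · by_cases h3 : y ∈ Bd f (θ / 4) M u T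
        · exact Or.inr (Or.inr h3)
        · left; left
          rw [hG, Finset.mem_coe, Finset.mem_filter, hN']
          exact ⟨hy, h1, h2, h3⟩
      · right; left
        push Not at h2
        refine ⟨hy.1, ?_⟩
        rw [abs_le]
        constructor <;> linarith [hy.2.2]
    · push Not at h1
      left; right
      exact ⟨hy.1, hy.2.1, h1⟩
  have h1 : (NZ f T).ncard ≤ (G.card + (NZ f v).ncard) +
      ({p : ℂ × ℕ | p ∈ Zi f ∧ |p.1.im - T| ≤ 1}.ncard + (Bd f (θ / 4) M u T).ncard) := by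
    refine (Set.ncard_le_ncard hsub ((G.finite_toSet.union (h.nz_fin v)).union (hWf.union hBf))).trans ?_
    refine (Set.ncard_union_le _ _).trans (add_le_add ?_ (Set.ncard_union_le _ _))
    refine (Set.ncard_union_le _ _).trans ?_
    rw [Set.ncard_coe_finset]
  have h2 : ((NZ f T).ncard : ℝ) ≤ (G.card + (NZ f v).ncard) +
      ({p : ℂ × ℕ | p ∈ Zi f ∧ |p.1.im - T| ≤ 1}.ncard + (Bd f (θ / 4) M u T).ncard) := by
    exact_mod_cast h1
  have h3 := h.low_le (X := v) (by linarith) hvT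
  have h4 := h.unit T (by linarith) (by linarith)
  have h5 := h.bad_le hM
  have h6 : J.card * G.card ≤ (PQ f T P).ncard := by
    rw [PQ_card N hN']
    calc J.card * G.card = ∑ y ∈ G, J.card := by rw [Finset.sum_const, smul_eq_mul, mul_comm]
      _ ≤ ∑ y ∈ G, cc N T P y := by
          refine Finset.sum_le_sum fun y hy => ?_
          rw [hG, Finset.mem_filter] at hy
          exact h.cc_ge hv huv J hJ N hN' hy.1 hy.2.1 hy.2.2.1 hy.2.2.2
      _ ≤ ∑ y ∈ N, cc N T P y := by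
          refine Finset.sum_le_sum_of_subset ?_
          rw [hG]
          exact Finset.filter_subset _ _
  have h7 : (J.card : ℝ) * G.card ≤ ((PQ f T P).ncard : ℝ) := by exact_mod_cast h6
  refine le_trans (mul_le_mul_of_nonneg_left ?_ (Nat.cast_nonneg _)) h7
  linarith

/-- few partners, chain version -/
lemma Hyp.cc_le (h : Hyp f T θ K u ι M) {P : ℝ → Prop} {b : ℝ}
    (hb : b < M * (1 - θ)) (hP : ∀ D, P D → 0 < D ∧ D ≤ b)
    (N : Finset (ℂ × ℕ)) (hN : ∀ x, x ∈ N ↔ x ∈ NZ f T) {y : ℂ × ℕ} (hy : y ∈ N)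
    (hvy : u < y.1.im) {p : ℕ → ℂ} (hp : ChF f (θ / 4) M y.1 p) (J : Finset ℕ)
    (hJ : ∀ j, 1 ≤ j → j ≤ M → P (DD T (p j, 0) y) → j ∈ J) :
    cc N T P y ≤ J.card := by
  classical
  have hyN := (hN y).1 hy
  have hL := Real.log_pos h.T1
  have hc : 0 < Real.log T / (2 * Real.pi) := div_pos hL (by have := Real.pi_pos; positivity)
  have hsub : (N.filter fun x => P (DD T x y)) ⊆ J.image fun j => (p j, 0) := by
    intro x hx
    rw [Finset.mem_filter, hN] at hx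
    obtain ⟨hx1, hx2⟩ := hx
    obtain ⟨h1, h2⟩ := hP _ hx2
    have h3 : y.1.im < x.1.im := by
      unfold DD at h1
      have := (mul_pos_iff_of_pos_right hc).1 h1
      linarith
    have h4 : x.1.im ≤ (p M).im := by
      have h5 := h.dlow hyN.2.2 hvy hp le_rfl 0
      have h6 : DD T x y < DD T (p M, 0) y := by linarith
      unfold DD at h6
      simp only at h6
      have h7 := lt_of_mul_lt_mul_right h6 hc.le
      linarith
    obtain ⟨j, hj1, hj2, hj3⟩ := hp.all M x.1 (Zi_zero h.diff hx1.1) h3 h4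
    have h8 : x.2 = 0 := by
      have h9 : x.2 < analyticOrderNatAt f x.1 := hx1.1
      rw [hj3, hp.zi h.diff hj1 hj2] at h9
      omega
    have h10 : x = (p j, 0) := Prod.ext hj3 h8
    rw [Finset.mem_image]
    refine ⟨j, hJ j hj1 hj2 ?_, h10.symm⟩
    rw [← h10]
    exact hx2
  unfold cc
  calc (N.filter fun x => P (DD T x y)).card ≤ (J.image fun j => (p j, 0)).card :=
        Finset.card_le_card (by convert hsub)
    _ ≤ J.card := Finset.card_image_le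

lemma Hyp.cc_unit (h : Hyp f T θ K u ι M) {P : ℝ → Prop} {b : ℝ}
    (hbL : 2 * Real.pi * b ≤ Real.log T) (hP : ∀ D, P D → 0 < D ∧ D ≤ b)
    (N : Finset (ℂ × ℕ)) (hN : ∀ x, x ∈ N ↔ x ∈ NZ f T) {y : ℂ × ℕ} (hy : y ∈ N) :
    (cc N T P y : ℝ) ≤ K := by
  classical
  have hyN := (hN y).1 hy
  have hL := Real.log_pos h.T1
  have hpi := Real.pi_pos
  have hc : 0 < Real.log T / (2 * Real.pi) := div_pos hL (by positivity)
  have hsub : (((N.filter fun x => P (DD T x y)) : Finset _) : Set (ℂ × ℕ)) ⊆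
      {p : ℂ × ℕ | p ∈ Zi f ∧ |p.1.im - y.1.im| ≤ 1} := by
    intro x hx
    rw [Finset.mem_coe, Finset.mem_filter, hN] at hx
    obtain ⟨hx1, hx2⟩ := hx
    obtain ⟨h1, h2⟩ := hP _ hx2
    unfold DD at h1 h2
    have h3 := (mul_pos_iff_of_pos_right hc).1 h1
    refine ⟨hx1.1, ?_⟩
    rw [abs_le]
    refine ⟨by linarith, ?_⟩
    by_contra hcon
    push Not at hcon
    have h4 : 1 * (Real.log T / (2 * Real.pi)) < (x.1.im - y.1.im) * (Real.log T / (2 * Real.pi)) :=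
      mul_lt_mul_of_pos_right hcon hc
    have h5 : b ≤ Real.log T / (2 * Real.pi) := by
      rw [le_div_iff₀ (by positivity)]
      linarith
    linarith
  have hf : {p : ℂ × ℕ | p ∈ Zi f ∧ |p.1.im - y.1.im| ≤ 1}.Finite :=
    (h.fin (y.1.im - 1) (y.1.im + 1)).subset fun p hp => by
      have := abs_le.1 hp.2
      exact ⟨hp.1, by linarith [this.1], by linarith [this.2]⟩
  have h1 := Set.ncard_le_ncard hsub hf
  rw [Set.ncard_coe_finset] at h1
  have h2 := h.unit y.1.im hyN.2.1.le (by linarith [hyN.2.2])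
  have h3 : (cc N T P y : ℝ) ≤ ({p : ℂ × ℕ | p ∈ Zi f ∧ |p.1.im - y.1.im| ≤ 1}.ncard : ℝ) := by
    unfold cc
    exact_mod_cast h1
  exact h3.trans h2

theorem Hyp.upper (h : Hyp f T θ K u ι M) (hM : 1 ≤ M) {v : ℝ}
    (hv : (1 - θ / 4) * Real.log T ≤ Real.log v)
    (huv : u ≤ v) (hvT : v ≤ T) {P : ℝ → Prop} {b : ℝ}
    (hb : b < M * (1 - θ)) (hbL : 2 * Real.pi * b ≤ Real.log T) (hP : ∀ D, P D → 0 < D ∧ D ≤ b)
    (J : Finset ℕ)
    (hJ : ∀ j, 1 ≤ j → j ≤ M → ∀ D : ℝ, j * (1 - θ) ≤ D → D ≤ j * (1 + θ) → P D → j ∈ J) :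
    ((PQ f T P).ncard : ℝ) ≤ J.card * (NZ f T).ncard + M * (K * (v + 1)) +
      K * (M * ι + K * (u + 1)) := by
  classical
  have hu1 := h.u1
  have hK0 := h.K0
  obtain ⟨N, hN⟩ : ∃ N : Finset (ℂ × ℕ), N = (h.nz_fin T).toFinset := ⟨_, rfl⟩
  have hN' : ∀ x, x ∈ N ↔ x ∈ NZ f T := fun x => by rw [hN, Set.Finite.mem_toFinset]
  have hNc : (NZ f T).ncard = N.card := by
    rw [hN, Set.ncard_eq_toFinset_card _ (h.nz_fin T)]
  have hBf : (Bd f (θ / 4) M u T).Finite :=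
    (h.fin u T).subset fun p hp => ⟨hp.1, hp.2.1.le, hp.2.2.1⟩
  -- the pointwise bound
  have hpt : ∀ y ∈ N, (cc N T P y : ℝ) ≤ (J.card : ℝ) + (if y.1.im ≤ v then (M : ℝ) else 0) +
      ((if y ∈ Bd f (θ / 4) M u T then K else 0) + (if y.1.im ≤ u then K else 0)) := by
    intro y hy
    have hyN := (hN' y).1 hy
    have hJ0 : (0 : ℝ) ≤ J.card := Nat.cast_nonneg _
    have hM0 : (0 : ℝ) ≤ M := Nat.cast_nonneg _
    have i1 : (0 : ℝ) ≤ (if y.1.im ≤ v then (M : ℝ) else 0) := by split_ifs <;> simp [hM0]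
    have i2 : (0 : ℝ) ≤ (if y ∈ Bd f (θ / 4) M u T then K else 0) := by split_ifs <;> simp [hK0]
    have i3 : (0 : ℝ) ≤ (if y.1.im ≤ u then K else 0) := by split_ifs <;> simp [hK0]
    by_cases h1 : y.1.im ≤ u
    · have h2 := h.cc_unit hbL hP N hN' hy
      have h3 : (if y.1.im ≤ u then K else 0) = K := if_pos h1
      linarith
    push Not at h1
    by_cases h2 : y ∈ Bd f (θ / 4) M u T
    · have h2' := h.cc_unit hbL hP N hN' hy
      have h3 : (if y ∈ Bd f (θ / 4) M u T then K else 0) = K := if_pos h2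
      linarith
    obtain ⟨p, hp⟩ := h.good hyN h1 h2
    by_cases h3 : y.1.im ≤ v
    · have h4 := h.cc_le hb hP N hN' hy h1 hp (Finset.Icc 1 M)
        (fun j hj1 hj2 _ => Finset.mem_Icc.2 ⟨hj1, hj2⟩)
      rw [Nat.card_Icc] at h4
      have h5 : (cc N T P y : ℝ) ≤ M := by
        have : cc N T P y ≤ M := by omega
        exact_mod_cast this
      have h6 : (if y.1.im ≤ v then (M : ℝ) else 0) = M := if_pos h3
      linarith
    · push Not at h3
      have h4 := h.cc_le hb hP N hN' hy h1 hp J (fun j hj1 hj2 hj3 =>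
        hJ j hj1 hj2 _ (h.dlow hyN.2.2 h1 hp hj2 0) (h.dup hv (by linarith) h3 hp hj2 0) hj3)
      have h5 : (cc N T P y : ℝ) ≤ J.card := by exact_mod_cast h4
      linarith
  rw [PQ_card N hN']
  push_cast
  have hsum := Finset.sum_le_sum hpt
  rw [Finset.sum_add_distrib, Finset.sum_add_distrib, Finset.sum_add_distrib] at hsum
  have s1 : ∑ y ∈ N, (J.card : ℝ) = J.card * (NZ f T).ncard := by
    rw [Finset.sum_const, nsmul_eq_mul, hNc]; ring
  have hcount : ∀ (Q : ℂ × ℕ → Prop) (c B : ℝ) (S : Set (ℂ × ℕ)), 0 ≤ c → S.Finite →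
      (∀ y ∈ N, Q y → y ∈ S) → (S.ncard : ℝ) ≤ B →
      ∑ y ∈ N, (if Q y then c else 0) ≤ c * B := by
    intro Q c B S hc hS hQ hB
    rw [← Finset.sum_filter, Finset.sum_const, nsmul_eq_mul]
    have h1 : (N.filter Q).card ≤ S.ncard := by
      rw [← Set.ncard_coe_finset]
      refine Set.ncard_le_ncard ?_ hS
      intro y hy
      rw [Finset.mem_coe, Finset.mem_filter] at hy
      exact hQ y hy.1 hy.2
    have h2 : ((N.filter Q).card : ℝ) ≤ B := le_trans (by exact_mod_cast h1) hB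
    calc ((N.filter Q).card : ℝ) * c ≤ B * c := mul_le_mul_of_nonneg_right h2 hc
      _ = c * B := by ring
  have s2 := hcount (fun y => y.1.im ≤ v) M (K * (v + 1)) (NZ f v) (Nat.cast_nonneg _) (h.nz_fin v)
    (fun y hy hq => ⟨((hN' y).1 hy).1, ((hN' y).1 hy).2.1, hq⟩) (h.low_le (by linarith) hvT)
  have s3 := hcount (fun y => y ∈ Bd f (θ / 4) M u T) K (M * ι) (Bd f (θ / 4) M u T) hK0 hBf
    (fun y hy hq => hq) (h.bad_le hM)
  have s4 := hcount (fun y => y.1.im ≤ u) K (K * (u + 1)) (NZ f u) hK0 (h.nz_fin u)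
    (fun y hy hq => ⟨((hN' y).1 hy).1, ((hN' y).1 hy).2.1, hq⟩)
    (h.low_le (by linarith) (huv.trans hvT))
  have s5 : K * (M * ι + K * (u + 1)) = K * (M * ι) + K * (K * (u + 1)) := by ring
  rw [s1] at hsum
  rw [s5]
  linarith

end Run7.h422.PP
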