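import Mathlib

/-!
# Sums over pairs of points: tails
-/

set_option autoImplicit false

namespace Run7.h422.PP

open Finset

variable {ι : Type*} [DecidableEq ι]

/-- the number of pairs at distance at most one -/
noncomputable def QQ (P : Finset ι) (x : ι → ℝ) : ℝ :=
  (((P ×ˢ P).filter fun y => |x y.1 - x y.2| ≤ 1).card : ℝ)

lemma cls_le (P : Finset ι) (x : ι → ℝ) (d : ℤ) :
    (((P ×ˢ P).filter fun y => ⌊x y.1⌋ - ⌊x y.2⌋ = d).card : ℝ) ≤ QQ P x := by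
  classical
  set S : Finset ℤ := P.image fun p => ⌊x p⌋ with hS
  set a : ℤ → ℝ := fun n => ((P.filter fun p => ⌊x p⌋ = n).card : ℝ) with ha
  have ha0 : ∀ n, 0 ≤ a n := fun n => Nat.cast_nonneg _
  have hout : ∀ n, n ∉ S → a n = 0 := by
    intro n hn
    simp only [ha, Nat.cast_eq_zero, Finset.card_eq_zero, Finset.filter_eq_empty_iff]
    intro p hp h
    exact hn (Finset.mem_image.2 ⟨p, hp, h⟩)
  have key : ∀ d : ℤ, (((P ×ˢ P).filter fun y => ⌊x y.1⌋ - ⌊x y.2⌋ = d).card : ℝ) =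
      ∑ n ∈ S, a n * a (n - d) := by
    intro d
    have h1 := Finset.card_eq_sum_card_fiberwise (f := fun y : ι × ι => ⌊x y.1⌋)
      (s := (P ×ˢ P).filter fun y => ⌊x y.1⌋ - ⌊x y.2⌋ = d) (t := S) (by
        intro y hy
        have hy1 := (Finset.mem_product.1 (Finset.mem_filter.1 (Finset.mem_coe.1 hy)).1).1
        exact Finset.mem_coe.2 (Finset.mem_image.2 ⟨y.1, hy1, rfl⟩))
    rw [h1, Nat.cast_sum]
    refine Finset.sum_congr rfl fun n _ => ?_
    have h2 : ((P ×ˢ P).filter fun y => ⌊x y.1⌋ - ⌊x y.2⌋ = d).filter (fun y => ⌊x y.1⌋ = n) =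
        (P.filter fun p => ⌊x p⌋ = n) ×ˢ (P.filter fun p => ⌊x p⌋ = n - d) := by
      ext y
      simp only [Finset.mem_filter, Finset.mem_product]
      constructor
      · rintro ⟨⟨⟨h3, h4⟩, h5⟩, h6⟩
        exact ⟨⟨h3, h6⟩, h4, by omega⟩
      · rintro ⟨⟨h3, h4⟩, h5, h6⟩
        exact ⟨⟨⟨h3, h5⟩, by omega⟩, h4⟩
    rw [h2, Finset.card_product, Nat.cast_mul]
  have hshift : ∑ n ∈ S, a (n - d) ^ 2 ≤ ∑ n ∈ S, a n ^ 2 := by
    have h1 : ∑ n ∈ S, a (n - d) ^ 2 = ∑ m ∈ S.image (fun n => n - d), a m ^ 2 := by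
      refine (Finset.sum_image (f := fun m => a m ^ 2) (g := fun n => n - d) (s := S) ?_).symm
      intro n _ m _ h
      have h' : n - d = m - d := h
      omega
    rw [h1]
    have h2 : ∑ m ∈ S.image (fun n => n - d), a m ^ 2 =
        ∑ m ∈ (S.image (fun n => n - d)).filter (fun m => m ∈ S), a m ^ 2 := by
      symm
      refine Finset.sum_filter_of_ne ?_
      intro m _ hm
      by_contra hcon
      apply hm
      rw [hout m hcon]
      norm_num
    rw [h2]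
    refine Finset.sum_le_sum_of_subset_of_nonneg ?_ fun _ _ _ => sq_nonneg _
    intro m hm
    exact (Finset.mem_filter.1 hm).2
  have h0 : ∑ n ∈ S, a n ^ 2 ≤ QQ P x := by
    have h1 := key 0
    have h2 : ∑ n ∈ S, a n * a (n - 0) = ∑ n ∈ S, a n ^ 2 := by
      refine Finset.sum_congr rfl fun n _ => ?_
      rw [sub_zero, sq]
    rw [← h2, ← h1]
    unfold QQ
    have h3 : ((P ×ˢ P).filter fun y => ⌊x y.1⌋ - ⌊x y.2⌋ = 0) ⊆
        ((P ×ˢ P).filter fun y => |x y.1 - x y.2| ≤ 1) := by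
      intro y hy
      rw [Finset.mem_filter] at hy ⊢
      refine ⟨hy.1, ?_⟩
      have h4 : ⌊x y.1⌋ = ⌊x y.2⌋ := by omega
      exact (Int.abs_sub_lt_one_of_floor_eq_floor h4).le
    exact_mod_cast Finset.card_le_card h3
  rw [key d]
  calc ∑ n ∈ S, a n * a (n - d) ≤ ∑ n ∈ S, (a n ^ 2 / 2 + a (n - d) ^ 2 / 2) := by
        refine Finset.sum_le_sum fun n _ => ?_
        nlinarith [sq_nonneg (a n - a (n - d))]
    _ = (∑ n ∈ S, a n ^ 2) / 2 + (∑ n ∈ S, a (n - d) ^ 2) / 2 := by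
        rw [Finset.sum_add_distrib, Finset.sum_div, Finset.sum_div]
    _ ≤ QQ P x := by linarith

omit [DecidableEq ι] in
lemma QQ_nonneg (P : Finset ι) (x : ι → ℝ) : 0 ≤ QQ P x := Nat.cast_nonneg _

lemma sum_le_cls (P : Finset ι) (x : ι → ℝ) (s : Finset (ι × ι)) (hs : s ⊆ P ×ˢ P) (J : Finset ℤ)
    (hJ : ∀ y ∈ s, ⌊x y.1⌋ - ⌊x y.2⌋ ∈ J) :
    ∑ y ∈ s, 1 / (1 + (x y.1 - x y.2) ^ 2) ≤ (3 * ∑ d ∈ J, 1 / (1 + (d : ℝ) ^ 2)) * QQ P x := by
  classical
  rw [← Finset.sum_fiberwise_of_maps_to (g := fun y : ι × ι => ⌊x y.1⌋ - ⌊x y.2⌋) hJ]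
  rw [Finset.mul_sum, Finset.sum_mul]
  refine Finset.sum_le_sum fun d _ => ?_
  have h1 : ∀ y ∈ s.filter (fun y => ⌊x y.1⌋ - ⌊x y.2⌋ = d), 1 / (1 + (x y.1 - x y.2) ^ 2) ≤
      3 * (1 / (1 + (d : ℝ) ^ 2)) := by
    intro y hy
    have h2 : ((⌊x y.1⌋ : ℝ) - ⌊x y.2⌋) = d := by exact_mod_cast (Finset.mem_filter.1 hy).2
    have e1 := Int.floor_le (x y.1)
    have e2 := Int.lt_floor_add_one (x y.1)
    have e3 := Int.floor_le (x y.2)
    have e4 := Int.lt_floor_add_one (x y.2)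
    have h3 : |(d : ℝ) - (x y.1 - x y.2)| ≤ 1 := by
      rw [abs_le]
      constructor <;> linarith
    have h4 : (d : ℝ) ^ 2 ≤ 2 * (x y.1 - x y.2) ^ 2 + 2 := by
      have h5 := abs_le.1 h3
      nlinarith [sq_nonneg ((x y.1 - x y.2) - ((d : ℝ) - (x y.1 - x y.2))), h5.1, h5.2,
        mul_nonneg (sub_nonneg.2 h5.2) (by linarith [h5.1] : (0 : ℝ) ≤ ((d : ℝ) - (x y.1 - x y.2)) + 1)]
    rw [mul_one_div, div_le_div_iff₀ (by positivity) (by positivity)]
    nlinarith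
  calc ∑ y ∈ s.filter (fun y => ⌊x y.1⌋ - ⌊x y.2⌋ = d), 1 / (1 + (x y.1 - x y.2) ^ 2)
      ≤ ∑ _y ∈ s.filter (fun y => ⌊x y.1⌋ - ⌊x y.2⌋ = d), 3 * (1 / (1 + (d : ℝ) ^ 2)) :=
        Finset.sum_le_sum h1
    _ = ((s.filter (fun y => ⌊x y.1⌋ - ⌊x y.2⌋ = d)).card : ℝ) * (3 * (1 / (1 + (d : ℝ) ^ 2))) := by
        rw [Finset.sum_const, nsmul_eq_mul]
    _ ≤ QQ P x * (3 * (1 / (1 + (d : ℝ) ^ 2))) := by
        refine mul_le_mul_of_nonneg_right ?_ (by positivity)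
        refine le_trans ?_ (cls_le P x d)
        exact_mod_cast Finset.card_le_card (Finset.filter_subset_filter _ hs)
    _ = 3 * (1 / (1 + (d : ℝ) ^ 2)) * QQ P x := by ring

lemma summ : Summable fun d : ℤ => 1 / (1 + (d : ℝ) ^ 2) := by
  have h : Summable fun d : ℤ => 1 / (d : ℝ) ^ 2 := Real.summable_one_div_int_pow.2 (by norm_num)
  have h2 : Summable fun d : ℤ => if d = 0 then (1 : ℝ) else 0 :=
    summable_of_ne_finset_zero (s := {0}) (fun d hd => if_neg (by simpa using hd))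
  refine Summable.of_nonneg_of_le (fun d => by positivity) (fun d => ?_) (h.add h2)
  by_cases hd : d = 0
  · subst hd
    simp
  · rw [if_neg hd, add_zero]
    have : (0 : ℝ) < (d : ℝ) ^ 2 := by
      have : (d : ℝ) ≠ 0 := by exact_mod_cast hd
      positivity
    exact one_div_le_one_div_of_le this (by linarith)

theorem tot_pairs : ∃ C : ℝ, 0 < C ∧ ∀ (P : Finset ι) (x : ι → ℝ),
    ∑ y ∈ P ×ˢ P, 1 / (1 + (x y.1 - x y.2) ^ 2) ≤ C * QQ P x := by
  classical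
  refine ⟨3 * (∑' d : ℤ, 1 / (1 + (d : ℝ) ^ 2)) + 1, ?_, fun P x => ?_⟩
  · have : 0 ≤ ∑' d : ℤ, 1 / (1 + (d : ℝ) ^ 2) := tsum_nonneg fun d => by positivity
    linarith
  · refine (sum_le_cls P x _ subset_rfl ((P ×ˢ P).image fun y => ⌊x y.1⌋ - ⌊x y.2⌋)
      (fun y hy => Finset.mem_image_of_mem _ hy)).trans ?_
    refine mul_le_mul_of_nonneg_right ?_ (QQ_nonneg P x)
    have := summ.sum_le_tsum ((P ×ˢ P).image fun y => ⌊x y.1⌋ - ⌊x y.2⌋) (fun d _ => by positivity)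
    linarith

theorem tail_pairs {ε : ℝ} (hε : 0 < ε) : ∃ K : ℝ, 0 < K ∧ ∀ (P : Finset ι) (x : ι → ℝ),
    ∑ y ∈ (P ×ˢ P).filter (fun y => K < |x y.1 - x y.2|), 1 / (1 + (x y.1 - x y.2) ^ 2) ≤ ε * QQ P x := by
  classical
  obtain ⟨s, hs⟩ := summable_iff_vanishing_norm.1 summ (ε / 3) (by positivity)
  obtain ⟨k, hk⟩ : ∃ k : ℕ, ∀ d ∈ s, |d| ≤ (k : ℤ) := by
    refine ⟨∑ d ∈ s, d.natAbs, fun d hd => ?_⟩
    have h1 : d.natAbs ≤ ∑ d ∈ s, d.natAbs := Finset.single_le_sum (fun _ _ => Nat.zero_le _) hd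
    have h2 : |d| = (d.natAbs : ℤ) := (Int.natCast_natAbs d).symm
    rw [h2]
    exact_mod_cast h1
  refine ⟨k + 1, by positivity, fun P x => ?_⟩
  set s' := (P ×ˢ P).filter (fun y => ((k : ℝ) + 1) < |x y.1 - x y.2|) with hs'
  refine (sum_le_cls P x s' (Finset.filter_subset _ _) (s'.image fun y => ⌊x y.1⌋ - ⌊x y.2⌋)
    (fun y hy => Finset.mem_image_of_mem _ hy)).trans ?_
  refine mul_le_mul_of_nonneg_right ?_ (QQ_nonneg P x)
  have hd : Disjoint (s'.image fun y => ⌊x y.1⌋ - ⌊x y.2⌋) s := by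
    rw [Finset.disjoint_left]
    intro d hd1 hd2
    obtain ⟨y, hy, rfl⟩ := Finset.mem_image.1 hd1
    have h1 := (Finset.mem_filter.1 hy).2
    have h2 : |((⌊x y.1⌋ - ⌊x y.2⌋ : ℤ) : ℝ)| ≤ k := by exact_mod_cast hk _ hd2
    push_cast at h2
    have e1 := Int.floor_le (x y.1)
    have e2 := Int.lt_floor_add_one (x y.1)
    have e3 := Int.floor_le (x y.2)
    have e4 := Int.lt_floor_add_one (x y.2)
    have h3 := abs_le.1 h2
    have h4 : |x y.1 - x y.2| ≤ k + 1 := by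
      rw [abs_le]
      constructor <;> linarith [h3.1, h3.2]
    linarith
  have h1 := hs _ hd
  rw [Real.norm_eq_abs, abs_of_nonneg (Finset.sum_nonneg fun d _ => by positivity)] at h1
  linarith

/-- the weight -/
noncomputable def ww (u : ℝ) : ℝ := 4 / (4 + u ^ 2)

/-- a cut-off function -/
noncomputable def chi (K D : ℝ) : ℝ := max 0 (min 1 (K + 1 - |D|))

lemma chi_one {K D : ℝ} (h : |D| ≤ K) : chi K D = 1 := by
  unfold chi
  rw [min_eq_left (by linarith), max_eq_right zero_le_one]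

lemma chi_nonneg (K D : ℝ) : 0 ≤ chi K D := le_max_left _ _

lemma chi_le (K D : ℝ) : chi K D ≤ 1 := max_le zero_le_one (min_le_left _ _)

lemma chi_zero {K D : ℝ} (h : K + 1 ≤ |D|) : chi K D = 0 := by
  unfold chi
  exact max_eq_left ((min_le_right _ _).trans (by linarith))

theorem cut_pairs {g : ℝ → ℂ} {C : ℝ} (hC : 0 ≤ C) (hg : ∀ D, ‖g D‖ ≤ C / (1 + D ^ 2)) {ε : ℝ} (hε : 0 < ε) :
    ∃ K0 : ℝ, 0 < K0 ∧ ∀ K : ℝ, K0 ≤ K → ∃ c0 : ℝ, 0 < c0 ∧ ∀ (P : Finset ι) (x : ι → ℝ) (c : ℝ), c0 ≤ c →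
      ‖∑ y ∈ P ×ˢ P, g (x y.1 - x y.2) * (ww ((x y.1 - x y.2) / c) : ℝ) -
        ∑ y ∈ P ×ˢ P, g (x y.1 - x y.2) * (chi K (x y.1 - x y.2) : ℝ)‖ ≤ ε * QQ P x := by
  classical
  obtain ⟨C1, hC1, htot⟩ := tot_pairs (ι := ι)
  obtain ⟨K0, hK0, htail⟩ := tail_pairs (ι := ι) (show 0 < ε / (2 * (C + 1)) by positivity)
  refine ⟨K0, hK0, fun K hK => ?_⟩
  set ε' : ℝ := ε / (2 * (C + 1) * C1) with hε'
  have hε'0 : 0 < ε' := by positivity
  refine ⟨K ^ 2 / ε' + 1, by positivity, fun P x c hc => ?_⟩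
  have hc0 : 0 < c := lt_of_lt_of_le (by positivity) hc
  have hc1 : 1 ≤ c := le_trans (by have : 0 ≤ K ^ 2 / ε' := by positivity
                                   linarith) hc
  have hsmall : ∀ D : ℝ, |D| ≤ K → |ww (D / c) - chi K D| ≤ ε' := by
    intro D hD
    rw [chi_one hD]
    have h1 : ww (D / c) - 1 = -((D / c) ^ 2 / (4 + (D / c) ^ 2)) := by
      unfold ww
      field_simp
      ring
    rw [h1, abs_neg, abs_of_nonneg (by positivity)]
    have h2 : (D / c) ^ 2 / (4 + (D / c) ^ 2) ≤ (D / c) ^ 2 :=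
      div_le_self (by positivity) (by nlinarith [sq_nonneg (D / c)])
    have h3 : (D / c) ^ 2 ≤ K ^ 2 / c := by
      rw [div_pow]
      have h4 : D ^ 2 ≤ K ^ 2 := sq_le_sq' (by linarith [(abs_le.1 hD).1]) (abs_le.1 hD).2
      have h5 : c ≤ c ^ 2 := by nlinarith
      exact div_le_div₀ (by positivity) h4 hc0 h5
    have h6 : K ^ 2 / c ≤ ε' := by
      rw [div_le_iff₀ hc0]
      have h7 : K ^ 2 / ε' ≤ c := by linarith
      rw [div_le_iff₀ hε'0] at h7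
      linarith
    linarith
  have hbig : ∀ D : ℝ, |ww (D / c) - chi K D| ≤ 1 := by
    intro D
    have h1 : 0 ≤ ww (D / c) := by unfold ww; positivity
    have h2 : ww (D / c) ≤ 1 := by
      unfold ww
      rw [div_le_one (by positivity)]
      nlinarith [sq_nonneg (D / c)]
    have h3 := chi_nonneg K D
    have h4 := chi_le K D
    rw [abs_le]
    constructor <;> linarith
  rw [← Finset.sum_sub_distrib]
  refine (norm_sum_le _ _).trans ?_
  have hpt : ∀ y ∈ P ×ˢ P, ‖g (x y.1 - x y.2) * (ww ((x y.1 - x y.2) / c) : ℝ) -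
      g (x y.1 - x y.2) * (chi K (x y.1 - x y.2) : ℝ)‖ ≤
      C * ε' * (1 / (1 + (x y.1 - x y.2) ^ 2)) +
        (if K0 < |x y.1 - x y.2| then C * (1 / (1 + (x y.1 - x y.2) ^ 2)) else 0) := by
    intro y _
    set D : ℝ := x y.1 - x y.2 with hD
    have e : g D * (ww (D / c) : ℝ) - g D * (chi K D : ℝ) = g D * ((ww (D / c) - chi K D : ℝ) : ℂ) := by
      push_cast
      ring
    rw [e, norm_mul, Complex.norm_real, Real.norm_eq_abs]
    have h1 := hg D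
    have h0 : 0 ≤ C / (1 + D ^ 2) := by positivity
    by_cases h : K0 < |D|
    · rw [if_pos h]
      have h2 : ‖g D‖ * |ww (D / c) - chi K D| ≤ C / (1 + D ^ 2) * 1 :=
        mul_le_mul h1 (hbig D) (abs_nonneg _) h0
      have h3 : 0 ≤ C * ε' * (1 / (1 + D ^ 2)) := by positivity
      have h4 : C / (1 + D ^ 2) * 1 = C * (1 / (1 + D ^ 2)) := by ring
      linarith
    · rw [if_neg h, add_zero]
      have h2 : ‖g D‖ * |ww (D / c) - chi K D| ≤ C / (1 + D ^ 2) * ε' :=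
        mul_le_mul h1 (hsmall D (by linarith)) (abs_nonneg _) h0
      have h4 : C / (1 + D ^ 2) * ε' = C * ε' * (1 / (1 + D ^ 2)) := by ring
      linarith
  refine (Finset.sum_le_sum hpt).trans ?_
  rw [Finset.sum_add_distrib, ← Finset.mul_sum, ← Finset.sum_filter, ← Finset.mul_sum]
  have h1 := mul_le_mul_of_nonneg_left (htot P x) (show 0 ≤ C * ε' by positivity)
  have h2 := mul_le_mul_of_nonneg_left (htail P x) hC
  have h3 := QQ_nonneg P x
  have h4 : C * ε' * (C1 * QQ P x) ≤ ε / 2 * QQ P x := by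
    have e : C * ε' * (C1 * QQ P x) = C / (C + 1) * (ε / 2 * QQ P x) := by
      rw [hε']
      field_simp
    rw [e]
    exact mul_le_of_le_one_left (by positivity) (by rw [div_le_one (by positivity)]; linarith)
  have h5 : C * (ε / (2 * (C + 1)) * QQ P x) ≤ ε / 2 * QQ P x := by
    have e : C * (ε / (2 * (C + 1)) * QQ P x) = C / (C + 1) * (ε / 2 * QQ P x) := by
      field_simp
    rw [e]
    exact mul_le_of_le_one_left (by positivity) (by rw [div_le_one (by positivity)]; linarith)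
  linarith

end Run7.h422.PP
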