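import Mathlib

/-!
# From counts on intervals to sums over continuous functions
-/

set_option autoImplicit false

namespace Run7.h422.PP

open Finset

/-- the number of points in `[a, b]` -/
noncomputable def nn2 {κ : Type*} (E : Finset κ) (D : κ → ℝ) (a b : ℝ) : ℝ :=
  ((E.filter fun y => a ≤ D y ∧ D y ≤ b).card : ℝ)

lemma nn2_nonneg {κ : Type*} (E : Finset κ) (D : κ → ℝ) (a b : ℝ) : 0 ≤ nn2 E D a b := Nat.cast_nonneg _

lemma nn2_eq {κ : Type*} (E : Finset κ) (D : κ → ℝ) (a b : ℝ) :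
    nn2 E D a b = ∑ y ∈ E, (if a ≤ D y ∧ D y ≤ b then (1 : ℝ) else 0) := by
  unfold nn2
  rw [Finset.sum_ite, Finset.sum_const, Finset.sum_const_zero, add_zero, nsmul_eq_mul, mul_one]

/-- nonnegative Lipschitz functions with compact support whose superlevel sets are intervals -/
structure Uni (H : ℝ → ℝ) (M R : ℝ) : Prop where
  nonneg : ∀ x, 0 ≤ H x
  lip : ∀ x y, |H x - H y| ≤ M * |x - y|
  supp : ∀ x, R < |x| → H x = 0
  icc : ∀ s, 0 < s → ∃ a b : ℝ, (a ≤ b ∨ b + 2 < a) ∧ ∀ x, s ≤ H x ↔ a ≤ x ∧ x ≤ b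

theorem uni_mk {H : ℝ → ℝ} {M R : ℝ} (hM : 0 ≤ M) (h0 : ∀ x, 0 ≤ H x) (h1 : ∀ x y, |H x - H y| ≤ M * |x - y|)
    (h2 : ∀ x, R < |x| → H x = 0) (h3 : ∀ x y z, x ≤ y → y ≤ z → min (H x) (H z) ≤ H y) : Uni H M R := by
  refine ⟨h0, h1, h2, fun s hs => ?_⟩
  have hcont : Continuous H := by
    refine (LipschitzWith.of_dist_le_mul (K := ⟨M, hM⟩) fun x y => ?_).continuous
    rw [Real.dist_eq, Real.dist_eq]
    exact h1 x y
  set S : Set ℝ := {x | s ≤ H x} with hS
  have hcl : IsClosed S := isClosed_le continuous_const hcont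
  have hbd : ∀ x ∈ S, |x| ≤ R := by
    intro x hx
    by_contra hcon
    push Not at hcon
    have hx' : s ≤ H x := hx
    rw [h2 x hcon] at hx'
    linarith
  rcases S.eq_empty_or_nonempty with hSe | hSn
  · refine ⟨2, -2, Or.inr (by norm_num), fun x => ⟨fun hx => ?_, fun hx => by linarith [hx.1, hx.2]⟩⟩
    have : x ∈ S := hx
    rw [hSe] at this
    exact absurd this (Set.notMem_empty x)
  · have hb : BddBelow S := ⟨-R, fun x hx => (abs_le.1 (hbd x hx)).1⟩
    have ha : BddAbove S := ⟨R, fun x hx => (abs_le.1 (hbd x hx)).2⟩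
    have m1 : s ≤ H (sInf S) := hcl.csInf_mem hSn hb
    have m2 : s ≤ H (sSup S) := hcl.csSup_mem hSn ha
    obtain ⟨x0, hx0⟩ := hSn
    refine ⟨sInf S, sSup S, Or.inl ((csInf_le hb hx0).trans (le_csSup ha hx0)), fun x => ⟨fun hx => ?_, fun hx => ?_⟩⟩
    · exact ⟨csInf_le hb hx, le_csSup ha hx⟩
    · exact (le_min m1 m2).trans (h3 _ x _ hx.1 hx.2)

/-- one-sided comparison -/
theorem uni_le {H : ℝ → ℝ} {M R : ℝ} (hH : Uni H M R) (hM : 0 ≤ M) (hR : 0 ≤ R) {ε : ℝ} (hε : 0 < ε) :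
    ∃ (δ : ℝ) (n : ℕ) (a b : ℕ → ℝ), 0 < δ ∧ δ ≤ 1 ∧
      ∀ {κ1 κ2 : Type} (E1 : Finset κ1) (D1 : κ1 → ℝ) (E2 : Finset κ2) (D2 : κ2 → ℝ) (X : ℝ), 0 ≤ X →
      (∀ k < n, nn2 E1 D1 (a k) (b k) ≤ nn2 E2 D2 (a k - δ) (b k + δ) + δ * X) →
      ∑ y ∈ E1, H (D1 y) ≤ ∑ y ∈ E2, H (D2 y) +
        ε * (X + nn2 E1 D1 (-R) R + nn2 E2 D2 (-(R + 1)) (R + 1)) := by
  classical
  -- an upper bound
  set B : ℝ := M * (2 * R + 2) with hB
  have hBle : ∀ x, H x ≤ B := by
    intro x
    by_cases hx : R < |x|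
    · rw [hH.supp x hx]
      positivity
    · push Not at hx
      have h1 := hH.lip x (R + 1)
      rw [hH.supp (R + 1) (by rw [abs_of_pos (by linarith)]; linarith), sub_zero] at h1
      have h2 : |x - (R + 1)| ≤ 2 * R + 2 := by
        have := abs_le.1 hx
        rw [abs_le]
        constructor <;> linarith
      exact (le_abs_self _).trans (h1.trans (mul_le_mul_of_nonneg_left h2 hM))
  obtain ⟨n, hn⟩ := exists_nat_ge (B / ε + 1)
  have hnB : B ≤ n * ε := by
    have h1 : B / ε ≤ n := by linarith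
    rwa [div_le_iff₀ hε] at h1
  have hn1 : (1 : ℝ) ≤ n := by
    have h1 : 0 ≤ B / ε := by positivity
    linarith
  choose a b hne hab using fun k : ℕ => hH.icc (((k : ℝ) + 1) * ε) (by positivity)
  set δ : ℝ := min (min 1 (ε / (M + 1))) (1 / n) with hδ
  have hδ0 : 0 < δ := lt_min (lt_min one_pos (by positivity)) (by positivity)
  have hδ1 : δ ≤ 1 := (min_le_left _ _).trans (min_le_left _ _)
  have hδM : M * δ ≤ ε := by
    calc M * δ ≤ M * (ε / (M + 1)) := mul_le_mul_of_nonneg_left ((min_le_left _ _).trans (min_le_right _ _)) hM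
      _ = M / (M + 1) * ε := by ring
      _ ≤ 1 * ε := mul_le_mul_of_nonneg_right (by rw [div_le_one (by positivity)]; linarith) hε.le
      _ = ε := one_mul ε
  have hδn : n * δ ≤ 1 := by
    calc (n : ℝ) * δ ≤ n * (1 / n) := mul_le_mul_of_nonneg_left (min_le_right _ _) (by positivity)
      _ = 1 := by field_simp
  refine ⟨δ, n, a, b, hδ0, hδ1, ?_⟩
  intro κ1 κ2 E1 D1 E2 D2 X hX hcmp
  -- upper bound by levels
  have h1 : ∀ x, H x ≤ ε * (∑ k ∈ range n, (if a k ≤ x ∧ x ≤ b k then (1 : ℝ) else 0)) +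
      ε * (if -R ≤ x ∧ x ≤ R then (1 : ℝ) else 0) := by
    intro x
    by_cases hx : R < |x|
    · rw [hH.supp x hx]
      have : 0 ≤ ∑ k ∈ range n, (if a k ≤ x ∧ x ≤ b k then (1 : ℝ) else 0) :=
        Finset.sum_nonneg fun k _ => by split_ifs <;> norm_num
      have h3 : (0 : ℝ) ≤ (if -R ≤ x ∧ x ≤ R then (1 : ℝ) else 0) := by split_ifs <;> norm_num
      positivity
    · push Not at hx
      rw [if_pos (abs_le.1 hx), mul_one]
      have h2 : range ⌊H x / ε⌋₊ ⊆ (range n).filter fun k => a k ≤ x ∧ x ≤ b k := by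
        intro k hk
        rw [Finset.mem_range] at hk
        have h3 : ((k + 1 : ℕ) : ℝ) ≤ H x / ε := by
          have h4 : k + 1 ≤ ⌊H x / ε⌋₊ := hk
          exact (Nat.le_floor_iff (div_nonneg (hH.nonneg x) hε.le)).1 h4
        rw [le_div_iff₀ hε] at h3
        push_cast at h3
        rw [Finset.mem_filter, Finset.mem_range]
        refine ⟨?_, (hab k x).1 h3⟩
        have h4 : ((k : ℝ) + 1) * ε ≤ n * ε := h3.trans ((hBle x).trans hnB)
        have h5 : (k : ℝ) + 1 ≤ n := le_of_mul_le_mul_right h4 hε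
        have h6 : k + 1 ≤ n := by exact_mod_cast h5
        omega
      have h3 : (⌊H x / ε⌋₊ : ℝ) ≤ ∑ k ∈ range n, (if a k ≤ x ∧ x ≤ b k then (1 : ℝ) else 0) := by
        rw [Finset.sum_ite, Finset.sum_const, Finset.sum_const_zero, add_zero, nsmul_eq_mul, mul_one]
        have h4 := Finset.card_le_card h2
        rw [Finset.card_range] at h4
        exact_mod_cast h4
      have h4 := Nat.lt_floor_add_one (H x / ε)
      rw [div_lt_iff₀ hε] at h4
      nlinarith
  -- lower bound by levels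
  have h2 : ∀ x, ε * (∑ k ∈ range n, (if a k - δ ≤ x ∧ x ≤ b k + δ then (1 : ℝ) else 0)) ≤
      H x + ε * (if -(R + 1) ≤ x ∧ x ≤ R + 1 then (1 : ℝ) else 0) := by
    intro x
    have hstep : ∀ k, a k - δ ≤ x ∧ x ≤ b k + δ → (k : ℝ) * ε ≤ H x ∧ (-(R + 1) ≤ x ∧ x ≤ R + 1) := by
      rintro k ⟨h3, h4⟩
      -- a point of the superlevel set near x
      obtain ⟨y, hy1, hy2⟩ : ∃ y, (a k ≤ y ∧ y ≤ b k) ∧ |x - y| ≤ δ := by
        rcases hne k with hne | hne
        · rcases lt_or_ge x (a k) with h5 | h5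
          · exact ⟨a k, ⟨le_rfl, hne⟩, by rw [abs_le]; constructor <;> linarith⟩
          · rcases lt_or_ge (b k) x with h6 | h6
            · exact ⟨b k, ⟨hne, le_rfl⟩, by rw [abs_le]; constructor <;> linarith⟩
            · exact ⟨x, ⟨h5, h6⟩, by rw [sub_self, abs_zero]; exact hδ0.le⟩
        · exfalso
          linarith
      have h5 := (hab k y).2 hy1
      have h6 := hH.lip y x
      rw [abs_sub_comm y x] at h6
      have h7 : M * |x - y| ≤ ε := (mul_le_mul_of_nonneg_left hy2 hM).trans hδM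
      have h8 := (abs_le.1 (h6.trans h7)).2
      refine ⟨by nlinarith, ?_⟩
      have h9 : |y| ≤ R := by
        by_contra hcon
        push Not at hcon
        rw [hH.supp y hcon] at h5
        have : (0 : ℝ) < ((k : ℝ) + 1) * ε := by positivity
        linarith
      have h10 := abs_le.1 h9
      have h11 := abs_le.1 hy2
      constructor <;> linarith
    by_cases hx : -(R + 1) ≤ x ∧ x ≤ R + 1
    · rw [if_pos hx, mul_one]
      have h3 : (range n).filter (fun k => a k - δ ≤ x ∧ x ≤ b k + δ) ⊆ range (⌊H x / ε⌋₊ + 1) := by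
        intro k hk
        rw [Finset.mem_filter] at hk
        have h4 := (hstep k hk.2).1
        rw [← le_div_iff₀ hε] at h4
        rw [Finset.mem_range]
        exact Nat.lt_succ_of_le (Nat.le_floor h4)
      have h4 : ∑ k ∈ range n, (if a k - δ ≤ x ∧ x ≤ b k + δ then (1 : ℝ) else 0) ≤ ⌊H x / ε⌋₊ + 1 := by
        rw [Finset.sum_ite, Finset.sum_const, Finset.sum_const_zero, add_zero, nsmul_eq_mul, mul_one]
        have h5 := Finset.card_le_card h3
        rw [Finset.card_range] at h5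
        exact_mod_cast h5
      have h5 := Nat.floor_le (div_nonneg (hH.nonneg x) hε.le)
      rw [le_div_iff₀ hε] at h5
      nlinarith
    · rw [if_neg hx, mul_zero, add_zero]
      have h3 : ∑ k ∈ range n, (if a k - δ ≤ x ∧ x ≤ b k + δ then (1 : ℝ) else 0) = 0 := by
        refine Finset.sum_eq_zero fun k _ => if_neg fun h => hx (hstep k h).2
      rw [h3, mul_zero]
      exact hH.nonneg x
  calc ∑ y ∈ E1, H (D1 y) ≤ ∑ y ∈ E1, (ε * (∑ k ∈ range n, (if a k ≤ D1 y ∧ D1 y ≤ b k then (1 : ℝ) else 0)) +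
        ε * (if -R ≤ D1 y ∧ D1 y ≤ R then (1 : ℝ) else 0)) := Finset.sum_le_sum fun y _ => h1 (D1 y)
    _ = ε * (∑ k ∈ range n, nn2 E1 D1 (a k) (b k)) + ε * nn2 E1 D1 (-R) R := by
        rw [Finset.sum_add_distrib, ← Finset.mul_sum, ← Finset.mul_sum, Finset.sum_comm, nn2_eq]
        simp only [nn2_eq]
    _ ≤ ε * (∑ k ∈ range n, (nn2 E2 D2 (a k - δ) (b k + δ) + δ * X)) + ε * nn2 E1 D1 (-R) R := by
        have := Finset.sum_le_sum fun k hk => hcmp k (Finset.mem_range.1 hk)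
        have := mul_le_mul_of_nonneg_left this hε.le
        linarith
    _ = ∑ y ∈ E2, (ε * (∑ k ∈ range n, (if a k - δ ≤ D2 y ∧ D2 y ≤ b k + δ then (1 : ℝ) else 0))) +
        ε * (n * δ * X) + ε * nn2 E1 D1 (-R) R := by
        have e : ∑ k ∈ range n, nn2 E2 D2 (a k - δ) (b k + δ) =
            ∑ y ∈ E2, ∑ k ∈ range n, (if a k - δ ≤ D2 y ∧ D2 y ≤ b k + δ then (1 : ℝ) else 0) := by
          simp only [nn2_eq]
          exact Finset.sum_comm
        rw [Finset.sum_add_distrib, Finset.sum_const, Finset.card_range, nsmul_eq_mul, e, ← Finset.mul_sum]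
        ring
    _ ≤ ∑ y ∈ E2, (H (D2 y) + ε * (if -(R + 1) ≤ D2 y ∧ D2 y ≤ R + 1 then (1 : ℝ) else 0)) +
        ε * X + ε * nn2 E1 D1 (-R) R := by
        have e1 := Finset.sum_le_sum fun y (_ : y ∈ E2) => h2 (D2 y)
        have e2 : n * δ * X ≤ X := mul_le_of_le_one_left hX hδn
        have e3 := mul_le_mul_of_nonneg_left e2 hε.le
        linarith
    _ = _ := by
        rw [Finset.sum_add_distrib, ← Finset.mul_sum, ← nn2_eq]
        ring

/-- the tent with apex `-K` -/
noncomputable def tent (K x : ℝ) : ℝ := max 0 (2 * K - |x + K|)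

lemma tent_lip (K x y : ℝ) : |tent K x - tent K y| ≤ |x - y| := by
  unfold tent
  have h1 := abs_max_sub_max_le_abs (2 * K - |x + K|) (2 * K - |y + K|) 0
  rw [max_comm 0, max_comm 0]
  refine h1.trans ?_
  have e : 2 * K - |x + K| - (2 * K - |y + K|) = |y + K| - |x + K| := by ring
  rw [e]
  refine (abs_abs_sub_abs_le_abs_sub _ _).trans (le_of_eq ?_)
  rw [abs_sub_comm]
  congr 1
  ring

lemma tent_nonneg (K x : ℝ) : 0 ≤ tent K x := le_max_left _ _

lemma tent_zero {K x : ℝ} (h : 3 * K < |x|) : tent K x = 0 := by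
  unfold tent
  refine max_eq_left ?_
  rcases le_or_gt 0 K with hK | hK
  · have h1 : |x| ≤ |x + K| + |K| := by
      have := abs_sub_abs_le_abs_sub (x + K) K
      calc |x| = |(x + K) - K| := by ring_nf
        _ ≤ |x + K| + |K| := abs_sub _ _
    rw [abs_of_nonneg hK] at h1
    linarith
  · have := abs_nonneg (x + K)
    linarith

lemma tent_left {K x : ℝ} (h : x ≤ -K) : tent K x = max 0 (3 * K + x) := by
  unfold tent
  rw [abs_of_nonpos (by linarith)]
  congr 1
  ring

lemma tent_right {K x : ℝ} (h : -K ≤ x) : tent K x = max 0 (K - x) := by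
  unfold tent
  rw [abs_of_nonneg (by linarith)]
  congr 1
  ring

/-- a Lipschitz function plus a multiple of the tent -/
theorem uni_tent {G : ℝ → ℝ} {L K : ℝ} (hL : 0 ≤ L) (hK : 0 < K) (hlip : ∀ x y, |G x - G y| ≤ L * |x - y|)
    (hsupp : ∀ x, K ≤ |x| → G x = 0) : Uni (fun x => G x + L * tent K x) (2 * L) (3 * K) := by
  have hGK : G K = 0 := hsupp K (by rw [abs_of_pos hK])
  have hbd : ∀ x, -K ≤ x → x ≤ K → |G x| ≤ L * (K - x) := by
    intro x h1 h2
    have h3 := hlip x K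
    rw [hGK, sub_zero] at h3
    rwa [abs_sub_comm, abs_of_nonneg (show 0 ≤ K - x by linarith)] at h3
  refine uni_mk (by positivity) (fun x => ?_) (fun x y => ?_) (fun x hx => ?_) (fun x y z hxy hyz => ?_)
  · by_cases hx : K ≤ |x|
    · rw [hsupp x hx, zero_add]
      exact mul_nonneg hL (tent_nonneg K x)
    · push Not at hx
      have h1 := abs_lt.1 hx
      have h2 := (abs_le.1 (hbd x h1.1.le h1.2.le)).1
      rw [tent_right h1.1.le]
      have h3 : L * (K - x) ≤ L * max 0 (K - x) := mul_le_mul_of_nonneg_left (le_max_right _ _) hL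
      linarith
  · have h1 := hlip x y
    have h2 := mul_le_mul_of_nonneg_left (tent_lip K x y) hL
    have e : G x + L * tent K x - (G y + L * tent K y) = (G x - G y) + L * (tent K x - tent K y) := by ring
    rw [e]
    refine (abs_add_le _ _).trans ?_
    rw [abs_mul, abs_of_nonneg hL]
    linarith
  · rw [hsupp x (by linarith), tent_zero hx, zero_add, mul_zero]
  · rcases le_total y (-K) with hy | hy
    · -- left of the apex: increasing
      refine (min_le_left _ _).trans ?_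
      have hx : x ≤ -K := hxy.trans hy
      rw [hsupp x (by rw [abs_of_nonpos (by linarith)]; linarith), hsupp y (by rw [abs_of_nonpos (by linarith)]; linarith),
        zero_add, zero_add, tent_left hx, tent_left hy]
      exact mul_le_mul_of_nonneg_left (max_le_max le_rfl (by linarith)) hL
    · -- right of the apex: decreasing
      refine (min_le_right _ _).trans ?_
      have hz : -K ≤ z := hy.trans hyz
      rw [tent_right hy, tent_right hz]
      rcases le_total z K with hzK | hzK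
      · rw [max_eq_right (by linarith), max_eq_right (by linarith)]
        have h1 := (abs_le.1 (hlip z y)).2
        rw [abs_of_nonneg (by linarith)] at h1
        nlinarith
      · rw [hsupp z (by rw [abs_of_nonneg (by linarith)]; exact hzK), max_eq_left (by linarith), mul_zero, add_zero]
        by_cases hyK : K ≤ |y|
        · rw [hsupp y hyK, zero_add]
          exact mul_nonneg hL (le_max_left _ _)
        · push Not at hyK
          have h1 := abs_lt.1 hyK
          have h2 := (abs_le.1 (hbd y h1.1.le h1.2.le)).1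
          have h3 : L * (K - y) ≤ L * max 0 (K - y) := mul_le_mul_of_nonneg_left (le_max_right _ _) hL
          linarith

/-- **comparison of the sums over a Lipschitz function with compact support** -/
theorem lip_cmp {G : ℝ → ℝ} {L K : ℝ} (hL : 0 ≤ L) (hK : 0 < K) (hlip : ∀ x y, |G x - G y| ≤ L * |x - y|)
    (hsupp : ∀ x, K ≤ |x| → G x = 0) {ε : ℝ} (hε : 0 < ε) :
    ∃ (δ : ℝ) (J : Finset (ℝ × ℝ)), 0 < δ ∧ δ ≤ 1 ∧
      ∀ {κ1 κ2 : Type} (E1 : Finset κ1) (D1 : κ1 → ℝ) (E2 : Finset κ2) (D2 : κ2 → ℝ) (X : ℝ), 0 ≤ X →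
      (∀ p ∈ J, nn2 E1 D1 p.1 p.2 ≤ nn2 E2 D2 (p.1 - δ) (p.2 + δ) + δ * X) →
      (∀ p ∈ J, nn2 E2 D2 p.1 p.2 ≤ nn2 E1 D1 (p.1 - δ) (p.2 + δ) + δ * X) →
      |∑ y ∈ E1, G (D1 y) - ∑ y ∈ E2, G (D2 y)| ≤
        ε * (X + nn2 E1 D1 (-(3 * K + 1)) (3 * K + 1) + nn2 E2 D2 (-(3 * K + 1)) (3 * K + 1)) := by
  classical
  have u1 := uni_tent hL hK hlip hsupp
  have u2 : Uni (fun x => (0 : ℝ) + L * tent K x) (2 * L) (3 * K) :=
    uni_tent (G := fun _ => 0) hL hK (fun x y => by simp; positivity) (fun _ _ => rfl)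
  obtain ⟨δ1, n1, a1, b1, g1, g2, g3⟩ := uni_le u1 (by positivity) (by positivity) (show 0 < ε / 2 by positivity)
  obtain ⟨δ2, n2, a2, b2, f1, f2, f3⟩ := uni_le u2 (by positivity) (by positivity) (show 0 < ε / 2 by positivity)
  refine ⟨min δ1 δ2, (range n1).image (fun k => (a1 k, b1 k)) ∪ (range n2).image (fun k => (a2 k, b2 k)),
    lt_min g1 f1, (min_le_left _ _).trans g2, ?_⟩
  intro κ1 κ2 E1 D1 E2 D2 X hX h12 h21
  have mono : ∀ {κ : Type} (E : Finset κ) (D : κ → ℝ) {a b a' b' : ℝ}, a' ≤ a → b ≤ b' →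
      nn2 E D a b ≤ nn2 E D a' b' := by
    intro κ E D a b a' b' ha hb
    unfold nn2
    have : (E.filter fun y => a ≤ D y ∧ D y ≤ b) ⊆ (E.filter fun y => a' ≤ D y ∧ D y ≤ b') := by
      intro y hy
      rw [Finset.mem_filter] at hy ⊢
      exact ⟨hy.1, ha.trans hy.2.1, hy.2.2.trans hb⟩
    exact_mod_cast Finset.card_le_card this
  have m1 : ∀ k < n1, (a1 k, b1 k) ∈ (range n1).image (fun k => (a1 k, b1 k)) ∪
      (range n2).image (fun k => (a2 k, b2 k)) := fun k hk =>
    Finset.mem_union_left _ (Finset.mem_image_of_mem _ (Finset.mem_range.2 hk))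
  have m2 : ∀ k < n2, (a2 k, b2 k) ∈ (range n1).image (fun k => (a1 k, b1 k)) ∪
      (range n2).image (fun k => (a2 k, b2 k)) := fun k hk =>
    Finset.mem_union_right _ (Finset.mem_image_of_mem _ (Finset.mem_range.2 hk))
  have d1 : min δ1 δ2 * X ≤ δ1 * X := mul_le_mul_of_nonneg_right (min_le_left _ _) hX
  have d2 : min δ1 δ2 * X ≤ δ2 * X := mul_le_mul_of_nonneg_right (min_le_right _ _) hX
  have l1 : min δ1 δ2 ≤ δ1 := min_le_left _ _
  have l2 : min δ1 δ2 ≤ δ2 := min_le_right _ _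
  have A1 := g3 E1 D1 E2 D2 X hX fun k hk => (h12 _ (m1 k hk)).trans
    (add_le_add (mono E2 D2 (by linarith) (by linarith)) d1)
  have A2 := g3 E2 D2 E1 D1 X hX fun k hk => (h21 _ (m1 k hk)).trans
    (add_le_add (mono E1 D1 (by linarith) (by linarith)) d1)
  have B1 := f3 E1 D1 E2 D2 X hX fun k hk => (h12 _ (m2 k hk)).trans
    (add_le_add (mono E2 D2 (by linarith) (by linarith)) d2)
  have B2 := f3 E2 D2 E1 D1 X hX fun k hk => (h21 _ (m2 k hk)).trans
    (add_le_add (mono E1 D1 (by linarith) (by linarith)) d2)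
  have c1 := mono E1 D1 (show -(3 * K + 1) ≤ -(3 * K) by linarith) (show 3 * K ≤ 3 * K + 1 by linarith)
  have c2 := mono E2 D2 (show -(3 * K + 1) ≤ -(3 * K) by linarith) (show 3 * K ≤ 3 * K + 1 by linarith)
  have hd1 := mul_le_mul_of_nonneg_left c1 (show 0 ≤ ε / 2 by positivity)
  have hd2 := mul_le_mul_of_nonneg_left c2 (show 0 ≤ ε / 2 by positivity)
  simp only [zero_add, Finset.sum_add_distrib] at A1 A2 B1 B2
  rw [abs_le]
  constructor <;> linarith

end Run7.h422.PP
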