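import Pool.Agent.Run7.h422.PP.FF1
import Pool.Agent.Run7.h422.PP.FF2
import Pool.Agent.Run7.h422.PP.AH3

/-!
# Pair sums of the zeros against decaying functions
-/

set_option autoImplicit false

namespace Run7.h422.PP

open Complex Filter Topology Set
open Pool.Agent.H986R2.DBN (XT Ht)
open Pool.Agent.R838.ST (Tuples ZetaZ)

/-- comparison, eventual form, complex functions -/
theorem cpx_ev {κ1 κ2 : Type} {E1 : ℝ → Finset κ1} {D1 : ℝ → κ1 → ℝ} {E2 : ℝ → Finset κ2} {D2 : ℝ → κ2 → ℝ}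
    {X : ℝ → ℝ} (hX : ∀ᶠ T in atTop, 0 ≤ X T)
    (h12 : ∀ a b δ : ℝ, 0 < δ → ∀ᶠ T in atTop, nn2 (E1 T) (D1 T) a b ≤ nn2 (E2 T) (D2 T) (a - δ) (b + δ) + δ * X T)
    (h21 : ∀ a b δ : ℝ, 0 < δ → ∀ᶠ T in atTop, nn2 (E2 T) (D2 T) a b ≤ nn2 (E1 T) (D1 T) (a - δ) (b + δ) + δ * X T)
    (hB1 : ∀ R : ℝ, ∃ C : ℝ, ∀ᶠ T in atTop, nn2 (E1 T) (D1 T) (-R) R ≤ C * X T)
    (hB2 : ∀ R : ℝ, ∃ C : ℝ, ∀ᶠ T in atTop, nn2 (E2 T) (D2 T) (-R) R ≤ C * X T)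
    {g : ℝ → ℂ} {L K : ℝ} (hL : 0 ≤ L) (hK : 0 < K) (hlip : ∀ x y, ‖g x - g y‖ ≤ L * |x - y|)
    (hsupp : ∀ x, K ≤ |x| → g x = 0) {ε : ℝ} (hε : 0 < ε) :
    ∀ᶠ T in atTop, ‖∑ y ∈ E1 T, g (D1 T y) - ∑ y ∈ E2 T, g (D2 T y)‖ ≤ ε * X T := by
  obtain ⟨C1, hC1⟩ := hB1 (3 * K + 1)
  obtain ⟨C2, hC2⟩ := hB2 (3 * K + 1)
  have key : ∀ G : ℝ → ℝ, (∀ x y, |G x - G y| ≤ L * |x - y|) → (∀ x, K ≤ |x| → G x = 0) →
      ∀ᶠ T in atTop, |∑ y ∈ E1 T, G (D1 T y) - ∑ y ∈ E2 T, G (D2 T y)| ≤ ε / 2 * X T := by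
    intro G hG1 hG2
    have hC : 0 < 1 + |C1| + |C2| := by positivity
    obtain ⟨δ, J, hδ, -, h⟩ := lip_cmp hL hK hG1 hG2 (show 0 < ε / 2 / (1 + |C1| + |C2|) by positivity)
    have a1 : ∀ᶠ T in atTop, ∀ p ∈ J, nn2 (E1 T) (D1 T) p.1 p.2 ≤
        nn2 (E2 T) (D2 T) (p.1 - δ) (p.2 + δ) + δ * X T := by
      rw [Finset.eventually_all]
      exact fun p _ => h12 _ _ δ hδ
    have a2 : ∀ᶠ T in atTop, ∀ p ∈ J, nn2 (E2 T) (D2 T) p.1 p.2 ≤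
        nn2 (E1 T) (D1 T) (p.1 - δ) (p.2 + δ) + δ * X T := by
      rw [Finset.eventually_all]
      exact fun p _ => h21 _ _ δ hδ
    filter_upwards [a1, a2, hX, hC1, hC2] with T t1 t2 t3 t4 t5
    refine (h (E1 T) (D1 T) (E2 T) (D2 T) (X T) t3 t1 t2).trans ?_
    have e1 : C1 * X T ≤ |C1| * X T := mul_le_mul_of_nonneg_right (le_abs_self _) t3
    have e2 : C2 * X T ≤ |C2| * X T := mul_le_mul_of_nonneg_right (le_abs_self _) t3
    calc _ ≤ ε / 2 / (1 + |C1| + |C2|) * ((1 + |C1| + |C2|) * X T) :=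
          mul_le_mul_of_nonneg_left (by linarith) (by positivity)
      _ = ε / 2 * X T := by field_simp
  have r1 := key (fun x => (g x).re) (fun x y => by
    have := Complex.abs_re_le_norm (g x - g y)
    rw [Complex.sub_re] at this
    exact this.trans (hlip x y)) (fun x hx => by rw [hsupp x hx, Complex.zero_re])
  have r2 := key (fun x => (g x).im) (fun x y => by
    have := Complex.abs_im_le_norm (g x - g y)
    rw [Complex.sub_im] at this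
    exact this.trans (hlip x y)) (fun x hx => by rw [hsupp x hx, Complex.zero_im])
  filter_upwards [r1, r2] with T t1 t2
  refine (Complex.norm_le_abs_re_add_abs_im _).trans ?_
  rw [Complex.sub_re, Complex.sub_im, Complex.re_sum, Complex.im_sum, Complex.re_sum, Complex.im_sum]
  linarith

/-- the finite set of zeros up to `T` -/
noncomputable def Pf {Z : Set (ℂ × ℕ)} {h : ℂ → ℝ} {T : ℝ} (hf : {p | p ∈ Z ∧ 0 < h p.1 ∧ h p.1 ≤ T}.Finite) :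
    Finset (ℂ × ℕ) := hf.toFinset

/-- normalised height -/
noncomputable def nx (h : ℂ → ℝ) (T : ℝ) (p : ℂ × ℕ) : ℝ := h p.1 * (Real.log T / (2 * Real.pi))

/-- normalised difference -/
noncomputable def nd (h : ℂ → ℝ) (T : ℝ) (y : (ℂ × ℕ) × (ℂ × ℕ)) : ℝ := nx h T y.1 - nx h T y.2

/-- off-diagonal pairs -/
noncomputable def Ef {Z : Set (ℂ × ℕ)} {h : ℂ → ℝ} {T : ℝ} (hf : {p | p ∈ Z ∧ 0 < h p.1 ∧ h p.1 ≤ T}.Finite) :
    Finset ((ℂ × ℕ) × (ℂ × ℕ)) := by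
  classical exact (Pf hf ×ˢ Pf hf).filter fun y => y.1 ≠ y.2

lemma nn2_tup {Z : Set (ℂ × ℕ)} {h : ℂ → ℝ} {T : ℝ} (hf : {p | p ∈ Z ∧ 0 < h p.1 ∧ h p.1 ≤ T}.Finite)
    (a b : ℝ) : nn2 (Ef hf) (nd h T) a b = ((Tuples Z h T (fun _ : Fin 1 => a) (fun _ => b)).ncard : ℝ) := by
  classical
  have h1 : (Tuples Z h T (fun _ : Fin 1 => a) (fun _ => b)).ncard = (OP Z h T (Icc a b)).ncard := by
    refine le_antisymm (tu_le hf subset_rfl) ?_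
    have := op_le hf ({()} : Finset Unit) (fun _ => a) (fun _ => b) (C := Icc a b) (by
      intro x hx
      rw [Set.mem_iUnion₂]
      exact ⟨(), Finset.mem_singleton_self _, hx⟩)
    simpa using this
  rw [h1]
  unfold nn2
  have h2 : OP Z h T (Icc a b) = (((Ef hf).filter fun y => a ≤ nd h T y ∧ nd h T y ≤ b :
      Finset ((ℂ × ℕ) × (ℂ × ℕ))) : Set ((ℂ × ℕ) × (ℂ × ℕ))) := by
    ext y
    have e : nd h T y = (h y.1.1 - h y.2.1) * (Real.log T / (2 * Real.pi)) := by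
      unfold nd nx
      ring
    simp only [Finset.coe_filter, Set.mem_setOf_eq, Ef, Pf, Finset.mem_filter, Finset.mem_product,
      Set.Finite.mem_toFinset, e, OP, Set.mem_Icc]
    tauto
  rw [h2, Set.ncard_coe_finset]

lemma QQ_le {Z : Set (ℂ × ℕ)} {h : ℂ → ℝ} {T : ℝ} (hf : {p | p ∈ Z ∧ 0 < h p.1 ∧ h p.1 ≤ T}.Finite) :
    QQ (Pf hf) (nx h T) ≤ (Pf hf).card + nn2 (Ef hf) (nd h T) (-1) 1 := by
  classical
  unfold QQ nn2
  have h1 : ((Pf hf ×ˢ Pf hf).filter fun y => |nx h T y.1 - nx h T y.2| ≤ 1) ⊆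
      ((Pf hf).image fun p => (p, p)) ∪ ((Ef hf).filter fun y => -1 ≤ nd h T y ∧ nd h T y ≤ 1) := by
    intro y hy
    rw [Finset.mem_filter] at hy
    rw [Finset.mem_union]
    by_cases he : y.1 = y.2
    · left
      exact Finset.mem_image.2 ⟨y.1, (Finset.mem_product.1 hy.1).1, Prod.ext rfl he⟩
    · right
      exact Finset.mem_filter.2 ⟨Finset.mem_filter.2 ⟨hy.1, he⟩, abs_le.1 hy.2⟩
  have h2 := (Finset.card_le_card h1).trans ((Finset.card_union_le _ _).trans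
    (Nat.add_le_add_right Finset.card_image_le _))
  exact_mod_cast h2

/-- bound for the number of pairs with bounded distance -/
lemma nn2_QQ (R : ℝ) : ∃ C : ℝ, 0 < C ∧ ∀ {Z : Set (ℂ × ℕ)} {h : ℂ → ℝ} {T : ℝ}
    (hf : {p | p ∈ Z ∧ 0 < h p.1 ∧ h p.1 ≤ T}.Finite),
    nn2 (Ef hf) (nd h T) (-R) R ≤ C * QQ (Pf hf) (nx h T) := by
  classical
  obtain ⟨C, hC, h⟩ := tot_pairs (ι := ℂ × ℕ)
  refine ⟨(1 + R ^ 2) * C, by positivity, fun {Z h' T} hf => ?_⟩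
  have h1 := h (Pf hf) (nx h' T)
  have h2 : nn2 (Ef hf) (nd h' T) (-R) R * (1 / (1 + R ^ 2)) ≤
      ∑ y ∈ Pf hf ×ˢ Pf hf, 1 / (1 + (nx h' T y.1 - nx h' T y.2) ^ 2) := by
    unfold nn2
    rw [← nsmul_eq_mul, ← Finset.sum_const]
    refine (Finset.sum_le_sum (g := fun y => 1 / (1 + (nx h' T y.1 - nx h' T y.2) ^ 2)) fun y hy => ?_).trans
      (Finset.sum_le_sum_of_subset_of_nonneg ?_ fun _ _ _ => by positivity)
    · have h3 := (Finset.mem_filter.1 hy).2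
      refine one_div_le_one_div_of_le (by positivity) ?_
      have h4 : (nx h' T y.1 - nx h' T y.2) ^ 2 ≤ R ^ 2 := sq_le_sq' h3.1 h3.2
      linarith
    · intro y hy
      exact (Finset.mem_filter.1 (Finset.mem_filter.1 hy).1).1
  have h3 : nn2 (Ef hf) (nd h' T) (-R) R = (1 + R ^ 2) * (nn2 (Ef hf) (nd h' T) (-R) R * (1 / (1 + R ^ 2))) := by
    field_simp
  rw [h3, mul_assoc]
  exact mul_le_mul_of_nonneg_left (h2.trans h1) (by positivity)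

lemma sum_split {Z : Set (ℂ × ℕ)} {h : ℂ → ℝ} {T : ℝ} (hf : {p | p ∈ Z ∧ 0 < h p.1 ∧ h p.1 ≤ T}.Finite)
    (G : ℝ → ℂ) : ∑ y ∈ Pf hf ×ˢ Pf hf, G (nx h T y.1 - nx h T y.2) =
      (Pf hf).card * G 0 + ∑ y ∈ Ef hf, G (nd h T y) := by
  classical
  rw [← Finset.sum_filter_add_sum_filter_not (Pf hf ×ˢ Pf hf) (fun y => y.1 = y.2)]
  congr 1
  have h1 : (Pf hf ×ˢ Pf hf).filter (fun y => y.1 = y.2) = (Pf hf).image fun p => (p, p) := by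
    ext y
    simp only [Finset.mem_filter, Finset.mem_product, Finset.mem_image]
    constructor
    · rintro ⟨⟨h1, -⟩, h2⟩
      exact ⟨y.1, h1, Prod.ext rfl h2⟩
    · rintro ⟨p, hp, rfl⟩
      exact ⟨⟨hp, hp⟩, rfl⟩
  rw [h1, Finset.sum_image (fun p _ q _ hpq => (Prod.ext_iff.1 hpq).1)]
  simp only [sub_self, Finset.sum_const, nsmul_eq_mul]

/-- the pair sum -/
noncomputable def SS {Z : Set (ℂ × ℕ)} {h : ℂ → ℝ} {T : ℝ} (hf : {p | p ∈ Z ∧ 0 < h p.1 ∧ h p.1 ≤ T}.Finite)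
    (g : ℝ → ℂ) : ℂ :=
  ∑ y ∈ Pf hf ×ˢ Pf hf, g (nx h T y.1 - nx h T y.2) *
    (ww ((nx h T y.1 - nx h T y.2) / (Real.log T / (2 * Real.pi))) : ℝ)

/-- decaying Lipschitz functions -/
structure Dec (g : ℝ → ℂ) : Prop where
  dec : ∃ C : ℝ, 0 ≤ C ∧ ∀ D, ‖g D‖ ≤ C / (1 + D ^ 2)
  lip : ∃ L : ℝ, 0 ≤ L ∧ ∀ x y, ‖g x - g y‖ ≤ L * |x - y|

lemma chi_lip (K x y : ℝ) : |chi K x - chi K y| ≤ |x - y| := by
  unfold chi
  refine (abs_max_sub_max_le_max _ _ _ _).trans ?_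
  rw [sub_self, abs_zero]
  refine max_le (abs_nonneg _) ?_
  refine (abs_min_sub_min_le_max _ _ _ _).trans ?_
  rw [sub_self, abs_zero]
  refine max_le (abs_nonneg _) ?_
  have e : K + 1 - |x| - (K + 1 - |y|) = |y| - |x| := by ring
  rw [e]
  refine (abs_abs_sub_abs_le_abs_sub _ _).trans (le_of_eq (abs_sub_comm _ _))

lemma Dec.cut {g : ℝ → ℂ} (hg : Dec g) {K : ℝ} (hK : 0 < K) :
    (∃ L : ℝ, 0 ≤ L ∧ ∀ x y, ‖g x * (chi K x : ℝ) - g y * (chi K y : ℝ)‖ ≤ L * |x - y|) ∧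
    ∀ x, K + 1 ≤ |x| → g x * (chi K x : ℝ) = 0 := by
  obtain ⟨C, hC, hd⟩ := hg.dec
  obtain ⟨L, hL, hl⟩ := hg.lip
  refine ⟨⟨L + C, by positivity, fun x y => ?_⟩, fun x hx => by rw [chi_zero hx]; simp⟩
  have e : g x * (chi K x : ℝ) - g y * (chi K y : ℝ) =
      (g x - g y) * (chi K x : ℝ) + g y * ((chi K x - chi K y : ℝ) : ℂ) := by
    push_cast
    ring
  rw [e]
  refine (norm_add_le _ _).trans ?_
  rw [norm_mul, norm_mul, Complex.norm_real, Complex.norm_real, Real.norm_eq_abs, Real.norm_eq_abs,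
    abs_of_nonneg (chi_nonneg K x)]
  have h1 : ‖g x - g y‖ * chi K x ≤ L * |x - y| := by
    calc ‖g x - g y‖ * chi K x ≤ ‖g x - g y‖ * 1 := mul_le_mul_of_nonneg_left (chi_le K x) (norm_nonneg _)
      _ ≤ L * |x - y| := by rw [mul_one]; exact hl x y
  have h2 : ‖g y‖ * |chi K x - chi K y| ≤ C * |x - y| := by
    refine mul_le_mul ?_ (chi_lip K x y) (abs_nonneg _) hC
    exact (hd y).trans (div_le_self hC (by nlinarith [sq_nonneg y]))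
  linarith

/-- `SS` and the truncated sum -/
lemma SS_cut {g : ℝ → ℂ} (hg : Dec g) {ε : ℝ} (hε : 0 < ε) :
    ∃ K0 : ℝ, 0 < K0 ∧ ∀ K : ℝ, K0 ≤ K → ∃ T0 : ℝ, ∀ {Z : Set (ℂ × ℕ)} {h : ℂ → ℝ} {T : ℝ} (_ : T0 ≤ T)
      (hf : {p | p ∈ Z ∧ 0 < h p.1 ∧ h p.1 ≤ T}.Finite),
      ‖SS hf g - ((Pf hf).card * g 0 + ∑ y ∈ Ef hf, g (nd h T y) * (chi K (nd h T y) : ℝ))‖ ≤
        ε * QQ (Pf hf) (nx h T) := by
  classical
  obtain ⟨C, hC, hd⟩ := hg.dec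
  obtain ⟨K0, hK0, hK⟩ := cut_pairs (ι := ℂ × ℕ) hC hd hε
  refine ⟨K0, hK0, fun K hKK => ?_⟩
  obtain ⟨c0, hc0, h⟩ := hK K hKK
  refine ⟨Real.exp (c0 * (2 * Real.pi)), fun {Z h' T} hT hf => ?_⟩
  have hT0 : 0 < T := lt_of_lt_of_le (Real.exp_pos _) hT
  have hc : c0 ≤ Real.log T / (2 * Real.pi) := by
    rw [le_div_iff₀ (by positivity), Real.le_log_iff_exp_le hT0]
    exact hT
  have h1 := h (Pf hf) (nx h' T) _ hc
  have h2 := sum_split hf (fun D => g D * (chi K D : ℝ))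
  have h3 : chi K 0 = 1 := chi_one (by rw [abs_zero]; linarith)
  rw [h3] at h2
  rw [h2] at h1
  unfold SS
  simpa using h1

end Run7.h422.PP
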