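import Pool.Agent.Run7.h422.PP.FF3

/-!
# Pair sums: the two regimes
-/

set_option autoImplicit false

namespace Run7.h422.PP

open Complex Filter Topology Set
open Pool.Agent.H986R2.DBN (XT Ht)
open Pool.Agent.R838.ST (Tuples ZetaZ)

lemma nn2_mono {κ : Type} (E : Finset κ) (D : κ → ℝ) {a b a' b' : ℝ} (ha : a' ≤ a) (hb : b ≤ b') :
    nn2 E D a b ≤ nn2 E D a' b' := by
  unfold nn2
  have : (E.filter fun y => a ≤ D y ∧ D y ≤ b) ⊆ (E.filter fun y => a' ≤ D y ∧ D y ≤ b') := by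
    intro y hy
    rw [Finset.mem_filter] at hy ⊢
    exact ⟨hy.1, ha.trans hy.2.1, hy.2.2.trans hb⟩
  exact_mod_cast Finset.card_le_card this

lemma card_QQ {Z : Set (ℂ × ℕ)} {h : ℂ → ℝ} {T : ℝ} (hf : {p | p ∈ Z ∧ 0 < h p.1 ∧ h p.1 ≤ T}.Finite) :
    ((Pf hf).card : ℝ) ≤ QQ (Pf hf) (nx h T) := by
  classical
  unfold QQ
  have h1 : (Pf hf).image (fun p => (p, p)) ⊆
      ((Pf hf ×ˢ Pf hf).filter fun y => |nx h T y.1 - nx h T y.2| ≤ 1) := by
    intro y hy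
    obtain ⟨p, hp, rfl⟩ := Finset.mem_image.1 hy
    rw [Finset.mem_filter]
    exact ⟨Finset.mem_product.2 ⟨hp, hp⟩, by rw [sub_self, abs_zero]; exact zero_le_one⟩
  have h2 := Finset.card_le_card h1
  rw [Finset.card_image_of_injective _ (fun p q hpq => (Prod.ext_iff.1 hpq).1)] at h2
  exact_mod_cast h2

/-- comparison of two families of zeros -/
theorem ss_cmp {Z1 Z2 : ℝ → Set (ℂ × ℕ)} {h1 h2 : ℂ → ℝ}
    (hf1 : ∀ T, {p | p ∈ Z1 T ∧ 0 < h1 p.1 ∧ h1 p.1 ≤ T}.Finite)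
    (hf2 : ∀ T, {p | p ∈ Z2 T ∧ 0 < h2 p.1 ∧ h2 p.1 ≤ T}.Finite)
    (c12 : ∀ a b δ : ℝ, 0 < δ → ∀ᶠ T in atTop, nn2 (Ef (hf1 T)) (nd h1 T) a b ≤
      nn2 (Ef (hf2 T)) (nd h2 T) (a - δ) (b + δ) + δ * (T * Real.log T))
    (c21 : ∀ a b δ : ℝ, 0 < δ → ∀ᶠ T in atTop, nn2 (Ef (hf2 T)) (nd h2 T) a b ≤
      nn2 (Ef (hf1 T)) (nd h1 T) (a - δ) (b + δ) + δ * (T * Real.log T))
    (hN : ∀ δ : ℝ, 0 < δ → ∀ᶠ T in atTop, |((Pf (hf1 T)).card : ℝ) - (Pf (hf2 T)).card| ≤ δ * (T * Real.log T))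
    (hQ : ∃ C : ℝ, ∀ᶠ T in atTop, QQ (Pf (hf1 T)) (nx h1 T) ≤ C * (T * Real.log T))
    {g : ℝ → ℂ} (hg : Dec g) {ε : ℝ} (hε : 0 < ε) :
    ∀ᶠ T in atTop, ‖SS (hf1 T) g - SS (hf2 T) g‖ ≤ ε * (T * Real.log T) := by
  have hX : ∀ᶠ T : ℝ in atTop, 0 ≤ T * Real.log T := by
    filter_upwards [eventually_gt_atTop (1 : ℝ)] with T hT
    exact (mul_pos (by linarith) (Real.log_pos hT)).le
  obtain ⟨C1, hC1⟩ := hQ
  -- bounds for the numbers of pairs
  have B1 : ∀ R : ℝ, ∃ C : ℝ, ∀ᶠ T in atTop, nn2 (Ef (hf1 T)) (nd h1 T) (-R) R ≤ C * (T * Real.log T) := by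
    intro R
    obtain ⟨C, hC, h⟩ := nn2_QQ R
    refine ⟨C * C1, ?_⟩
    filter_upwards [hC1] with T t1
    refine (h (hf1 T)).trans ?_
    rw [mul_assoc]
    exact mul_le_mul_of_nonneg_left t1 hC.le
  have B2 : ∀ R : ℝ, ∃ C : ℝ, ∀ᶠ T in atTop, nn2 (Ef (hf2 T)) (nd h2 T) (-R) R ≤ C * (T * Real.log T) := by
    intro R
    obtain ⟨C, hC⟩ := B1 (R + 1)
    refine ⟨C + 1, ?_⟩
    filter_upwards [c21 (-R) R 1 one_pos, hC] with T t1 t2
    have e : -R - 1 = -(R + 1) := by ring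
    rw [e] at t1
    linarith
  have Q2 : ∃ C : ℝ, ∀ᶠ T in atTop, QQ (Pf (hf2 T)) (nx h2 T) ≤ C * (T * Real.log T) := by
    obtain ⟨C, hC⟩ := B2 1
    refine ⟨C1 + 1 + C, ?_⟩
    filter_upwards [hC1, hC, hN 1 one_pos] with T t1 t2 t3
    have e1 := QQ_le (hf2 T)
    have e2 := card_QQ (hf1 T)
    have e3 := (abs_le.1 t3).1
    linarith
  obtain ⟨C2, hC2⟩ := Q2
  -- the cut-off
  set Q : ℝ := |C1| + |C2| + 1 with hQdef
  have hQ0 : 0 < Q := by positivity
  obtain ⟨K0, hK0, hcut⟩ := SS_cut hg (show 0 < ε / (4 * Q) by positivity)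
  obtain ⟨T0, hcut⟩ := hcut K0 le_rfl
  obtain ⟨⟨L, hL, hlip⟩, hsupp⟩ := hg.cut hK0
  have hE := cpx_ev (E1 := fun T => Ef (hf1 T)) (D1 := fun T => nd h1 T) (E2 := fun T => Ef (hf2 T))
    (D2 := fun T => nd h2 T) (X := fun T => T * Real.log T) hX c12 c21 B1 B2 hL
    (show 0 < K0 + 1 by linarith) hlip hsupp (show 0 < ε / 4 by positivity)
  set G : ℝ := ‖g 0‖ + 1 with hG
  have hG0 : 0 < G := by positivity
  filter_upwards [hE, hX, hC1, hC2, eventually_ge_atTop T0, hN (ε / (4 * G)) (by positivity)]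
    with T t1 t2 t3 t4 t5 t6
  have a1 := hcut t5 (hf1 T)
  have a2 := hcut t5 (hf2 T)
  have b1 : ε / (4 * Q) * QQ (Pf (hf1 T)) (nx h1 T) ≤ ε / 4 * (T * Real.log T) := by
    have e1 : QQ (Pf (hf1 T)) (nx h1 T) ≤ Q * (T * Real.log T) := by
      refine t3.trans (mul_le_mul_of_nonneg_right ?_ t2)
      have := le_abs_self C1
      have := abs_nonneg C2
      linarith
    calc ε / (4 * Q) * QQ (Pf (hf1 T)) (nx h1 T) ≤ ε / (4 * Q) * (Q * (T * Real.log T)) :=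
          mul_le_mul_of_nonneg_left e1 (by positivity)
      _ = ε / 4 * (T * Real.log T) := by field_simp
  have b2 : ε / (4 * Q) * QQ (Pf (hf2 T)) (nx h2 T) ≤ ε / 4 * (T * Real.log T) := by
    have e1 : QQ (Pf (hf2 T)) (nx h2 T) ≤ Q * (T * Real.log T) := by
      refine t4.trans (mul_le_mul_of_nonneg_right ?_ t2)
      have := le_abs_self C2
      have := abs_nonneg C1
      linarith
    calc ε / (4 * Q) * QQ (Pf (hf2 T)) (nx h2 T) ≤ ε / (4 * Q) * (Q * (T * Real.log T)) :=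
          mul_le_mul_of_nonneg_left e1 (by positivity)
      _ = ε / 4 * (T * Real.log T) := by field_simp
  have b3 : ‖(((Pf (hf1 T)).card : ℂ) * g 0 - ((Pf (hf2 T)).card : ℂ) * g 0)‖ ≤ ε / 4 * (T * Real.log T) := by
    have e : (((Pf (hf1 T)).card : ℂ) * g 0 - ((Pf (hf2 T)).card : ℂ) * g 0) =
        ((((Pf (hf1 T)).card : ℝ) - (Pf (hf2 T)).card : ℝ) : ℂ) * g 0 := by
      push_cast
      ring
    rw [e, norm_mul, Complex.norm_real, Real.norm_eq_abs]
    calc |((Pf (hf1 T)).card : ℝ) - (Pf (hf2 T)).card| * ‖g 0‖ ≤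
        (ε / (4 * G) * (T * Real.log T)) * G := by
          refine mul_le_mul t6 (by linarith) (norm_nonneg _) (mul_nonneg (by positivity) t2)
      _ = ε / 4 * (T * Real.log T) := by field_simp
  have e : SS (hf1 T) g - SS (hf2 T) g =
      (SS (hf1 T) g - ((Pf (hf1 T)).card * g 0 + ∑ y ∈ Ef (hf1 T), g (nd h1 T y) * (chi K0 (nd h1 T y) : ℝ))) -
      (SS (hf2 T) g - ((Pf (hf2 T)).card * g 0 + ∑ y ∈ Ef (hf2 T), g (nd h2 T y) * (chi K0 (nd h2 T y) : ℝ))) +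
      (((Pf (hf1 T)).card : ℂ) * g 0 - ((Pf (hf2 T)).card : ℂ) * g 0) +
      (∑ y ∈ Ef (hf1 T), g (nd h1 T y) * (chi K0 (nd h1 T y) : ℝ) -
        ∑ y ∈ Ef (hf2 T), g (nd h2 T y) * (chi K0 (nd h2 T y) : ℝ)) := by ring
  rw [e]
  refine (norm_add_le _ _).trans ?_
  refine (add_le_add_left ((norm_add_le _ _).trans (add_le_add_left (norm_sub_le _ _) _)) _).trans ?_
  linarith

/-- number of nonzero integers in `[a, b]` -/
noncomputable def iv (a b : ℝ) : ℕ := ((Finset.Icc ⌈a⌉ ⌊b⌋).erase 0).card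

lemma iv_IV (a b : ℝ) : (IV (fun _ : Fin 1 => a) (fun _ : Fin 1 => b)).ncard = iv a b := by
  unfold iv
  rw [← Set.ncard_coe_finset]
  refine Set.ncard_congr (fun x _ => x 0) ?_ ?_ ?_
  · rintro x ⟨-, hx⟩
    obtain ⟨h1, h2, h3⟩ := hx 0
    rw [Finset.mem_coe, Finset.mem_erase, Finset.mem_Icc]
    exact ⟨h1, Int.ceil_le.2 h2, Int.le_floor.2 h3⟩
  · intro x y _ _ hxy
    funext i
    have : i = 0 := Subsingleton.elim _ _
    rw [this]
    exact hxy
  · intro m hm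
    rw [Finset.mem_coe, Finset.mem_erase, Finset.mem_Icc] at hm
    exact ⟨fun _ => m, ⟨fun i j _ => Subsingleton.elim _ _, fun _ => ⟨hm.1, Int.ceil_le.1 hm.2.1,
      Int.le_floor.1 hm.2.2⟩⟩, rfl⟩

lemma iv_mono {a b a' b' : ℝ} (ha : a' ≤ a) (hb : b ≤ b') : iv a b ≤ iv a' b' := by
  unfold iv
  refine Finset.card_le_card (Finset.erase_subset_erase _ ?_)
  exact Finset.Icc_subset_Icc (Int.ceil_mono ha) (Int.floor_mono hb)

/-- the lattice: nonzero integers up to `M`, each `N` times -/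
noncomputable def LE (M : ℤ) (N : ℕ) : Finset (ℤ × ℕ) := ((Finset.Icc (-M) M).erase 0) ×ˢ Finset.range N

noncomputable def LD (y : ℤ × ℕ) : ℝ := (y.1 : ℝ)

lemma LE_nn {M : ℤ} {N : ℕ} {a b : ℝ} (ha : (-M : ℝ) ≤ a) (hb : b ≤ M) : nn2 (LE M N) LD a b = N * iv a b := by
  unfold nn2 iv LE LD
  have h1 : ((((Finset.Icc (-M) M).erase 0) ×ˢ Finset.range N).filter fun y : ℤ × ℕ =>
      a ≤ (y.1 : ℝ) ∧ (y.1 : ℝ) ≤ b) = ((Finset.Icc ⌈a⌉ ⌊b⌋).erase 0) ×ˢ Finset.range N := by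
    ext y
    simp only [Finset.mem_filter, Finset.mem_product, Finset.mem_erase, Finset.mem_Icc, Int.ceil_le,
      Int.le_floor]
    constructor
    · rintro ⟨⟨⟨h1, -⟩, h2⟩, h3, h4⟩
      exact ⟨⟨h1, h3, h4⟩, h2⟩
    · rintro ⟨⟨h1, h3, h4⟩, h2⟩
      refine ⟨⟨⟨h1, ?_, ?_⟩, h2⟩, h3, h4⟩
      · have : (-M : ℝ) ≤ y.1 := ha.trans h3
        exact_mod_cast this
      · have : (y.1 : ℝ) ≤ M := h4.trans hb
        exact_mod_cast this
  rw [h1, Finset.card_product, Finset.card_range, Nat.cast_mul, mul_comm]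

lemma nonint (a b : ℝ) {δ : ℝ} (hδ : 0 < δ) : ∃ x : ℝ, 0 < x ∧ x < δ ∧ (∀ m : ℤ, a - x ≠ m) ∧
    ∀ m : ℤ, b + x ≠ m := by
  have hc : (Set.range (fun m : ℤ => a - m) ∪ Set.range (fun m : ℤ => (m : ℝ) - b)).Countable :=
    (Set.countable_range _).union (Set.countable_range _)
  obtain ⟨x, hx1, hx2⟩ := (hc.dense_compl ℝ).exists_mem_open isOpen_Ioo (show (Ioo 0 δ).Nonempty from
    ⟨δ / 2, by constructor <;> linarith⟩)
  refine ⟨x, hx2.1, hx2.2, fun m hm => hx1 (Or.inl ⟨m, by simp only; linarith⟩), fun m hm =>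
    hx1 (Or.inr ⟨m, by simp only; linarith⟩)⟩

/-- **above the time scale** -/
theorem ss_big {t : ℝ → ℝ} {A : ℝ} (hA : 0 < A) (ht : ∀ T, 0 ≤ t T) (hA' : ∀ᶠ T in atTop, t T * Real.log T ≤ A)
    (ht2 : Tendsto (fun T => t T * Real.log T ^ 2) atTop atTop)
    (hf : ∀ T, {p | p ∈ Zi (Ht (t T)) ∧ 0 < hh p.1 ∧ hh p.1 ≤ T}.Finite)
    {g : ℝ → ℂ} (hg : Dec g) {ε : ℝ} (hε : 0 < ε) :
    ∀ᶠ T in atTop, ‖SS (hf T) g - (Pf (hf T)).card * ∑' m : ℤ, g m‖ ≤ ε * (T * Real.log T) := by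
  classical
  have hX : ∀ᶠ T : ℝ in atTop, 0 ≤ T * Real.log T := by
    filter_upwards [eventually_gt_atTop (1 : ℝ)] with T hT
    exact (mul_pos (by linarith) (Real.log_pos hT)).le
  obtain ⟨C, T1, hC, hT1, hle⟩ := nh_leU hA
  obtain ⟨c, T2, hc, hT2, hge⟩ := nh_geU hA
  have hcard : ∀ T, ((Pf (hf T)).card : ℝ) = NH (t T) T := by
    intro T
    unfold NH Pf NG
    rw [← Set.ncard_eq_toFinset_card _ (hf T)]
  have hNle : ∀ᶠ T in atTop, ((Pf (hf T)).card : ℝ) ≤ C * (T * Real.log T) := by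
    filter_upwards [hA', eventually_ge_atTop T1] with T t1 t2
    rw [hcard]
    exact hle T (t T) t2 (ht T) t1
  have hNpos : ∀ᶠ T in atTop, 0 < NH (t T) T := by
    filter_upwards [hA', eventually_ge_atTop T2] with T t1 t2
    refine lt_of_lt_of_le ?_ (hge T (t T) t2 (ht T) t1)
    have hT : 1 < T := by linarith
    have := Real.log_pos hT
    positivity
  -- the law for the boxes
  have law : ∀ a b η : ℝ, 0 < η → (∀ m : ℤ, a ≠ m) → (∀ m : ℤ, b ≠ m) → ∀ᶠ T in atTop,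
      |nn2 (Ef (hf T)) (nd hh T) a b - (Pf (hf T)).card * iv a b| ≤
        η * (T * Real.log T) := by
    intro a b η hη ha hb
    have h1 := ht_latticeKS hA hA' ht2 (k := 1) (α := fun _ => a) (β := fun _ => b)
      (fun _ => ha) (fun _ => hb)
    filter_upwards [near_of (show 0 < η / C by positivity) hNpos h1, hNle] with T t1 t2
    rw [nn2_tup, hcard]
    rw [iv_IV] at t1
    rw [hcard] at t2
    rw [mul_comm (NH (t T) T)]
    refine (show |((Tuples (Zi (Ht (t T))) hh T (fun _ : Fin 1 => a) (fun _ => b)).ncard : ℝ) -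
      iv a b * NH (t T) T| ≤ η / C * NH (t T) T from t1).trans ?_
    calc η / C * NH (t T) T ≤ η / C * (C * (T * Real.log T)) := mul_le_mul_of_nonneg_left t2 (by positivity)
      _ = η * (T * Real.log T) := by field_simp
  -- comparison with the lattice
  set E2 : ℝ → Finset (ℤ × ℕ) := fun T => LE ⌊T⌋ (Pf (hf T)).card with hE2
  have big : ∀ B : ℝ, ∀ᶠ T : ℝ in atTop, B ≤ (⌊T⌋ : ℝ) := by
    intro B
    filter_upwards [eventually_ge_atTop (B + 1)] with T hT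
    have := Int.lt_floor_add_one T
    linarith
  have c12 : ∀ a b δ : ℝ, 0 < δ → ∀ᶠ T in atTop, nn2 (Ef (hf T)) (nd hh T) a b ≤
      nn2 (E2 T) LD (a - δ) (b + δ) + δ * (T * Real.log T) := by
    intro a b δ hδ
    obtain ⟨x, hx0, hxδ, hxa, hxb⟩ := nonint a b hδ
    filter_upwards [law (a - x) (b + x) δ hδ hxa hxb, big (|a| + |b| + δ)] with T t1 t2
    rw [hE2]
    have h1 := abs_nonneg a
    have h2 := abs_nonneg b
    have h3 := neg_abs_le a
    have h4 := le_abs_self b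
    rw [LE_nn (by linarith) (by linarith)]
    have h5 := nn2_mono (Ef (hf T)) (nd hh T) (show a - x ≤ a by linarith)
      (show b ≤ b + x by linarith)
    have h6 : (iv (a - x) (b + x) : ℝ) ≤ iv (a - δ) (b + δ) := by
      exact_mod_cast iv_mono (by linarith) (by linarith)
    have h7 := (abs_le.1 t1).2
    have h8 := mul_le_mul_of_nonneg_left h6 (show (0 : ℝ) ≤ (Pf (hf T)).card from Nat.cast_nonneg _)
    linarith
  have c21 : ∀ a b δ : ℝ, 0 < δ → ∀ᶠ T in atTop, nn2 (E2 T) LD a b ≤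
      nn2 (Ef (hf T)) (nd hh T) (a - δ) (b + δ) + δ * (T * Real.log T) := by
    intro a b δ hδ
    obtain ⟨x, hx0, hxδ, hxa, hxb⟩ := nonint a b hδ
    filter_upwards [law (a - x) (b + x) δ hδ hxa hxb, big (|a| + |b| + δ)] with T t1 t2
    rw [hE2]
    have h1 := abs_nonneg a
    have h2 := abs_nonneg b
    have h3 := neg_abs_le a
    have h4 := le_abs_self b
    rw [LE_nn (by linarith) (by linarith)]
    have h5 := nn2_mono (Ef (hf T)) (nd hh T) (show a - δ ≤ a - x by linarith)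
      (show b + x ≤ b + δ by linarith)
    have h6 : (iv a b : ℝ) ≤ iv (a - x) (b + x) := by
      exact_mod_cast iv_mono (by linarith) (by linarith)
    have h7 := (abs_le.1 t1).1
    have h8 := mul_le_mul_of_nonneg_left h6 (show (0 : ℝ) ≤ (Pf (hf T)).card from Nat.cast_nonneg _)
    linarith
  have B2 : ∀ R : ℝ, ∃ C : ℝ, ∀ᶠ T in atTop, nn2 (E2 T) LD (-R) R ≤ C * (T * Real.log T) := by
    intro R
    refine ⟨C * iv (-R) R, ?_⟩
    filter_upwards [hNle, big |R|] with T t1 t2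
    rw [hE2]
    have h3 := neg_abs_le R
    have h4 := le_abs_self R
    rw [LE_nn (by linarith) (by linarith)]
    have := mul_le_mul_of_nonneg_right t1 (show (0 : ℝ) ≤ iv (-R) R from Nat.cast_nonneg _)
    linarith
  have B1 : ∀ R : ℝ, ∃ C : ℝ, ∀ᶠ T in atTop,
      nn2 (Ef (hf T)) (nd hh T) (-R) R ≤ C * (T * Real.log T) := by
    intro R
    obtain ⟨C, hC⟩ := B2 (R + 1)
    refine ⟨C + 1, ?_⟩
    filter_upwards [c12 (-R) R 1 one_pos, hC] with T t1 t2
    have e : -R - 1 = -(R + 1) := by ring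
    rw [e] at t1
    linarith
  obtain ⟨C1, hC1⟩ := B1 1
  set Q : ℝ := |C1| + C + 1 with hQdef
  have hQ0 : 0 < Q := by positivity
  obtain ⟨K0, hK0, hcut⟩ := SS_cut hg (show 0 < ε / (4 * Q) by positivity)
  -- summability
  obtain ⟨Cg, hCg, hdec⟩ := hg.dec
  have hsum : Summable fun m : ℤ => g m := by
    refine Summable.of_norm_bounded (g := fun m : ℤ => Cg * (1 / (1 + (m : ℝ) ^ 2))) (summ.mul_left Cg) fun m => ?_
    have := hdec m
    rwa [mul_one_div]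
  obtain ⟨s, hs⟩ := summable_iff_vanishing_norm.1 (summ.mul_left (Cg + 1)) (ε / (4 * C)) (by positivity)
  obtain ⟨k, hk⟩ : ∃ k : ℕ, ∀ d ∈ s, |d| ≤ (k : ℤ) := by
    refine ⟨∑ d ∈ s, d.natAbs, fun d hd => ?_⟩
    have h1 : d.natAbs ≤ ∑ d ∈ s, d.natAbs := Finset.single_le_sum (fun _ _ => Nat.zero_le _) hd
    have h2 : |d| = (d.natAbs : ℤ) := (Int.natCast_natAbs d).symm
    rw [h2]
    exact_mod_cast h1
  set K : ℝ := max K0 k with hKdef
  have hKK : K0 ≤ K := le_max_left _ _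
  have hkK : (k : ℝ) ≤ K := le_max_right _ _
  have hK0' : 0 < K := by linarith
  obtain ⟨T0, hcut⟩ := hcut K hKK
  obtain ⟨⟨L, hL, hlip⟩, hsupp⟩ := hg.cut hK0'
  have hE := cpx_ev (E1 := fun T => Ef (hf T)) (D1 := fun T => nd hh T) (E2 := E2)
    (D2 := fun _ => LD) (X := fun T => T * Real.log T) hX c12 c21 B1 B2 hL
    (show 0 < K + 1 by linarith) hlip hsupp (show 0 < ε / 4 by positivity)
  -- the sum over the lattice
  have hlat : ∀ (M : ℤ) (N : ℕ), (N : ℂ) * g 0 + ∑ y ∈ LE M N, g (LD y) * (chi K (LD y) : ℝ) =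
      N * (g 0 + ∑ m ∈ (Finset.Icc (-M) M).erase 0, g m * (chi K m : ℝ)) := by
    intro M N
    unfold LE LD
    rw [Finset.sum_product]
    simp only [Finset.sum_const, Finset.card_range, nsmul_eq_mul]
    rw [← Finset.mul_sum, mul_add]
  have htail : ∀ M : ℤ, K + 1 ≤ M →
      ‖(g 0 + ∑ m ∈ (Finset.Icc (-M) M).erase 0, g m * (chi K m : ℝ)) - ∑' m : ℤ, g m‖ ≤ ε / (4 * C) := by
    intro M hM
    have hM0 : (0 : ℤ) ∈ Finset.Icc (-M) M := by
      rw [Finset.mem_Icc]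
      have : (0 : ℝ) ≤ M := by linarith
      have : (0 : ℤ) ≤ M := by exact_mod_cast this
      constructor <;> omega
    have h1 : g 0 + ∑ m ∈ (Finset.Icc (-M) M).erase 0, g m * (chi K m : ℝ) =
        ∑ m ∈ Finset.Icc (-M) M, g m * (chi K m : ℝ) := by
      rw [← Finset.add_sum_erase _ _ hM0]
      congr 1
      have : chi K ((0 : ℤ) : ℝ) = 1 := chi_one (by simp; linarith)
      rw [this]
      simp
    rw [h1]
    have h2 : ∑ m ∈ Finset.Icc (-M) M, g m * (chi K m : ℝ) = ∑' m : ℤ, g m * (chi K m : ℝ) := by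
      rw [tsum_eq_sum]
      intro m hm
      rw [hsupp m]
      by_contra hcon
      push Not at hcon
      apply hm
      have h3 : |(m : ℝ)| ≤ M := by linarith
      have h4 := abs_le.1 h3
      rw [Finset.mem_Icc]
      exact ⟨by exact_mod_cast h4.1, by exact_mod_cast h4.2⟩
    have hsum2 : Summable fun m : ℤ => g m * (chi K m : ℝ) := by
      refine Summable.of_norm_bounded (g := fun m : ℤ => Cg * (1 / (1 + (m : ℝ) ^ 2))) (summ.mul_left Cg) fun m => ?_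
      rw [norm_mul, Complex.norm_real, Real.norm_eq_abs, abs_of_nonneg (chi_nonneg K m)]
      have h3 := hdec m
      rw [mul_one_div]
      calc ‖g m‖ * chi K m ≤ ‖g m‖ * 1 := mul_le_mul_of_nonneg_left (chi_le K m) (norm_nonneg _)
        _ ≤ _ := by rw [mul_one]; exact h3
    rw [h2, ← hsum2.tsum_sub hsum]
    -- bound of the norm by finite sums
    refine (norm_tsum_le_tsum_norm ?_).trans ?_
    · exact (hsum2.sub hsum).norm
    · refine Summable.tsum_le_of_sum_le (hsum2.sub hsum).norm fun u => ?_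
      have h3 : ∑ m ∈ u, ‖g m * (chi K m : ℝ) - g m‖ ≤
          ∑ m ∈ u.filter (fun m => m ∉ s), (Cg + 1) * (1 / (1 + (m : ℝ) ^ 2)) := by
        rw [Finset.sum_filter]
        refine Finset.sum_le_sum fun m _ => ?_
        by_cases hm : m ∈ s
        · rw [if_neg (not_not.2 hm)]
          have h4 : |(m : ℝ)| ≤ K := by
            have h5 : |(m : ℝ)| ≤ k := by exact_mod_cast hk m hm
            linarith
          rw [chi_one h4]
          simp
        · rw [if_pos hm]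
          have e : g m * (chi K m : ℝ) - g m = g m * ((chi K m - 1 : ℝ) : ℂ) := by push_cast; ring
          rw [e, norm_mul, Complex.norm_real, Real.norm_eq_abs]
          have h5 : |chi K m - 1| ≤ 1 := by
            have h6 := chi_nonneg K m
            have h7 := chi_le K m
            rw [abs_le]
            constructor <;> linarith
          calc ‖g m‖ * |chi K m - 1| ≤ Cg / (1 + (m : ℝ) ^ 2) * 1 :=
                mul_le_mul (hdec m) h5 (abs_nonneg _) (by positivity)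
            _ ≤ (Cg + 1) * (1 / (1 + (m : ℝ) ^ 2)) := by
                rw [mul_one, mul_one_div]
                exact div_le_div_of_nonneg_right (by linarith) (by positivity)
      have h4 := hs (u.filter (fun m => m ∉ s)) (by
        rw [Finset.disjoint_left]
        intro m hm
        exact (Finset.mem_filter.1 hm).2)
      rw [Real.norm_eq_abs] at h4
      exact h3.trans ((le_abs_self _).trans h4.le)
  filter_upwards [hE, hX, hC1, hNle, eventually_ge_atTop T0, big (K + 1)] with T t1 t2 t3 t4 t5 t6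
  have a1 := hcut t5 (hf T)
  have b1 : ε / (4 * Q) * QQ (Pf (hf T)) (nx hh T) ≤ ε / 4 * (T * Real.log T) := by
    have e1 : QQ (Pf (hf T)) (nx hh T) ≤ Q * (T * Real.log T) := by
      refine (QQ_le (hf T)).trans ?_
      have e2 : C1 * (T * Real.log T) ≤ |C1| * (T * Real.log T) :=
        mul_le_mul_of_nonneg_right (le_abs_self _) t2
      rw [hQdef]
      linarith
    calc ε / (4 * Q) * QQ (Pf (hf T)) (nx hh T) ≤ ε / (4 * Q) * (Q * (T * Real.log T)) :=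
          mul_le_mul_of_nonneg_left e1 (by positivity)
      _ = ε / 4 * (T * Real.log T) := by field_simp
  have b2 : ‖((Pf (hf T)).card : ℂ) * ((g 0 + ∑ m ∈ (Finset.Icc (-⌊T⌋) ⌊T⌋).erase 0, g m * (chi K m : ℝ)) -
      ∑' m : ℤ, g m)‖ ≤ ε / 4 * (T * Real.log T) := by
    rw [norm_mul, Complex.norm_natCast]
    calc ((Pf (hf T)).card : ℝ) * ‖(g 0 + ∑ m ∈ (Finset.Icc (-⌊T⌋) ⌊T⌋).erase 0, g m * (chi K m : ℝ)) -
        ∑' m : ℤ, g m‖ ≤ (C * (T * Real.log T)) * (ε / (4 * C)) :=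
          mul_le_mul t4 (htail ⌊T⌋ t6) (norm_nonneg _) (mul_nonneg hC.le t2)
      _ = ε / 4 * (T * Real.log T) := by field_simp
  have e : SS (hf T) g - (Pf (hf T)).card * ∑' m : ℤ, g m =
      (SS (hf T) g - ((Pf (hf T)).card * g 0 +
        ∑ y ∈ Ef (hf T), g (nd hh T y) * (chi K (nd hh T y) : ℝ))) +
      (∑ y ∈ Ef (hf T), g (nd hh T y) * (chi K (nd hh T y) : ℝ) -
        ∑ y ∈ E2 T, g (LD y) * (chi K (LD y) : ℝ)) +
      ((Pf (hf T)).card : ℂ) * ((g 0 + ∑ m ∈ (Finset.Icc (-⌊T⌋) ⌊T⌋).erase 0, g m * (chi K m : ℝ)) -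
      ∑' m : ℤ, g m) := by
    have h1 := hlat ⌊T⌋ (Pf (hf T)).card
    rw [mul_sub, ← h1]
    ring
  rw [e]
  refine (norm_add_le _ _).trans ?_
  refine (add_le_add_left (norm_add_le _ _) _).trans ?_
  have hεX := mul_nonneg hε.le t2
  linarith

end Run7.h422.PP
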