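import Pool.Agent.Run7.h422.PP.FF4

/-!
# The form factor
-/

set_option autoImplicit false

namespace Run7.h422.PP

open Complex Filter Topology Set MeasureTheory
open scoped SchwartzMap FourierTransform
open Pool.Agent.H986R2.DBN (XT Ht)
open Pool.Agent.R838.ST (Tuples ZetaZ)

/-- ordered pairs of elements of `Z` with heights in `(0, T]` -/
def PA (Z : Set (ℂ × ℕ)) (h : ℂ → ℝ) (T : ℝ) : Set ((ℂ × ℕ) × (ℂ × ℕ)) :=
  {x | (x.1 ∈ Z ∧ 0 < h x.1.1 ∧ h x.1.1 ≤ T) ∧ (x.2 ∈ Z ∧ 0 < h x.2.1 ∧ h x.2.1 ≤ T)}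

/-- the form factor -/
noncomputable def FFm (Z : Set (ℂ × ℕ)) (h : ℂ → ℝ) (T α : ℝ) : ℂ :=
  ((T / (2 * Real.pi) * Real.log T : ℝ) : ℂ)⁻¹ * ∑ᶠ x ∈ PA Z h T,
    (T : ℂ) ^ (Complex.I * α * ((h x.1.1 - h x.2.1 : ℝ) : ℂ)) *
      ((4 / (4 + (h x.1.1 - h x.2.1) ^ 2) : ℝ) : ℂ)

lemma dec_sch (ψ : 𝓢(ℝ, ℂ)) : Dec fun D => ψ (-D) := by
  obtain ⟨C0, hC0, h0⟩ := ψ.decay 0 0
  obtain ⟨C2, hC2, h2⟩ := ψ.decay 2 0
  obtain ⟨C1, hC1, h1⟩ := (SchwartzMap.derivCLM ℝ ℂ ψ).decay 0 0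
  refine ⟨⟨C0 + C2, by positivity, fun D => ?_⟩, ⟨C1, hC1.le, fun x y => ?_⟩⟩
  · rw [le_div_iff₀ (by positivity)]
    have e0 := h0 (-D)
    have e2 := h2 (-D)
    rw [norm_iteratedFDeriv_zero] at e0 e2
    rw [norm_neg, Real.norm_eq_abs, sq_abs] at e2
    rw [pow_zero, one_mul] at e0
    calc ‖ψ (-D)‖ * (1 + D ^ 2) = ‖ψ (-D)‖ + D ^ 2 * ‖ψ (-D)‖ := by ring
      _ ≤ C0 + C2 := add_le_add e0 e2
  · have hl : LipschitzWith ⟨C1, hC1.le⟩ (ψ : ℝ → ℂ) := by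
      refine lipschitzWith_of_nnnorm_deriv_le ψ.differentiable fun x => ?_
      have e1 := h1 x
      rw [norm_iteratedFDeriv_zero, pow_zero, one_mul, SchwartzMap.derivCLM_apply] at e1
      exact e1
    have h3 := hl.dist_le_mul (-x) (-y)
    rw [dist_eq_norm, Real.dist_eq] at h3
    have e : |(-x) - (-y)| = |x - y| := by
      rw [← abs_neg]
      congr 1
      ring
    rw [e] at h3
    exact h3

variable {Z : Set (ℂ × ℕ)} {h : ℂ → ℝ} {T : ℝ}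

lemma FFm_eq (hf : {p | p ∈ Z ∧ 0 < h p.1 ∧ h p.1 ≤ T}.Finite) (hT : 1 < T) (α : ℝ) :
    FFm Z h T α = ((T / (2 * Real.pi) * Real.log T : ℝ) : ℂ)⁻¹ * ∑ y ∈ Pf hf ×ˢ Pf hf,
      ((ww ((nx h T y.1 - nx h T y.2) / (Real.log T / (2 * Real.pi))) : ℝ) : ℂ) *
        Complex.exp (((-2 * Real.pi * α * (-(nx h T y.1 - nx h T y.2)) : ℝ) : ℂ) * Complex.I) := by
  classical
  have h1 : PA Z h T = ((Pf hf ×ˢ Pf hf : Finset ((ℂ × ℕ) × (ℂ × ℕ))) : Set ((ℂ × ℕ) × (ℂ × ℕ))) := by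
    ext y
    simp only [PA, Pf, Set.mem_ofPred_eq, Finset.coe_product, Set.mem_prod, Finset.mem_coe,
      Set.Finite.mem_toFinset]
  unfold FFm
  rw [h1, finsum_mem_coe_finset]
  congr 1
  refine Finset.sum_congr rfl fun y _ => ?_
  have hL : 0 < Real.log T := Real.log_pos hT
  have hT0 : (T : ℂ) ≠ 0 := by
    have : T ≠ 0 := by linarith
    exact_mod_cast this
  have e1 : (nx h T y.1 - nx h T y.2) / (Real.log T / (2 * Real.pi)) = h y.1.1 - h y.2.1 := by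
    unfold nx
    field_simp
  rw [e1, mul_comm]
  congr 1
  rw [Complex.cpow_def_of_ne_zero hT0, ← Complex.ofReal_log (by linarith)]
  congr 1
  have e2 : -2 * Real.pi * α * (-(nx h T y.1 - nx h T y.2)) = Real.log T * (α * (h y.1.1 - h y.2.1)) := by
    unfold nx
    field_simp
  rw [e2]
  push_cast
  ring

lemma exp_int (φ : 𝓢(ℝ, ℂ)) (D : ℝ) :
    Integrable fun α : ℝ => Complex.exp (((-2 * Real.pi * α * D : ℝ) : ℂ) * Complex.I) * φ α := by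
  refine (φ.integrable (μ := volume)).norm.mono' ?_ (ae_of_all _ fun α => ?_)
  · exact (by fun_prop : Continuous fun α : ℝ =>
      Complex.exp (((-2 * Real.pi * α * D : ℝ) : ℂ) * Complex.I) * φ α).aestronglyMeasurable
  · rw [norm_mul, Complex.norm_exp_ofReal_mul_I, one_mul]

lemma FFm_int (hf : {p | p ∈ Z ∧ 0 < h p.1 ∧ h p.1 ≤ T}.Finite) (hT : 1 < T) (φ : 𝓢(ℝ, ℂ)) :
    Integrable (fun α : ℝ => FFm Z h T α * φ α) ∧ ∫ α : ℝ, FFm Z h T α * φ α =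
      ((T / (2 * Real.pi) * Real.log T : ℝ) : ℂ)⁻¹ * SS hf (fun D => (𝓕 φ) (-D)) := by
  classical
  have e : (fun α : ℝ => FFm Z h T α * φ α) = fun α : ℝ => ∑ y ∈ Pf hf ×ˢ Pf hf,
      (((T / (2 * Real.pi) * Real.log T : ℝ) : ℂ)⁻¹ *
        ((ww ((nx h T y.1 - nx h T y.2) / (Real.log T / (2 * Real.pi))) : ℝ) : ℂ)) *
        (Complex.exp (((-2 * Real.pi * α * (-(nx h T y.1 - nx h T y.2)) : ℝ) : ℂ) * Complex.I) * φ α) := by
    funext α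
    rw [FFm_eq hf hT, Finset.mul_sum, Finset.sum_mul]
    refine Finset.sum_congr rfl fun y _ => ?_
    ring
  have hi : ∀ y ∈ Pf hf ×ˢ Pf hf, Integrable fun α : ℝ =>
      (((T / (2 * Real.pi) * Real.log T : ℝ) : ℂ)⁻¹ *
        ((ww ((nx h T y.1 - nx h T y.2) / (Real.log T / (2 * Real.pi))) : ℝ) : ℂ)) *
        (Complex.exp (((-2 * Real.pi * α * (-(nx h T y.1 - nx h T y.2)) : ℝ) : ℂ) * Complex.I) * φ α) :=
    fun y _ => (exp_int φ _).const_mul _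
  rw [e]
  refine ⟨integrable_finsetSum _ hi, ?_⟩
  rw [integral_finsetSum _ hi]
  unfold SS
  rw [Finset.mul_sum]
  refine Finset.sum_congr rfl fun y _ => ?_
  rw [integral_const_mul]
  have h1 : (𝓕 φ) (-(nx h T y.1 - nx h T y.2)) =
      ∫ α : ℝ, Complex.exp (((-2 * Real.pi * α * (-(nx h T y.1 - nx h T y.2)) : ℝ) : ℂ) * Complex.I) * φ α := by
    rw [SchwartzMap.fourier_coe, Real.fourier_real_eq_integral_exp_smul]
    rfl
  rw [← h1]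
  beta_reduce
  ring

/-- a function whose Fourier transform detects the pairs at distance at most one -/
lemma ex_bump : ∃ ψ : 𝓢(ℝ, ℂ), ∃ f : ℝ → ℝ, (∀ x, ψ x = (f x : ℂ)) ∧ (∀ x, 0 ≤ f x) ∧ ∀ x, |x| ≤ 1 → f x = 1 := by
  let f : ContDiffBump (0 : ℝ) := ⟨1, 2, one_pos, one_lt_two⟩
  have hc : HasCompactSupport fun x : ℝ => (f x : ℂ) := f.hasCompactSupport.comp_left (g := fun r : ℝ => (r : ℂ)) (by simp)
  have hd : ContDiff ℝ (↑(⊤ : ℕ∞)) fun x : ℝ => (f x : ℂ) := Complex.ofRealCLM.contDiff.comp f.contDiff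
  refine ⟨hc.toSchwartzMap hd, f, fun x => rfl, fun x => f.nonneg, fun x hx => ?_⟩
  refine f.one_of_mem_closedBall ?_
  rw [Metric.mem_closedBall, Real.dist_eq, sub_zero]
  exact hx

/-- pair bound -/
lemma QQ_of (hf : {p | p ∈ Z ∧ 0 < h p.1 ∧ h p.1 ≤ T}.Finite) (hT : 1 ≤ Real.log T / (2 * Real.pi))
    {ψ : 𝓢(ℝ, ℂ)} {f : ℝ → ℝ} (h1 : ∀ x, ψ x = (f x : ℂ)) (h2 : ∀ x, 0 ≤ f x) (h3 : ∀ x, |x| ≤ 1 → f x = 1) :
    QQ (Pf hf) (nx h T) ≤ 2 * ‖SS hf (fun D => ψ (-D))‖ := by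
  classical
  have e : SS hf (fun D => ψ (-D)) = ((∑ y ∈ Pf hf ×ˢ Pf hf, f (-(nx h T y.1 - nx h T y.2)) *
      ww ((nx h T y.1 - nx h T y.2) / (Real.log T / (2 * Real.pi))) : ℝ) : ℂ) := by
    unfold SS
    push_cast
    refine Finset.sum_congr rfl fun y _ => ?_
    rw [h1]
  rw [e, Complex.norm_real, Real.norm_eq_abs]
  have hw : ∀ u, 0 ≤ ww u := fun u => by unfold ww; positivity
  have e2 : QQ (Pf hf) (nx h T) * (1 / 2) ≤ ∑ y ∈ Pf hf ×ˢ Pf hf, f (-(nx h T y.1 - nx h T y.2)) *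
      ww ((nx h T y.1 - nx h T y.2) / (Real.log T / (2 * Real.pi))) := by
    unfold QQ
    rw [← nsmul_eq_mul, ← Finset.sum_const]
    refine (Finset.sum_le_sum (g := fun y => f (-(nx h T y.1 - nx h T y.2)) *
      ww ((nx h T y.1 - nx h T y.2) / (Real.log T / (2 * Real.pi)))) fun y hy => ?_).trans
      (Finset.sum_le_sum_of_subset_of_nonneg (Finset.filter_subset _ _) fun y _ _ => mul_nonneg (h2 _) (hw _))
    have h4 := (Finset.mem_filter.1 hy).2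
    rw [h3 _ (by rw [abs_neg]; exact h4), one_mul]
    set c : ℝ := Real.log T / (2 * Real.pi) with hc
    have h5 : ((nx h T y.1 - nx h T y.2) / c) ^ 2 ≤ 1 := by
      rw [div_pow, div_le_one (by positivity)]
      have h6 := abs_le.1 h4
      nlinarith
    unfold ww
    rw [div_le_div_iff₀ (by norm_num) (by positivity)]
    linarith
  have := le_abs_self (∑ y ∈ Pf hf ×ˢ Pf hf, f (-(nx h T y.1 - nx h T y.2)) *
      ww ((nx h T y.1 - nx h T y.2) / (Real.log T / (2 * Real.pi))))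
  linarith

/-- two families with comparable pair counts have the same weak limits -/
theorem lim_tr {Z1 Z2 : ℝ → Set (ℂ × ℕ)} {h1 h2 : ℂ → ℝ}
    (hf1 : ∀ T, {p | p ∈ Z1 T ∧ 0 < h1 p.1 ∧ h1 p.1 ≤ T}.Finite)
    (hf2 : ∀ T, {p | p ∈ Z2 T ∧ 0 < h2 p.1 ∧ h2 p.1 ≤ T}.Finite)
    (c12 : ∀ a b δ : ℝ, 0 < δ → ∀ᶠ T in atTop, nn2 (Ef (hf1 T)) (nd h1 T) a b ≤
      nn2 (Ef (hf2 T)) (nd h2 T) (a - δ) (b + δ) + δ * (T * Real.log T))
    (c21 : ∀ a b δ : ℝ, 0 < δ → ∀ᶠ T in atTop, nn2 (Ef (hf2 T)) (nd h2 T) a b ≤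
      nn2 (Ef (hf1 T)) (nd h1 T) (a - δ) (b + δ) + δ * (T * Real.log T))
    (hN : ∀ δ : ℝ, 0 < δ → ∀ᶠ T in atTop, |((Pf (hf1 T)).card : ℝ) - (Pf (hf2 T)).card| ≤ δ * (T * Real.log T))
    {L : 𝓢(ℝ, ℂ) → ℂ} (hL : ∀ φ : 𝓢(ℝ, ℂ), Tendsto (fun T => ∫ α : ℝ, FFm (Z1 T) h1 T α * φ α) atTop (𝓝 (L φ)))
    (φ : 𝓢(ℝ, ℂ)) : Tendsto (fun T => ∫ α : ℝ, FFm (Z2 T) h2 T α * φ α) atTop (𝓝 (L φ)) := by
  have hpi := Real.pi_pos
  obtain ⟨ψ, f, g1, g2, g3⟩ := ex_bump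
  have hψ : 𝓕 (𝓕⁻ ψ) = ψ := by simp
  have hQ : ∃ C : ℝ, ∀ᶠ T in atTop, QQ (Pf (hf1 T)) (nx h1 T) ≤ C * (T * Real.log T) := by
    have h3 := (hL (𝓕⁻ ψ)).norm.eventually_lt_const (lt_add_one ‖L (𝓕⁻ ψ)‖)
    refine ⟨2 * (‖L (𝓕⁻ ψ)‖ + 1), ?_⟩
    filter_upwards [h3, eventually_gt_atTop (1 : ℝ),
      Real.tendsto_log_atTop.eventually_ge_atTop (2 * Real.pi)] with T t1 t2 t3
    have hL0 : 0 < Real.log T := Real.log_pos t2
    have hX : 0 < T * Real.log T := mul_pos (by linarith) hL0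
    rw [(FFm_int (hf1 T) t2 _).2, hψ, norm_mul, norm_inv, Complex.norm_real, Real.norm_eq_abs,
      abs_of_pos (by positivity), inv_mul_lt_iff₀ (by positivity)] at t1
    refine (QQ_of (hf1 T) (by rw [one_le_div (by positivity)]; exact t3) g1 g2 g3).trans ?_
    have h4 : T / (2 * Real.pi) * Real.log T ≤ T * Real.log T := by
      have : T / (2 * Real.pi) ≤ T := div_le_self (by linarith) (by linarith [Real.pi_gt_three])
      exact mul_le_mul_of_nonneg_right this hL0.le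
    have h5 : 0 ≤ ‖L (𝓕⁻ ψ)‖ + 1 := by positivity
    have h6 := mul_le_mul_of_nonneg_right h4 h5
    linarith
  rw [Metric.tendsto_nhds]
  intro ε hε
  have hs := ss_cmp hf1 hf2 c12 c21 hN hQ (dec_sch (𝓕 φ)) (show 0 < ε / (4 * Real.pi) by positivity)
  filter_upwards [hs, (Metric.tendsto_nhds.1 (hL φ)) (ε / 2) (by positivity), eventually_gt_atTop (1 : ℝ)]
    with T t1 t2 t3
  have hL0 : 0 < Real.log T := Real.log_pos t3
  have hX : 0 < T * Real.log T := mul_pos (by linarith) hL0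
  have e1 := (FFm_int (hf1 T) t3 φ).2
  have e2 := (FFm_int (hf2 T) t3 φ).2
  have h6 : dist (∫ α : ℝ, FFm (Z2 T) h2 T α * φ α) (∫ α : ℝ, FFm (Z1 T) h1 T α * φ α) ≤ ε / 2 := by
    rw [e1, e2, dist_comm, dist_eq_norm, ← mul_sub, norm_mul, norm_inv, Complex.norm_real, Real.norm_eq_abs,
      abs_of_pos (by positivity), inv_mul_le_iff₀ (by positivity)]
    refine t1.trans (le_of_eq ?_)
    field_simp
    ring
  have h7 := dist_triangle (∫ α : ℝ, FFm (Z2 T) h2 T α * φ α) (∫ α : ℝ, FFm (Z1 T) h1 T α * φ α) (L φ)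
  linarith

end Run7.h422.PP
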