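import Pool.Agent.Run7.h422.PP.FF5

/-!
# The form factor of the zeros of `H_t`
-/

set_option autoImplicit false

namespace Run7.h422.PP

open Complex Filter Topology Set MeasureTheory
open scoped SchwartzMap FourierTransform
open Pool.Agent.H986R2.DBN (XT Ht)
open Pool.Agent.R838.ST (Tuples ZetaZ)

lemma zfin' (T : ℝ) : {p | p ∈ ZetaZ ∧ 0 < Complex.im p.1 ∧ Complex.im p.1 ≤ T}.Finite :=
  (zetaZ_fin 0 T).subset fun _ hp => ⟨hp.1, hp.2.1.le, hp.2.2⟩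

/-- weak limits below the time scale -/
theorem ff_iff {t : ℝ → ℝ} (ht : ∀ T, 0 ≤ t T) (ht2 : Tendsto (fun T => t T * Real.log T ^ 2) atTop (𝓝 0))
    (L : 𝓢(ℝ, ℂ) → ℂ) :
    (∀ φ : 𝓢(ℝ, ℂ), Tendsto (fun T => ∫ α : ℝ, FFm ZetaZ Complex.im T α * φ α) atTop (𝓝 (L φ))) ↔
    (∀ φ : 𝓢(ℝ, ℂ), Tendsto (fun T => ∫ α : ℝ, FFm (Zi (Ht (t T))) hh T α * φ α) atTop (𝓝 (L φ))) := by
  have hf2 : ∀ T, {p | p ∈ Zi (Ht (t T)) ∧ 0 < hh p.1 ∧ hh p.1 ≤ T}.Finite := fun T => nh_fin (ht T) T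
  have hc : ∀ a b δ' : ℝ, 0 < δ' → ∀ᶠ T : ℝ in atTop,
      nn2 (Ef (zfin' T)) (nd Complex.im T) a b ≤ nn2 (Ef (hf2 T)) (nd hh T) (a - δ') (b + δ') +
          δ' * (T * Real.log T) ∧
      nn2 (Ef (hf2 T)) (nd hh T) a b ≤ nn2 (Ef (zfin' T)) (nd Complex.im T) (a - δ') (b + δ') +
          δ' * (T * Real.log T) := by
    intro a b δ' hδ'
    obtain ⟨δ, T0, hδ, hT0, h⟩ := Pool.Agent.R838.ST.cmp 1 (fun _ => a) (fun _ => b) δ' hδ'
    filter_upwards [ht2.eventually_lt_const hδ, eventually_ge_atTop T0,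
      eventually_gt_atTop (1 : ℝ)] with T h2 h3 h4
    have hL : 0 < Real.log T := Real.log_pos h4
    rw [nn2_tup, nn2_tup, nn2_tup, nn2_tup]
    exact h T (t T) h3 (ht T) (by rw [le_div_iff₀ (by positivity)]; exact h2.le)
  have hN : ∀ δ' : ℝ, 0 < δ' → ∀ᶠ T in atTop,
      |((Pf (zfin' T)).card : ℝ) - (Pf (hf2 T)).card| ≤ δ' * (T * Real.log T) := by
    intro δ' hδ'
    obtain ⟨δ, T0, hδ, hT0, h⟩ := Pool.Agent.R838.ST.cmp 0 (fun _ => 0) (fun _ => 0) δ' hδ'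
    filter_upwards [ht2.eventually_lt_const hδ, eventually_ge_atTop T0,
      eventually_gt_atTop (1 : ℝ)] with T h2 h3 h4
    have hL : 0 < Real.log T := Real.log_pos h4
    obtain ⟨k1, k2⟩ := h T (t T) h3 (ht T) (by rw [le_div_iff₀ (by positivity)]; exact h2.le)
    have c1 : ((Pf (zfin' T)).card : ℝ) = ({p | p ∈ ZetaZ ∧ 0 < Complex.im p.1 ∧ Complex.im p.1 ≤ T}.ncard : ℝ) := by
      unfold Pf
      rw [← Set.ncard_eq_toFinset_card _ (zfin' T)]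
    have c2 : ((Pf (hf2 T)).card : ℝ) = ({p | p ∈ Zi (Ht (t T)) ∧ 0 < hh p.1 ∧ hh p.1 ≤ T}.ncard : ℝ) := by
      unfold Pf
      rw [← Set.ncard_eq_toFinset_card _ (hf2 T)]
    have one : ∀ {Z : Set (ℂ × ℕ)} {h : ℂ → ℝ} (_ : {p | p ∈ Z ∧ 0 < h p.1 ∧ h p.1 ≤ T}.Finite)
        (α β : Fin 0 → ℝ), ((Tuples Z h T α β).ncard : ℝ) = ({p | p ∈ Z ∧ 0 < h p.1 ∧ h p.1 ≤ T}.ncard : ℝ) := by
      intro Z h hf α β
      have := le_antisymm (le_one hf α β) (one_le hf α β)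
      exact_mod_cast this
    have k1' : ((Tuples ZetaZ Complex.im T (fun _ : Fin 0 => (0 : ℝ)) (fun _ => 0)).ncard : ℝ) ≤
      ((Tuples (Zi (Ht (t T))) hh T (fun _ : Fin 0 => (0 : ℝ) - δ') (fun _ => 0 + δ')).ncard : ℝ) +
        δ' * (T * Real.log T) := k1
    have k2' : ((Tuples (Zi (Ht (t T))) hh T (fun _ : Fin 0 => (0 : ℝ)) (fun _ => 0)).ncard : ℝ) ≤
      ((Tuples ZetaZ Complex.im T (fun _ : Fin 0 => (0 : ℝ) - δ') (fun _ => 0 + δ')).ncard : ℝ) +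
        δ' * (T * Real.log T) := k2
    rw [one (zfin' T), one (hf2 T)] at k1' k2'
    rw [c1, c2, abs_le]
    constructor <;> linarith
  have hN' : ∀ δ' : ℝ, 0 < δ' → ∀ᶠ T in atTop,
      |((Pf (hf2 T)).card : ℝ) - (Pf (zfin' T)).card| ≤ δ' * (T * Real.log T) := by
    intro δ' hδ'
    filter_upwards [hN δ' hδ'] with T t1
    rwa [abs_sub_comm]
  constructor
  · intro hL φ
    exact lim_tr (Z1 := fun _ => ZetaZ) (Z2 := fun T => Zi (Ht (t T))) (h1 := Complex.im) (h2 := hh)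
      zfin' hf2 (fun a b δ hδ => (hc a b δ hδ).mono fun T g => g.1)
      (fun a b δ hδ => (hc a b δ hδ).mono fun T g => g.2) hN hL φ
  · intro hL φ
    exact lim_tr (Z1 := fun T => Zi (Ht (t T))) (Z2 := fun _ => ZetaZ) (h1 := hh) (h2 := Complex.im)
      hf2 zfin' (fun a b δ hδ => (hc a b δ hδ).mono fun T g => g.2)
      (fun a b δ hδ => (hc a b δ hδ).mono fun T g => g.1) hN' hL φ

/-- the comb above the time scale -/
theorem ff_big {A : ℝ} (hA : 0 < A) (φ : 𝓢(ℝ, ℂ)) {ε : ℝ} (hε : 0 < ε) {t : ℝ → ℝ}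
    (ht2 : Tendsto (fun T => t T * Real.log T ^ 2) atTop atTop) (hA' : ∀ᶠ T in atTop, t T * Real.log T ≤ A) :
    ∀ᶠ T in atTop, ‖(∫ α : ℝ, FFm (Zi (Ht (t T))) hh T α * φ α) -
      ((NH (t T) T / (T / (2 * Real.pi) * Real.log T) : ℝ) : ℂ) * ∑' m : ℤ, φ m‖ ≤ ε := by
  have hpi := Real.pi_pos
  have hpos : ∀ᶠ T in atTop, 0 < t T := by
    filter_upwards [ht2.eventually_gt_atTop 0, eventually_gt_atTop (1 : ℝ)] with T h2 h3
    have h5 : 0 < Real.log T ^ 2 := by have := Real.log_pos h3; positivity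
    exact (pos_iff_pos_of_mul_pos h2).2 h5
  set s : ℝ → ℝ := fun T => max (t T) 0 with hs
  have hs0 : ∀ T, 0 ≤ s T := fun T => le_max_right _ _
  have hst : ∀ᶠ T in atTop, s T = t T := hpos.mono fun T h => max_eq_left h.le
  have hs2 : Tendsto (fun T => s T * Real.log T ^ 2) atTop atTop := by
    refine ht2.congr' ?_
    filter_upwards [hst] with T h
    rw [h]
  have hsA : ∀ᶠ T in atTop, s T * Real.log T ≤ A := by
    filter_upwards [hst, hA'] with T h h'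
    rw [h]
    exact h'
  have hf : ∀ T, {p | p ∈ Zi (Ht (s T)) ∧ 0 < hh p.1 ∧ hh p.1 ≤ T}.Finite := fun T => nh_fin (hs0 T) T
  have hb := ss_big hA hs0 hsA hs2 hf (dec_sch (𝓕 φ)) (show 0 < ε / (2 * Real.pi) by positivity)
  have hpo : ∑' m : ℤ, (𝓕 φ) (-(m : ℝ)) = ∑' m : ℤ, φ m := by
    have h1 := SchwartzMap.tsum_eq_tsum_fourier φ 0
    simp only [zero_add, QuotientAddGroup.mk_zero, fourier_eval_zero, mul_one] at h1
    rw [h1, ← (Equiv.neg ℤ).tsum_eq]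
    refine tsum_congr fun m => ?_
    simp
  filter_upwards [hb, hst, eventually_gt_atTop (1 : ℝ)] with T t1 t2 t3
  rw [← t2]
  have hL0 : 0 < Real.log T := Real.log_pos t3
  have hX : 0 < T * Real.log T := mul_pos (by linarith) hL0
  have hcard : ((Pf (hf T)).card : ℝ) = NH (s T) T := by
    unfold NH Pf NG
    rw [← Set.ncard_eq_toFinset_card _ (hf T)]
  rw [hpo] at t1
  rw [(FFm_int (hf T) t3 φ).2]
  have e : ((T / (2 * Real.pi) * Real.log T : ℝ) : ℂ)⁻¹ * SS (hf T) (fun D => (𝓕 φ) (-D)) -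
      ((NH (s T) T / (T / (2 * Real.pi) * Real.log T) : ℝ) : ℂ) * ∑' m : ℤ, φ m =
      ((T / (2 * Real.pi) * Real.log T : ℝ) : ℂ)⁻¹ * (SS (hf T) (fun D => (𝓕 φ) (-D)) -
        (Pf (hf T)).card * ∑' m : ℤ, φ m) := by
    rw [← hcard]
    push_cast
    ring
  rw [e, norm_mul, norm_inv, Complex.norm_real, Real.norm_eq_abs, abs_of_pos (by positivity),
    inv_mul_le_iff₀ (by positivity)]
  refine t1.trans (le_of_eq ?_)
  field_simp

/-- a test function in an interval without integers -/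
lemma ex_bump2 {a b : ℝ} (hab : a < b) : ∃ φ : 𝓢(ℝ, ℂ), ∃ f : ℝ → ℝ, (∀ x, φ x = (f x : ℂ)) ∧ (∀ x, 0 ≤ f x) ∧
    (∀ x, x ∉ Icc a b → f x = 0) ∧ 0 < ∫ x, f x := by
  let f : ContDiffBump ((a + b) / 2 : ℝ) := ⟨(b - a) / 4, (b - a) / 2, by linarith, by linarith⟩
  have hc : HasCompactSupport fun x : ℝ => (f x : ℂ) := f.hasCompactSupport.comp_left (g := fun r : ℝ => (r : ℂ)) (by simp)
  have hd : ContDiff ℝ (↑(⊤ : ℕ∞)) fun x : ℝ => (f x : ℂ) := Complex.ofRealCLM.contDiff.comp f.contDiff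
  refine ⟨hc.toSchwartzMap hd, f, fun x => rfl, fun x => f.nonneg, fun x hx => ?_, f.integral_pos⟩
  refine f.zero_of_le_dist ?_
  rw [Real.dist_eq]
  by_contra hcon
  push Not at hcon
  apply hx
  have h1 := abs_lt.1 hcon
  have h2 : f.rOut = (b - a) / 2 := rfl
  rw [h2] at h1
  constructor <;> linarith [h1.1, h1.2]

/-- no asymptotic equality with one -/
theorem ff_fail {A : ℝ} (hA : 0 < A) {a b η : ℝ} (hab : a < b) (hint : ∀ m : ℤ, (m : ℝ) ∉ Icc a b) (hη : 0 < η)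
    {t : ℝ → ℝ} (ht2 : Tendsto (fun T => t T * Real.log T ^ 2) atTop atTop)
    (hA' : ∀ᶠ T in atTop, t T * Real.log T ≤ A) :
    ∀ᶠ T in atTop, ∃ α ∈ Icc a b, 1 - η ≤ ‖FFm (Zi (Ht (t T))) hh T α - 1‖ := by
  obtain ⟨φ, f, g1, g2, g3, g4⟩ := ex_bump2 hab
  have hpos : ∀ᶠ T in atTop, 0 < t T := by
    filter_upwards [ht2.eventually_gt_atTop 0, eventually_gt_atTop (1 : ℝ)] with T h2 h3
    have h5 : 0 < Real.log T ^ 2 := by have := Real.log_pos h3; positivity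
    exact (pos_iff_pos_of_mul_pos h2).2 h5
  have hz : ∑' m : ℤ, φ m = 0 := by
    have : ∀ m : ℤ, φ m = 0 := fun m => by rw [g1, g3 _ (hint m), Complex.ofReal_zero]
    simp only [this, tsum_zero]
  have hfi : Integrable f := by
    have h1 := (φ.integrable (μ := volume)).re
    refine h1.congr (ae_of_all _ fun x => ?_)
    simp only [g1]
    exact Complex.ofReal_re _
  filter_upwards [ff_big hA φ (show 0 < η / 2 * ∫ x, f x by positivity) ht2 hA', hpos,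
    eventually_gt_atTop (1 : ℝ)] with T t1 t2 t3
  by_contra hcon
  push Not at hcon
  rw [hz, mul_zero, sub_zero] at t1
  have hf : {p | p ∈ Zi (Ht (t T)) ∧ 0 < hh p.1 ∧ hh p.1 ≤ T}.Finite := nh_fin t2.le T
  have hI := (FFm_int hf t3 φ).1
  have hre : ∀ α ∈ Icc a b, η ≤ (FFm (Zi (Ht (t T))) hh T α).re := by
    intro α hα
    have h1 := hcon α hα
    have h2 := (Complex.abs_re_le_norm (FFm (Zi (Ht (t T))) hh T α - 1)).trans h1.le
    rw [Complex.sub_re, Complex.one_re] at h2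
    linarith [(abs_le.1 h2).1]
  have h5 : η * ∫ x, f x ≤ ∫ α, (FFm (Zi (Ht (t T))) hh T α * φ α).re := by
    rw [← integral_const_mul]
    refine integral_mono (hfi.const_mul η) hI.re fun α => ?_
    show η * f α ≤ (FFm (Zi (Ht (t T))) hh T α * φ α).re
    rw [g1, Complex.re_mul_ofReal]
    by_cases hα : α ∈ Icc a b
    · exact mul_le_mul_of_nonneg_right (hre α hα) (g2 α)
    · rw [g3 α hα, mul_zero, mul_zero]
  have h6 : ∫ α, (FFm (Zi (Ht (t T))) hh T α * φ α).re = (∫ α, FFm (Zi (Ht (t T))) hh T α * φ α).re :=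
    integral_re hI
  rw [h6] at h5
  have h7 := (Complex.re_le_norm _).trans t1
  have h8 : η / 2 * ∫ x, f x < η * ∫ x, f x := mul_lt_mul_of_pos_right (by linarith) g4
  linarith

end Run7.h422.PP
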