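import Pool.Agent.Run7.h422.PP.Abs

/-!
# Pairs of zeros of a heat flow: the lattice law
-/

set_option autoImplicit false

namespace Run7.h422.PP

open Complex Filter Topology Set

variable {X : ℝ → ℂ → ℂ}

/-- a small relative error which separates the integers from `α` and `β` -/
lemma sep_ex {α β : ℝ} (hα0 : 0 ≤ α) (hαβ : α < β) (hα : α = 0 ∨ ∀ k : ℕ, α ≠ k)
    (hβ : ∀ k : ℕ, β ≠ k) : ∃ (θ : ℝ) (M : ℕ), 0 < θ ∧ θ ≤ 1 ∧ 1 ≤ M ∧ β < M * (1 - θ) ∧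
    (∀ j ∈ Finset.Ioc ⌊α⌋₊ ⌊β⌋₊, 1 ≤ j ∧ j ≤ M ∧
      ∀ D : ℝ, j * (1 - θ) ≤ D → D ≤ j * (1 + θ) → α < D ∧ D ≤ β) ∧
    (∀ j : ℕ, 1 ≤ j → j ≤ M → ∀ D : ℝ, j * (1 - θ) ≤ D → D ≤ j * (1 + θ) → α < D ∧ D ≤ β →
      j ∈ Finset.Ioc ⌊α⌋₊ ⌊β⌋₊) := by
  have hβ0 : 0 < β := by linarith
  set M : ℕ := ⌈2 * β⌉₊ + 1 with hM
  have hM1 : 2 * β + 1 ≤ M := by
    rw [hM]
    push_cast
    have := Nat.le_ceil (2 * β)
    linarith
  have hM0 : (0 : ℝ) < M := by linarith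
  -- distances
  have f1 : ((⌊β⌋₊ : ℕ) : ℝ) < β := lt_of_le_of_ne (Nat.floor_le hβ0.le) (fun h => hβ _ h.symm)
  have f2 : β < (⌊β⌋₊ : ℕ) + 1 := Nat.lt_floor_add_one β
  have f3 : α < (⌊α⌋₊ : ℕ) + 1 := Nat.lt_floor_add_one α
  -- the distance to `α` from below, if `α ≠ 0`
  obtain ⟨d, hd, hd1⟩ : ∃ d : ℝ, 0 < d ∧ ∀ j : ℕ, 1 ≤ j → j ≤ ⌊α⌋₊ → (j : ℝ) + d ≤ α := by
    rcases hα with h | h
    · refine ⟨1, one_pos, fun j hj1 hj2 => ?_⟩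
      rw [h] at hj2
      simp only [Nat.floor_zero] at hj2
      omega
    · have f4 : ((⌊α⌋₊ : ℕ) : ℝ) < α := lt_of_le_of_ne (Nat.floor_le hα0) (fun h' => h _ h'.symm)
      refine ⟨α - (⌊α⌋₊ : ℕ), by linarith, fun j _ hj2 => ?_⟩
      have : (j : ℝ) ≤ (⌊α⌋₊ : ℕ) := by exact_mod_cast hj2
      linarith
  obtain ⟨e, he, he1, he2, he3, he4⟩ : ∃ e : ℝ, 0 < e ∧ e ≤ d ∧ e ≤ (⌊α⌋₊ : ℕ) + 1 - α ∧
      e ≤ β - (⌊β⌋₊ : ℕ) ∧ e ≤ (⌊β⌋₊ : ℕ) + 1 - β :=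
    ⟨min (min d ((⌊α⌋₊ : ℕ) + 1 - α)) (min (β - (⌊β⌋₊ : ℕ)) ((⌊β⌋₊ : ℕ) + 1 - β)),
      lt_min (lt_min hd (by linarith)) (lt_min (by linarith) (by linarith)),
      (min_le_left _ _).trans (min_le_left _ _), (min_le_left _ _).trans (min_le_right _ _),
      (min_le_right _ _).trans (min_le_left _ _), (min_le_right _ _).trans (min_le_right _ _)⟩
  set θ : ℝ := min (1 / 2) (e / (2 * M)) with hθ
  have hθ0 : 0 < θ := lt_min (by norm_num) (by positivity)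
  have hθ1 : θ ≤ 1 / 2 := min_le_left _ _
  have hθ2 : ∀ j : ℕ, j ≤ M → (j : ℝ) * θ ≤ e / 2 := by
    intro j hj
    have h1 : (j : ℝ) ≤ M := by exact_mod_cast hj
    have h2 : θ ≤ e / (2 * M) := min_le_right _ _
    calc (j : ℝ) * θ ≤ M * (e / (2 * M)) := mul_le_mul h1 h2 hθ0.le hM0.le
      _ = e / 2 := by field_simp
  refine ⟨θ, M, hθ0, by linarith, by omega, ?_, ?_, ?_⟩
  · have : (M : ℝ) * (1 / 2) ≤ M * (1 - θ) := mul_le_mul_of_nonneg_left (by linarith) hM0.le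
    linarith
  · intro j hj
    rw [Finset.mem_Ioc] at hj
    have g1 : ((⌊α⌋₊ : ℕ) : ℝ) + 1 ≤ j := by exact_mod_cast hj.1
    have g2 : (j : ℝ) ≤ (⌊β⌋₊ : ℕ) := by exact_mod_cast hj.2
    have hjM : j ≤ M := by
      have : (j : ℝ) ≤ M := by linarith
      exact_mod_cast this
    have hj1 := hθ2 j hjM
    refine ⟨by omega, hjM, fun D h1 h2 => ⟨?_, ?_⟩⟩
    · linarith
    · linarith
  · intro j hj1 hjM D h1 h2 h3
    have hj2 := hθ2 j hjM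
    rw [Finset.mem_Ioc]
    constructor
    · by_contra hcon
      push Not at hcon
      have := hd1 j hj1 hcon
      linarith [h3.1]
    · by_contra hcon
      push Not at hcon
      have : ((⌊β⌋₊ : ℕ) : ℝ) + 1 ≤ j := by exact_mod_cast hcon
      linarith [h3.2]

/-- **The lattice law.** -/
theorem Inp.lattice (hI : Inp X) {τ : ℝ → ℝ} {A : ℝ} (hA : 0 < A) (h0 : ∀ᶠ T in atTop, 0 < τ T)
    (hτA : ∀ᶠ T in atTop, τ T * Real.log T ≤ A)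
    (hτ : Tendsto (fun T => τ T * Real.log T ^ 2 / Real.log (Real.log T)) atTop atTop)
    {α β : ℝ} (hα0 : 0 ≤ α) (hαβ : α < β) (hα : α = 0 ∨ ∀ k : ℕ, α ≠ k) (hβ : ∀ k : ℕ, β ≠ k) :
    Tendsto (fun T => ((PQ (X (τ T)) T fun D => α < D ∧ D ≤ β).ncard : ℝ) /
      ((NZ (X (τ T)) T).ncard : ℝ)) atTop (𝓝 ((⌊β⌋₊ : ℝ) - ⌊α⌋₊)) := by
  obtain ⟨θ, M, hθ, hθ1, hM, hb, hJ1, hJ2⟩ := sep_ex hα0 hαβ hα hβ
  have hτ1 : Tendsto (fun T => τ T * Real.log T ^ 2) atTop atTop := by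
    refine tendsto_atTop_mono' atTop ?_ hτ
    have hLL : Tendsto (fun T : ℝ => Real.log (Real.log T)) atTop atTop :=
      Real.tendsto_log_atTop.comp Real.tendsto_log_atTop
    filter_upwards [hLL.eventually_ge_atTop 1, h0, eventually_gt_atTop (1 : ℝ)] with T h1 h2 h3
    have h4 : 0 < τ T * Real.log T ^ 2 := mul_pos h2 (by have := Real.log_pos h3; positivity)
    exact div_le_self h4.le h1
  obtain ⟨c1, T1, hc1, hT1, htot⟩ := hI.tot A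
  have hcard : ((Finset.Ioc ⌊α⌋₊ ⌊β⌋₊).card : ℝ) = (⌊β⌋₊ : ℝ) - ⌊α⌋₊ := by
    rw [Nat.card_Ioc, Nat.cast_sub (Nat.floor_mono hαβ.le)]
  set q : ℝ := (⌊β⌋₊ : ℝ) - ⌊α⌋₊ with hq
  have hq0 : 0 ≤ q := by rw [← hcard]; exact Nat.cast_nonneg _
  rw [Metric.tendsto_nhds]
  intro η hη
  have hη' : 0 < η * c1 / (2 * (q + 1)) := by positivity
  have hlow := hI.low hA h0 hτA hτ1 hθ hθ1 hM (P := fun D => α < D ∧ D ≤ β)
    (Finset.Ioc ⌊α⌋₊ ⌊β⌋₊) hJ1 hη'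
  have hup := hI.up hA h0 hτA hτ hθ hθ1 hM (P := fun D => α < D ∧ D ≤ β) hb
    (fun D hD => ⟨by linarith [hD.1], hD.2⟩) (Finset.Ioc ⌊α⌋₊ ⌊β⌋₊) hJ2 hη'
  rw [hcard] at hlow hup
  have hLL : Tendsto (fun T : ℝ => Real.log T) atTop atTop := Real.tendsto_log_atTop
  filter_upwards [hlow, hup, h0, hτA, eventually_ge_atTop T1, eventually_gt_atTop (1 : ℝ),
    hLL.eventually_ge_atTop (8 * A)] with T t1 t2 t3 t4 t5 t6 t7
  have hL : 0 < Real.log T := Real.log_pos t6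
  have hTL : 0 < T * Real.log T := mul_pos (by linarith) hL
  have hτ8 : τ T ≤ 1 / 8 := by
    by_contra hcon
    push Not at hcon
    have h3 : 1 / 8 * (8 * A) < τ T * Real.log T :=
      mul_lt_mul hcon t7 (by positivity) t3.le
    linarith
  have h1 := htot T (τ T) t5 t3.le hτ8 t4
  set N : ℝ := ((NZ (X (τ T)) T).ncard : ℝ) with hN
  have hN0 : 0 < N := lt_of_lt_of_le (by positivity) h1
  have h2 : η * c1 / (2 * (q + 1)) * (T * Real.log T) ≤ η / (2 * (q + 1)) * N := by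
    calc η * c1 / (2 * (q + 1)) * (T * Real.log T) =
        η / (2 * (q + 1)) * (c1 * (T * Real.log T)) := by ring
      _ ≤ _ := mul_le_mul_of_nonneg_left h1 (by positivity)
  have h3 : q * (η / (2 * (q + 1)) * N) < η * N := by
    have h4 : q * (η / (2 * (q + 1))) < η := by
      rw [mul_div_assoc', div_lt_iff₀ (by positivity)]
      nlinarith
    calc q * (η / (2 * (q + 1)) * N) = q * (η / (2 * (q + 1))) * N := by ring
      _ < η * N := mul_lt_mul_of_pos_right h4 hN0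
  have h5 : η / (2 * (q + 1)) * N < η * N := by
    apply mul_lt_mul_of_pos_right _ hN0
    rw [div_lt_iff₀ (by positivity)]
    nlinarith
  rw [Real.dist_eq, abs_lt]
  constructor
  · rw [neg_lt_sub_iff_lt_add, ← sub_lt_iff_lt_add', lt_div_iff₀ hN0]
    have h6 : q * (η * c1 / (2 * (q + 1)) * (T * Real.log T)) ≤ q * (η / (2 * (q + 1)) * N) :=
      mul_le_mul_of_nonneg_left h2 hq0
    nlinarith
  · rw [sub_lt_iff_lt_add, div_lt_iff₀ hN0]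
    nlinarith

end Run7.h422.PP
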