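import Pool.Agent.Run7.h422.PP.Xi
import Pool.Agent.Run7.h422.PP.Lat

/-!
# Pairs of zeros of the de Bruijn-Newman family: the results
-/

set_option autoImplicit false

namespace Run7.h422.PP

open Complex Filter Topology Set
open Pool.Agent.H986R2.DBN (XT Ht)

/-- number of zeros of `H_t` -/
noncomputable def NH (t T : ℝ) : ℝ := ((NG (Zi (Ht t)) hh T).ncard : ℝ)

lemma nh_fin {t : ℝ} (ht : 0 ≤ t) (T : ℝ) : (NG (Zi (Ht t)) hh T).Finite := by
  have h1 : (NZ (XT (t / 4)) T).Finite :=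
    (inp_xi.fin (t / 4) (by positivity) 0 T).subset fun _ hp => ⟨hp.1, hp.2.1.le, hp.2.2⟩
  refine Set.Finite.of_injOn (f := fun p : ℂ × ℕ => ((I / 2 * p.1, p.2) : ℂ × ℕ)) ?_ ?_ h1
  · rintro p ⟨h2, h3, h4⟩
    have e : (I / 2 * p.1).im = hh p.1 := Pool.Agent.W186.SD.CntH.half_im p.1
    refine ⟨(ht_iff ht p).1 h2, ?_, ?_⟩
    · show 0 < (I / 2 * p.1).im
      rw [e]; exact h3
    · show (I / 2 * p.1).im ≤ T
      rw [e]; exact h4
  · intro p _ q _ hpq
    have hpq' : ((I / 2 * p.1, p.2) : ℂ × ℕ) = (I / 2 * q.1, q.2) := hpq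
    have h1 : I / 2 * p.1 = I / 2 * q.1 := (Prod.ext_iff.1 hpq').1
    have h2 : p.2 = q.2 := (Prod.ext_iff.1 hpq').2
    have h3 : -(2 * I) * (I / 2 * p.1) = -(2 * I) * (I / 2 * q.1) := by rw [h1]
    rw [inv1, inv1] at h3
    exact Prod.ext h3 h2

/-- many zeros -/
theorem nh_ge {t : ℝ → ℝ} {A : ℝ} (hA : 0 < A) (hA' : ∀ᶠ T in atTop, t T * Real.log T ≤ A)
    (ht2 : Tendsto (fun T => t T * Real.log T ^ 2) atTop atTop) :
    ∃ c : ℝ, 0 < c ∧ ∀ᶠ T in atTop, c * (T * Real.log T) ≤ NH (t T) T := by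
  obtain ⟨h1, h2, h3⟩ := quarter hA hA' ht2
  obtain ⟨c, T1, hc, hT1, h⟩ := inp_xi.tot A
  refine ⟨c, hc, ?_⟩
  filter_upwards [h1, h2, eventually_ge_atTop T1, eventually_gt_atTop (1 : ℝ),
    Real.tendsto_log_atTop.eventually_ge_atTop (8 * A)] with T t1 t2 t3 t4 t5
  have ht0 : 0 ≤ t T := by linarith
  have hτ8 : t T / 4 ≤ 1 / 8 := by
    by_contra hcon
    push Not at hcon
    have h3 : 1 / 8 * (8 * A) < t T / 4 * Real.log T :=
      mul_lt_mul hcon t5 (by positivity) t1.le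
    linarith
  unfold NH
  rw [ht_num ht0]
  exact h T (t T / 4) t3 t1.le hτ8 t2

/-- partners at every integral distance -/
theorem ph_ge {t : ℝ → ℝ} {A : ℝ} (hA : 0 < A) (hA' : ∀ᶠ T in atTop, t T * Real.log T ≤ A)
    (ht2 : Tendsto (fun T => t T * Real.log T ^ 2) atTop atTop) {m : ℕ} (hm : 1 ≤ m) {ε η : ℝ}
    (hε : 0 < ε) (hη : 0 < η) :
    ∀ᶠ T in atTop, (1 - η) * NH (t T) T ≤ PH (t T) T (m - ε) (m + ε) := by
  obtain ⟨h1, h2, h3⟩ := quarter hA hA' ht2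
  obtain ⟨c, hc, hge⟩ := nh_ge hA hA' ht2
  have hm0 : (0 : ℝ) < m := by exact_mod_cast hm
  set θ : ℝ := min 1 (ε / m) with hθ
  have hθ0 : 0 < θ := lt_min one_pos (by positivity)
  have hθm : (m : ℝ) * θ ≤ ε := by
    calc (m : ℝ) * θ ≤ m * (ε / m) := mul_le_mul_of_nonneg_left (min_le_right _ _) hm0.le
      _ = ε := by field_simp
  have h4 := inp_xi.low hA h1 h2 h3 hθ0 (min_le_left _ _) hm
    (P := fun D => (m : ℝ) - ε ≤ D ∧ D ≤ m + ε) {m} (fun j hj => by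
      rw [Finset.mem_singleton] at hj
      subst hj
      exact ⟨hm, le_rfl, fun D d1 d2 => ⟨by linarith, by linarith⟩⟩)
    (η := η * c) (by positivity)
  filter_upwards [h4, hge, h1] with T t1 t2 t3
  have ht0 : 0 ≤ t T := by linarith
  rw [Finset.card_singleton, Nat.cast_one, one_mul] at t1
  have e1 : NH (t T) T = ((NZ (XT (t T / 4)) T).ncard : ℝ) := by
    unfold NH
    rw [ht_num ht0]
  have e2 : PH (t T) T (m - ε) (m + ε) =
      ((PQ (XT (t T / 4)) T fun D => (m : ℝ) - ε ≤ D ∧ D ≤ m + ε).ncard : ℝ) := by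
    unfold PH
    rw [ht_pairs ht0]
  rw [e2]
  refine le_trans ?_ t1
  rw [← e1]
  have h5 : η * c * (T * Real.log T) ≤ η * NH (t T) T := by
    rw [mul_assoc]
    exact mul_le_mul_of_nonneg_left t2 hη.le
  linarith

/-- no continuous law above the threshold -/
theorem no_cts_law {t : ℝ → ℝ} (ht : ∀ T, 0 ≤ t T) {A : ℝ} (hA : 0 < A)
    (hA' : ∀ᶠ T in atTop, t T * Real.log T ≤ A)
    (ht2 : Tendsto (fun T => t T * Real.log T ^ 2) atTop atTop) {Φ : ℝ → ℝ → ℝ} (hΦ : CtsLaw Φ) :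
    ¬ Law (fun T => PH (t T) T) Φ := by
  obtain ⟨c, hc, hge⟩ := nh_ge hA hA' ht2
  refine no_law hΦ (c := c / 2) (by positivity) ?_ ?_
  · intro ε hε _
    have h1 := ph_ge hA hA' ht2 (m := 1) le_rfl hε (η := 1 / 2) (by norm_num)
    filter_upwards [h1, hge] with T t1 t2
    rw [Nat.cast_one] at t1
    linarith
  · intro ε hε hε4
    refine Eventually.of_forall fun T => ?_
    have h1 := PG_add (nh_fin (ht T) T) (P := fun D => 1 - ε ≤ D ∧ D ≤ 1 + ε)
      (Q := fun D => 1 + 2 * ε ≤ D ∧ D ≤ 2) (R := fun D => 1 - ε ≤ D ∧ D ≤ 2)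
      (fun D hD => ⟨hD.1, by linarith [hD.2]⟩) (fun D hD => ⟨by linarith [hD.1], hD.2⟩)
      (fun D hD hD' => by linarith [hD.2, hD'.1])
    unfold PH
    exact_mod_cast h1

/-- number of pairs of zeros of `H_t`, half-open intervals -/
noncomputable def PS (t T α β : ℝ) : ℝ :=
  ((PG (Zi (Ht t)) hh T fun D => α < D ∧ D ≤ β).ncard : ℝ)

/-- the lattice law for `H_t` -/
theorem ht_lattice {t : ℝ → ℝ} {A : ℝ} (hA : 0 < A)
    (hA' : ∀ᶠ T in atTop, t T * Real.log T ≤ A)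
    (ht2 : Tendsto (fun T => t T * Real.log T ^ 2 / Real.log (Real.log T)) atTop atTop)
    {α β : ℝ} (hα0 : 0 ≤ α) (hαβ : α < β) (hα : α = 0 ∨ ∀ k : ℕ, α ≠ k) (hβ : ∀ k : ℕ, β ≠ k) :
    Tendsto (fun T => PS (t T) T α β / NH (t T) T) atTop (𝓝 ((⌊β⌋₊ : ℝ) - ⌊α⌋₊)) := by
  have hLL : Tendsto (fun T : ℝ => Real.log (Real.log T)) atTop atTop :=
    Real.tendsto_log_atTop.comp Real.tendsto_log_atTop
  have ht0 : ∀ᶠ T in atTop, 0 < t T := by
    filter_upwards [ht2.eventually_gt_atTop 0, eventually_gt_atTop (1 : ℝ),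
      hLL.eventually_gt_atTop 0] with T h2 h3 h4
    have h5 : 0 < Real.log T ^ 2 := by have := Real.log_pos h3; positivity
    have h6 : 0 < t T * Real.log T ^ 2 := by
      rwa [lt_div_iff₀ h4, zero_mul] at h2
    exact (pos_iff_pos_of_mul_pos h6).2 h5
  have ht1 : Tendsto (fun T => t T * Real.log T ^ 2) atTop atTop := by
    refine tendsto_atTop_mono' atTop ?_ ht2
    filter_upwards [hLL.eventually_ge_atTop 1, ht0, eventually_gt_atTop (1 : ℝ)] with T h1 h2 h3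
    have h4 : 0 < t T * Real.log T ^ 2 := mul_pos h2 (by have := Real.log_pos h3; positivity)
    exact div_le_self h4.le h1
  obtain ⟨h1, h2, h3⟩ := quarter hA hA' ht1
  have h4 : Tendsto (fun T => t T / 4 * Real.log T ^ 2 / Real.log (Real.log T)) atTop atTop := by
    have e : (fun T => t T / 4 * Real.log T ^ 2 / Real.log (Real.log T)) =
        fun T => (1 / 4) * (t T * Real.log T ^ 2 / Real.log (Real.log T)) := by
      funext T
      ring
    rw [e]
    exact ht2.const_mul_atTop (by norm_num)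
  have h5 := inp_xi.lattice hA h1 h2 h4 hα0 hαβ hα hβ
  refine h5.congr' ?_
  filter_upwards [ht0] with T t1
  unfold PS NH
  rw [ht_pairs t1.le, ht_num t1.le]

end Run7.h422.PP
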