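import Pool.Agent.Run7.h422.PP.K4

/-!
# Tuples of zeros: laws
-/

set_option autoImplicit false

namespace Run7.h422.PP

open Complex Filter Topology Set MeasureTheory

variable {X : ℝ → ℂ → ℂ}

/-- the lattice law for tuples -/
theorem Inp.lattice_k (hI : Inp X) {τ : ℝ → ℝ} {A : ℝ} (hA : 0 < A)
    (h0 : ∀ᶠ T in atTop, 0 < τ T) (hτA : ∀ᶠ T in atTop, τ T * Real.log T ≤ A)
    (hτ : Tendsto (fun T => τ T * Real.log T ^ 2 / Real.log (Real.log T)) atTop atTop)
    {k : ℕ} {α β : Fin k → ℝ} (hα : ∀ i, ∀ a : ℤ, α i ≠ a) (hβ : ∀ i, ∀ a : ℤ, β i ≠ a) :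
    Tendsto (fun T => ((Tu (X (τ T)) T α β).ncard : ℝ) / ((NZ (X (τ T)) T).ncard : ℝ)) atTop
      (𝓝 ((IV α β).ncard : ℝ)) := by
  obtain ⟨θ, b, M, hθ, hθ1, hS⟩ := sepk_ex hα hβ
  obtain ⟨c1, T1, hc1, hT1, htot⟩ := hI.tot A
  set q : ℝ := ((IV α β).ncard : ℝ) with hq
  have hq0 : 0 ≤ q := Nat.cast_nonneg _
  rw [Metric.tendsto_nhds]
  intro η hη
  have hη' : 0 < η * c1 / (2 * (q + 1)) := by positivity
  have hmain := hI.tuples hA h0 hτA hτ hθ hθ1 hS hη'
  have hLL : Tendsto (fun T : ℝ => Real.log T) atTop atTop := Real.tendsto_log_atTop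
  filter_upwards [hmain, h0, hτA, eventually_ge_atTop T1, eventually_gt_atTop (1 : ℝ),
    hLL.eventually_ge_atTop (8 * A)] with T t12 t3 t4 t5 t6 t7
  obtain ⟨t1, t2⟩ := t12
  have hL : 0 < Real.log T := Real.log_pos t6
  have hTL : 0 < T * Real.log T := mul_pos (by linarith) hL
  have hτ8 : τ T ≤ 1 / 8 := by
    by_contra hcon
    push Not at hcon
    have h3 : 1 / 8 * (8 * A) < τ T * Real.log T :=
      mul_lt_mul hcon t7 (by positivity) t3.le
    linarith
  have h1 := htot T (τ T) t5 t3.le hτ8 t4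
  set N : ℝ := ((NZ (X (τ T)) T).ncard : ℝ) with hN
  have hN0 : 0 < N := lt_of_lt_of_le (by positivity) h1
  have h2 : η * c1 / (2 * (q + 1)) * (T * Real.log T) ≤ η / (2 * (q + 1)) * N := by
    calc η * c1 / (2 * (q + 1)) * (T * Real.log T) =
        η / (2 * (q + 1)) * (c1 * (T * Real.log T)) := by ring
      _ ≤ _ := mul_le_mul_of_nonneg_left h1 (by positivity)
  have h3 : q * (η / (2 * (q + 1)) * N) < η * N := by
    have h4 : q * (η / (2 * (q + 1))) < η := by
      rw [mul_div_assoc', div_lt_iff₀ (by positivity)]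
      nlinarith
    calc q * (η / (2 * (q + 1)) * N) = q * (η / (2 * (q + 1))) * N := by ring
      _ < η * N := mul_lt_mul_of_pos_right h4 hN0
  have h5 : η / (2 * (q + 1)) * N < η * N := by
    apply mul_lt_mul_of_pos_right _ hN0
    rw [div_lt_iff₀ (by positivity)]
    nlinarith
  have h6 : q * (η * c1 / (2 * (q + 1)) * (T * Real.log T)) ≤ q * (η / (2 * (q + 1)) * N) :=
    mul_le_mul_of_nonneg_left h2 hq0
  rw [Real.dist_eq, abs_lt]
  constructor
  · rw [neg_lt_sub_iff_lt_add, ← sub_lt_iff_lt_add', lt_div_iff₀ hN0]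
    have h7 : (q - η) * N = q * N - η * N := by ring
    have h8 : q * (N - η * c1 / (2 * (q + 1)) * (T * Real.log T)) =
      q * N - q * (η * c1 / (2 * (q + 1)) * (T * Real.log T)) := by ring
    linarith
  · rw [sub_lt_iff_lt_add, div_lt_iff₀ hN0]
    have h7 : (η + q) * N = η * N + q * N := by ring
    linarith

/-- laws for tuples -/
def LawK (k : ℕ) (N : ℝ → (Fin k → ℝ) → (Fin k → ℝ) → ℝ)
    (Φ : (Fin k → ℝ) → (Fin k → ℝ) → ℝ) : Prop :=
  ∀ α β : Fin k → ℝ, (∀ i, α i < β i) →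
    Tendsto (fun T : ℝ => N T α β / (T * Real.log T / (2 * Real.pi))) atTop (𝓝 (Φ α β))

/-- continuity -/
def CtsK (k : ℕ) (Φ : (Fin k → ℝ) → (Fin k → ℝ) → ℝ) : Prop :=
  ContinuousOn (fun x : (Fin k → ℝ) × (Fin k → ℝ) => Φ x.1 x.2) {x | ∀ i, x.1 i < x.2 i}

lemma cts_nearK {k : ℕ} {Φ : (Fin k → ℝ) → (Fin k → ℝ) → ℝ} (h : CtsK k Φ) {α β : Fin k → ℝ}
    (hαβ : ∀ i, α i < β i) {η : ℝ} (hη : 0 < η) :
    ∃ ε0 : ℝ, 0 < ε0 ∧ ∀ x y : Fin k → ℝ, (∀ i, |x i - α i| ≤ ε0) → (∀ i, |y i - β i| ≤ ε0) →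
      |Φ x y - Φ α β| < η := by
  have hopen : IsOpen {x : (Fin k → ℝ) × (Fin k → ℝ) | ∀ i, x.1 i < x.2 i} := by
    have e : {x : (Fin k → ℝ) × (Fin k → ℝ) | ∀ i, x.1 i < x.2 i} =
        ⋂ i, {x : (Fin k → ℝ) × (Fin k → ℝ) | x.1 i < x.2 i} := by
      ext x
      simp
    rw [e]
    exact isOpen_iInter_of_finite fun i => isOpen_lt (by fun_prop) (by fun_prop)
  have hc : ContinuousAt (fun x : (Fin k → ℝ) × (Fin k → ℝ) => Φ x.1 x.2) (α, β) :=
    h.continuousAt (hopen.mem_nhds hαβ)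
  rw [Metric.continuousAt_iff] at hc
  obtain ⟨d, hd, hd'⟩ := hc η hη
  refine ⟨d / 2, by positivity, fun x y hx hy => ?_⟩
  have h1 : dist ((x, y) : (Fin k → ℝ) × (Fin k → ℝ)) (α, β) < d := by
    rw [Prod.dist_eq, max_lt_iff]
    constructor
    · refine lt_of_le_of_lt ((dist_pi_le_iff (by positivity)).2 fun i => ?_)
        (by linarith : d / 2 < d)
      rw [Real.dist_eq]
      exact hx i
    · refine lt_of_le_of_lt ((dist_pi_le_iff (by positivity)).2 fun i => ?_)
        (by linarith : d / 2 < d)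
      rw [Real.dist_eq]
      exact hy i
  have h2 := hd' h1
  rw [Real.dist_eq] at h2
  exact h2

lemma min_gap {k : ℕ} {α β : Fin k → ℝ} (hαβ : ∀ i, α i < β i) :
    ∃ d : ℝ, 0 < d ∧ ∀ i, d ≤ β i - α i := by
  rcases isEmpty_or_nonempty (Fin k) with h | h
  · exact ⟨1, one_pos, fun i => (h.false i).elim⟩
  · refine ⟨Finset.univ.inf' Finset.univ_nonempty (fun i => β i - α i), ?_, fun i =>
      Finset.inf'_le _ (Finset.mem_univ i)⟩
    rw [Finset.lt_inf'_iff]
    exact fun i _ => by linarith [hαβ i]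

theorem law_trK {k : ℕ} {N1 N2 : ℝ → (Fin k → ℝ) → (Fin k → ℝ) → ℝ}
    {Φ : (Fin k → ℝ) → (Fin k → ℝ) → ℝ} (hΦ : CtsK k Φ)
    (h : ∀ (α β : Fin k → ℝ) (ε : ℝ), 0 < ε → ∀ᶠ T : ℝ in atTop,
      N1 T α β ≤ N2 T (fun i => α i - ε) (fun i => β i + ε) + ε * (T * Real.log T) ∧
      N2 T α β ≤ N1 T (fun i => α i - ε) (fun i => β i + ε) + ε * (T * Real.log T))
    (hL : LawK k N1 Φ) : LawK k N2 Φ := by
  intro α β hαβ
  rw [Metric.tendsto_nhds]
  intro η hη
  obtain ⟨ε0, hε0, hc⟩ := cts_nearK hΦ hαβ (by positivity : 0 < η / 4)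
  obtain ⟨d, hd, hdi⟩ := min_gap hαβ
  have hpi := Real.pi_pos
  obtain ⟨ε, hε, h1, h3, h4⟩ : ∃ ε : ℝ, 0 < ε ∧ ε ≤ ε0 ∧ ε ≤ d / 4 ∧
      2 * Real.pi * ε ≤ η / 4 := by
    refine ⟨min ε0 (min (d / 4) (η / (8 * Real.pi))), by positivity, min_le_left _ _,
      (min_le_right _ _).trans (min_le_left _ _), ?_⟩
    have h1 : min ε0 (min (d / 4) (η / (8 * Real.pi))) ≤ η / (8 * Real.pi) :=
      (min_le_right _ _).trans (min_le_right _ _)
    calc 2 * Real.pi * _ ≤ 2 * Real.pi * (η / (8 * Real.pi)) :=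
          mul_le_mul_of_nonneg_left h1 (by positivity)
      _ = η / 4 := by field_simp; ring
  have l1 := hL (fun i => α i - ε) (fun i => β i + ε) (fun i => by linarith [hαβ i])
  have l2 := hL (fun i => α i + ε) (fun i => β i - ε) (fun i => by linarith [hdi i])
  rw [Metric.tendsto_nhds] at l1 l2
  have c1 := hc (fun i => α i - ε) (fun i => β i + ε)
    (fun i => by rw [sub_sub_cancel_left, abs_neg, abs_of_pos hε]; exact h1)
    (fun i => by rw [add_sub_cancel_left, abs_of_pos hε]; exact h1)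
  have c2 := hc (fun i => α i + ε) (fun i => β i - ε)
    (fun i => by rw [add_sub_cancel_left, abs_of_pos hε]; exact h1)
    (fun i => by rw [sub_sub_cancel_left, abs_neg, abs_of_pos hε]; exact h1)
  filter_upwards [l1 (η / 4) (by positivity), l2 (η / 4) (by positivity),
    h α β ε hε, h (fun i => α i + ε) (fun i => β i - ε) ε hε,
    eventually_gt_atTop (1 : ℝ)] with T t1 t2 t3 t4 t5
  have hT : 0 < T * Real.log T := mul_pos (by linarith) (Real.log_pos t5)
  have hT' : 0 < T * Real.log T / (2 * Real.pi) := by positivity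
  have e1 : (fun i => α i + ε - ε) = α := by funext i; ring
  have e2 : (fun i => β i - ε + ε) = β := by funext i; ring
  rw [e1, e2] at t4
  rw [Real.dist_eq, abs_lt] at t1 t2 ⊢
  rw [abs_lt] at c1 c2
  have e3 : 2 * Real.pi * ε * (T * Real.log T / (2 * Real.pi)) = ε * (T * Real.log T) := by
    field_simp
  have u1 : N2 T α β / (T * Real.log T / (2 * Real.pi)) ≤
      N1 T (fun i => α i - ε) (fun i => β i + ε) / (T * Real.log T / (2 * Real.pi)) +
        2 * Real.pi * ε := by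
    rw [div_le_iff₀ hT', add_mul, div_mul_cancel₀ _ hT'.ne', e3]
    exact t3.2
  have u2 : N1 T (fun i => α i + ε) (fun i => β i - ε) / (T * Real.log T / (2 * Real.pi)) ≤
      N2 T α β / (T * Real.log T / (2 * Real.pi)) + 2 * Real.pi * ε := by
    rw [div_le_iff₀ hT', add_mul, div_mul_cancel₀ _ hT'.ne', e3]
    exact t4.1
  constructor
  · linarith [t2.1, c2.1]
  · linarith [t1.2, c1.2]

theorem law_iffK {k : ℕ} {N1 N2 : ℝ → (Fin k → ℝ) → (Fin k → ℝ) → ℝ}
    {Φ : (Fin k → ℝ) → (Fin k → ℝ) → ℝ} (hΦ : CtsK k Φ)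
    (h : ∀ (α β : Fin k → ℝ) (ε : ℝ), 0 < ε → ∀ᶠ T : ℝ in atTop,
      N1 T α β ≤ N2 T (fun i => α i - ε) (fun i => β i + ε) + ε * (T * Real.log T) ∧
      N2 T α β ≤ N1 T (fun i => α i - ε) (fun i => β i + ε) + ε * (T * Real.log T)) :
    LawK k N1 Φ ↔ LawK k N2 Φ :=
  ⟨law_trK hΦ h, law_trK hΦ fun α β ε hε => (h α β ε hε).mono fun _ hT => hT.symm⟩

/-- box integrals of continuous functions are continuous -/
theorem box_cts {k : ℕ} {g : (Fin k → ℝ) → ℝ} (hg : Continuous g) :
    CtsK k fun α β => ∫ u in Set.Icc α β, g u := by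
  have key : Continuous fun x : (Fin k → ℝ) × (Fin k → ℝ) => ∫ u in Set.Icc x.1 x.2, g u := by
    rw [continuous_iff_continuousAt]
    rintro ⟨α0, β0⟩
    have e : (fun x : (Fin k → ℝ) × (Fin k → ℝ) => ∫ u in Set.Icc x.1 x.2, g u) =
        fun x => ∫ u, (Set.Icc x.1 x.2).indicator g u := by
      funext x
      rw [integral_indicator measurableSet_Icc]
    rw [e]
    have hcomp : IsCompact (Set.Icc (fun i => α0 i - 1) (fun i => β0 i + 1)) :=
      isCompact_Icc
    refine continuousAt_of_dominated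
      (bound := (Set.Icc (fun i => α0 i - 1) (fun i => β0 i + 1)).indicator fun u => |g u|)
      ?_ ?_ ?_ ?_
    · refine Eventually.of_forall fun x => ?_
      exact (hg.aestronglyMeasurable).indicator measurableSet_Icc
    · have h1 : ∀ᶠ x : (Fin k → ℝ) × (Fin k → ℝ) in 𝓝 (α0, β0), dist x (α0, β0) < 1 :=
        Metric.ball_mem_nhds _ one_pos
      filter_upwards [h1] with x hx
      refine Eventually.of_forall fun u => ?_
      by_cases hu : u ∈ Set.Icc x.1 x.2
      · have hu' : u ∈ Set.Icc (fun i => α0 i - 1) (fun i => β0 i + 1) := by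
          rw [Prod.dist_eq, max_lt_iff] at hx
          have h2 := (dist_pi_lt_iff one_pos).1 hx.1
          have h3 := (dist_pi_lt_iff one_pos).1 hx.2
          refine ⟨fun i => ?_, fun i => ?_⟩
          · have h4 := h2 i
            rw [Real.dist_eq, abs_lt] at h4
            have h5 := hu.1 i
            show α0 i - 1 ≤ u i
            have h6 : x.1 i - α0 i > -1 := h4.1
            linarith
          · have h4 := h3 i
            rw [Real.dist_eq, abs_lt] at h4
            have h5 := hu.2 i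
            show u i ≤ β0 i + 1
            have h6 : x.2 i - β0 i < 1 := h4.2
            linarith
        rw [Set.indicator_of_mem hu, Set.indicator_of_mem hu', Real.norm_eq_abs]
      · rw [Set.indicator_of_notMem hu, norm_zero]
        exact Set.indicator_nonneg (fun _ _ => abs_nonneg _) _
    · rw [integrable_indicator_iff measurableSet_Icc]
      exact (hg.abs).continuousOn.integrableOn_compact hcomp
    · have h1 : ∀ᵐ u : Fin k → ℝ, ∀ i, u i ≠ α0 i ∧ u i ≠ β0 i := by
        rw [ae_all_iff]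
        intro i
        have a1 : ∀ᵐ u : Fin k → ℝ, u i ≠ α0 i := by
          rw [volume_pi]
          exact Measure.ae_eval_ne (fun _ : Fin k => (volume : Measure ℝ)) i (α0 i)
        have a2 : ∀ᵐ u : Fin k → ℝ, u i ≠ β0 i := by
          rw [volume_pi]
          exact Measure.ae_eval_ne (fun _ : Fin k => (volume : Measure ℝ)) i (β0 i)
        filter_upwards [a1, a2] with u h2 h3
        exact ⟨h2, h3⟩
      filter_upwards [h1] with u hu
      -- membership is locally constant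
      have h2 : ∀ᶠ x : (Fin k → ℝ) × (Fin k → ℝ) in 𝓝 (α0, β0),
          (u ∈ Set.Icc x.1 x.2 ↔ u ∈ Set.Icc α0 β0) := by
        have h3 : ∀ᶠ x : (Fin k → ℝ) × (Fin k → ℝ) in 𝓝 (α0, β0), ∀ i,
            (x.1 i ≤ u i ↔ α0 i ≤ u i) ∧ (u i ≤ x.2 i ↔ u i ≤ β0 i) := by
          rw [eventually_all]
          intro i
          have c1 : ContinuousAt (fun x : (Fin k → ℝ) × (Fin k → ℝ) => x.1 i) (α0, β0) := by
            fun_prop
          have c2 : ContinuousAt (fun x : (Fin k → ℝ) × (Fin k → ℝ) => x.2 i) (α0, β0) := by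
            fun_prop
          have d1 : ∀ᶠ x : (Fin k → ℝ) × (Fin k → ℝ) in 𝓝 (α0, β0),
              (x.1 i ≤ u i ↔ α0 i ≤ u i) := by
            rcases lt_or_gt_of_ne (hu i).1 with h4 | h4
            · filter_upwards [c1.eventually_const_lt h4] with x hx
              exact ⟨fun h5 => absurd h5 (not_le.2 hx), fun h5 => absurd h5 (not_le.2 h4)⟩
            · filter_upwards [c1.eventually_lt_const h4] with x hx
              exact ⟨fun _ => h4.le, fun _ => hx.le⟩
          have d2 : ∀ᶠ x : (Fin k → ℝ) × (Fin k → ℝ) in 𝓝 (α0, β0),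
              (u i ≤ x.2 i ↔ u i ≤ β0 i) := by
            rcases lt_or_gt_of_ne (hu i).2 with h4 | h4
            · filter_upwards [c2.eventually_const_lt h4] with x hx
              exact ⟨fun _ => h4.le, fun _ => hx.le⟩
            · filter_upwards [c2.eventually_lt_const h4] with x hx
              exact ⟨fun h5 => absurd h5 (not_le.2 hx), fun h5 => absurd h5 (not_le.2 h4)⟩
          filter_upwards [d1, d2] with x h5 h6
          exact ⟨h5, h6⟩
        filter_upwards [h3] with x hx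
        constructor
        · intro h4
          exact ⟨fun i => (hx i).1.1 (h4.1 i), fun i => (hx i).2.1 (h4.2 i)⟩
        · intro h4
          exact ⟨fun i => (hx i).1.2 (h4.1 i), fun i => (hx i).2.2 (h4.2 i)⟩
      have h4 : (fun x : (Fin k → ℝ) × (Fin k → ℝ) => (Set.Icc x.1 x.2).indicator g u) =ᶠ[𝓝 (α0, β0)]
          fun _ => (Set.Icc α0 β0).indicator g u := by
        filter_upwards [h2] with x hx
        by_cases h5 : u ∈ Set.Icc α0 β0
        · rw [Set.indicator_of_mem h5, Set.indicator_of_mem (hx.2 h5)]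
        · rw [Set.indicator_of_notMem h5, Set.indicator_of_notMem (fun h6 => h5 (hx.1 h6))]
      exact continuousAt_const.congr h4.symm
  exact key.continuousOn

/-- the determinant of the sine kernel at the points `0, u_1, ..., u_k` -/
noncomputable def sdet {k : ℕ} (u : Fin k → ℝ) : ℝ :=
  Matrix.det (Matrix.of fun i j : Fin (k + 1) =>
    Real.sinc (Real.pi * ((Fin.cons 0 u : Fin (k + 1) → ℝ) i - (Fin.cons 0 u : Fin (k + 1) → ℝ) j)))

lemma sdet_cts {k : ℕ} : Continuous (sdet : (Fin k → ℝ) → ℝ) := by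
  unfold sdet
  refine Continuous.matrix_det ?_
  refine continuous_matrix fun i j => ?_
  have h1 : ∀ i : Fin (k + 1), Continuous fun u : Fin k → ℝ => (Fin.cons 0 u : Fin (k + 1) → ℝ) i := by
    intro i
    refine Fin.cases ?_ (fun j => ?_) i
    · simp only [Fin.cons_zero]
      exact continuous_const
    · simp only [Fin.cons_succ]
      exact continuous_apply j
  exact Real.continuous_sinc.comp (continuous_const.mul ((h1 i).sub (h1 j)))

end Run7.h422.PP
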