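import Pool.Agent.Run7.h422.PP.Fin
import Pool.Agent.Run7.h422.PP.K5

/-!
# Tuples of zeros of the de Bruijn-Newman family: the results
-/

set_option autoImplicit false

namespace Run7.h422.PP

open Complex Filter Topology Set
open Pool.Agent.H986R2.DBN (XT Ht)
open Pool.Agent.R838.ST (Tuples ZetaZ)

/-- number of tuples of zeros of zeta -/
noncomputable def TZ {k : ℕ} (T : ℝ) (α β : Fin k → ℝ) : ℝ :=
  ((Tuples ZetaZ (fun z => z.im) T α β).ncard : ℝ)

/-- number of tuples of zeros of `H_t` -/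
noncomputable def TH {k : ℕ} (t T : ℝ) (α β : Fin k → ℝ) : ℝ :=
  ((Tuples (Zi (Ht t)) (fun z => z.re / 2) T α β).ncard : ℝ)

/-- the same laws below the threshold -/
theorem law_smallK {t : ℝ → ℝ} (ht : ∀ T, 0 ≤ t T)
    (ht2 : Tendsto (fun T => t T * Real.log T ^ 2) atTop (𝓝 0)) (k : ℕ)
    {Φ : (Fin k → ℝ) → (Fin k → ℝ) → ℝ} (hΦ : CtsK k Φ) :
    LawK k TZ Φ ↔ LawK k (fun T => TH (t T) T) Φ := by
  refine law_iffK hΦ fun α β ε hε => ?_
  obtain ⟨δ, T0, hδ, hT0, h⟩ := Pool.Agent.R838.ST.cmp k α β ε hε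
  filter_upwards [ht2.eventually_lt_const hδ, eventually_ge_atTop T0,
    eventually_gt_atTop (1 : ℝ)] with T h2 h3 h4
  have hL : 0 < Real.log T := Real.log_pos h4
  exact h T (t T) h3 (ht T) (by rw [le_div_iff₀ (by positivity)]; exact h2.le)

/-- the lattice law for tuples of zeros of `H_t` -/
theorem ht_latticeK {t : ℝ → ℝ} {A : ℝ} (hA : 0 < A)
    (hA' : ∀ᶠ T in atTop, t T * Real.log T ≤ A)
    (ht2 : Tendsto (fun T => t T * Real.log T ^ 2 / Real.log (Real.log T)) atTop atTop)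
    {k : ℕ} {α β : Fin k → ℝ} (hα : ∀ i, ∀ a : ℤ, α i ≠ a) (hβ : ∀ i, ∀ a : ℤ, β i ≠ a) :
    Tendsto (fun T => TH (t T) T α β / NH (t T) T) atTop (𝓝 ((IV α β).ncard : ℝ)) := by
  have hLL : Tendsto (fun T : ℝ => Real.log (Real.log T)) atTop atTop :=
    Real.tendsto_log_atTop.comp Real.tendsto_log_atTop
  have ht0 : ∀ᶠ T in atTop, 0 < t T := by
    filter_upwards [ht2.eventually_gt_atTop 0, eventually_gt_atTop (1 : ℝ),
      hLL.eventually_gt_atTop 0] with T h2 h3 h4
    have h5 : 0 < Real.log T ^ 2 := by have := Real.log_pos h3; positivity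
    have h6 : 0 < t T * Real.log T ^ 2 := by
      rwa [lt_div_iff₀ h4, zero_mul] at h2
    exact (pos_iff_pos_of_mul_pos h6).2 h5
  have ht1 : Tendsto (fun T => t T * Real.log T ^ 2) atTop atTop := by
    refine tendsto_atTop_mono' atTop ?_ ht2
    filter_upwards [hLL.eventually_ge_atTop 1, ht0, eventually_gt_atTop (1 : ℝ)] with T h1 h2 h3
    have h4 : 0 < t T * Real.log T ^ 2 := mul_pos h2 (by have := Real.log_pos h3; positivity)
    exact div_le_self h4.le h1
  obtain ⟨h1, h2, h3⟩ := quarter hA hA' ht1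
  have h4 : Tendsto (fun T => t T / 4 * Real.log T ^ 2 / Real.log (Real.log T)) atTop atTop := by
    have e : (fun T => t T / 4 * Real.log T ^ 2 / Real.log (Real.log T)) =
        fun T => (1 / 4) * (t T * Real.log T ^ 2 / Real.log (Real.log T)) := by
      funext T
      ring
    rw [e]
    exact ht2.const_mul_atTop (by norm_num)
  have h5 := inp_xi.lattice_k hA h1 h2 h4 hα hβ
  refine h5.congr' ?_
  filter_upwards [ht0] with T t1
  have e : (Tuples (Zi (Ht (t T))) (fun z => z.re / 2) T α β).ncard =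
      (Tu (XT (t T / 4)) T α β).ncard := Pool.Agent.R838.ST.ht_ct t1.le T α β
  unfold TH NH
  rw [e, ht_num t1.le]

end Run7.h422.PP
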