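import Pool.Agent.Run7.h422.PP.M4

/-!
# Tuples of zeros of a heat flow: the lattice law in the full range of times
-/

set_option autoImplicit false

namespace Run7.h422.PP

open Complex Filter Topology Set

variable {X : ℝ → ℂ → ℂ}

lemma log_div_loglog : Tendsto (fun T : ℝ => Real.log T / Real.log (Real.log T)) atTop atTop := by
  have h1 : Tendsto (fun x : ℝ => x / Real.log x) atTop atTop := by
    have h2 : Real.log =o[atTop] (fun x : ℝ => x) := Real.isLittleO_log_id_atTop
    rw [tendsto_atTop]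
    intro b
    have hb : (0 : ℝ) < 1 / (|b| + 1) := by positivity
    filter_upwards [h2.bound hb, eventually_gt_atTop (1 : ℝ)] with x h3 h4
    have hl : 0 < Real.log x := Real.log_pos h4
    rw [Real.norm_of_nonneg hl.le, Real.norm_of_nonneg (by linarith), one_div, inv_mul_eq_div,
      le_div_iff₀ (by positivity)] at h3
    rw [le_div_iff₀ hl]
    have h5 : b ≤ |b| + 1 := by linarith [le_abs_self b]
    nlinarith
  exact h1.comp Real.tendsto_log_atTop

/-- the errors are small, all times -/
theorem Inp.tuplesS (hI : Inp X) (hM : Mom X) {τ : ℝ → ℝ} {A : ℝ} (hA : 0 < A)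
    (h0 : ∀ᶠ T in atTop, 0 < τ T) (hτA : ∀ᶠ T in atTop, τ T * Real.log T ≤ A)
    (hτ : Tendsto (fun T => τ T * Real.log T ^ 2) atTop atTop)
    {k : ℕ} {α β : Fin k → ℝ} {θ b : ℝ} {M : ℕ} (hθ : 0 < θ) (hθ1 : θ ≤ 1)
    (hS : Sep θ M α β b) {η : ℝ} (hη : 0 < η) :
    ∀ᶠ T in atTop, ((IV α β).ncard : ℝ) *
        (((NZ (X (τ T)) T).ncard : ℝ) - η * (T * Real.log T)) ≤
        ((Tu (X (τ T)) T α β).ncard : ℝ) ∧
      ((Tu (X (τ T)) T α β).ncard : ℝ) ≤
        ((IV α β).ncard : ℝ) * ((NZ (X (τ T)) T).ncard : ℝ) + η * (T * Real.log T) := by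
  obtain ⟨c0, hc0, hsm⟩ := hI.tuples_small hM hθ hθ1 hS
  have hLL : Tendsto (fun T : ℝ => Real.log T) atTop atTop := Real.tendsto_log_atTop
  have hL : ∀ᶠ T : ℝ in atTop, 0 < Real.log T := hLL.eventually_gt_atTop 0
  have h1 := hsm (fun T => min (τ T) (c0 / Real.log T))
    (by
      filter_upwards [h0, hL] with T a1 a2
      exact lt_min a1 (by positivity))
    (by
      filter_upwards [hL] with T a2
      calc min (τ T) (c0 / Real.log T) * Real.log T ≤ c0 / Real.log T * Real.log T :=
            mul_le_mul_of_nonneg_right (min_le_right _ _) a2.le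
        _ = c0 := by field_simp)
    (by
      have h2 : Tendsto (fun T : ℝ => min (τ T * Real.log T ^ 2) (c0 * Real.log T)) atTop atTop := by
        rw [tendsto_atTop]
        intro B
        filter_upwards [hτ.eventually_ge_atTop B,
          (hLL.const_mul_atTop hc0).eventually_ge_atTop B] with T a1 a2
        exact le_min a1 a2
      refine h2.congr' ?_
      filter_upwards [hL] with T a2
      rw [min_mul_of_nonneg _ _ (by positivity)]
      congr 1
      field_simp)
    η hη
  have h2 := hI.tuples (A := max A c0) (by positivity) (τ := fun T => max (τ T) (c0 / Real.log T))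
    (by
      filter_upwards [h0] with T a1
      exact lt_max_of_lt_left a1)
    (by
      filter_upwards [hτA, hL] with T a1 a2
      rw [max_mul_of_nonneg _ _ a2.le]
      refine max_le_max a1 ?_
      have : c0 / Real.log T * Real.log T = c0 := by field_simp
      exact this.le)
    (by
      have h3 : Tendsto (fun T : ℝ => c0 * (Real.log T / Real.log (Real.log T))) atTop atTop :=
        log_div_loglog.const_mul_atTop hc0
      refine tendsto_atTop_mono' _ ?_ h3
      filter_upwards [hLL.eventually_gt_atTop 1] with T a2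
      have hl : 0 < Real.log (Real.log T) := Real.log_pos a2
      have hl' : 0 < Real.log T := by linarith
      rw [mul_div_assoc']
      refine div_le_div_of_nonneg_right ?_ hl.le
      calc c0 * Real.log T = c0 / Real.log T * Real.log T ^ 2 := by field_simp
        _ ≤ _ := mul_le_mul_of_nonneg_right (le_max_right _ _) (by positivity))
    hθ hθ1 hS hη
  filter_upwards [h1, h2] with T a1 a2
  rcases le_total (τ T) (c0 / Real.log T) with h | h
  · simp only [min_eq_left h] at a1
    exact a1
  · simp only [max_eq_left h] at a2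
    exact a2

/-- the lattice law for tuples, all times -/
theorem Inp.lattice_kS (hI : Inp X) (hM : Mom X) {τ : ℝ → ℝ} {A : ℝ} (hA : 0 < A)
    (h0 : ∀ᶠ T in atTop, 0 < τ T) (hτA : ∀ᶠ T in atTop, τ T * Real.log T ≤ A)
    (hτ : Tendsto (fun T => τ T * Real.log T ^ 2) atTop atTop)
    {k : ℕ} {α β : Fin k → ℝ} (hα : ∀ i, ∀ a : ℤ, α i ≠ a) (hβ : ∀ i, ∀ a : ℤ, β i ≠ a) :
    Tendsto (fun T => ((Tu (X (τ T)) T α β).ncard : ℝ) / ((NZ (X (τ T)) T).ncard : ℝ)) atTop
      (𝓝 ((IV α β).ncard : ℝ)) := by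
  obtain ⟨θ, b, M, hθ, hθ1, hS⟩ := sepk_ex hα hβ
  obtain ⟨c1, T1, hc1, hT1, htot⟩ := hI.tot A
  set q : ℝ := ((IV α β).ncard : ℝ) with hq
  have hq0 : 0 ≤ q := Nat.cast_nonneg _
  rw [Metric.tendsto_nhds]
  intro η hη
  have hη' : 0 < η * c1 / (2 * (q + 1)) := by positivity
  have hmain := hI.tuplesS hM hA h0 hτA hτ hθ hθ1 hS hη'
  have hLL : Tendsto (fun T : ℝ => Real.log T) atTop atTop := Real.tendsto_log_atTop
  filter_upwards [hmain, h0, hτA, eventually_ge_atTop T1, eventually_gt_atTop (1 : ℝ),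
    hLL.eventually_ge_atTop (8 * A)] with T t12 t3 t4 t5 t6 t7
  obtain ⟨t1, t2⟩ := t12
  have hL : 0 < Real.log T := Real.log_pos t6
  have hTL : 0 < T * Real.log T := mul_pos (by linarith) hL
  have hτ8 : τ T ≤ 1 / 8 := by
    by_contra hcon
    push Not at hcon
    have h3 : 1 / 8 * (8 * A) < τ T * Real.log T :=
      mul_lt_mul hcon t7 (by positivity) t3.le
    linarith
  have h1 := htot T (τ T) t5 t3.le hτ8 t4
  set N : ℝ := ((NZ (X (τ T)) T).ncard : ℝ) with hN
  have hN0 : 0 < N := lt_of_lt_of_le (by positivity) h1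
  have h2 : η * c1 / (2 * (q + 1)) * (T * Real.log T) ≤ η / (2 * (q + 1)) * N := by
    calc η * c1 / (2 * (q + 1)) * (T * Real.log T) =
        η / (2 * (q + 1)) * (c1 * (T * Real.log T)) := by ring
      _ ≤ _ := mul_le_mul_of_nonneg_left h1 (by positivity)
  have h3 : q * (η / (2 * (q + 1)) * N) < η * N := by
    have h4 : q * (η / (2 * (q + 1))) < η := by
      rw [mul_div_assoc', div_lt_iff₀ (by positivity)]
      nlinarith
    calc q * (η / (2 * (q + 1)) * N) = q * (η / (2 * (q + 1))) * N := by ring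
      _ < η * N := mul_lt_mul_of_pos_right h4 hN0
  have h5 : η / (2 * (q + 1)) * N < η * N := by
    apply mul_lt_mul_of_pos_right _ hN0
    rw [div_lt_iff₀ (by positivity)]
    nlinarith
  have h6 : q * (η * c1 / (2 * (q + 1)) * (T * Real.log T)) ≤ q * (η / (2 * (q + 1)) * N) :=
    mul_le_mul_of_nonneg_left h2 hq0
  rw [Real.dist_eq, abs_lt]
  constructor
  · rw [neg_lt_sub_iff_lt_add, ← sub_lt_iff_lt_add', lt_div_iff₀ hN0]
    have h7 : (q - η) * N = q * N - η * N := by ring
    have h8 : q * (N - η * c1 / (2 * (q + 1)) * (T * Real.log T)) =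
      q * N - q * (η * c1 / (2 * (q + 1)) * (T * Real.log T)) := by ring
    linarith
  · rw [sub_lt_iff_lt_add, div_lt_iff₀ hN0]
    have h7 : (η + q) * N = η * N + q * N := by ring
    linarith

end Run7.h422.PP
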