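import Pool.Agent.Run7.h422.PP.M1
import Pool.Agent.Run7.h422.PP.M5
import Pool.Agent.R838.ST.Zst
import Pool.Agent.R838.ST.Cry
import Pool.Agent.R838.CR.Finp
import Pool.Agent.W186.SD.FinHt

/-!
# The correlations of the zeros of a heat flow: abstract form

Every flow with `Pool.Agent.R838.ST.STB` satisfies the hypotheses `Inp` and `Mom`.
-/

set_option autoImplicit false

namespace Run7.h422.PP

open Complex Filter Topology Set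
open Pool.Agent.H24R2.JP (Om)
open Pool.Agent.R838.CR (fin_irr irrH regH)
open Pool.Agent.R838.ST (STB UNIT0 nn_allX zset zfin zi_card)

lemma irrH_of' {f : ℝ → ℂ → ℂ} {ε τ : ℝ} {s : ℂ} (h0 : f τ s = 0)
    (h : ¬ ∃ s', Stp (f τ) ε s s') : irrH f ε τ s := by
  refine ⟨h0, fun hreg => h ?_⟩
  obtain ⟨h1, h2, g, h3, h4, h5, h6, h7⟩ := hreg
  exact ⟨s + g * I, h1, h2, g, h3, h4, h5, h6, h7, rfl⟩

variable {B : ℝ} {F : ℂ → ℂ} {FT : ℝ → ℂ → ℂ}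

/-- the zeros with a property -/
lemma zset_stb (hD : STB B F FT) {τ : ℝ} (hτ : 0 ≤ τ) (Q : ℂ → Prop) {u v : ℝ}
    (hQ : ∀ s, Q s → u ≤ s.im ∧ s.im ≤ v) :
    ∃ Z : Finset ℂ, (∀ s, s ∈ Z ↔ FT τ s = 0 ∧ Q s) ∧
      {p : ℂ × ℕ | p ∈ Zi (FT τ) ∧ Q p.1}.Finite ∧
      {p : ℂ × ℕ | p ∈ Zi (FT τ) ∧ Q p.1}.ncard = ∑ s ∈ Z, analyticOrderNatAt (FT τ) s := by
  classical
  have hf := hD.heatd τ hτ
  have hfin : {s | FT τ s = 0 ∧ Q s}.Finite :=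
    (zfin hf (fun s hs => hD.strip τ s hτ hs) u v).subset (fun s h => ⟨h.1, hQ _ h.2⟩)
  refine ⟨hfin.toFinset, fun s => by rw [Set.Finite.mem_toFinset]; rfl, ?_⟩
  have e : {p : ℂ × ℕ | p ∈ Zi (FT τ) ∧ Q p.1} =
      {p : ℂ × ℕ | p ∈ Pool.Agent.R838.ST.Zi (FT τ) ∧ p.1 ∈ hfin.toFinset} := by
    ext p
    constructor
    · rintro ⟨h1, h2⟩
      exact ⟨h1, by rw [Set.Finite.mem_toFinset]; exact ⟨Zi_zero hf h1, h2⟩⟩
    · rintro ⟨h1, h2⟩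
      rw [Set.Finite.mem_toFinset] at h2
      exact ⟨h1, h2.2⟩
  rw [e]
  exact zi_card (FT τ) _

/-- many zeros up to `T` -/
def TOT (FT : ℝ → ℂ → ℂ) : Prop := ∀ A : ℝ, ∃ c T0 : ℝ, 0 < c ∧ 2 ≤ T0 ∧
  ∀ T τ : ℝ, T0 ≤ T → 0 ≤ τ → τ ≤ 1 / 8 → τ * Real.log T ≤ A → ∃ S : Finset ℂ,
    (∀ s ∈ S, FT τ s = 0 ∧ 0 < s.im ∧ s.im ≤ T) ∧
    c * (T * Real.log T) ≤ ∑ s ∈ S, (analyticOrderNatAt (FT τ) s : ℝ)

theorem inp_stb (hD : STB B F FT) (h0 : UNIT0 F) (htot : TOT FT) : Inp FT where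
  diff := fun τ hτ => hD.heatd τ hτ
  fin := fun τ hτ u v => by
    obtain ⟨-, -, h, -⟩ := zset_stb hD hτ (fun s => u ≤ s.im ∧ s.im ≤ v) (fun s hs => hs)
    exact h
  unit := fun A hA => nn_allX hD h0 A hA
  irr := fun ε A hε => by
    obtain ⟨c, C, hc, hC, h⟩ := fin_irr hD.ins ε A hε
    refine ⟨c, C, hc, hC, fun T τ hT hτ hτ8 hτA => ?_⟩
    obtain ⟨Z, hZ, -, hn⟩ := zset_stb hD hτ.le (fun s => T < s.im ∧ s.im ≤ 2 * T ∧
      ¬ ∃ s', Stp (FT τ) ε s s') (u := T) (v := 2 * T) (fun s hs => ⟨hs.1.le, hs.2.1⟩)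
    have e : Ir (FT τ) ε T (2 * T) = {p : ℂ × ℕ | p ∈ Zi (FT τ) ∧ (T < p.1.im ∧ p.1.im ≤ 2 * T ∧
      ¬ ∃ s', Stp (FT τ) ε p.1 s')} := rfl
    rw [e, hn]
    push_cast
    refine h T τ hT hτ hτ8 hτA Z (fun s hs => ?_)
    obtain ⟨h1, h2, h3, h4⟩ := (hZ s).1 hs
    exact ⟨irrH_of' h1 h4, h2, h3⟩
  tot := fun A => by
    obtain ⟨c, T0, hc, hT0, h⟩ := htot A
    refine ⟨c, T0, hc, hT0, fun T τ hT hτ hτ8 hτA => ?_⟩
    obtain ⟨S, hS, hS2⟩ := h T τ hT hτ hτ8 hτA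
    obtain ⟨Z, hZ, hZf, hn⟩ := zset_stb hD hτ (fun s => 0 < s.im ∧ s.im ≤ T) (u := 0) (v := T)
      (fun s hs => ⟨hs.1.le, hs.2⟩)
    have e : NZ (FT τ) T = {p : ℂ × ℕ | p ∈ Zi (FT τ) ∧ (0 < p.1.im ∧ p.1.im ≤ T)} := rfl
    rw [e, hn]
    push_cast
    exact hS2.trans (Finset.sum_le_sum_of_subset_of_nonneg
      (fun s hs => (hZ s).2 ⟨(hS s hs).1, (hS s hs).2⟩) (fun _ _ _ => Nat.cast_nonneg _))

/-- the moments near small sets of zeros -/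
theorem mom_stb (hD : STB B F FT) (h0 : UNIT0 F) : Mom FT := by
  intro k H hH
  obtain ⟨c0, a0, C, c, U0, hc0, ha0, hC, hc, hU0, h⟩ := momB hD h0
    Pool.Agent.W333.SDNGN.ngn Pool.Agent.W186.SD.HH.aw Pool.Agent.W186.SD.HH.cnt
    Pool.Agent.W337.SD.cov k (H / 2) (by positivity)
  refine ⟨c0, 2 * a0, C, c / 2, U0, hc0, by linarith, hC, by positivity, hU0, ?_⟩
  intro U τ S hU ha hτ hS
  have hOm : Om U = Real.log U / 2 := rfl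
  have hU1 : 1 < U := by linarith
  have hL : 0 < Real.log U := Real.log_pos hU1
  have e1 : 2 * τ * Om U ^ 2 = τ * Real.log U ^ 2 / 2 := by rw [hOm]; ring
  have e2 : 2 * τ * Om U = τ * Real.log U := by rw [hOm]; ring
  have e3 : H / 2 / Om U = H / Real.log U := by rw [hOm]; field_simp
  have h1 := h U τ S hU (by rw [e1]; linarith) (by rw [e2]; exact hτ) hS
  rw [e1, e3] at h1
  have hx : 0 < τ * Real.log U ^ 2 := by linarith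
  have h2 : ∑ y ∈ S, (wn (FT τ) y.1.im (H / Real.log U) : ℝ) ^ k =
      ∑ y ∈ S, (Pool.Agent.R838.ST.nn (FT τ) y.1.im (H / Real.log U) : ℝ) ^ k := rfl
  rw [h2]
  refine h1.trans (add_le_add ?_ ?_)
  · refine mul_le_mul_of_nonneg_left (mul_le_mul_of_nonneg_right ?_ (Nat.cast_nonneg _)) hC.le
    exact pow_le_pow_left₀ (by positivity) (by linarith) k
  · have e4 : c * (τ * Real.log U ^ 2 / 2) = c / 2 * (τ * Real.log U ^ 2) := by ring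
    rw [e4]
    refine mul_le_mul_of_nonneg_right (mul_le_mul_of_nonneg_left ?_ hC.le) (Real.exp_pos _).le
    refine mul_le_mul_of_nonneg_left ?_ (by linarith)
    rw [hOm]
    linarith

end Run7.h422.PP
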