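import Pool.Agent.Run7.h422.PP.G1
import Pool.Agent.R838.IS.Is9
import Pool.Agent.R838.ST.Fu2

/-!
# The correlations of the zeros of the heat flow of a completed L-function
-/

set_option autoImplicit false

namespace Run7.h422.PP

open Complex Filter Topology Set
open Pool.Agent.H24R2.JP (Om)
open Pool.Agent.R838.ST (STB UNIT0 zfin)
open Pool.Agent.R838.IS (HX ord_aff ratio_num heat_zero)
open Pool.Agent.W169.HF (heat)

/-- tuples of different zeros of `Y` with ordinates in `(0, T]`, differences times `κ log T / π` in a box -/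
def TuL (κ : ℝ) (Y : ℂ → ℂ) {k : ℕ} (T : ℝ) (α β : Fin k → ℝ) : Set (Fin (k + 1) → ℂ × ℕ) :=
  {x | (∀ i, x i ∈ Zi Y) ∧ Function.Injective x ∧ (∀ i, 0 < (x i).1.im ∧ (x i).1.im ≤ T) ∧
    ∀ i : Fin k, α i ≤ ((x i.succ).1.im - (x 0).1.im) * (κ * Real.log T / Real.pi) ∧
      ((x i.succ).1.im - (x 0).1.im) * (κ * Real.log T / Real.pi) ≤ β i}

lemma aff_inj {a b : ℝ} (hbc : (b : ℂ) ≠ 0) {p q : ℂ × ℕ}
    (h : (((b : ℂ) * (p.1 - a), p.2) : ℂ × ℕ) = ((b : ℂ) * (q.1 - a), q.2)) : p = q := by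
  rw [Prod.ext_iff] at h
  obtain ⟨h1, h2⟩ := h
  have h3 := mul_left_cancel₀ hbc h1
  exact Prod.ext (sub_left_injective h3) h2

section aff

variable {Y G : ℂ → ℂ} {u : ℂ} {a b κ : ℝ}
variable (hY : Differentiable ℂ Y) (hu : u ≠ 0) (hb : 1 ≤ b) (hbκ : b = 2 * κ)
  (hG : G = fun z => u * Y ((a : ℂ) + z / (b : ℂ)))

include hY hu hb hG in
lemma zi_aff (p : ℂ × ℕ) : p ∈ Zi Y ↔ (((b : ℂ) * (p.1 - a), p.2) : ℂ × ℕ) ∈ Zi G := by
  have hb0 : 0 < b := by linarith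
  have hbc : (b : ℂ) ≠ 0 := by exact_mod_cast hb0.ne'
  have ho : ∀ z, analyticOrderNatAt G z = analyticOrderNatAt Y ((a : ℂ) + z / (b : ℂ)) := fun z => by
    rw [hG]; exact ord_aff hY hu (a : ℂ) hb0 z
  have e1 : (a : ℂ) + ((b : ℂ) * (p.1 - a)) / (b : ℂ) = p.1 := by
    rw [mul_div_cancel_left₀ _ hbc]; ring
  show p.2 < analyticOrderNatAt Y p.1 ↔ p.2 < analyticOrderNatAt G ((b : ℂ) * (p.1 - a))
  rw [ho, e1]

include hY hu hb hbκ hG in
theorem TuL_card {k : ℕ} {T : ℝ} (hT : 1 < T) (α β : Fin k → ℝ) : (TuL κ Y T α β).ncard =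
    (Tu G (b * T) (fun i => Real.log (b * T) / Real.log T * α i)
      (fun i => Real.log (b * T) / Real.log T * β i)).ncard := by
  have hb0 : 0 < b := by linarith
  have hbc : (b : ℂ) ≠ 0 := by exact_mod_cast hb0.ne'
  have hbT1 : 1 < b * T := by nlinarith
  have hL : 0 < Real.log T := Real.log_pos hT
  have hbL : 0 < Real.log (b * T) := Real.log_pos hbT1
  have hpi := Real.pi_pos
  have hz := zi_aff hY hu hb hG (a := a)
  have e2 : ∀ p : ℂ × ℕ, (((b : ℂ) * (((a : ℂ) + p.1 / (b : ℂ)) - a), p.2) : ℂ × ℕ) = p := fun p => by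
    rw [add_sub_cancel_left, mul_div_cancel₀ _ hbc]
  have e1 : ∀ p : ℂ × ℕ, (((a : ℂ) + ((b : ℂ) * (p.1 - a)) / (b : ℂ), p.2) : ℂ × ℕ) = p := fun p => by
    rw [mul_div_cancel_left₀ _ hbc, add_sub_cancel]
  have him : ∀ s : ℂ, ((b : ℂ) * (s - a)).im = b * s.im := fun s => by simp
  set r : ℝ := Real.log (b * T) / Real.log T with hr
  have hr0 : 0 < r := by positivity
  have hrL : r * (κ * Real.log T / Real.pi) = b * (Real.log (b * T) / (2 * Real.pi)) := by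
    rw [hr, hbκ]
    field_simp
  have hcmp : ∀ x y : ℝ, (b * x - b * y) * (Real.log (b * T) / (2 * Real.pi)) =
      r * ((x - y) * (κ * Real.log T / Real.pi)) := by
    intro x y
    calc (b * x - b * y) * (Real.log (b * T) / (2 * Real.pi)) =
        (x - y) * (b * (Real.log (b * T) / (2 * Real.pi))) := by ring
      _ = (x - y) * (r * (κ * Real.log T / Real.pi)) := by rw [hrL]
      _ = _ := by ring
  have hmem : ∀ x : Fin (k + 1) → ℂ × ℕ, x ∈ TuL κ Y T α β ↔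
      (fun i => (((b : ℂ) * ((x i).1 - a), (x i).2) : ℂ × ℕ)) ∈
        Tu G (b * T) (fun i => r * α i) (fun i => r * β i) := by
    intro x
    have hinj : Function.Injective x ↔
        Function.Injective (fun i => (((b : ℂ) * ((x i).1 - a), (x i).2) : ℂ × ℕ)) := by
      constructor
      · intro h i j hij
        exact h (aff_inj hbc hij)
      · intro h i j hij
        apply h
        show (((b : ℂ) * ((x i).1 - a), (x i).2) : ℂ × ℕ) = ((b : ℂ) * ((x j).1 - a), (x j).2)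
        rw [hij]
    unfold TuL Tu
    simp only [Set.mem_setOf_eq, him]
    rw [← hinj]
    refine and_congr (forall_congr' fun i => hz (x i)) (and_congr Iff.rfl (and_congr
      (forall_congr' fun i => ?_) (forall_congr' fun i => ?_)))
    · rw [mul_pos_iff_of_pos_left hb0, mul_le_mul_iff_right₀ hb0]
    · rw [hcmp, mul_le_mul_iff_right₀ hr0, mul_le_mul_iff_right₀ hr0]
  refine Set.ncard_congr (fun x _ => fun i => (((b : ℂ) * ((x i).1 - a), (x i).2) : ℂ × ℕ)) ?_ ?_ ?_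
  · intro x hx
    exact (hmem x).1 hx
  · intro x y _ _ hxy
    funext i
    exact aff_inj hbc (congrFun hxy i)
  · intro y hy
    refine ⟨fun i => (((a : ℂ) + (y i).1 / (b : ℂ), (y i).2) : ℂ × ℕ), ?_, ?_⟩
    · rw [hmem]
      have : (fun i => (((b : ℂ) * (((a : ℂ) + (y i).1 / (b : ℂ)) - a), (y i).2) : ℂ × ℕ)) = y := by
        funext i
        exact e2 (y i)
      rw [this]
      exact hy
    · funext i
      exact e2 (y i)

include hY hu hb hG in
theorem NZ_card (T : ℝ) : (NZ Y T).ncard = (NZ G (b * T)).ncard := by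
  have hb0 : 0 < b := by linarith
  have hbc : (b : ℂ) ≠ 0 := by exact_mod_cast hb0.ne'
  have hz := zi_aff hY hu hb hG (a := a)
  have e2 : ∀ p : ℂ × ℕ, (((b : ℂ) * (((a : ℂ) + p.1 / (b : ℂ)) - a), p.2) : ℂ × ℕ) = p := fun p => by
    rw [add_sub_cancel_left, mul_div_cancel₀ _ hbc]
  have e1 : ∀ p : ℂ × ℕ, (((a : ℂ) + ((b : ℂ) * (p.1 - a)) / (b : ℂ), p.2) : ℂ × ℕ) = p := fun p => by
    rw [mul_div_cancel_left₀ _ hbc, add_sub_cancel]
  have him : ∀ s : ℂ, ((b : ℂ) * (s - a)).im = b * s.im := fun s => by simp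
  have hmem : ∀ p : ℂ × ℕ, p ∈ NZ Y T ↔ (((b : ℂ) * (p.1 - a), p.2) : ℂ × ℕ) ∈ NZ G (b * T) := by
    intro p
    unfold NZ
    simp only [Set.mem_setOf_eq, him]
    rw [mul_pos_iff_of_pos_left hb0, mul_le_mul_iff_right₀ hb0, ← hz]
  refine Set.ncard_congr (fun p _ => (((b : ℂ) * (p.1 - a), p.2) : ℂ × ℕ)) ?_ ?_ ?_
  · intro p hp
    exact (hmem p).1 hp
  · intro p q _ _ hpq
    exact aff_inj hbc hpq
  · intro q hq
    refine ⟨(((a : ℂ) + q.1 / (b : ℂ), q.2) : ℂ × ℕ), ?_, e2 q⟩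
    rw [hmem]
    show (((b : ℂ) * (((a : ℂ) + q.1 / (b : ℂ)) - a), q.2) : ℂ × ℕ) ∈ NZ G (b * T)
    rw [e2]
    exact hq

end aff

/-- finitely many tuples -/
lemma tu_fin' {f : ℂ → ℂ} {T : ℝ} (h : (NZ f T).Finite) {k : ℕ} (α β : Fin k → ℝ) :
    (Tu f T α β).Finite := by
  have h2 : {x : Fin (k + 1) → ℂ × ℕ | ∀ i, x i ∈ NZ f T}.Finite := by
    have := Set.Finite.pi' (fun _ : Fin (k + 1) => h)
    exact this
  exact h2.subset fun x hx i => ⟨hx.1 i, (hx.2.2.1 i).1, (hx.2.2.1 i).2⟩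

lemma tu_mono {f : ℂ → ℂ} {T : ℝ} (h : (NZ f T).Finite) {k : ℕ} {α β α' β' : Fin k → ℝ}
    (hα : ∀ i, α' i ≤ α i) (hβ : ∀ i, β i ≤ β' i) : (Tu f T α β).ncard ≤ (Tu f T α' β').ncard :=
  Set.ncard_le_ncard (fun _ hx => ⟨hx.1, hx.2.1, hx.2.2.1, fun i =>
    ⟨(hα i).trans (hx.2.2.2 i).1, (hx.2.2.2 i).2.trans (hβ i)⟩⟩) (tu_fin' h α' β')

end Run7.h422.PP
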