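import Pool.Agent.Run7.h422.PP.G2
import Pool.Agent.Run7.h422.PP.K5

/-!
# The correlations of the zeros of the heat flow of a completed L-function: the theorems
-/

set_option autoImplicit false

namespace Run7.h422.PP

open Complex Filter Topology Set
open Pool.Agent.H24R2.JP (Om)
open Pool.Agent.R838.ST (STB UNIT0 zfin full)
open Pool.Agent.R838.IS (HX ord_aff ratio_num heat_zero)
open Pool.Agent.W169.HF (heat)

variable {κ a : ℝ} {u : ℂ} {Λ F : ℂ → ℂ} {FT : ℝ → ℂ → ℂ}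

lemma nz_finF (h : HX κ a u Λ F FT) {τ : ℝ} (hτ : 0 ≤ τ) (T : ℝ) : (NZ (FT τ) T).Finite := by
  obtain ⟨-, -, h2, -⟩ := zset_stb h.stb hτ (fun s => 0 < s.im ∧ s.im ≤ T) (u := 0) (v := T)
    (fun s hs => ⟨hs.1.le, hs.2⟩)
  exact h2

/-- a vector is close to its multiple by a number close to `1` -/
lemma near_vec {k : ℕ} (α : Fin k → ℝ) {δ : ℝ} (hδ : 0 < δ) : ∃ e : ℝ, 0 < e ∧ ∀ r : ℝ, |r - 1| ≤ e →
    ∀ i, |r * α i - α i| ≤ δ := by
  obtain ⟨M, hM⟩ : ∃ M : ℝ, M = 1 + ∑ i, |α i| := ⟨_, rfl⟩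
  have hs : 0 ≤ ∑ i, |α i| := Finset.sum_nonneg fun i _ => abs_nonneg _
  have hM0 : 0 < M := by rw [hM]; linarith
  refine ⟨δ / M, by positivity, fun r hr i => ?_⟩
  have h1 : |α i| ≤ M := by
    have := Finset.single_le_sum (f := fun i => |α i|) (fun j _ => abs_nonneg _) (Finset.mem_univ i)
    rw [hM]
    linarith
  have e : r * α i - α i = (r - 1) * α i := by ring
  rw [e, abs_mul]
  calc |r - 1| * |α i| ≤ δ / M * M := mul_le_mul hr h1 (abs_nonneg _) (by positivity)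
    _ = δ := by field_simp

/-- the quotient of the logarithms tends to `1` -/
lemma ratio_one {b : ℝ} (hb : 1 ≤ b) {e : ℝ} (he : 0 < e) :
    ∀ᶠ T : ℝ in atTop, |Real.log (b * T) / Real.log T - 1| ≤ e := by
  have hLL : Tendsto (fun T : ℝ => Real.log T) atTop atTop := Real.tendsto_log_atTop
  filter_upwards [hLL.eventually_ge_atTop (Real.log b / e), eventually_gt_atTop (1 : ℝ)] with T h1 h2
  have hL : 0 < Real.log T := Real.log_pos h2
  have e1 : Real.log (b * T) = Real.log b + Real.log T := Real.log_mul (by linarith) (by linarith)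
  have e2 : Real.log (b * T) / Real.log T - 1 = Real.log b / Real.log T := by
    rw [e1]
    field_simp
    ring
  rw [e2, abs_of_nonneg (div_nonneg (Real.log_nonneg hb) hL.le), div_le_iff₀ hL]
  rw [div_le_iff₀ he] at h1
  linarith

/-- comparison of the tuples at two small times -/
theorem cmpT (h : HX κ a u Λ F FT) {k : ℕ} (α β : Fin k → ℝ) (ε : ℝ) (hε : 0 < ε) : ∃ δ T0 : ℝ, 0 < δ ∧
    2 ≤ T0 ∧ ∀ T t1 t2 : ℝ, T0 ≤ T → 0 ≤ t1 → 0 ≤ t2 → (t1 = 0 ∨ t2 = 0) → t1 ≤ δ / Real.log T ^ 2 →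
    t2 ≤ δ / Real.log T ^ 2 →
    ((TuL κ (heat t1 Λ) T α β).ncard : ℝ) ≤
      ((TuL κ (heat t2 Λ) T (fun i => α i - ε) (fun i => β i + ε)).ncard : ℝ) + ε * (T * Real.log T) := by
  obtain ⟨b, hb2⟩ : ∃ b : ℝ, b = 2 * κ := ⟨_, rfl⟩
  have hκ := h.kap
  have hb1 : 1 ≤ b := by rw [hb2]; linarith
  have hb0 : 0 < b := by linarith
  have heqn := h.eqn
  rw [← hb2] at heqn
  obtain ⟨ε1, hε1, hε1a, hε1b⟩ : ∃ ε1 : ℝ, 0 < ε1 ∧ ε1 ≤ ε / 4 ∧ ε1 ≤ ε / (2 * b) :=
    ⟨min (ε / 4) (ε / (2 * b)), by positivity, min_le_left _ _, min_le_right _ _⟩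
  obtain ⟨δ, T0, hδ, hT0, H⟩ := full h.stb h.u0 Pool.Agent.W333.SDNGN.ngn Pool.Agent.W186.SD.HH.aw
    Pool.Agent.W186.SD.HH.cnt Pool.Agent.W337.SD.cov k (fun i => α i - ε / 4) (fun i => β i + ε / 4) ε1 hε1
  obtain ⟨e1, he1, hn1⟩ := near_vec α (δ := ε / 4) (by positivity)
  obtain ⟨e2, he2, hn2⟩ := near_vec β (δ := ε / 4) (by positivity)
  obtain ⟨e3, he3, hn3⟩ := near_vec (fun i => α i - ε) (δ := ε / 4) (by positivity)
  obtain ⟨e4, he4, hn4⟩ := near_vec (fun i => β i + ε) (δ := ε / 4) (by positivity)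
  have hr := ratio_one hb1 (e := min (min e1 e2) (min e3 e4)) (by positivity)
  obtain ⟨T1, hT1⟩ := Filter.eventually_atTop.1 hr
  refine ⟨δ / b ^ 2, max (max T0 T1) (max 2 b), by positivity, hT0.trans ((le_max_left _ _).trans (le_max_left _ _)),
    ?_⟩
  intro T t1 t2 hT ht1 ht2 h12 h1 h2
  simp only [max_le_iff] at hT
  obtain ⟨⟨hTa, hTr⟩, hTb, hTc⟩ := hT
  obtain ⟨hL, r1, r2, r3, r4⟩ := ratio_num hb1 hTb hTc
  have hT0' : 0 < T := by linarith
  have hbT : T ≤ b * T := le_mul_of_one_le_left hT0'.le hb1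
  have hbT1 : 1 < b * T := by linarith
  have hLb : 0 < Real.log (b * T) := by linarith
  have hOm : Om (b * T) = Real.log (b * T) / 2 := rfl
  have hOm0 : 0 < Om (b * T) := by rw [hOm]; linarith
  have hτ : ∀ t : ℝ, t ≤ δ / b ^ 2 / Real.log T ^ 2 → b ^ 2 * t ≤ δ / Om (b * T) ^ 2 := by
    intro t ht
    have e1 : b ^ 2 * t ≤ b ^ 2 * (δ / b ^ 2 / Real.log T ^ 2) := mul_le_mul_of_nonneg_left ht (by positivity)
    have e2 : b ^ 2 * (δ / b ^ 2 / Real.log T ^ 2) = δ / Real.log T ^ 2 := by field_simp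
    rw [e2] at e1
    refine e1.trans ?_
    apply div_le_div_of_nonneg_left hδ.le (by positivity)
    apply pow_le_pow_left₀ hOm0.le
    rw [hOm]; linarith
  have hrT := hT1 T hTr
  obtain ⟨r, hrdef⟩ : ∃ r : ℝ, r = Real.log (b * T) / Real.log T := ⟨_, rfl⟩
  rw [← hrdef] at r1 r2 hrT
  simp only [le_min_iff] at hrT
  obtain ⟨⟨q1, q2⟩, q3, q4⟩ := hrT
  have m1 := hn1 r q1
  have m2 := hn2 r q2
  have m3 := hn3 r q3
  have m4 := hn4 r q4
  have c1 := TuL_card (κ := κ) (h.diff t1 ht1) h.une hb1 hb2 (heqn t1 ht1) (a := a) (T := T) (by linarith) α β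
  have c2 := TuL_card (κ := κ) (h.diff t2 ht2) h.une hb1 hb2 (heqn t2 ht2) (a := a) (T := T) (by linarith)
    (fun i => α i - ε) (fun i => β i + ε)
  rw [← hrdef] at c1 c2
  rw [c1, c2]
  have key := H (b * T) (b ^ 2 * t1) (b ^ 2 * t2) (hTa.trans hbT) (by positivity) (by positivity) (by
      rcases h12 with h | h
      · left; rw [h, mul_zero]
      · right; rw [h, mul_zero]) (hτ t1 h1) (hτ t2 h2)
  have k1 := tu_mono (nz_finF h (τ := b ^ 2 * t1) (by positivity) (b * T)) (α := fun i => r * α i)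
    (β := fun i => r * β i) (α' := fun i => α i - ε / 4) (β' := fun i => β i + ε / 4)
    (fun i => by have := abs_le.1 (m1 i); linarith [this.1]) (fun i => by have := abs_le.1 (m2 i); linarith [this.2])
  have k2 := tu_mono (nz_finF h (τ := b ^ 2 * t2) (by positivity) (b * T)) (α := fun i => α i - ε / 4 - ε1)
    (β := fun i => β i + ε / 4 + ε1) (α' := fun i => r * (α i - ε)) (β' := fun i => r * (β i + ε))
    (fun i => by have := abs_le.1 (m3 i); linarith [this.2]) (fun i => by have := abs_le.1 (m4 i); linarith [this.1])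
  have k1' : ((Tu (FT (b ^ 2 * t1)) (b * T) (fun i => r * α i) (fun i => r * β i)).ncard : ℝ) ≤
      ((Tu (FT (b ^ 2 * t1)) (b * T) (fun i => α i - ε / 4) (fun i => β i + ε / 4)).ncard : ℝ) := by
    exact_mod_cast k1
  have k2' : ((Tu (FT (b ^ 2 * t2)) (b * T) (fun i => α i - ε / 4 - ε1) (fun i => β i + ε / 4 + ε1)).ncard : ℝ) ≤
      ((Tu (FT (b ^ 2 * t2)) (b * T) (fun i => r * (α i - ε)) (fun i => r * (β i + ε))).ncard : ℝ) := by
    exact_mod_cast k2
  have herr : ε1 * (b * T * Real.log (b * T)) ≤ ε * (T * Real.log T) := by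
    have g0 : ε1 * (b * T * Real.log (b * T)) ≤ ε / (2 * b) * (b * T * Real.log (b * T)) :=
      mul_le_mul_of_nonneg_right hε1b (by positivity)
    have g1 : ε / (2 * b) * (b * T * Real.log (b * T)) = ε / 2 * T * Real.log (b * T) := by field_simp
    rw [g1] at g0
    have g2 : ε / 2 * T * Real.log (b * T) ≤ ε / 2 * T * (2 * Real.log T) :=
      mul_le_mul_of_nonneg_left r3 (by positivity)
    linarith
  have key' : ((Tu (FT (b ^ 2 * t1)) (b * T) (fun i => α i - ε / 4) (fun i => β i + ε / 4)).ncard : ℝ) ≤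
      ((Tu (FT (b ^ 2 * t2)) (b * T) (fun i => α i - ε / 4 - ε1) (fun i => β i + ε / 4 + ε1)).ncard : ℝ) +
      ε1 * (b * T * Real.log (b * T)) := key
  linarith

/-- the same laws at small times -/
theorem law_smallL (h : HX κ a u Λ F FT) {t : ℝ → ℝ} (ht : ∀ T, 0 ≤ t T)
    (hl : Tendsto (fun T => t T * Real.log T ^ 2) atTop (𝓝 0)) (k : ℕ)
    {Φ : (Fin k → ℝ) → (Fin k → ℝ) → ℝ} (hΦ : CtsK k Φ) :
    (∀ α β : Fin k → ℝ, (∀ i, α i < β i) → Tendsto (fun T : ℝ =>
      ((TuL κ Λ T α β).ncard : ℝ) / (κ * (T * Real.log T) / Real.pi)) atTop (𝓝 (Φ α β))) ↔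
    (∀ α β : Fin k → ℝ, (∀ i, α i < β i) → Tendsto (fun T : ℝ =>
      ((TuL κ (heat (t T) Λ) T α β).ncard : ℝ) / (κ * (T * Real.log T) / Real.pi)) atTop (𝓝 (Φ α β))) := by
  have hκ := h.kap
  have hκ0 : 0 < κ := by linarith
  have hpi := Real.pi_pos
  have e : ∀ x T : ℝ, x / (κ * (T * Real.log T) / Real.pi) = x / (2 * κ) / (T * Real.log T / (2 * Real.pi)) := by
    intro x T
    field_simp
  have hz : heat 0 Λ = Λ := h.zero
  have main := law_iffK (k := k) (N1 := fun T α β => ((TuL κ Λ T α β).ncard : ℝ) / (2 * κ))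
    (N2 := fun T α β => ((TuL κ (heat (t T) Λ) T α β).ncard : ℝ) / (2 * κ)) (Φ := Φ) hΦ (by
      intro α β ε hε
      obtain ⟨δ, T0, hδ, hT0, H⟩ := cmpT h α β ε hε
      filter_upwards [hl.eventually_lt_const hδ, eventually_ge_atTop T0, eventually_gt_atTop (1 : ℝ)]
        with T h2 h3 h4
      have hL : 0 < Real.log T := Real.log_pos h4
      have h5 : t T ≤ δ / Real.log T ^ 2 := by rw [le_div_iff₀ (by positivity)]; exact h2.le
      have h6 : (0 : ℝ) ≤ δ / Real.log T ^ 2 := by positivity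
      have k1 := H T 0 (t T) h3 le_rfl (ht T) (Or.inl rfl) h6 h5
      have k2 := H T (t T) 0 h3 (ht T) le_rfl (Or.inr rfl) h5 h6
      rw [hz] at k1 k2
      have hTL : 0 ≤ ε * (T * Real.log T) := by
        have : 0 < T := by linarith
        positivity
      have hd : ∀ x y : ℝ, x ≤ y + ε * (T * Real.log T) → x / (2 * κ) ≤ y / (2 * κ) + ε * (T * Real.log T) := by
        intro x y hxy
        have g1 : x / (2 * κ) ≤ (y + ε * (T * Real.log T)) / (2 * κ) :=
          div_le_div_of_nonneg_right hxy (by linarith)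
        have g2 : ε * (T * Real.log T) / (2 * κ) ≤ ε * (T * Real.log T) := div_le_self hTL (by linarith)
        rw [add_div] at g1
        linarith
      exact ⟨hd _ _ k1, hd _ _ k2⟩)
  unfold LawK at main
  simp only [← e] at main
  exact main

/-- integers in slightly different boxes -/
lemma IV_near {k : ℕ} {α β : Fin k → ℝ} (hα : ∀ i, ∀ a : ℤ, α i ≠ a) (hβ : ∀ i, ∀ a : ℤ, β i ≠ a) :
    ∃ e : ℝ, 0 < e ∧ (∀ i, ∀ a : ℤ, α i - e ≠ a ∧ α i + e ≠ a ∧ β i - e ≠ a ∧ β i + e ≠ a) ∧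
      IV (fun i => α i - e) (fun i => β i + e) = IV α β ∧ IV (fun i => α i + e) (fun i => β i - e) = IV α β := by
  classical
  choose e1 he1 he1' using fun i => int_dist (hα i)
  choose e2 he2 he2' using fun i => int_dist (hβ i)
  obtain ⟨e, he, hea, heb⟩ : ∃ e : ℝ, 0 < e ∧ (∀ i, 2 * e ≤ e1 i) ∧ ∀ i, 2 * e ≤ e2 i := by
    rcases isEmpty_or_nonempty (Fin k) with h | h
    · exact ⟨1, one_pos, fun i => (h.false i).elim, fun i => (h.false i).elim⟩
    · obtain ⟨m, hm⟩ : ∃ m : ℝ, m = min (Finset.univ.inf' Finset.univ_nonempty e1)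
        (Finset.univ.inf' Finset.univ_nonempty e2) := ⟨_, rfl⟩
      have hm0 : 0 < m := by
        rw [hm]
        refine lt_min ?_ ?_
        · rw [Finset.lt_inf'_iff]; exact fun i _ => he1 i
        · rw [Finset.lt_inf'_iff]; exact fun i _ => he2 i
      refine ⟨m / 2, by positivity, fun i => ?_, fun i => ?_⟩
      · have : m ≤ e1 i := by
          rw [hm]
          exact (min_le_left _ _).trans (Finset.inf'_le _ (Finset.mem_univ i))
        linarith
      · have : m ≤ e2 i := by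
          rw [hm]
          exact (min_le_right _ _).trans (Finset.inf'_le _ (Finset.mem_univ i))
        linarith
  have A1 : ∀ i, ∀ a : ℤ, 2 * e ≤ |α i - a| := fun i a => (hea i).trans (he1' i a)
  have B1 : ∀ i, ∀ a : ℤ, 2 * e ≤ |β i - a| := fun i a => (heb i).trans (he2' i a)
  have key : ∀ x : ℝ, ∀ a : ℤ, 2 * e ≤ |x - a| → (x ≤ a ∧ x + e < a) ∨ ((a : ℝ) ≤ x ∧ a < x - e) := by
    intro x a hx
    rcases le_total x a with h | h
    · left
      rw [abs_of_nonpos (by linarith)] at hx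
      exact ⟨h, by linarith⟩
    · right
      rw [abs_of_nonneg (by linarith)] at hx
      exact ⟨h, by linarith⟩
  refine ⟨e, he, fun i a => ⟨fun h => ?_, fun h => ?_, fun h => ?_, fun h => ?_⟩, ?_, ?_⟩
  · rcases key _ a (A1 i a) with ⟨k1, k2⟩ | ⟨k1, k2⟩ <;> linarith
  · rcases key _ a (A1 i a) with ⟨k1, k2⟩ | ⟨k1, k2⟩ <;> linarith
  · rcases key _ a (B1 i a) with ⟨k1, k2⟩ | ⟨k1, k2⟩ <;> linarith
  · rcases key _ a (B1 i a) with ⟨k1, k2⟩ | ⟨k1, k2⟩ <;> linarith
  · ext v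
    refine and_congr Iff.rfl (forall_congr' fun i => and_congr Iff.rfl ?_)
    constructor
    · rintro ⟨h1, h2⟩
      constructor
      · rcases key _ (v i) (A1 i (v i)) with ⟨k1, k2⟩ | ⟨k1, k2⟩ <;> linarith
      · rcases key _ (v i) (B1 i (v i)) with ⟨k1, k2⟩ | ⟨k1, k2⟩ <;> linarith
    · rintro ⟨h1, h2⟩
      exact ⟨by linarith, by linarith⟩
  · ext v
    refine and_congr Iff.rfl (forall_congr' fun i => and_congr Iff.rfl ?_)
    constructor
    · rintro ⟨h1, h2⟩
      exact ⟨by linarith, by linarith⟩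
    · rintro ⟨h1, h2⟩
      constructor
      · rcases key _ (v i) (A1 i (v i)) with ⟨k1, k2⟩ | ⟨k1, k2⟩ <;> linarith
      · rcases key _ (v i) (B1 i (v i)) with ⟨k1, k2⟩ | ⟨k1, k2⟩ <;> linarith

/-- the lattice law -/
theorem lattice_L (h : HX κ a u Λ F FT) (htot : TOT FT) {t : ℝ → ℝ} {A : ℝ}
    (hA : ∀ᶠ T in atTop, t T * Real.log T ≤ A)
    (ht : Tendsto (fun T => t T * Real.log T ^ 2) atTop atTop)
    {k : ℕ} {α β : Fin k → ℝ} (hα : ∀ i, ∀ a : ℤ, α i ≠ a) (hβ : ∀ i, ∀ a : ℤ, β i ≠ a) :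
    Tendsto (fun T => ((TuL κ (heat (t T) Λ) T α β).ncard : ℝ) / ((NZ (heat (t T) Λ) T).ncard : ℝ)) atTop
      (𝓝 ((IV α β).ncard : ℝ)) := by
  obtain ⟨b, hb2⟩ : ∃ b : ℝ, b = 2 * κ := ⟨_, rfl⟩
  have hκ := h.kap
  have hb1 : 1 ≤ b := by rw [hb2]; linarith
  have hb0 : 0 < b := by linarith
  have heqn := h.eqn
  rw [← hb2] at heqn
  have hI : Inp FT := inp_stb h.stb h.u0 htot
  have hM : Mom FT := mom_stb h.stb h.u0
  have hLL : Tendsto (fun T : ℝ => Real.log T) atTop atTop := Real.tendsto_log_atTop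
  have ht0 : ∀ᶠ T in atTop, 0 < t T := by
    filter_upwards [ht.eventually_gt_atTop 0, eventually_gt_atTop (1 : ℝ)] with T h2 h3
    have h4 : 0 < Real.log T ^ 2 := by have := Real.log_pos h3; positivity
    exact (pos_iff_pos_of_mul_pos h2).2 h4
  have hdiv : Tendsto (fun T : ℝ => T / b) atTop atTop := tendsto_id.atTop_div_const hb0
  have hmul : Tendsto (fun T : ℝ => b * T) atTop atTop := tendsto_id.const_mul_atTop hb0
  set A' : ℝ := 2 * b ^ 2 * (|A| + 1) with hA'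
  have hA'0 : 0 < A' := by positivity
  -- the flow of `T'`
  have c0 : ∀ᶠ T in atTop, 0 < b ^ 2 * t (T / b) := by
    filter_upwards [hdiv.eventually ht0] with T h1
    positivity
  have c1 : ∀ᶠ T in atTop, b ^ 2 * t (T / b) * Real.log T ≤ A' := by
    filter_upwards [hdiv.eventually hA, hdiv.eventually ht0, hdiv.eventually_ge_atTop 2,
      hdiv.eventually_ge_atTop b] with T h1 h2 h3 h4
    obtain ⟨hL, r1, r2, r3, r4⟩ := ratio_num hb1 h3 h4
    have e : b * (T / b) = T := by field_simp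
    rw [e] at r3
    have h5 := le_abs_self A
    have g1 : b ^ 2 * t (T / b) * Real.log T ≤ b ^ 2 * t (T / b) * (2 * Real.log (T / b)) :=
      mul_le_mul_of_nonneg_left r3 (by positivity)
    have g2 : b ^ 2 * t (T / b) * (2 * Real.log (T / b)) = 2 * b ^ 2 * (t (T / b) * Real.log (T / b)) := by ring
    have g3 : 2 * b ^ 2 * (t (T / b) * Real.log (T / b)) ≤ 2 * b ^ 2 * (|A| + 1) :=
      mul_le_mul_of_nonneg_left (by linarith) (by positivity)
    rw [hA']
    linarith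
  have c2 : Tendsto (fun T => b ^ 2 * t (T / b) * Real.log T ^ 2) atTop atTop := by
    refine tendsto_atTop_mono' _ ?_ (ht.comp hdiv)
    filter_upwards [hdiv.eventually ht0, hdiv.eventually_ge_atTop 2, hdiv.eventually_ge_atTop b] with T h2 h3 h4
    obtain ⟨hL, r1, r2, r3, r4⟩ := ratio_num hb1 h3 h4
    have e : b * (T / b) = T := by field_simp
    rw [e] at r4
    have hb21 : 1 ≤ b ^ 2 := one_le_pow₀ hb1
    have hbt : t (T / b) ≤ b ^ 2 * t (T / b) := le_mul_of_one_le_left h2.le hb21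
    exact mul_le_mul hbt (pow_le_pow_left₀ hL.le r4 2) (by positivity) (by positivity)
  obtain ⟨e, he, hne, hIV1, hIV2⟩ := IV_near hα hβ
  have l1 := (hI.lattice_kS hM hA'0 c0 c1 c2 (α := fun i => α i - e) (β := fun i => β i + e)
    (fun i a => (hne i a).1) (fun i a => (hne i a).2.2.2)).comp hmul
  have l2 := (hI.lattice_kS hM hA'0 c0 c1 c2 (α := fun i => α i + e) (β := fun i => β i - e)
    (fun i a => (hne i a).2.1) (fun i a => (hne i a).2.2.1)).comp hmul
  rw [hIV1] at l1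
  rw [hIV2] at l2
  obtain ⟨e1, he1, hn1⟩ := near_vec α he
  obtain ⟨e2, he2, hn2⟩ := near_vec β he
  have hr := ratio_one hb1 (e := min e1 e2) (by positivity)
  have hbc : ∀ T : ℝ, b * T / b = T := fun T => by field_simp
  refine tendsto_of_tendsto_of_tendsto_of_le_of_le' l2 l1 ?_ ?_
  · filter_upwards [hr, ht0, eventually_gt_atTop (1 : ℝ)] with T h1 h2 h3
    simp only [Function.comp, hbc]
    rw [TuL_card (κ := κ) (h.diff (t T) h2.le) h.une hb1 hb2 (heqn (t T) h2.le) (a := a) h3 α β,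
      NZ_card (h.diff (t T) h2.le) h.une hb1 (heqn (t T) h2.le) (a := a) T]
    simp only [le_min_iff] at h1
    obtain ⟨q1, q2⟩ := h1
    have m1 := hn1 _ q1
    have m2 := hn2 _ q2
    have k1 := tu_mono (nz_finF h (τ := b ^ 2 * t T) (by positivity) (b * T)) (α := fun i => α i + e)
      (β := fun i => β i - e) (α' := fun i => Real.log (b * T) / Real.log T * α i)
      (β' := fun i => Real.log (b * T) / Real.log T * β i)
      (fun i => by have := abs_le.1 (m1 i); linarith [this.2]) (fun i => by have := abs_le.1 (m2 i); linarith [this.1])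
    refine div_le_div_of_nonneg_right ?_ (Nat.cast_nonneg _)
    exact_mod_cast k1
  · filter_upwards [hr, ht0, eventually_gt_atTop (1 : ℝ)] with T h1 h2 h3
    simp only [Function.comp, hbc]
    rw [TuL_card (κ := κ) (h.diff (t T) h2.le) h.une hb1 hb2 (heqn (t T) h2.le) (a := a) h3 α β,
      NZ_card (h.diff (t T) h2.le) h.une hb1 (heqn (t T) h2.le) (a := a) T]
    simp only [le_min_iff] at h1
    obtain ⟨q1, q2⟩ := h1
    have m1 := hn1 _ q1
    have m2 := hn2 _ q2
    have k1 := tu_mono (nz_finF h (τ := b ^ 2 * t T) (by positivity) (b * T))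
      (α := fun i => Real.log (b * T) / Real.log T * α i) (β := fun i => Real.log (b * T) / Real.log T * β i)
      (α' := fun i => α i - e) (β' := fun i => β i + e)
      (fun i => by have := abs_le.1 (m1 i); linarith [this.1]) (fun i => by have := abs_le.1 (m2 i); linarith [this.2])
    refine div_le_div_of_nonneg_right ?_ (Nat.cast_nonneg _)
    exact_mod_cast k1

end Run7.h422.PP
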