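import Pool.Agent.Run7.h422.PP.G3

/-!
# Many zeros of the heat flow of a completed L-function
-/

set_option autoImplicit false

namespace Run7.h422.PP

open Complex Filter Topology Set
open Pool.Agent.R838.IS (HX ord_aff ratio_num heat_zero)
open Pool.Agent.W169.HF (heat)

variable {κ a : ℝ} {u : ℂ} {Λ F : ℂ → ℂ} {FT : ℝ → ℂ → ℂ}

/-- many zeros up to `T` -/
theorem tot_hx (h : HX κ a u Λ F FT)
    (ht : ∀ K : ℝ, 1 ≤ K → ∃ c T0 : ℝ, 0 < c ∧ 2 ≤ T0 ∧ ∀ T τ : ℝ, T0 ≤ T → 0 ≤ τ → τ ≤ 1 / 8 →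
      τ * Real.log T ≤ K → ∃ S : Finset ℂ, (∀ s ∈ S, (fun z => u * heat τ Λ ((a : ℂ) + z)) s = 0 ∧
        T < s.im ∧ s.im ≤ 2 * T) ∧
      c * T * Real.log T ≤ ∑ s ∈ S, (analyticOrderNatAt (fun z => u * heat τ Λ ((a : ℂ) + z)) s : ℝ)) :
    TOT FT := by
  classical
  obtain ⟨b, hb2⟩ : ∃ b : ℝ, b = 2 * κ := ⟨_, rfl⟩
  have hκ := h.kap
  have hb1 : 1 ≤ b := by rw [hb2]; linarith
  have hb0 : 0 < b := by linarith
  have hbc : (b : ℂ) ≠ 0 := by exact_mod_cast hb0.ne'
  have heqn := h.eqn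
  rw [← hb2] at heqn
  intro A
  obtain ⟨c, T0, hc, hT0, H⟩ := ht (max A 1) (le_max_right _ _)
  refine ⟨c / (4 * b), max (2 * b * T0) ((2 * b) ^ 2), by positivity, ?_, ?_⟩
  · refine le_trans ?_ (le_max_left _ _)
    nlinarith
  intro T τ hT hτ hτ8 hτA
  simp only [max_le_iff] at hT
  obtain ⟨hTa, hTb⟩ := hT
  have hT1 : 0 < T := lt_of_lt_of_le (by positivity) hTb
  have hT2 : T0 ≤ T / (2 * b) := by rw [le_div_iff₀ (by positivity)]; linarith
  have hb21 : 1 ≤ b ^ 2 := one_le_pow₀ hb1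
  have hτ2 : τ / b ^ 2 ≤ τ := div_le_self hτ hb21
  have hT3 : T / (2 * b) ≤ T := div_le_self hT1.le (by linarith)
  have hL : 0 < Real.log (T / (2 * b)) := Real.log_pos (by linarith)
  have hLT : Real.log (T / (2 * b)) ≤ Real.log T := Real.log_le_log (by linarith) hT3
  have hτL : τ / b ^ 2 * Real.log (T / (2 * b)) ≤ max A 1 :=
    (mul_le_mul hτ2 hLT hL.le hτ).trans (hτA.trans (le_max_left _ _))
  obtain ⟨S, hS, hS2⟩ := H (T / (2 * b)) (τ / b ^ 2) hT2 (by positivity) (hτ2.trans hτ8) hτL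
  have e0 : b ^ 2 * (τ / b ^ 2) = τ := by field_simp
  have hE := heqn (τ / b ^ 2) (by positivity)
  rw [e0] at hE
  have hY := h.diff (τ / b ^ 2) (by positivity)
  have hord : ∀ s : ℂ, analyticOrderNatAt (FT τ) ((b : ℂ) * s) =
      analyticOrderNatAt (fun z => u * heat (τ / b ^ 2) Λ ((a : ℂ) + z)) s := by
    intro s
    have h1 := ord_aff hY h.une (a : ℂ) hb0 ((b : ℂ) * s)
    have h2 := ord_aff hY h.une (a : ℂ) one_pos s
    rw [mul_div_cancel_left₀ _ hbc] at h1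
    simp only [Complex.ofReal_one, div_one] at h2
    rw [hE, h1, h2]
  have him : ∀ s : ℂ, ((b : ℂ) * s).im = b * s.im := fun s => by simp
  refine ⟨S.image (fun s => (b : ℂ) * s), ?_, ?_⟩
  · intro z hz
    rw [Finset.mem_image] at hz
    obtain ⟨s, hs, rfl⟩ := hz
    obtain ⟨h1, h2, h3⟩ := hS s hs
    refine ⟨?_, ?_, ?_⟩
    · rw [hE]
      show u * heat (τ / b ^ 2) Λ ((a : ℂ) + (b : ℂ) * s / (b : ℂ)) = 0
      rw [mul_div_cancel_left₀ _ hbc]
      exact h1
    · rw [him]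
      have : 0 < s.im := by linarith
      positivity
    · rw [him]
      have e1 : b * (2 * (T / (2 * b))) = T := by field_simp
      have := mul_le_mul_of_nonneg_left h3 hb0.le
      linarith
  · rw [Finset.sum_image (fun x _ y _ hxy => mul_left_cancel₀ hbc hxy)]
    simp only [hord]
    refine le_trans ?_ hS2
    have hlog : Real.log T / 2 ≤ Real.log (T / (2 * b)) := by
      rw [Real.log_div hT1.ne' (by positivity)]
      have h5 : Real.log ((2 * b) ^ 2) ≤ Real.log T := Real.log_le_log (by positivity) hTb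
      rw [Real.log_pow] at h5
      push_cast at h5
      linarith
    have h6 : c * (T / (2 * b)) * (Real.log T / 2) ≤ c * (T / (2 * b)) * Real.log (T / (2 * b)) :=
      mul_le_mul_of_nonneg_left hlog (by positivity)
    refine le_trans (le_of_eq ?_) h6
    field_simp
    ring

/-- the number of zeros of the flow -/
theorem nz_ge (h : HX κ a u Λ F FT) (htot : TOT FT) {t : ℝ → ℝ} {A : ℝ}
    (hA : ∀ᶠ T in atTop, t T * Real.log T ≤ A)
    (ht : Tendsto (fun T => t T * Real.log T ^ 2) atTop atTop) :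
    ∃ c : ℝ, 0 < c ∧ ∀ᶠ T in atTop, (NZ (heat (t T) Λ) T).Finite ∧
      c * (T * Real.log T) ≤ ((NZ (heat (t T) Λ) T).ncard : ℝ) := by
  obtain ⟨b, hb2⟩ : ∃ b : ℝ, b = 2 * κ := ⟨_, rfl⟩
  have hκ := h.kap
  have hb1 : 1 ≤ b := by rw [hb2]; linarith
  have hb0 : 0 < b := by linarith
  have hbc : (b : ℂ) ≠ 0 := by exact_mod_cast hb0.ne'
  have heqn := h.eqn
  rw [← hb2] at heqn
  have hI : Inp FT := inp_stb h.stb h.u0 htot
  obtain ⟨c, T0, hc, hT0, H⟩ := hI.tot (2 * b ^ 2 * (|A| + 1))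
  refine ⟨c, hc, ?_⟩
  have hLL : Tendsto (fun T : ℝ => Real.log T) atTop atTop := Real.tendsto_log_atTop
  filter_upwards [hA, ht.eventually_gt_atTop 0, eventually_ge_atTop T0, eventually_ge_atTop (2 : ℝ),
    eventually_ge_atTop b, hLL.eventually_ge_atTop (8 * b ^ 2 * (|A| + 1))] with T h1 h2 h3 h4 h5 h6
  obtain ⟨hL, r1, r2, r3, r4⟩ := ratio_num hb1 h4 h5
  have ht0 : 0 < t T := (pos_iff_pos_of_mul_pos h2).2 (by positivity)
  have hT0' : 0 < T := by linarith
  have hbT : T ≤ b * T := le_mul_of_one_le_left hT0'.le hb1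
  have h7 := le_abs_self A
  have h8 : b ^ 2 * t T * Real.log (b * T) ≤ 2 * b ^ 2 * (|A| + 1) := by
    have g1 : b ^ 2 * t T * Real.log (b * T) ≤ b ^ 2 * t T * (2 * Real.log T) :=
      mul_le_mul_of_nonneg_left r3 (by positivity)
    have g2 : b ^ 2 * t T * (2 * Real.log T) = 2 * b ^ 2 * (t T * Real.log T) := by ring
    have g3 : 2 * b ^ 2 * (t T * Real.log T) ≤ 2 * b ^ 2 * (|A| + 1) :=
      mul_le_mul_of_nonneg_left (by linarith) (by positivity)
    linarith
  have h9 : b ^ 2 * t T ≤ 1 / 8 := by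
    by_contra hcon
    push Not at hcon
    have g1 : 1 / 8 * (8 * b ^ 2 * (|A| + 1)) ≤ 1 / 8 * Real.log T :=
      mul_le_mul_of_nonneg_left h6 (by norm_num)
    have g2 : 1 / 8 * Real.log T < b ^ 2 * t T * Real.log T := mul_lt_mul_of_pos_right hcon hL
    have g3 : b ^ 2 * (t T * Real.log T) ≤ b ^ 2 * (|A| + 1) * (1 : ℝ) := by
      rw [mul_one]
      exact mul_le_mul_of_nonneg_left (by linarith) (by positivity)
    linarith
  have h10 := H (b * T) (b ^ 2 * t T) (h3.trans hbT) (by positivity) h9 h8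
  have hcard := NZ_card (h.diff (t T) ht0.le) h.une hb1 (heqn (t T) ht0.le) (a := a) T
  have hbig : 0 < c * (b * T * Real.log (b * T)) := by
    have : 0 < Real.log (b * T) := by linarith
    positivity
  rw [← hcard] at h10
  constructor
  · refine Set.finite_of_ncard_pos ?_
    have : (0 : ℝ) < ((NZ (heat (t T) Λ) T).ncard : ℝ) := lt_of_lt_of_le hbig h10
    exact_mod_cast this
  · refine le_trans ?_ h10
    refine mul_le_mul_of_nonneg_left ?_ hc.le
    exact mul_le_mul hbT r4 hL.le (by positivity)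

end Run7.h422.PP
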