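import Mathlib

/-!
# Tuples with all entries in a large subset

`S` is a finite set with heights `h`; the tuples `x` of different elements such that the differences
`h (x_i) - h (x_0)` are in a box. If few elements of `S` are outside of a set `G`, then few tuples have
an entry outside of `G`, provided that the number of the longer tuples is bounded.
-/

set_option autoImplicit false

namespace Run7.h422.PP

open Finset

section fin

variable {ι : Type*} (S : Finset ι) (h : ι → ℝ)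

/-- tuples of different elements, differences in a box -/
def TS {m : ℕ} (α β : Fin m → ℝ) : Set (Fin (m + 1) → ι) :=
  {x | (∀ i, x i ∈ S) ∧ Function.Injective x ∧
    ∀ i : Fin m, α i ≤ h (x i.succ) - h (x 0) ∧ h (x i.succ) - h (x 0) ≤ β i}

lemma TS_fin {m : ℕ} (α β : Fin m → ℝ) : (TS S h α β).Finite := by
  classical
  refine ((Fintype.piFinset fun _ : Fin (m + 1) => S).finite_toSet).subset fun x hx => ?_
  rw [Finset.mem_coe, Fintype.mem_piFinset]
  exact hx.1

open Classical in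
/-- the neighbours of `y` -/
noncomputable def nb (B : ℝ) (y : ι) : Finset ι := S.filter fun z => |h z - h y| ≤ B ∧ z ≠ y

/-- counting tuples by their first entry -/
theorem desc_le (m : ℕ) (B : ℝ) : ∑ y ∈ S, ((nb S h B y).card.descFactorial m) ≤
    (TS S h (fun _ : Fin m => -B) (fun _ => B)).ncard := by
  classical
  have h1 : ∀ y, (nb S h B y).card.descFactorial m =
      (Finset.univ : Finset (Fin m ↪ {z // z ∈ nb S h B y})).card := by
    intro y
    rw [Finset.card_univ, Fintype.card_embedding_eq, Fintype.card_coe, Fintype.card_fin]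
  simp only [h1]
  rw [← Finset.card_sigma, Set.ncard_eq_toFinset_card _ (TS_fin S h _ _)]
  refine Finset.card_le_card_of_injOn (fun p => (Fin.cons p.1 (fun i => (p.2 i).1) : Fin (m + 1) → ι)) ?_ ?_
  · intro p hp
    rw [Finset.mem_coe, Finset.mem_sigma] at hp
    rw [Finset.mem_coe, Set.Finite.mem_toFinset]
    have hm : ∀ i, (p.2 i).1 ∈ S ∧ |h (p.2 i).1 - h p.1| ≤ B ∧ (p.2 i).1 ≠ p.1 := by
      intro i
      have := (p.2 i).2
      unfold nb at this
      rw [Finset.mem_filter] at this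
      exact this
    refine ⟨?_, ?_, ?_⟩
    · intro i
      refine Fin.cases ?_ (fun j => ?_) i
      · exact hp.1
      · exact (hm j).1
    · rw [Fin.cons_injective_iff]
      refine ⟨?_, ?_⟩
      · rintro ⟨j, hj⟩
        exact (hm j).2.2 hj
      · intro i j hij
        exact p.2.injective (Subtype.ext hij)
    · intro i
      have := abs_le.1 (hm i).2.1
      exact this
  · rintro ⟨y, e⟩ _ ⟨y', e'⟩ _ hpq
    have h2 : y = y' := congrFun hpq 0
    subst h2
    have h3 : e = e' := by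
      ext i
      exact congrFun hpq i.succ
    rw [h3]

lemma pow_le_desc (n m : ℕ) : (n : ℝ) ^ m ≤ (2 * m : ℝ) ^ m + 2 ^ m * (n.descFactorial m : ℝ) := by
  rcases lt_or_ge n (2 * m) with hn | hn
  · have h1 : (n : ℝ) ^ m ≤ (2 * m : ℝ) ^ m := by
      apply pow_le_pow_left₀ (Nat.cast_nonneg _)
      exact_mod_cast hn.le
    have h2 : (0 : ℝ) ≤ 2 ^ m * (n.descFactorial m : ℝ) := by positivity
    linarith
  · have h1 : (n + 1 - m) ^ m ≤ n.descFactorial m := Nat.pow_sub_le_descFactorial n m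
    have h2 : n ≤ 2 * (n + 1 - m) := by omega
    have h3 : n ^ m ≤ 2 ^ m * n.descFactorial m := by
      calc n ^ m ≤ (2 * (n + 1 - m)) ^ m := Nat.pow_le_pow_left h2 m
        _ = 2 ^ m * (n + 1 - m) ^ m := by rw [mul_pow]
        _ ≤ _ := Nat.mul_le_mul_left _ h1
    have h4 : (n : ℝ) ^ m ≤ 2 ^ m * (n.descFactorial m : ℝ) := by exact_mod_cast h3
    have h5 : (0 : ℝ) ≤ (2 * m : ℝ) ^ m := by positivity
    linarith

/-- moments of the number of neighbours -/
theorem mom_nb (m : ℕ) (B : ℝ) : ∑ y ∈ S, ((nb S h B y).card : ℝ) ^ m ≤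
    (2 * m : ℝ) ^ m * S.card + 2 ^ m * ((TS S h (fun _ : Fin m => -B) (fun _ => B)).ncard : ℝ) := by
  have h1 := desc_le S h m B
  have h1' : ∑ y ∈ S, ((nb S h B y).card.descFactorial m : ℝ) ≤
      ((TS S h (fun _ : Fin m => -B) (fun _ => B)).ncard : ℝ) := by exact_mod_cast h1
  calc ∑ y ∈ S, ((nb S h B y).card : ℝ) ^ m ≤
      ∑ y ∈ S, ((2 * m : ℝ) ^ m + 2 ^ m * ((nb S h B y).card.descFactorial m : ℝ)) :=
        Finset.sum_le_sum fun y _ => pow_le_desc _ m
    _ = (2 * m : ℝ) ^ m * S.card + 2 ^ m * ∑ y ∈ S, ((nb S h B y).card.descFactorial m : ℝ) := by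
        rw [Finset.sum_add_distrib, Finset.sum_const, nsmul_eq_mul, ← Finset.mul_sum]
        ring
    _ ≤ _ := by
        have : (0 : ℝ) ≤ 2 ^ m := by positivity
        linarith [mul_le_mul_of_nonneg_left h1' this]

open Classical in
/-- tuples with an entry outside of `G` -/
theorem bad_le {k : ℕ} {α β : Fin k → ℝ} {b B : ℝ} (hb0 : 0 ≤ b) (hα : ∀ i, -b ≤ α i) (hβ : ∀ i, β i ≤ b)
    (hB : 2 * b ≤ B) (G : Set ι) :
    (({x | x ∈ TS S h α β ∧ ∃ i, x i ∉ G} : Set (Fin (k + 1) → ι)).ncard : ℝ) ≤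
      (k + 1) * ∑ y ∈ S.filter (fun y => y ∉ G), ((nb S h B y).card : ℝ) ^ k := by
  have key : ∀ i : Fin (k + 1), ({x | x ∈ TS S h α β ∧ x i ∉ G} : Set (Fin (k + 1) → ι)).ncard ≤
      ∑ y ∈ S.filter (fun y => y ∉ G), (nb S h B y).card ^ k := by
    intro i
    have hfin : ({x | x ∈ TS S h α β ∧ x i ∉ G} : Set (Fin (k + 1) → ι)).Finite :=
      (TS_fin S h α β).subset fun x hx => hx.1
    have h1 : ∀ y, (nb S h B y).card ^ k = (Fintype.piFinset (fun _ : Fin k => nb S h B y)).card := by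
      intro y
      rw [Fintype.card_piFinset_const]
    simp only [h1]
    rw [← Finset.card_sigma, Set.ncard_eq_toFinset_card _ hfin]
    refine Finset.card_le_card_of_injOn
      (fun x => (⟨x i, fun j => x (i.succAbove j)⟩ : Σ _ : ι, Fin k → ι)) ?_ ?_
    · intro x hx
      rw [Finset.mem_coe, Set.Finite.mem_toFinset] at hx
      obtain ⟨⟨h2, h3, h4⟩, h5⟩ := hx
      rw [Finset.mem_coe, Finset.mem_sigma]
      refine ⟨by rw [Finset.mem_filter]; exact ⟨h2 i, h5⟩, ?_⟩
      rw [Fintype.mem_piFinset]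
      intro j
      unfold nb
      rw [Finset.mem_filter]
      have h6 : ∀ l : Fin (k + 1), |h (x l) - h (x 0)| ≤ b := by
        intro l
        refine Fin.cases ?_ (fun j => ?_) l
        · rw [sub_self, abs_zero]; exact hb0
        · rw [abs_le]
          exact ⟨(hα j).trans (h4 j).1, (h4 j).2.trans (hβ j)⟩
      refine ⟨h2 _, ?_, ?_⟩
      · show |h (x (i.succAbove j)) - h (x i)| ≤ B
        have h7 := h6 (i.succAbove j)
        have h8 := h6 i
        rw [abs_le] at h7 h8 ⊢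
        constructor <;> linarith
      · exact fun h9 => (Fin.succAbove_ne i j) (h3 h9)
    · intro x _ y _ hxy
      have h2 : x i = y i := congrArg Sigma.fst hxy
      have h3 : (fun j => x (i.succAbove j)) = fun j => y (i.succAbove j) := by
        have := (Sigma.mk.inj_iff.1 hxy).2
        exact eq_of_heq this
      funext l
      rcases Fin.eq_self_or_eq_succAbove i l with h4 | ⟨j, h4⟩
      · rw [h4]; exact h2
      · rw [h4]; exact congrFun h3 j
  have h1 : ({x | x ∈ TS S h α β ∧ ∃ i, x i ∉ G} : Set (Fin (k + 1) → ι)) =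
      ⋃ i : Fin (k + 1), {x | x ∈ TS S h α β ∧ x i ∉ G} := by
    ext x
    simp only [Set.mem_setOf_eq, Set.mem_iUnion, exists_and_left]
  have h2 : ({x | x ∈ TS S h α β ∧ ∃ i, x i ∉ G} : Set (Fin (k + 1) → ι)).ncard ≤
      ∑ i : Fin (k + 1), ({x | x ∈ TS S h α β ∧ x i ∉ G} : Set (Fin (k + 1) → ι)).ncard := by
    rw [h1]
    exact Set.ncard_iUnion_le_of_fintype _
  have h3 : ({x | x ∈ TS S h α β ∧ ∃ i, x i ∉ G} : Set (Fin (k + 1) → ι)).ncard ≤
      (k + 1) * ∑ y ∈ S.filter (fun y => y ∉ G), (nb S h B y).card ^ k := by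
    refine h2.trans ((Finset.sum_le_sum fun i _ => key i).trans ?_)
    rw [Finset.sum_const, Finset.card_univ, Fintype.card_fin, smul_eq_mul]
  exact_mod_cast h3

open Classical in
/-- few tuples have an entry outside of `G` -/
theorem bad_few {k : ℕ} {α β : Fin k → ℝ} {b B δ : ℝ} (hb0 : 0 ≤ b) (hα : ∀ i, -b ≤ α i) (hβ : ∀ i, β i ≤ b)
    (hB : 2 * b ≤ B) (G : Set ι) (hδ : 0 < δ) :
    (({x | x ∈ TS S h α β ∧ ∃ i, x i ∉ G} : Set (Fin (k + 1) → ι)).ncard : ℝ) ≤
      (k + 1) * ((S.filter (fun y => y ∉ G)).card / (2 * δ) + δ / 2 * ((2 * (2 * k : ℕ) : ℝ) ^ (2 * k) * S.card +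
        2 ^ (2 * k) * ((TS S h (fun _ : Fin (2 * k) => -B) (fun _ => B)).ncard : ℝ))) := by
  refine (bad_le S h hb0 hα hβ hB G).trans ?_
  refine mul_le_mul_of_nonneg_left ?_ (by positivity)
  have h1 : ∀ x : ℝ, x ≤ 1 / (2 * δ) + δ / 2 * x ^ 2 := by
    intro x
    have h2 : 0 ≤ (δ * x - 1) ^ 2 / (2 * δ) := by positivity
    have h3 : (δ * x - 1) ^ 2 / (2 * δ) = 1 / (2 * δ) + δ / 2 * x ^ 2 - x := by
      field_simp
      ring
    linarith
  have h4 : ∑ y ∈ S.filter (fun y => y ∉ G), ((nb S h B y).card : ℝ) ^ k ≤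
      ∑ y ∈ S.filter (fun y => y ∉ G), (1 / (2 * δ) + δ / 2 * ((nb S h B y).card : ℝ) ^ (2 * k)) := by
    refine Finset.sum_le_sum fun y _ => ?_
    have := h1 (((nb S h B y).card : ℝ) ^ k)
    rwa [← pow_mul, mul_comm k 2] at this
  refine h4.trans ?_
  rw [Finset.sum_add_distrib, Finset.sum_const, nsmul_eq_mul, ← Finset.mul_sum, mul_one_div]
  have h5 : ∑ y ∈ S.filter (fun y => y ∉ G), ((nb S h B y).card : ℝ) ^ (2 * k) ≤
      ∑ y ∈ S, ((nb S h B y).card : ℝ) ^ (2 * k) :=
    Finset.sum_le_sum_of_subset_of_nonneg (Finset.filter_subset _ _) fun _ _ _ => by positivity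
  have h6 := h5.trans (mom_nb S h (2 * k) B)
  have h7 := mul_le_mul_of_nonneg_left h6 (show (0 : ℝ) ≤ δ / 2 by positivity)
  linarith

end fin

end Run7.h422.PP
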