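import Pool.Agent.Run7.h422.PP.G4
import Pool.Agent.Run7.h422.PP.G5

/-!
# Tuples of zeros in a large subset
-/

set_option autoImplicit false

namespace Run7.h422.PP

open Complex Filter Topology Set
open Pool.Agent.R838.IS (HX ord_aff ratio_num heat_zero allL isoL)
open Pool.Agent.W169.HF (heat)

variable {κ a : ℝ} {u : ℂ} {Λ F : ℂ → ℂ} {FT : ℝ → ℂ → ℂ}

lemma tul_ts {Y : ℂ → ℂ} {T : ℝ} (hf : (NZ Y T).Finite) {k : ℕ} (α β : Fin k → ℝ) :
    TuL κ Y T α β = TS hf.toFinset (fun p : ℂ × ℕ => p.1.im * (κ * Real.log T / Real.pi)) α β := by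
  ext x
  constructor
  · rintro ⟨h1, h2, h3, h4⟩
    refine ⟨fun i => (Set.Finite.mem_toFinset hf).2 ⟨h1 i, h3 i⟩, h2, fun i => ?_⟩
    have h5 := h4 i
    rw [sub_mul] at h5
    exact h5
  · rintro ⟨h1, h2, h4⟩
    have h1' : ∀ i, x i ∈ NZ Y T := fun i => (Set.Finite.mem_toFinset hf).1 (h1 i)
    refine ⟨fun i => (h1' i).1, h2, fun i => (h1' i).2, fun i => ?_⟩
    rw [sub_mul]
    exact h4 i

/-- few tuples have an entry outside of a large set -/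
theorem bad_L (h : HX κ a u Λ F FT) (htot : TOT FT) {t : ℝ → ℝ} {A : ℝ}
    (hA : ∀ᶠ T in atTop, t T * Real.log T ≤ A)
    (ht : Tendsto (fun T => t T * Real.log T ^ 2) atTop atTop) (G : ℝ → Set (ℂ × ℕ))
    (hG : ∀ η : ℝ, 0 < η → ∀ᶠ T in atTop, ((NZ (heat (t T) Λ) T \ G T).ncard : ℝ) ≤ η * (T * Real.log T))
    {k : ℕ} (α β : Fin k → ℝ) :
    Tendsto (fun T => (({x | x ∈ TuL κ (heat (t T) Λ) T α β ∧ ∃ i, x i ∉ G T} : Set (Fin (k + 1) → ℂ × ℕ)).ncard : ℝ) /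
      ((NZ (heat (t T) Λ) T).ncard : ℝ)) atTop (𝓝 0) := by
  classical
  obtain ⟨c, hc, hN⟩ := nz_ge h htot hA ht
  obtain ⟨b, hb⟩ : ∃ b : ℝ, b = ∑ i, (|α i| + |β i|) := ⟨_, rfl⟩
  have hb0 : 0 ≤ b := by rw [hb]; exact Finset.sum_nonneg fun i _ => by positivity
  have hbi : ∀ i, |α i| + |β i| ≤ b := fun i => by
    rw [hb]
    exact Finset.single_le_sum (f := fun i => |α i| + |β i|) (fun j _ => by positivity) (Finset.mem_univ i)
  obtain ⟨B, hB1, hB2, hB3⟩ : ∃ B : ℝ, 2 * b ≤ B ∧ (∀ a : ℤ, B ≠ a) ∧ ∀ a : ℤ, -B ≠ a := by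
    refine ⟨(⌈2 * b⌉ : ℝ) + 1 / 2, by linarith [Int.le_ceil (2 * b)], ?_, ?_⟩
    · intro a ha
      have h1 : (2 * (a - ⌈2 * b⌉) : ℤ) = 1 := by
        have : (2 * ((a : ℝ) - ⌈2 * b⌉)) = 1 := by rw [← ha]; ring
        exact_mod_cast this
      omega
    · intro a ha
      have h1 : (2 * (a + ⌈2 * b⌉) : ℤ) = -1 := by
        have : (2 * ((a : ℝ) + ⌈2 * b⌉)) = -1 := by rw [← ha]; ring
        exact_mod_cast this
      omega
  have hlat := lattice_L h htot hA ht (k := 2 * k) (α := fun _ => -B) (β := fun _ => B)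
    (fun _ => hB3) (fun _ => hB2)
  set Q : ℝ := ((IV (fun _ : Fin (2 * k) => -B) (fun _ => B)).ncard : ℝ) with hQ
  have hQ0 : 0 ≤ Q := Nat.cast_nonneg _
  set K : ℝ := (2 * (2 * k : ℕ) : ℝ) ^ (2 * k) + 2 ^ (2 * k) * (Q + 1) with hK
  have hK0 : 0 < K := by
    rw [hK]
    positivity
  rw [Metric.tendsto_nhds]
  intro η hη
  obtain ⟨δ, hδ⟩ : ∃ δ : ℝ, δ = η / ((k + 1) * K) := ⟨_, rfl⟩
  have hδ0 : 0 < δ := by rw [hδ]; positivity
  obtain ⟨η', hη'⟩ : ∃ η' : ℝ, η' = c * δ * η / (2 * (k + 1)) := ⟨_, rfl⟩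
  have hη'0 : 0 < η' := by rw [hη']; positivity
  filter_upwards [hN, hG η' hη'0, hlat.eventually_lt_const (show Q < Q + 1 by linarith),
    eventually_gt_atTop (1 : ℝ)] with T h1 h2 h3 h4
  obtain ⟨hf, h5⟩ := h1
  have hL : 0 < Real.log T := Real.log_pos h4
  have hTL : 0 < T * Real.log T := by
    have : 0 < T := by linarith
    positivity
  have hN0 : 0 < ((NZ (heat (t T) Λ) T).ncard : ℝ) := lt_of_lt_of_le (by positivity) h5
  have hcard : ((NZ (heat (t T) Λ) T).ncard : ℝ) = (hf.toFinset.card : ℝ) := by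
    rw [Set.ncard_eq_toFinset_card _ hf]
  rw [div_lt_iff₀ hN0] at h3
  have h6 := bad_few hf.toFinset (fun p : ℂ × ℕ => p.1.im * (κ * Real.log T / Real.pi)) (k := k)
    (α := α) (β := β) (b := b) (B := B) hb0
    (fun i => by have := hbi i; have := neg_abs_le (α i); have := abs_nonneg (β i); linarith)
    (fun i => by have := hbi i; have := le_abs_self (β i); have := abs_nonneg (α i); linarith) hB1 (G T) hδ0
  rw [← tul_ts hf, ← tul_ts hf, ← hcard] at h6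
  have h7 : ((hf.toFinset.filter (fun y => y ∉ G T)).card : ℝ) ≤ η' * (T * Real.log T) := by
    refine le_trans (le_of_eq ?_) h2
    have e : (NZ (heat (t T) Λ) T \ G T) = ((hf.toFinset.filter (fun y => y ∉ G T) : Finset (ℂ × ℕ)) : Set (ℂ × ℕ)) := by
      ext p
      rw [Finset.coe_filter]
      simp only [Set.Finite.mem_toFinset]
      rfl
    rw [e, Set.ncard_coe_finset]
  set N : ℝ := ((NZ (heat (t T) Λ) T).ncard : ℝ) with hNdef
  have h8 : η' * (T * Real.log T) ≤ δ * η / (2 * (k + 1)) * N := by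
    have e : η' * (T * Real.log T) = δ * η / (2 * (k + 1)) * (c * (T * Real.log T)) := by rw [hη']; ring
    rw [e]
    exact mul_le_mul_of_nonneg_left h5 (by positivity)
  have h9 : ((hf.toFinset.filter (fun y => y ∉ G T)).card : ℝ) / (2 * δ) ≤ η / (4 * (k + 1)) * N := by
    rw [div_le_iff₀ (by positivity)]
    refine (h7.trans h8).trans (le_of_eq ?_)
    field_simp
    ring
  have h10 : (2 * (2 * k : ℕ) : ℝ) ^ (2 * k) * N +
      2 ^ (2 * k) * ((TuL κ (heat (t T) Λ) T (fun _ : Fin (2 * k) => -B) (fun _ => B)).ncard : ℝ) ≤ K * N := by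
    have h11 := mul_le_mul_of_nonneg_left h3.le (show (0 : ℝ) ≤ 2 ^ (2 * k) by positivity)
    rw [hK, add_mul, mul_assoc (2 ^ (2 * k)) (Q + 1) N]
    linarith
  have h12 : δ / 2 * ((2 * (2 * k : ℕ) : ℝ) ^ (2 * k) * N +
      2 ^ (2 * k) * ((TuL κ (heat (t T) Λ) T (fun _ : Fin (2 * k) => -B) (fun _ => B)).ncard : ℝ)) ≤
      η / (2 * (k + 1)) * N := by
    refine (mul_le_mul_of_nonneg_left h10 (by positivity)).trans (le_of_eq ?_)
    rw [hδ]
    field_simp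
  have h13 : (({x | x ∈ TuL κ (heat (t T) Λ) T α β ∧ ∃ i, x i ∉ G T} : Set (Fin (k + 1) → ℂ × ℕ)).ncard : ℝ) ≤
      3 / 4 * η * N := by
    refine h6.trans ?_
    have h14 := mul_le_mul_of_nonneg_left (add_le_add h9 h12) (show (0 : ℝ) ≤ (k : ℝ) + 1 by positivity)
    refine h14.trans (le_of_eq ?_)
    field_simp
    ring
  rw [Real.dist_eq, sub_zero, abs_of_nonneg (by positivity), div_lt_iff₀ hN0]
  have : 0 < η * N := by positivity
  linarith

/-- the lattice law for the tuples with all entries in a large set -/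
theorem good_L (h : HX κ a u Λ F FT) (htot : TOT FT) {t : ℝ → ℝ} {A : ℝ}
    (hA : ∀ᶠ T in atTop, t T * Real.log T ≤ A)
    (ht : Tendsto (fun T => t T * Real.log T ^ 2) atTop atTop) (G : ℝ → Set (ℂ × ℕ))
    (hG : ∀ η : ℝ, 0 < η → ∀ᶠ T in atTop, ((NZ (heat (t T) Λ) T \ G T).ncard : ℝ) ≤ η * (T * Real.log T))
    {k : ℕ} {α β : Fin k → ℝ} (hα : ∀ i, ∀ a : ℤ, α i ≠ a) (hβ : ∀ i, ∀ a : ℤ, β i ≠ a) :
    Tendsto (fun T => (({x | x ∈ TuL κ (heat (t T) Λ) T α β ∧ ∀ i, x i ∈ G T} : Set (Fin (k + 1) → ℂ × ℕ)).ncard : ℝ) /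
      ((NZ (heat (t T) Λ) T).ncard : ℝ)) atTop (𝓝 ((IV α β).ncard : ℝ)) := by
  have l1 := lattice_L h htot hA ht hα hβ
  have l2 := bad_L h htot hA ht G hG α β
  have l3 := l1.sub l2
  rw [sub_zero] at l3
  obtain ⟨c, hc, hN⟩ := nz_ge h htot hA ht
  refine l3.congr' ?_
  filter_upwards [hN] with T h1
  obtain ⟨hf, -⟩ := h1
  have hfin : (TuL κ (heat (t T) Λ) T α β).Finite := by
    rw [tul_ts hf]
    exact TS_fin _ _ _ _
  have e : (({x | x ∈ TuL κ (heat (t T) Λ) T α β ∧ ∀ i, x i ∈ G T} : Set (Fin (k + 1) → ℂ × ℕ)).ncard : ℝ) +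
      (({x | x ∈ TuL κ (heat (t T) Λ) T α β ∧ ∃ i, x i ∉ G T} : Set (Fin (k + 1) → ℂ × ℕ)).ncard : ℝ) =
      ((TuL κ (heat (t T) Λ) T α β).ncard : ℝ) := by
    have h2 : ({x | x ∈ TuL κ (heat (t T) Λ) T α β ∧ ∀ i, x i ∈ G T} : Set (Fin (k + 1) → ℂ × ℕ)) ∪
        {x | x ∈ TuL κ (heat (t T) Λ) T α β ∧ ∃ i, x i ∉ G T} = TuL κ (heat (t T) Λ) T α β := by
      ext x
      simp only [Set.mem_union, Set.mem_setOf_eq]
      constructor
      · rintro (h3 | h3)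
        · exact h3.1
        · exact h3.1
      · intro h3
        by_cases h4 : ∀ i, x i ∈ G T
        · exact Or.inl ⟨h3, h4⟩
        · push Not at h4
          exact Or.inr ⟨h3, h4⟩
    have h3 := Set.ncard_union_eq (s := ({x | x ∈ TuL κ (heat (t T) Λ) T α β ∧ ∀ i, x i ∈ G T} :
        Set (Fin (k + 1) → ℂ × ℕ))) (t := {x | x ∈ TuL κ (heat (t T) Λ) T α β ∧ ∃ i, x i ∉ G T})
      (by
        rw [Set.disjoint_left]
        rintro x ⟨-, h4⟩ ⟨-, i, h5⟩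
        exact h5 (h4 i))
      (hfin.subset fun x hx => hx.1) (hfin.subset fun x hx => hx.1)
    rw [h2] at h3
    rw [h3]
    push_cast
    rfl
  rw [← sub_div, ← e, add_sub_cancel_right]

/-- the simple zeros on the line -/
def SL (a : ℝ) (Y : ℂ → ℂ) : Set (ℂ × ℕ) := {p | p.1.re = a ∧ analyticOrderNatAt Y p.1 = 1}

/-- almost all zeros are simple and on the line -/
theorem few_off (h : HX κ a u Λ F FT) (htot : TOT FT) {t : ℝ → ℝ} {A : ℝ}
    (hA : ∀ᶠ T in atTop, t T * Real.log T ≤ A)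
    (ht : Tendsto (fun T => t T * Real.log T ^ 2) atTop atTop)
    (hES : ∀ η : ℝ, 0 < η → ∃ σ : ℝ, 0 < σ ∧ ∀ᶠ T : ℝ in atTop, ((allL (heat (t T) Λ) T).ncard : ℝ) ≤
      ((isoL (heat (t T) Λ) a T σ σ).ncard : ℝ) + η * (T * Real.log T)) (η : ℝ) (hη : 0 < η) :
    ∀ᶠ T in atTop, ((NZ (heat (t T) Λ) T \ SL a (heat (t T) Λ)).ncard : ℝ) ≤ η * (T * Real.log T) := by
  obtain ⟨c, hc, hN⟩ := nz_ge h htot hA ht
  obtain ⟨σ, hσ, hE⟩ := hES η hη
  filter_upwards [hN, hE] with T h1 h2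
  obtain ⟨hf, -⟩ := h1
  have e : allL (heat (t T) Λ) T = NZ (heat (t T) Λ) T := rfl
  rw [e] at h2
  have h3 : (isoL (heat (t T) Λ) a T σ σ).ncard ≤
      (NZ (heat (t T) Λ) T ∩ SL a (heat (t T) Λ)).ncard := by
    refine Set.ncard_le_ncard_of_injOn (fun s => ((s, 0) : ℂ × ℕ)) ?_ ?_ (hf.subset Set.inter_subset_left)
    · rintro s ⟨q1, q2, q3, -⟩
      refine ⟨⟨?_, q2⟩, q1, q3⟩
      show 0 < analyticOrderNatAt (heat (t T) Λ) s
      rw [q3]
      exact one_pos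
    · intro s _ s' _ hss
      exact (Prod.ext_iff.1 hss).1
  have h4 := Set.ncard_inter_add_ncard_sdiff_eq_ncard (NZ (heat (t T) Λ) T) (SL a (heat (t T) Λ)) hf
  have h3' : ((isoL (heat (t T) Λ) a T σ σ).ncard : ℝ) ≤
      ((NZ (heat (t T) Λ) T ∩ SL a (heat (t T) Λ)).ncard : ℝ) := by exact_mod_cast h3
  have h4' : ((NZ (heat (t T) Λ) T ∩ SL a (heat (t T) Λ)).ncard : ℝ) +
      ((NZ (heat (t T) Λ) T \ SL a (heat (t T) Λ)).ncard : ℝ) = ((NZ (heat (t T) Λ) T).ncard : ℝ) := by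
    exact_mod_cast h4
  linarith

end Run7.h422.PP
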