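import Pool.Agent.Run7.h422.PP.Abs

/-!
# Tuples of zeros: chains with a centre
-/

set_option autoImplicit false

namespace Run7.h422.PP

open Complex Filter Topology Set

variable {f : ℂ → ℂ} {T θ K u ι : ℝ} {M : ℕ}

/-- a part of a chain -/
lemma ChF.sub {ε : ℝ} {m i : ℕ} {s : ℂ} {p : ℕ → ℂ} (h : ChF f ε m s p) (hi : i ≤ m) :
    ChF f ε (m - i) (p i) (fun j => p (i + j)) where
  zero := by simp
  stp := fun j hj => h.stp (i + j) (by omega)

lemma Hyp.short' (h : Hyp f T θ K u ι M) {s : ℂ} (hu : u < s.im) {m : ℕ}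
    {p : ℕ → ℂ} (hp : ChF f (θ / 4) m s p) {j : ℕ} (hj : j ≤ m) (hjM : j ≤ M) :
    (p j).im ≤ s.im + 1 := by
  have hu1 := h.u1
  have h1 := hp.up (by linarith) hj (ℓ := Real.log T / 2)
    (h.logu.trans (Real.log_le_log (by linarith) hu.le))
  have hpi := Real.pi_lt_d2
  norm_num at hpi
  have h2 : (j : ℝ) ≤ M := by exact_mod_cast hjM
  have hth := h.th1
  have hth0 := h.th0
  have hj0 : (0 : ℝ) ≤ j := Nat.cast_nonneg j
  have hb := h.big
  by_contra hcon
  push Not at hcon
  have hT := Real.log_pos h.T1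
  have h3 : 1 * (Real.log T / 2 / 2) < ((p j).im - s.im) * (Real.log T / 2 / 2) :=
    mul_lt_mul_of_pos_right (by linarith) (by linarith)
  have h4 : (j : ℝ) * (Real.pi + θ / 4) ≤ M * 4 := by
    apply mul_le_mul h2 (by linarith) (by positivity) (by linarith)
  linarith

/-- the normalised difference of two complex numbers -/
noncomputable def dd (T : ℝ) (z w : ℂ) : ℝ := (z.im - w.im) * (Real.log T / (2 * Real.pi))

lemma Hyp.dlow' (h : Hyp f T θ K u ι M) {s : ℂ} (hsT : s.im ≤ T) (hu : u < s.im) {m : ℕ}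
    {p : ℕ → ℂ} (hp : ChF f (θ / 4) m s p) {j : ℕ} (hj : j ≤ m) (hjM : j ≤ M) :
    j * (1 - θ) ≤ dd T (p j) s := by
  have hu1 := h.u1
  have h1 := h.short' hu hp hj hjM
  have hT1 := h.T1
  have hmono : s.im ≤ (p j).im := by
    have := hp.mono (i := 0) (j := j) (Nat.zero_le j) hj
    rwa [hp.zero] at this
  have h2 := hp.low (by linarith) (by linarith [h.th1]) hj (L := (1 + θ / 4) * Real.log T)
    ((Real.log_le_log (by linarith) (by linarith)).trans h.log2)
  have hpi := Real.pi_gt_three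
  have hth := h.th1
  have hth0 := h.th0
  have hj0 : (0 : ℝ) ≤ j := Nat.cast_nonneg j
  unfold dd
  have e : ((p j).im - s.im) * ((1 + θ / 4) * Real.log T / 2) =
      (1 + θ / 4) * Real.pi * (((p j).im - s.im) * (Real.log T / (2 * Real.pi))) := by
    field_simp
  rw [e] at h2
  set D := ((p j).im - s.im) * (Real.log T / (2 * Real.pi)) with hD
  by_contra hcon
  push Not at hcon
  have h5 : (1 + θ / 4) * Real.pi * D < (1 + θ / 4) * Real.pi * (j * (1 - θ)) :=
    mul_lt_mul_of_pos_left hcon (by positivity)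
  have h6 : (1 + θ / 4) * Real.pi * (j * (1 - θ)) ≤ j * (Real.pi - θ / 4) := by
    have h7 : (1 + θ / 4) * (1 - θ) ≤ 1 - 3 / 4 * θ := by nlinarith
    have h8 : Real.pi * ((1 + θ / 4) * (1 - θ)) ≤ Real.pi * (1 - 3 / 4 * θ) :=
      mul_le_mul_of_nonneg_left h7 Real.pi_pos.le
    have h9 : Real.pi * (1 - 3 / 4 * θ) ≤ Real.pi - θ / 4 := by nlinarith
    have h10 := mul_le_mul_of_nonneg_left (h8.trans h9) hj0
    calc (1 + θ / 4) * Real.pi * (j * (1 - θ)) = j * (Real.pi * ((1 + θ / 4) * (1 - θ))) := by ring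
      _ ≤ _ := h10
  linarith

lemma Hyp.dup' (h : Hyp f T θ K u ι M) {v : ℝ} (hv : (1 - θ / 4) * Real.log T ≤ Real.log v)
    (hv1 : 1 < v) {s : ℂ} (hu : v < s.im) {m : ℕ}
    {p : ℕ → ℂ} (hp : ChF f (θ / 4) m s p) {j : ℕ} (hj : j ≤ m) :
    dd T (p j) s ≤ j * (1 + θ) := by
  have h1 := hp.up (by linarith) hj (ℓ := (1 - θ / 4) * Real.log T)
    (hv.trans (Real.log_le_log (by linarith) hu.le))
  have hpi := Real.pi_gt_three
  have hth := h.th1
  have hth0 := h.th0
  have hj0 : (0 : ℝ) ≤ j := Nat.cast_nonneg j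
  unfold dd
  have e : ((p j).im - s.im) * ((1 - θ / 4) * Real.log T / 2) =
      (1 - θ / 4) * Real.pi * (((p j).im - s.im) * (Real.log T / (2 * Real.pi))) := by
    field_simp
  rw [e] at h1
  set D := ((p j).im - s.im) * (Real.log T / (2 * Real.pi)) with hD
  by_contra hcon
  push Not at hcon
  have h0 : 0 < (1 - θ / 4) * Real.pi := mul_pos (by linarith) Real.pi_pos
  have h5 : (1 - θ / 4) * Real.pi * (j * (1 + θ)) < (1 - θ / 4) * Real.pi * D :=
    mul_lt_mul_of_pos_left hcon h0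
  have h6 : j * (Real.pi + θ / 4) ≤ (1 - θ / 4) * Real.pi * (j * (1 + θ)) := by
    have h7 : 1 + θ / 2 ≤ (1 - θ / 4) * (1 + θ) := by nlinarith
    have h8 : Real.pi * (1 + θ / 2) ≤ Real.pi * ((1 - θ / 4) * (1 + θ)) :=
      mul_le_mul_of_nonneg_left h7 Real.pi_pos.le
    have h9 : Real.pi + θ / 4 ≤ Real.pi * (1 + θ / 2) := by nlinarith
    have h10 := mul_le_mul_of_nonneg_left (h9.trans h8) hj0
    calc (j : ℝ) * (Real.pi + θ / 4) ≤ j * (Real.pi * ((1 - θ / 4) * (1 + θ))) := h10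
      _ = _ := by ring
  linarith

/-- `s` is the centre of a chain of `2 m` steps -/
structure Cen (f : ℂ → ℂ) (ε : ℝ) (m : ℕ) (v : ℝ) (s : ℂ) (p : ℕ → ℂ) : Prop where
  ch : ChF f ε (2 * m) (p 0) p
  ctr : p m = s
  low : v < (p 0).im
  zer : f (p 0) = 0
  mpos : 1 ≤ m

lemma Cen.mono {ε : ℝ} {m : ℕ} {v v' : ℝ} {s : ℂ} {p : ℕ → ℂ} (h : Cen f ε m v s p)
    (hv : v' < (p 0).im) : Cen f ε m v' s p := ⟨h.ch, h.ctr, hv, h.zer, h.mpos⟩

lemma Cen.root {ε : ℝ} {m : ℕ} {v : ℝ} {s : ℂ} {p : ℕ → ℂ} (h : Cen f ε m v s p)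
    {j : ℕ} (hj : j ≤ 2 * m) : f (p j) = 0 ∧ deriv f (p j) ≠ 0 := by
  rcases Nat.eq_zero_or_pos j with h0 | h0
  · subst h0
    exact ⟨h.zer, (h.ch.stp 0 (by have := h.mpos; omega)).2.1⟩
  · exact h.ch.root h0 hj

lemma Cen.ord (hf : Differentiable ℂ f) {ε : ℝ} {m : ℕ} {v : ℝ} {s : ℂ} {p : ℕ → ℂ}
    (h : Cen f ε m v s p) {j : ℕ} (hj : j ≤ 2 * m) : analyticOrderNatAt f (p j) = 1 :=
  order_one hf (h.root hj).1 (h.root hj).2

/-- the point with the integral index `a` -/
def pt (p : ℕ → ℂ) (m : ℕ) (a : ℤ) : ℂ := p (m + a).toNat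

/-- the position of the points in the chain -/
lemma Cen.pos (h : Hyp f T θ K u ι (2 * M)) {v : ℝ}
    (hv : (1 - θ / 4) * Real.log T ≤ Real.log v) (huv : u ≤ v) {s : ℂ} (hsT : s.im ≤ T)
    {p : ℕ → ℂ} (hc : Cen f (θ / 4) M v s p) {a : ℤ} (ha : |a| ≤ M) :
    |dd T (pt p M a) s - a| ≤ θ * |(a : ℝ)| := by
  have hu1 := h.u1
  have hth := h.th1
  have hth0 := h.th0
  rcases le_or_gt 0 a with h0 | h0
  · obtain ⟨n, rfl⟩ := Int.eq_ofNat_of_zero_le h0
    rw [abs_of_nonneg h0] at ha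
    have hn : n ≤ M := by exact_mod_cast ha
    have hsub := hc.ch.sub (i := M) (by omega)
    rw [hc.ctr] at hsub
    have hs : v < s.im := by
      have := hc.ch.mono (i := 0) (j := M) (by omega) (by omega)
      rw [hc.ctr] at this
      linarith [hc.low]
    have h1 := h.dlow' hsT (by linarith) hsub (j := n) (by omega) (by omega)
    have h2 := h.dup' hv (by linarith) hs hsub (j := n) (by omega)
    have e : pt p M (n : ℤ) = p (M + n) := by
      unfold pt
      congr 1
    rw [e]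
    have hn0 : (0 : ℝ) ≤ n := Nat.cast_nonneg n
    rw [Int.cast_natCast, abs_of_nonneg hn0, abs_le]
    constructor <;> linarith
  · obtain ⟨n, hn⟩ := Int.eq_ofNat_of_zero_le (by omega : 0 ≤ -a)
    have ha' : a = -(n : ℤ) := by omega
    subst ha'
    rw [abs_of_neg h0, neg_neg] at ha
    have hnM : n ≤ M := by exact_mod_cast ha
    have e : pt p M (-(n : ℤ)) = p (M - n) := by
      unfold pt
      congr 1
      omega
    rw [e]
    have hsub := hc.ch.sub (i := M - n) (by omega)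
    have hlow : v < (p (M - n)).im := by
      have := hc.ch.mono (i := 0) (j := M - n) (by omega) (by omega)
      linarith [hc.low]
    have hle : (p (M - n)).im ≤ s.im := by
      have := hc.ch.mono (i := M - n) (j := M) (by omega) (by omega)
      rwa [hc.ctr] at this
    have e2 : M - n + n = M := by omega
    have h1 := h.dlow' (hle.trans hsT) (by linarith) hsub (j := n) (by omega) (by omega)
    have h2 := h.dup' hv (by linarith) hlow hsub (j := n) (by omega)
    simp only [e2, hc.ctr] at h1 h2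
    have e3 : dd T (p (M - n)) s = -dd T s (p (M - n)) := by unfold dd; ring
    rw [e3]
    have hn0 : (0 : ℝ) ≤ n := Nat.cast_nonneg n
    push_cast
    rw [abs_neg, abs_of_nonneg hn0, abs_le]
    constructor <;> linarith

/-- the zeros near the centre -/
lemma Cen.near (h : Hyp f T θ K u ι (2 * M)) {v : ℝ} (huv : u ≤ v) {s : ℂ} (hsT : s.im ≤ T)
    {p : ℕ → ℂ} (hc : Cen f (θ / 4) M v s p) {b : ℝ} (hb : b < M * (1 - θ)) {w : ℂ}
    (hw : f w = 0) (hwb : |dd T w s| ≤ b) : ∃ a : ℤ, |a| ≤ M ∧ w = pt p M a := by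
  have hu1 := h.u1
  have hL := Real.log_pos h.T1
  have hcp : 0 < Real.log T / (2 * Real.pi) := div_pos hL (by have := Real.pi_pos; positivity)
  rw [abs_le] at hwb
  have hs : u < s.im := by
    have := hc.ch.mono (i := 0) (j := M) (by omega) (by omega)
    rw [hc.ctr] at this
    linarith [hc.low]
  -- upper end
  have hsub := hc.ch.sub (i := M) (by omega)
  rw [hc.ctr] at hsub
  have h1 := h.dlow' hsT hs hsub (j := M) (by omega) (by omega)
  have h2 : w.im ≤ (p (2 * M)).im := by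
    have e : M + M = 2 * M := by ring
    simp only [e] at h1
    have h3 : dd T w s < dd T (p (2 * M)) s := by linarith [hwb.2]
    unfold dd at h3
    have := lt_of_mul_lt_mul_right h3 hcp.le
    linarith
  -- lower end
  have hle : (p 0).im ≤ s.im := by
    have := hc.ch.mono (i := 0) (j := M) (by omega) (by omega)
    rwa [hc.ctr] at this
  have h4 := h.dlow' (hle.trans hsT) (by linarith [hc.low]) hc.ch (j := M) (by omega) (by omega)
  rw [hc.ctr] at h4
  have h5 : (p 0).im < w.im := by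
    have h6 : dd T s w ≤ b := by
      have : dd T s w = -dd T w s := by unfold dd; ring
      rw [this]
      linarith [hwb.1]
    have h7 : dd T s w < dd T s (p 0) := by linarith
    unfold dd at h7
    have := lt_of_mul_lt_mul_right h7 hcp.le
    linarith
  obtain ⟨j, hj1, hj2, hj3⟩ := hc.ch.all (2 * M) w hw h5 h2
  refine ⟨(j : ℤ) - M, ?_, ?_⟩
  · rw [abs_le]
    constructor <;> omega
  · rw [hj3]
    unfold pt
    congr 1
    omega

lemma Cen.inj {v ε : ℝ} {s : ℂ} {p : ℕ → ℂ} (hc : Cen f ε M v s p) {a b : ℤ} (ha : |a| ≤ M)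
    (hb : |b| ≤ M) (hab : pt p M a = pt p M b) : a = b := by
  rw [abs_le] at ha hb
  unfold pt at hab
  have h1 : ((M : ℤ) + a).toNat = ((M : ℤ) + b).toNat := by
    rcases lt_trichotomy ((M : ℤ) + a).toNat ((M : ℤ) + b).toNat with h2 | h2 | h2
    · have := hc.ch.smono h2 (by omega)
      rw [hab] at this
      exact absurd this (lt_irrefl _)
    · exact h2
    · have := hc.ch.smono h2 (by omega)
      rw [hab] at this
      exact absurd this (lt_irrefl _)
  omega

end Run7.h422.PP
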