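import Pool.Agent.Run7.h422.PP.K1

/-!
# Tuples of zeros: most zeros are centres of chains
-/

set_option autoImplicit false

namespace Run7.h422.PP

open Complex Filter Topology Set

variable {f : ℂ → ℂ} {T θ K u ι : ℝ} {M : ℕ}

/-- two chains with the same point number `M` begin at the same point -/
lemma ChF.back {ε : ℝ} {m : ℕ} {s s' : ℂ} {p p' : ℕ → ℂ} (hs : f s = 0) (hs' : f s' = 0)
    (h : ChF f ε m s p) (h' : ChF f ε m s' p') :
    ∀ n : ℕ, n ≤ m → p n = p' n → s = s' := by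
  intro n
  induction n with
  | zero => intro _ h1; rwa [h.zero, h'.zero] at h1
  | succ n ih =>
    intro hn h1
    apply ih (by omega)
    have a1 := h.stp n (by omega)
    have a2 := h'.stp n (by omega)
    rw [h1] at a1
    have r1 : f (p n) = 0 := by
      rcases Nat.eq_zero_or_pos n with h0 | h0
      · subst h0; rw [h.zero]; exact hs
      · exact (h.root h0 (by omega)).1
    have r2 : f (p' n) = 0 := by
      rcases Nat.eq_zero_or_pos n with h0 | h0
      · subst h0; rw [h'.zero]; exact hs'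
      · exact (h'.root h0 (by omega)).1
    exact Stp.inj r1 r2 a1 a2

/-- the zeros at heights in `(u, T]` which are not centres -/
def NC (f : ℂ → ℂ) (ε : ℝ) (m : ℕ) (u T : ℝ) : Set (ℂ × ℕ) :=
  {y | y ∈ NZ f T ∧ u < y.1.im ∧ ¬ ∃ p, Cen f ε m u y.1 p}

lemma Hyp.nc_le (h : Hyp f T θ K u ι (2 * M)) (hM : 1 ≤ M) :
    ((NC f (θ / 4) M u T).ncard : ℝ) ≤ K + (2 * M : ℕ) * ι := by
  classical
  have hu1 := h.u1
  have hT1 := h.T1
  -- the beginnings of long chains
  set S : Set (ℂ × ℕ) := {y | y ∈ NZ f T ∧ u < y.1.im ∧ y ∉ Bd f (θ / 4) (2 * M) u T} with hS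
  set Z : Set (ℂ × ℕ) := {y | y ∈ Zi f ∧ u < y.1.im ∧ y.1.im ≤ T + 1} with hZ
  have hZf : Z.Finite := (h.fin u (T + 1)).subset fun y hy => ⟨hy.1, hy.2.1.le, hy.2.2⟩
  have hSf : S.Finite := (h.nz_fin T).subset fun y hy => hy.1
  have hBf : (Bd f (θ / 4) (2 * M) u T).Finite :=
    (h.fin u T).subset fun p hp => ⟨hp.1, hp.2.1.le, hp.2.2.1⟩
  have hNf : (NC f (θ / 4) M u T).Finite := (h.nz_fin T).subset fun y hy => hy.1
  set Z1 : Set (ℂ × ℕ) := {y | y ∈ NZ f T ∧ u < y.1.im} with hZ1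
  have hZ1f : Z1.Finite := (h.nz_fin T).subset fun y hy => hy.1
  have hWf : {p : ℂ × ℕ | p ∈ Zi f ∧ |p.1.im - (T + 1)| ≤ 1}.Finite :=
    (h.fin T (T + 2)).subset fun p hp => by
      have := abs_le.1 hp.2
      exact ⟨hp.1, by linarith [this.1], by linarith [this.2]⟩
  have hch : ∀ y ∈ S, ∃ p, ChF f (θ / 4) (2 * M) y.1 p := fun y hy => h.good hy.1 hy.2.1 hy.2.2
  choose! P hP using hch
  -- centres
  have hmap : MapsTo (fun y : ℂ × ℕ => ((P y M, 0) : ℂ × ℕ)) S (Z \ NC f (θ / 4) M u T) := by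
    intro y hy
    have hc := hP y hy
    have hz : f y.1 = 0 := Zi_zero h.diff hy.1.1
    have h1 : y.1.im ≤ (P y M).im := by
      have := hc.mono (i := 0) (j := M) (by omega) (by omega)
      rwa [hc.zero] at this
    have h2 := h.short' hy.2.1 hc (j := M) (by omega) (by omega)
    have hu : u < (P y M).im := by linarith [hy.2.1]
    refine ⟨⟨?_, hu, ?_⟩, ?_⟩
    · show 0 < analyticOrderNatAt f (P y M)
      rw [order_one h.diff (hc.root hM (by omega)).1 (hc.root hM (by omega)).2]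
      exact one_pos
    · show (P y M).im ≤ T + 1
      linarith [hy.1.2.2]
    · rintro ⟨-, -, h3⟩
      refine h3 ⟨P y, ?_, rfl, ?_, ?_, hM⟩
      · have e : P y 0 = y.1 := hc.zero
        rw [e]
        exact hc
      · rw [hc.zero]; exact hy.2.1
      · rw [hc.zero]; exact hz
  have hinj : InjOn (fun y : ℂ × ℕ => ((P y M, 0) : ℂ × ℕ)) S := by
    intro y hy y' hy' hyy
    have h1 : P y M = P y' M := congrArg Prod.fst hyy
    have hz : f y.1 = 0 := Zi_zero h.diff hy.1.1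
    have hz' : f y'.1 = 0 := Zi_zero h.diff hy'.1.1
    have h2 := ChF.back hz hz' (hP y hy) (hP y' hy') M (by omega) h1
    have o1 : ∀ x ∈ S, x.2 = 0 := by
      intro x hx
      have hzx : f x.1 = 0 := Zi_zero h.diff hx.1.1
      have hd := ((hP x hx).stp 0 (by omega)).2.1
      rw [(hP x hx).zero] at hd
      have h3 : x.2 < analyticOrderNatAt f x.1 := hx.1.1
      rw [order_one h.diff hzx hd] at h3
      omega
    exact Prod.ext h2 (by rw [o1 y hy, o1 y' hy'])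
  have c1 : S.ncard ≤ (Z \ NC f (θ / 4) M u T).ncard :=
    Set.ncard_le_ncard_of_injOn _ hmap hinj (hZf.subset diff_subset)
  have hNZ : NC f (θ / 4) M u T ⊆ Z := fun y hy =>
    ⟨hy.1.1, hy.2.1, by linarith [hy.1.2.2]⟩
  have c2 : (Z \ NC f (θ / 4) M u T).ncard + (NC f (θ / 4) M u T).ncard = Z.ncard :=
    Set.ncard_diff_add_ncard_of_subset hNZ hZf
  have c3 : Z.ncard ≤ Z1.ncard + {p : ℂ × ℕ | p ∈ Zi f ∧ |p.1.im - (T + 1)| ≤ 1}.ncard := by
    refine (Set.ncard_le_ncard ?_ (hZ1f.union hWf)).trans (Set.ncard_union_le _ _)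
    rintro y ⟨y1, y2, y3⟩
    rcases le_or_gt y.1.im T with h1 | h1
    · exact Or.inl ⟨⟨y1, by linarith, h1⟩, y2⟩
    · right
      refine ⟨y1, ?_⟩
      rw [abs_le]
      constructor <;> linarith
  have c4 : Z1.ncard ≤ S.ncard + (Bd f (θ / 4) (2 * M) u T).ncard := by
    refine (Set.ncard_le_ncard ?_ (hSf.union hBf)).trans (Set.ncard_union_le _ _)
    rintro y ⟨y1, y2⟩
    by_cases h1 : y ∈ Bd f (θ / 4) (2 * M) u T
    · exact Or.inr h1
    · exact Or.inl ⟨y1, y2, h1⟩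
  have c5 := h.unit (T + 1) (by linarith) (by linarith)
  have c6 := h.bad_le (by omega : 1 ≤ 2 * M)
  have c7 : (NC f (θ / 4) M u T).ncard ≤
      {p : ℂ × ℕ | p ∈ Zi f ∧ |p.1.im - (T + 1)| ≤ 1}.ncard +
      (Bd f (θ / 4) (2 * M) u T).ncard := by omega
  have c8 : ((NC f (θ / 4) M u T).ncard : ℝ) ≤
      ({p : ℂ × ℕ | p ∈ Zi f ∧ |p.1.im - (T + 1)| ≤ 1}.ncard : ℝ) +
      ((Bd f (θ / 4) (2 * M) u T).ncard : ℝ) := by exact_mod_cast c7
  linarith

/-- tuples of different zeros -/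
def Tu (f : ℂ → ℂ) {k : ℕ} (T : ℝ) (α β : Fin k → ℝ) : Set (Fin (k + 1) → ℂ × ℕ) :=
  {x | (∀ i, x i ∈ Zi f) ∧ Function.Injective x ∧ (∀ i, 0 < (x i).1.im ∧ (x i).1.im ≤ T) ∧
    ∀ i : Fin k, α i ≤ ((x i.succ).1.im - (x 0).1.im) * (Real.log T / (2 * Real.pi)) ∧
      ((x i.succ).1.im - (x 0).1.im) * (Real.log T / (2 * Real.pi)) ≤ β i}

/-- the tuples which begin with `y` -/
def Fb (f : ℂ → ℂ) {k : ℕ} (T : ℝ) (α β : Fin k → ℝ) (y : ℂ × ℕ) : Set (Fin (k + 1) → ℂ × ℕ) :=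
  {x | x ∈ Tu f T α β ∧ x 0 = y}

lemma Hyp.tu_fin (h : Hyp f T θ K u ι M) {k : ℕ} (α β : Fin k → ℝ) : (Tu f T α β).Finite := by
  have h2 : {x : Fin (k + 1) → ℂ × ℕ | ∀ i, x i ∈ NZ f T}.Finite :=
    Set.Finite.pi' fun _ => h.nz_fin T
  exact h2.subset fun x hx i => ⟨hx.1 i, hx.2.2.1 i⟩

lemma Hyp.tu_sum (h : Hyp f T θ K u ι M) {k : ℕ} (α β : Fin k → ℝ) (N : Finset (ℂ × ℕ))
    (hN : ∀ x, x ∈ N ↔ x ∈ NZ f T) : (Tu f T α β).ncard = ∑ y ∈ N, (Fb f T α β y).ncard := by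
  classical
  have hf := h.tu_fin α β
  rw [Set.ncard_eq_toFinset_card _ hf]
  rw [Finset.card_eq_sum_card_fiberwise (f := fun x => x 0) (t := N) (fun x hx => by
    rw [Finset.mem_coe, Set.Finite.mem_toFinset] at hx
    exact (hN _).2 ⟨hx.1 0, hx.2.2.1 0⟩)]
  refine Finset.sum_congr rfl fun y _ => ?_
  rw [← Set.ncard_coe_finset]
  congr 1
  ext x
  rw [Finset.mem_coe, Finset.mem_filter, Set.Finite.mem_toFinset]
  rfl

/-- every fibre is at most a power of the number of zeros in a window -/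
lemma Hyp.fb_unit (h : Hyp f T θ K u ι M) {k : ℕ} {α β : Fin k → ℝ} {b : ℝ}
    (hbL : 2 * Real.pi * b ≤ Real.log T) (hα : ∀ i, -b ≤ α i) (hβ : ∀ i, β i ≤ b)
    {y : ℂ × ℕ} (hy : y ∈ NZ f T) : ((Fb f T α β y).ncard : ℝ) ≤ K ^ k := by
  classical
  have hL := Real.log_pos h.T1
  have hpi := Real.pi_pos
  have hc : 0 < Real.log T / (2 * Real.pi) := div_pos hL (by positivity)
  have hWf : {p : ℂ × ℕ | p ∈ Zi f ∧ |p.1.im - y.1.im| ≤ 1}.Finite :=
    (h.fin (y.1.im - 1) (y.1.im + 1)).subset fun p hp => by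
      have := abs_le.1 hp.2
      exact ⟨hp.1, by linarith [this.1], by linarith [this.2]⟩
  set W : Finset (ℂ × ℕ) := hWf.toFinset with hW
  have hWc : (W.card : ℝ) ≤ K := by
    rw [hW, ← Set.ncard_eq_toFinset_card _ hWf]
    exact h.unit y.1.im hy.2.1.le (by linarith [hy.2.2])
  have hsub : Fb f T α β y ⊆ (((Fintype.piFinset fun _ : Fin k => W).image
      fun g => (Fin.cons y g : Fin (k + 1) → ℂ × ℕ) : Finset _) : Set _) := by
    rintro x ⟨⟨h1, h2, h3, h4⟩, h5⟩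
    rw [Finset.coe_image]
    refine ⟨fun i => x i.succ, ?_, ?_⟩
    · rw [Finset.mem_coe, Fintype.mem_piFinset]
      intro i
      rw [hW, Set.Finite.mem_toFinset]
      refine ⟨h1 _, ?_⟩
      have h6 := h4 i
      rw [h5] at h6
      have hb1 : b ≤ Real.log T / (2 * Real.pi) := by
        rw [le_div_iff₀ (by positivity)]
        linarith
      rw [abs_le]
      constructor
      · by_contra hcon
        push Not at hcon
        have h7 : ((x i.succ).1.im - y.1.im) * (Real.log T / (2 * Real.pi)) <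
            (-1) * (Real.log T / (2 * Real.pi)) := mul_lt_mul_of_pos_right hcon hc
        linarith [h6.1, hα i]
      · by_contra hcon
        push Not at hcon
        have h7 : 1 * (Real.log T / (2 * Real.pi)) <
            ((x i.succ).1.im - y.1.im) * (Real.log T / (2 * Real.pi)) :=
          mul_lt_mul_of_pos_right hcon hc
        linarith [h6.2, hβ i]
    · show (Fin.cons y (fun i => x i.succ) : Fin (k + 1) → ℂ × ℕ) = x
      rw [← h5]
      exact Fin.cons_self_tail x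
  have h1 := Set.ncard_le_ncard hsub (Finset.finite_toSet _)
  rw [Set.ncard_coe_finset] at h1
  have h2 : (Fb f T α β y).ncard ≤ W.card ^ k := by
    refine h1.trans (Finset.card_image_le.trans ?_)
    rw [Fintype.card_piFinset]
    simp
  calc ((Fb f T α β y).ncard : ℝ) ≤ (W.card : ℝ) ^ k := by exact_mod_cast h2
    _ ≤ K ^ k := pow_le_pow_left₀ (Nat.cast_nonneg _) hWc k

/-- the tuple with given integral indices -/
def tp {k : ℕ} (y : ℂ × ℕ) (p : ℕ → ℂ) (m : ℕ) (a : Fin k → ℤ) : Fin (k + 1) → ℂ × ℕ :=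
  Fin.cons y fun i => (pt p m (a i), 0)

/-- the elements of the fibre of a centre are given by integers -/
lemma Hyp.fb_cen (h : Hyp f T θ K u ι (2 * M)) {v : ℝ} (huv : u ≤ v) {k : ℕ}
    {α β : Fin k → ℝ} {b : ℝ} (hb : b < M * (1 - θ)) (hα : ∀ i, -b ≤ α i) (hβ : ∀ i, β i ≤ b)
    {y : ℂ × ℕ} (hy : y ∈ NZ f T) {p : ℕ → ℂ} (hc : Cen f (θ / 4) M v y.1 p)
    {x : Fin (k + 1) → ℂ × ℕ} (hx : x ∈ Fb f T α β y) :
    ∃ a : Fin k → ℤ, (∀ i, |a i| ≤ M) ∧ Function.Injective a ∧ (∀ i, a i ≠ 0) ∧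
      x = tp y p M a ∧ ∀ i, α i ≤ dd T (pt p M (a i)) y.1 ∧ dd T (pt p M (a i)) y.1 ≤ β i := by
  obtain ⟨⟨h1, h2, h3, h4⟩, h5⟩ := hx
  have key : ∀ i : Fin k, ∃ a : ℤ, |a| ≤ M ∧ (x i.succ).1 = pt p M a := by
    intro i
    refine hc.near h huv hy.2.2 hb (Zi_zero h.diff (h1 _)) ?_
    have h6 := h4 i
    rw [h5] at h6
    rw [abs_le]
    exact ⟨(hα i).trans h6.1, h6.2.trans (hβ i)⟩
  choose a ha1 ha2 using key
  have ha3 : ∀ i : Fin k, x i.succ = (pt p M (a i), 0) := by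
    intro i
    refine Prod.ext (ha2 i) ?_
    have h6 : (x i.succ).2 < analyticOrderNatAt f (x i.succ).1 := h1 _
    rw [ha2 i] at h6
    have h7 := ha1 i
    rw [abs_le] at h7
    have h8 : analyticOrderNatAt f (pt p M (a i)) = 1 := hc.ord h.diff (by omega)
    rw [h8] at h6
    show (x i.succ).2 = 0
    omega
  have hy2 : y.2 = 0 := by
    have h6 : y.2 < analyticOrderNatAt f y.1 := hy.1
    have h8 : analyticOrderNatAt f (p M) = 1 := hc.ord h.diff (by omega)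
    rw [hc.ctr] at h8
    rw [h8] at h6
    omega
  refine ⟨a, ha1, ?_, ?_, ?_, ?_⟩
  · intro i j hij
    have h6 : x i.succ = x j.succ := by rw [ha3, ha3, hij]
    exact Fin.succ_injective _ (h2 h6)
  · intro i hi
    have h6 : x i.succ = x 0 := by
      rw [ha3, hi, h5]
      refine Prod.ext ?_ hy2.symm
      show pt p M 0 = y.1
      unfold pt
      rw [← hc.ctr]
      congr 1
    exact absurd (h2 h6) (Fin.succ_ne_zero i)
  · funext i
    refine Fin.cases ?_ (fun j => ?_) i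
    · show x 0 = y
      exact h5
    · show x j.succ = (pt p M (a j), 0)
      exact ha3 j
  · intro i
    have h6 := h4 i
    rw [h5, ha3 i] at h6
    exact h6

end Run7.h422.PP
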