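import Pool.Agent.Run7.h422.PP.K2

/-!
# Tuples of zeros: the bounds
-/

set_option autoImplicit false

namespace Run7.h422.PP

open Complex Filter Topology Set

variable {f : ℂ → ℂ} {T θ K u ι : ℝ} {M : ℕ}

/-- the integral vectors which are counted -/
def IV {k : ℕ} (α β : Fin k → ℝ) : Set (Fin k → ℤ) :=
  {a | Function.Injective a ∧ ∀ i, a i ≠ 0 ∧ α i ≤ a i ∧ (a i : ℝ) ≤ β i}

lemma IV_fin {k : ℕ} (α β : Fin k → ℝ) : (IV α β).Finite := by
  classical
  refine ((Fintype.piFinset fun i => Finset.Icc ⌈α i⌉ ⌊β i⌋).finite_toSet).subset ?_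
  rintro a ⟨-, h⟩
  rw [Finset.mem_coe, Fintype.mem_piFinset]
  intro i
  rw [Finset.mem_Icc]
  exact ⟨Int.ceil_le.2 (h i).2.1, Int.le_floor.2 (h i).2.2⟩

/-- the relative error `θ` separates the box from the other integers up to `M` -/
structure Sep (θ : ℝ) (M : ℕ) {k : ℕ} (α β : Fin k → ℝ) (b : ℝ) : Prop where
  low : ∀ i, -b ≤ α i
  upp : ∀ i, β i ≤ b
  bM : b < M * (1 - θ)
  M1 : 1 ≤ M
  into : ∀ i, ∀ a : ℤ, |a| ≤ M → ∀ D : ℝ, |D - a| ≤ θ * |(a : ℝ)| → α i ≤ D → D ≤ β i →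
    α i ≤ a ∧ (a : ℝ) ≤ β i
  fro : ∀ i, ∀ a : ℤ, |a| ≤ M → ∀ D : ℝ, |D - a| ≤ θ * |(a : ℝ)| → α i ≤ a → (a : ℝ) ≤ β i →
    α i ≤ D ∧ D ≤ β i
  inM : ∀ i, ∀ a : ℤ, α i ≤ a → (a : ℝ) ≤ β i → |a| ≤ M

/-- the fibre of a high centre is not larger than expected -/
lemma Hyp.fb_le (h : Hyp f T θ K u ι (2 * M)) {v : ℝ}
    (hv : (1 - θ / 4) * Real.log T ≤ Real.log v) (huv : u ≤ v) {k : ℕ}
    {α β : Fin k → ℝ} {b : ℝ} (hS : Sep θ M α β b) {y : ℂ × ℕ} (hy : y ∈ NZ f T) {p : ℕ → ℂ}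
    (hc : Cen f (θ / 4) M v y.1 p) : (Fb f T α β y).ncard ≤ (IV α β).ncard := by
  classical
  have hsub : Fb f T α β y ⊆ (fun a => tp y p M a) '' (IV α β) := by
    intro x hx
    obtain ⟨a, h1, h2, h3, h4, h5⟩ := h.fb_cen huv hS.bM hS.low hS.upp hy hc hx
    refine ⟨a, ⟨h2, fun i => ?_⟩, h4.symm⟩
    have h6 := hc.pos h hv huv hy.2.2 (h1 i)
    have h7 := hS.into i (a i) (h1 i) _ h6 (h5 i).1 (h5 i).2
    exact ⟨h3 i, h7.1, h7.2⟩
  exact (Set.ncard_le_ncard hsub ((IV_fin α β).image _)).trans (Set.ncard_image_le (IV_fin α β))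

/-- the fibre of a low centre is bounded -/
lemma Hyp.fb_low (h : Hyp f T θ K u ι (2 * M)) {k : ℕ}
    {α β : Fin k → ℝ} {b : ℝ} (hS : Sep θ M α β b) {y : ℂ × ℕ} (hy : y ∈ NZ f T) {p : ℕ → ℂ}
    (hc : Cen f (θ / 4) M u y.1 p) : (Fb f T α β y).ncard ≤ (2 * M + 1) ^ k := by
  classical
  have hsub : Fb f T α β y ⊆ (((Fintype.piFinset fun _ : Fin k => Finset.Icc (-(M : ℤ)) M).image
      fun a => tp y p M a : Finset _) : Set _) := by
    intro x hx
    obtain ⟨a, h1, h2, h3, h4, h5⟩ := h.fb_cen le_rfl hS.bM hS.low hS.upp hy hc hx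
    rw [Finset.coe_image]
    refine ⟨a, ?_, h4.symm⟩
    rw [Finset.mem_coe, Fintype.mem_piFinset]
    intro i
    rw [Finset.mem_Icc]
    exact abs_le.1 (h1 i)
  have h1 := Set.ncard_le_ncard hsub (Finset.finite_toSet _)
  rw [Set.ncard_coe_finset] at h1
  refine h1.trans (Finset.card_image_le.trans ?_)
  rw [Fintype.card_piFinset]
  simp only [Int.card_Icc, Finset.prod_const, Finset.card_univ, Fintype.card_fin]
  apply le_of_eq
  congr 1
  omega

/-- the fibre of a high centre is not smaller than expected -/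
lemma Hyp.fb_ge (h : Hyp f T θ K u ι (2 * M)) {v : ℝ}
    (hv : (1 - θ / 4) * Real.log T ≤ Real.log v) (huv : u ≤ v) {k : ℕ}
    {α β : Fin k → ℝ} {b : ℝ} (hS : Sep θ M α β b) {y : ℂ × ℕ} (hy : y ∈ NZ f T)
    (hyT : y.1.im ≤ T - 1) {p : ℕ → ℂ}
    (hc : Cen f (θ / 4) M v y.1 p) : (IV α β).ncard ≤ (Fb f T α β y).ncard := by
  classical
  have hu1 := h.u1
  have hFf : (Fb f T α β y).Finite := (h.tu_fin α β).subset fun x hx => hx.1
  have hy2 : y.2 = 0 := by
    have h6 : y.2 < analyticOrderNatAt f y.1 := hy.1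
    have h8 : analyticOrderNatAt f (p M) = 1 := hc.ord h.diff (by omega)
    rw [hc.ctr] at h8
    rw [h8] at h6
    omega
  have hpt : ∀ a : ℤ, |a| ≤ M → ((pt p M a, 0) : ℂ × ℕ) ∈ Zi f ∧ 0 < (pt p M a).im ∧
      (pt p M a).im ≤ T := by
    intro a ha
    rw [abs_le] at ha
    have hj : ((M : ℤ) + a).toNat ≤ 2 * M := by omega
    refine ⟨?_, ?_, ?_⟩
    · show 0 < analyticOrderNatAt f (p ((M : ℤ) + a).toNat)
      rw [hc.ord h.diff hj]
      exact one_pos
    · have := hc.ch.mono (i := 0) (Nat.zero_le _) hj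
      show 0 < (p ((M : ℤ) + a).toNat).im
      linarith [hc.low]
    · have h1 := h.short' (by linarith [hc.low]) hc.ch hj hj
      have h2 := hc.ch.mono (i := 0) (j := M) (by omega) (by omega)
      rw [hc.ctr] at h2
      show (p ((M : ℤ) + a).toNat).im ≤ T
      linarith
  have hy0 : y = (pt p M 0, 0) := by
    refine Prod.ext ?_ hy2
    show y.1 = pt p M 0
    unfold pt
    rw [← hc.ctr]
    congr 1
  refine Set.ncard_le_ncard_of_injOn (fun a => tp y p M a) ?_ ?_ hFf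
  · rintro a ⟨h1, h2⟩
    have hM : ∀ i, |a i| ≤ M := fun i => hS.inM i (a i) (h2 i).2.1 (h2 i).2.2
    refine ⟨⟨?_, ?_, ?_, ?_⟩, rfl⟩
    · intro i
      refine Fin.cases ?_ (fun j => ?_) i
      · exact hy.1
      · exact (hpt _ (hM j)).1
    · intro i j
      refine Fin.cases ?_ (fun i' => ?_) i
      · refine Fin.cases ?_ (fun j' => ?_) j
        · intro _; rfl
        · intro hij
          have h3 : y = (pt p M (a j'), 0) := hij
          rw [hy0] at h3
          have h4 := congrArg Prod.fst h3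
          have h5 := hc.inj (a := 0) (by simp) (hM j') h4
          exact absurd h5.symm (h2 j').1
      · refine Fin.cases ?_ (fun j' => ?_) j
        · intro hij
          have h3 : (pt p M (a i'), 0) = y := hij
          rw [hy0] at h3
          have h4 := congrArg Prod.fst h3
          have h5 := hc.inj (b := 0) (hM i') (by simp) h4
          exact absurd h5 (h2 i').1
        · intro hij
          have h3 : ((pt p M (a i'), 0) : ℂ × ℕ) = (pt p M (a j'), 0) := hij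
          have h4 := congrArg Prod.fst h3
          have h5 := hc.inj (hM i') (hM j') h4
          rw [h1 h5]
    · intro i
      refine Fin.cases ?_ (fun j => ?_) i
      · exact hy.2
      · exact (hpt _ (hM j)).2
    · intro i
      have h6 := hc.pos h hv huv hy.2.2 (hM i)
      exact hS.fro i (a i) (hM i) _ h6 (h2 i).2.1 (h2 i).2.2
  · rintro a ⟨h1, h2⟩ a' ⟨h1', h2'⟩ haa
    have hM : ∀ i, |a i| ≤ M := fun i => hS.inM i (a i) (h2 i).2.1 (h2 i).2.2
    have hM' : ∀ i, |a' i| ≤ M := fun i => hS.inM i (a' i) (h2' i).2.1 (h2' i).2.2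
    funext i
    have h3 := congrFun haa i.succ
    have h4 : pt p M (a i) = pt p M (a' i) := congrArg Prod.fst h3
    exact hc.inj (hM i) (hM' i) h4

/-- lower bound -/
theorem Hyp.tu_lower (h : Hyp f T θ K u ι (2 * M)) {v : ℝ}
    (hv : (1 - θ / 4) * Real.log T ≤ Real.log v) (huv : u ≤ v) (hvT : v + 1 ≤ T) {k : ℕ}
    {α β : Fin k → ℝ} {b : ℝ} (hS : Sep θ M α β b) :
    ((IV α β).ncard : ℝ) * ((NZ f T).ncard - K * (v + 2) - K - (K + (2 * M : ℕ) * ι)) ≤
      ((Tu f T α β).ncard : ℝ) := by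
  classical
  have hu1 := h.u1
  obtain ⟨N, hN⟩ : ∃ N : Finset (ℂ × ℕ), N = (h.nz_fin T).toFinset := ⟨_, rfl⟩
  have hN' : ∀ x, x ∈ N ↔ x ∈ NZ f T := fun x => by rw [hN, Set.Finite.mem_toFinset]
  obtain ⟨G, hG⟩ : ∃ G : Finset (ℂ × ℕ), G = N.filter fun y => v + 1 < y.1.im ∧
    y.1.im ≤ T - 1 ∧ y ∉ NC f (θ / 4) M u T := ⟨_, rfl⟩
  have hWf : {p : ℂ × ℕ | p ∈ Zi f ∧ |p.1.im - T| ≤ 1}.Finite :=
    (h.fin (T - 1) (T + 1)).subset fun p hp => by
      have := abs_le.1 hp.2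
      exact ⟨hp.1, by linarith [this.1], by linarith [this.2]⟩
  have hNf : (NC f (θ / 4) M u T).Finite := (h.nz_fin T).subset fun y hy => hy.1
  have hsub : NZ f T ⊆ ((G : Set (ℂ × ℕ)) ∪ NZ f (v + 1)) ∪
      ({p : ℂ × ℕ | p ∈ Zi f ∧ |p.1.im - T| ≤ 1} ∪ NC f (θ / 4) M u T) := by
    intro y hy
    by_cases h1 : v + 1 < y.1.im
    · by_cases h2 : y.1.im ≤ T - 1
      · by_cases h3 : y ∈ NC f (θ / 4) M u T
        · exact Or.inr (Or.inr h3)
        · left; left
          rw [hG, Finset.mem_coe, Finset.mem_filter, hN']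
          exact ⟨hy, h1, h2, h3⟩
      · right; left
        push Not at h2
        refine ⟨hy.1, ?_⟩
        rw [abs_le]
        constructor <;> linarith [hy.2.2]
    · push Not at h1
      left; right
      exact ⟨hy.1, hy.2.1, h1⟩
  have h1 : (NZ f T).ncard ≤ (G.card + (NZ f (v + 1)).ncard) +
      ({p : ℂ × ℕ | p ∈ Zi f ∧ |p.1.im - T| ≤ 1}.ncard + (NC f (θ / 4) M u T).ncard) := by
    refine (Set.ncard_le_ncard hsub
      ((G.finite_toSet.union (h.nz_fin (v + 1))).union (hWf.union hNf))).trans ?_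
    refine (Set.ncard_union_le _ _).trans (add_le_add ?_ (Set.ncard_union_le _ _))
    refine (Set.ncard_union_le _ _).trans ?_
    rw [Set.ncard_coe_finset]
  have h2 : ((NZ f T).ncard : ℝ) ≤ (G.card + (NZ f (v + 1)).ncard) +
      ({p : ℂ × ℕ | p ∈ Zi f ∧ |p.1.im - T| ≤ 1}.ncard + (NC f (θ / 4) M u T).ncard) := by
    exact_mod_cast h1
  have h3 := h.low_le (X := v + 1) (by linarith) hvT
  have h4 := h.unit T (by linarith) (by linarith)
  have h5 := h.nc_le hS.M1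
  have h6 : (IV α β).ncard * G.card ≤ (Tu f T α β).ncard := by
    rw [h.tu_sum α β N hN']
    calc (IV α β).ncard * G.card = ∑ y ∈ G, (IV α β).ncard := by
          rw [Finset.sum_const, smul_eq_mul, mul_comm]
      _ ≤ ∑ y ∈ G, (Fb f T α β y).ncard := by
          refine Finset.sum_le_sum fun y hy => ?_
          rw [hG, Finset.mem_filter] at hy
          obtain ⟨g1, g2, g3, g4⟩ := hy
          have hyN := (hN' y).1 g1
          have hex : ∃ p, Cen f (θ / 4) M u y.1 p := by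
            by_contra hcon
            exact g4 ⟨hyN, by linarith, hcon⟩
          obtain ⟨p, hc⟩ := hex
          have h7 := h.short' hc.low hc.ch (j := M) (by omega) (by omega)
          rw [hc.ctr] at h7
          exact h.fb_ge hv huv hS hyN g3 (hc.mono (v' := v) (by linarith))
      _ ≤ ∑ y ∈ N, (Fb f T α β y).ncard := by
          refine Finset.sum_le_sum_of_subset ?_
          rw [hG]
          exact Finset.filter_subset _ _
  have h7 : ((IV α β).ncard : ℝ) * G.card ≤ ((Tu f T α β).ncard : ℝ) := by exact_mod_cast h6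
  refine le_trans (mul_le_mul_of_nonneg_left ?_ (Nat.cast_nonneg _)) h7
  linarith

/-- upper bound -/
theorem Hyp.tu_upper (h : Hyp f T θ K u ι (2 * M)) {v : ℝ}
    (hv : (1 - θ / 4) * Real.log T ≤ Real.log v) (huv : u ≤ v) (hvT : v + 1 ≤ T) {k : ℕ}
    {α β : Fin k → ℝ} {b : ℝ} (hS : Sep θ M α β b) (hbL : 2 * Real.pi * b ≤ Real.log T) :
    ((Tu f T α β).ncard : ℝ) ≤ (IV α β).ncard * (NZ f T).ncard +
      (2 * M + 1 : ℝ) ^ k * (K * (v + 2)) +
      K ^ k * ((K + (2 * M : ℕ) * ι) + K * (u + 1)) := by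
  classical
  have hu1 := h.u1
  have hK0 := h.K0
  obtain ⟨N, hN⟩ : ∃ N : Finset (ℂ × ℕ), N = (h.nz_fin T).toFinset := ⟨_, rfl⟩
  have hN' : ∀ x, x ∈ N ↔ x ∈ NZ f T := fun x => by rw [hN, Set.Finite.mem_toFinset]
  have hNc : (NZ f T).ncard = N.card := by
    rw [hN, Set.ncard_eq_toFinset_card _ (h.nz_fin T)]
  have hNf : (NC f (θ / 4) M u T).Finite := (h.nz_fin T).subset fun y hy => hy.1
  have hKk : (0 : ℝ) ≤ K ^ k := by positivity
  have hMk : (0 : ℝ) ≤ (2 * M + 1 : ℝ) ^ k := by positivity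
  -- the pointwise bound
  have hpt : ∀ y ∈ N, ((Fb f T α β y).ncard : ℝ) ≤ ((IV α β).ncard : ℝ) +
      (if y.1.im ≤ v + 1 then (2 * M + 1 : ℝ) ^ k else 0) +
      ((if y ∈ NC f (θ / 4) M u T then K ^ k else 0) + (if y.1.im ≤ u then K ^ k else 0)) := by
    intro y hy
    have hyN := (hN' y).1 hy
    have hJ0 : (0 : ℝ) ≤ (IV α β).ncard := Nat.cast_nonneg _
    have i1 : (0 : ℝ) ≤ (if y.1.im ≤ v + 1 then (2 * M + 1 : ℝ) ^ k else 0) := by
      split_ifs
      · exact hMk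
      · exact le_rfl
    have i2 : (0 : ℝ) ≤ (if y ∈ NC f (θ / 4) M u T then K ^ k else 0) := by
      split_ifs
      · exact hKk
      · exact le_rfl
    have i3 : (0 : ℝ) ≤ (if y.1.im ≤ u then K ^ k else 0) := by
      split_ifs
      · exact hKk
      · exact le_rfl
    by_cases h1 : y.1.im ≤ u
    · have h2 := h.fb_unit hbL hS.low hS.upp hyN
      have h3 : (if y.1.im ≤ u then K ^ k else 0) = K ^ k := if_pos h1
      linarith
    push Not at h1
    by_cases h2 : y ∈ NC f (θ / 4) M u T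
    · have h2' := h.fb_unit hbL hS.low hS.upp hyN
      have h3 : (if y ∈ NC f (θ / 4) M u T then K ^ k else 0) = K ^ k := if_pos h2
      linarith
    have hex : ∃ p, Cen f (θ / 4) M u y.1 p := by
      by_contra hcon
      exact h2 ⟨hyN, h1, hcon⟩
    obtain ⟨p, hc⟩ := hex
    by_cases h3 : y.1.im ≤ v + 1
    · have h5 : ((Fb f T α β y).ncard : ℝ) ≤ (2 * M + 1 : ℝ) ^ k := by
        exact_mod_cast h.fb_low hS hyN hc
      have h6 : (if y.1.im ≤ v + 1 then (2 * M + 1 : ℝ) ^ k else 0) = (2 * M + 1 : ℝ) ^ k :=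
        if_pos h3
      linarith
    · push Not at h3
      have h7 := h.short' hc.low hc.ch (j := M) (by omega) (by omega)
      rw [hc.ctr] at h7
      have h4 := h.fb_le hv huv hS hyN (hc.mono (v' := v) (by linarith))
      have h5 : ((Fb f T α β y).ncard : ℝ) ≤ (IV α β).ncard := by exact_mod_cast h4
      linarith
  rw [h.tu_sum α β N hN', Nat.cast_sum]
  have hsum := Finset.sum_le_sum hpt
  rw [Finset.sum_add_distrib, Finset.sum_add_distrib, Finset.sum_add_distrib] at hsum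
  have s1 : ∑ y ∈ N, ((IV α β).ncard : ℝ) = (IV α β).ncard * (NZ f T).ncard := by
    rw [Finset.sum_const, nsmul_eq_mul, hNc]; ring
  have hcount : ∀ (Q : ℂ × ℕ → Prop) (c B : ℝ) (S : Set (ℂ × ℕ)), 0 ≤ c → S.Finite →
      (∀ y ∈ N, Q y → y ∈ S) → (S.ncard : ℝ) ≤ B →
      ∑ y ∈ N, (if Q y then c else 0) ≤ c * B := by
    intro Q c B S hc hS hQ hB
    rw [← Finset.sum_filter, Finset.sum_const, nsmul_eq_mul]
    have h1 : (N.filter Q).card ≤ S.ncard := by
      rw [← Set.ncard_coe_finset]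
      refine Set.ncard_le_ncard ?_ hS
      intro y hy
      rw [Finset.mem_coe, Finset.mem_filter] at hy
      exact hQ y hy.1 hy.2
    have h2 : ((N.filter Q).card : ℝ) ≤ B := le_trans (by exact_mod_cast h1) hB
    calc ((N.filter Q).card : ℝ) * c ≤ B * c := mul_le_mul_of_nonneg_right h2 hc
      _ = c * B := by ring
  have l1 := h.low_le (X := v + 1) (by linarith) hvT
  have s2 := hcount (fun y => y.1.im ≤ v + 1) ((2 * M + 1 : ℝ) ^ k) (K * (v + 2)) (NZ f (v + 1))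
    hMk (h.nz_fin _) (fun y hy hq => ⟨((hN' y).1 hy).1, ((hN' y).1 hy).2.1, hq⟩)
    (by have e : v + 1 + 1 = v + 2 := by ring
        rw [e] at l1
        exact l1)
  have s3 := hcount (fun y => y ∈ NC f (θ / 4) M u T) (K ^ k) (K + (2 * M : ℕ) * ι)
    (NC f (θ / 4) M u T) hKk hNf (fun y hy hq => hq) (h.nc_le hS.M1)
  have s4 := hcount (fun y => y.1.im ≤ u) (K ^ k) (K * (u + 1)) (NZ f u) hKk (h.nz_fin u)
    (fun y hy hq => ⟨((hN' y).1 hy).1, ((hN' y).1 hy).2.1, hq⟩)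
    (h.low_le (by linarith) (by linarith))
  have s5 : K ^ k * ((K + (2 * M : ℕ) * ι) + K * (u + 1)) =
      K ^ k * (K + (2 * M : ℕ) * ι) + K ^ k * (K * (u + 1)) := by ring
  rw [s1] at hsum
  rw [s5]
  linarith

end Run7.h422.PP
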