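import Pool.Agent.Run7.h422.PP.K3

/-!
# Tuples of zeros of a heat flow: the lattice law
-/

set_option autoImplicit false

namespace Run7.h422.PP

open Complex Filter Topology Set

variable {X : ℝ → ℂ → ℂ}

/-- a real number which is not an integer has a positive distance to the integers -/
lemma int_dist {x : ℝ} (hx : ∀ a : ℤ, x ≠ a) : ∃ e : ℝ, 0 < e ∧ ∀ a : ℤ, e ≤ |x - a| := by
  have h1 : (⌊x⌋ : ℝ) < x := lt_of_le_of_ne (Int.floor_le x) (fun h => hx _ h.symm)
  have h2 : x < ⌊x⌋ + 1 := Int.lt_floor_add_one x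
  refine ⟨min (x - ⌊x⌋) (⌊x⌋ + 1 - x), lt_min (by linarith) (by linarith), fun a => ?_⟩
  rcases le_or_gt a ⌊x⌋ with h | h
  · have h3 : (a : ℝ) ≤ ⌊x⌋ := by exact_mod_cast h
    rw [abs_of_nonneg (by linarith)]
    exact (min_le_left _ _).trans (by linarith)
  · have h3 : (⌊x⌋ : ℝ) + 1 ≤ a := by exact_mod_cast h
    rw [abs_of_nonpos (by linarith)]
    exact (min_le_right _ _).trans (by linarith)

theorem sepk_ex {k : ℕ} {α β : Fin k → ℝ} (hα : ∀ i, ∀ a : ℤ, α i ≠ a)
    (hβ : ∀ i, ∀ a : ℤ, β i ≠ a) : ∃ (θ b : ℝ) (M : ℕ), 0 < θ ∧ θ ≤ 1 ∧ Sep θ M α β b := by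
  classical
  choose e1 he1 he1' using fun i => int_dist (hα i)
  choose e2 he2 he2' using fun i => int_dist (hβ i)
  obtain ⟨e, he, hea, heb⟩ : ∃ e : ℝ, 0 < e ∧ (∀ i, e ≤ e1 i) ∧ ∀ i, e ≤ e2 i := by
    rcases isEmpty_or_nonempty (Fin k) with h | h
    · exact ⟨1, one_pos, fun i => (h.false i).elim, fun i => (h.false i).elim⟩
    · refine ⟨min (Finset.univ.inf' Finset.univ_nonempty e1)
        (Finset.univ.inf' Finset.univ_nonempty e2), lt_min ?_ ?_, fun i => ?_, fun i => ?_⟩
      · rw [Finset.lt_inf'_iff]; exact fun i _ => he1 i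
      · rw [Finset.lt_inf'_iff]; exact fun i _ => he2 i
      · exact (min_le_left _ _).trans (Finset.inf'_le _ (Finset.mem_univ i))
      · exact (min_le_right _ _).trans (Finset.inf'_le _ (Finset.mem_univ i))
  set b : ℝ := ∑ i, (|α i| + |β i|) with hb
  have hb0 : 0 ≤ b := Finset.sum_nonneg fun i _ => by positivity
  have hbi : ∀ i, |α i| + |β i| ≤ b := fun i =>
    Finset.single_le_sum (f := fun i => |α i| + |β i|) (fun j _ => by positivity)
      (Finset.mem_univ i)
  set M : ℕ := ⌈2 * b⌉₊ + 1 with hM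
  have hM1 : 2 * b + 1 ≤ M := by
    rw [hM]
    push_cast
    have := Nat.le_ceil (2 * b)
    linarith
  have hM0 : (0 : ℝ) < M := by linarith
  set θ : ℝ := min (1 / 2) (e / (2 * M)) with hθ
  have hθ0 : 0 < θ := lt_min (by norm_num) (by positivity)
  have hθ1 : θ ≤ 1 / 2 := min_le_left _ _
  have hθ2 : ∀ a : ℤ, |a| ≤ M → θ * |(a : ℝ)| ≤ e / 2 := by
    intro a ha
    have h1 : |(a : ℝ)| ≤ M := by exact_mod_cast ha
    have h2 : θ ≤ e / (2 * M) := min_le_right _ _
    calc θ * |(a : ℝ)| ≤ e / (2 * M) * M := mul_le_mul h2 h1 (abs_nonneg _) (by positivity)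
      _ = e / 2 := by field_simp
  have key : ∀ i, ∀ a : ℤ, |a| ≤ M → ∀ D : ℝ, |D - a| ≤ θ * |(a : ℝ)| →
      (α i ≤ D ↔ α i ≤ a) ∧ (D ≤ β i ↔ (a : ℝ) ≤ β i) := by
    intro i a ha D hD
    have h1 := (hD.trans (hθ2 a ha))
    rw [abs_le] at h1
    have h2 := (hea i).trans (he1' i a)
    have h3 := (heb i).trans (he2' i a)
    constructor
    · constructor
      · intro h4
        by_contra hcon
        push Not at hcon
        rw [abs_of_pos (by linarith)] at h2
        linarith [h1.2]
      · intro h4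
        by_contra hcon
        push Not at hcon
        rw [abs_of_nonpos (by linarith)] at h2
        linarith [h1.1]
    · constructor
      · intro h4
        by_contra hcon
        push Not at hcon
        rw [abs_of_neg (by linarith)] at h3
        linarith [h1.1]
      · intro h4
        by_contra hcon
        push Not at hcon
        rw [abs_of_nonneg (by linarith)] at h3
        linarith [h1.2]
  refine ⟨θ, b, M, hθ0, by linarith, ?_⟩
  exact
    { low := fun i => by
        have h1 := hbi i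
        have h2 := neg_abs_le (α i)
        have h3 := abs_nonneg (β i)
        linarith
      upp := fun i => by
        have h1 := hbi i
        have h2 := le_abs_self (β i)
        have h3 := abs_nonneg (α i)
        linarith
      bM := by
        have : (M : ℝ) * (1 / 2) ≤ M * (1 - θ) := mul_le_mul_of_nonneg_left (by linarith) hM0.le
        linarith
      M1 := by omega
      into := fun i a ha D hD h1 h2 => ⟨(key i a ha D hD).1.1 h1, (key i a ha D hD).2.1 h2⟩
      fro := fun i a ha D hD h1 h2 => ⟨(key i a ha D hD).1.2 h1, (key i a ha D hD).2.2 h2⟩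
      inM := fun i a h1 h2 => by
        have h3 : |(a : ℝ)| ≤ b := by
          rw [abs_le]
          have h4 := hbi i
          have h5 := neg_abs_le (α i)
          have h6 := le_abs_self (β i)
          have h7 := abs_nonneg (α i)
          have h8 := abs_nonneg (β i)
          constructor <;> linarith
        have h4 : |(a : ℝ)| ≤ M := by linarith
        exact_mod_cast h4 }

lemma logpow_small (n : ℕ) {e : ℝ} (he : 0 < e) :
    ∀ᶠ T : ℝ in atTop, Real.log T ^ n ≤ e * Real.sqrt T := by
  have h1 : (fun T : ℝ => Real.log T ^ (2 * n)) =o[atTop] (fun T => T) :=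
    Real.isLittleO_pow_log_id_atTop
  filter_upwards [h1.bound (c := e ^ 2) (by positivity), eventually_gt_atTop (1 : ℝ)] with T h2 h3
  have hL : 0 < Real.log T := Real.log_pos h3
  rw [Real.norm_of_nonneg (by positivity), Real.norm_of_nonneg (by linarith)] at h2
  have h4 : (Real.log T ^ n) ^ 2 ≤ (e * Real.sqrt T) ^ 2 := by
    rw [mul_pow, Real.sq_sqrt (by linarith), ← pow_mul, mul_comm n 2]
    exact h2
  exact le_of_sq_le_sq h4 (by positivity) |>.trans le_rfl

/-- the errors are small -/
theorem Inp.tuples (hI : Inp X) {τ : ℝ → ℝ} {A : ℝ} (hA : 0 < A) (h0 : ∀ᶠ T in atTop, 0 < τ T)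
    (hτA : ∀ᶠ T in atTop, τ T * Real.log T ≤ A)
    (hτ : Tendsto (fun T => τ T * Real.log T ^ 2 / Real.log (Real.log T)) atTop atTop)
    {k : ℕ} {α β : Fin k → ℝ} {θ b : ℝ} {M : ℕ} (hθ : 0 < θ) (hθ1 : θ ≤ 1)
    (hS : Sep θ M α β b) {η : ℝ} (hη : 0 < η) :
    ∀ᶠ T in atTop, ((IV α β).ncard : ℝ) *
        (((NZ (X (τ T)) T).ncard : ℝ) - η * (T * Real.log T)) ≤
        ((Tu (X (τ T)) T α β).ncard : ℝ) ∧
      ((Tu (X (τ T)) T α β).ncard : ℝ) ≤
        ((IV α β).ncard : ℝ) * ((NZ (X (τ T)) T).ncard : ℝ) + η * (T * Real.log T) := by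
  obtain ⟨c, C, K, hc, hC, hK, hyp⟩ := hI.hyp hθ hθ1 hA (2 * M)
  set Q : ℝ := (2 * M + 1 : ℝ) ^ k with hQ
  have hQ1 : 1 ≤ Q := one_le_pow₀ (by have : (0 : ℝ) ≤ M := Nat.cast_nonneg _
                                      linarith)
  obtain ⟨n, hn, hn1⟩ : ∃ n : ℕ, 8 * Q * K / η < 2 ^ n ∧ 1 ≤ n := by
    obtain ⟨n, hn⟩ := pow_two_gt (8 * Q * K / η)
    exact ⟨n + 1, hn.trans (by rw [pow_succ]; have : (0 : ℝ) < 2 ^ n := by positivity
                               linarith), by omega⟩
  obtain ⟨T3, hT3, hyp⟩ := hyp n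
  have h2n : (0 : ℝ) < 2 ^ n := by positivity
  have h1n : (1 : ℝ) ≤ 2 ^ n := one_le_pow₀ (by norm_num)
  have hM1 : (1 : ℝ) ≤ M := by exact_mod_cast hS.M1
  have hτ2 := hτ.eventually_ge_atTop ((k + 2) / c)
  have hLL : Tendsto (fun T : ℝ => Real.log T) atTop atTop := Real.tendsto_log_atTop
  set E : ℝ := K ^ k * (K + 2 * M * C + 4 * K) + K + 2 * M * C with hE
  have hE0 : 0 < E := by positivity
  filter_upwards [h0, hτA, hτ2, log_block n, eventually_ge_atTop T3,
    eventually_ge_atTop (32 * Q * K / η), eventually_gt_atTop (1 : ℝ),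
    hLL.eventually_ge_atTop (8 * E / η), hLL.eventually_gt_atTop (Real.exp 1),
    eventually_ge_atTop ((2 * 2 ^ n : ℝ) ^ 2), logpow_small (k + 1) (e := η / (8 * E)) (by positivity),
    hLL.eventually_ge_atTop (2 * Real.pi * b), eventually_ge_atTop (2 * 2 ^ n + 8 : ℝ)]
    with T t1 t2 t3 t4 t5 t6 t7 t8 t9 t10 t11 t12 t13
  have hT : 0 < T := by linarith
  have hL : 0 < Real.log T := Real.log_pos t7
  have hL1 : 1 < Real.log T := by
    have := Real.add_one_le_exp 1
    linarith
  have hLL0 : 0 < Real.log (Real.log T) := Real.log_pos hL1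
  obtain ⟨-, hv, hh⟩ := hyp T (τ T) t5 t1 t2
  have hTL : 0 < T * Real.log T := by positivity
  -- the square root
  have hsq : Real.sqrt T * Real.sqrt T = T := Real.mul_self_sqrt hT.le
  have hs1 : 2 * 2 ^ n ≤ Real.sqrt T := Real.le_sqrt_of_sq_le t10
  have hs0 : 0 < Real.sqrt T := by linarith
  obtain ⟨j, hk1, hk2⟩ := exists_nat_pow_near (x := Real.sqrt T) (y := (2 : ℝ)) (by linarith)
    (by norm_num)
  have h2k : (0 : ℝ) < 2 ^ j := by positivity
  have hVl : Real.sqrt T ≤ T / 2 ^ j := by
    rw [le_div_iff₀ h2k]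
    calc Real.sqrt T * 2 ^ j ≤ Real.sqrt T * Real.sqrt T := mul_le_mul_of_nonneg_left hk1 hs0.le
      _ = T := hsq
  have hVu : T / 2 ^ j ≤ 2 * Real.sqrt T := by
    rw [div_le_iff₀ h2k]
    rw [pow_succ] at hk2
    have h1 := mul_le_mul_of_nonneg_left hk2.le hs0.le
    rw [hsq] at h1
    linarith
  have hlogk : Real.log T / 2 ≤ Real.log (T / 2 ^ j) := by
    have h1 : Real.log (Real.sqrt T) = Real.log T / 2 := Real.log_sqrt hT.le
    rw [← h1]
    exact Real.log_le_log hs0 hVl
  have hkn : T / 2 ^ j ≤ T / 2 ^ n := by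
    refine hVu.trans ?_
    rw [le_div_iff₀ h2n]
    calc 2 * Real.sqrt T * 2 ^ n = Real.sqrt T * (2 * 2 ^ n) := by ring
      _ ≤ Real.sqrt T * Real.sqrt T := mul_le_mul_of_nonneg_left hs1 hs0.le
      _ = T := hsq
  have h := hh j (by linarith) hlogk
  -- the exponential
  have hexp : Real.exp (-(c * (τ T * Real.log T ^ 2))) ≤ 1 / Real.log T ^ (k + 2) := by
    rw [le_div_iff₀ hLL0] at t3
    have h2 : (k + 2) * Real.log (Real.log T) ≤ c * (τ T * Real.log T ^ 2) := by
      have h3 := mul_le_mul_of_nonneg_left t3 hc.le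
      have h4 : c * ((k + 2) / c * Real.log (Real.log T)) = (k + 2) * Real.log (Real.log T) := by
        field_simp
      linarith
    calc Real.exp (-(c * (τ T * Real.log T ^ 2))) ≤
        Real.exp (-((k + 2) * Real.log (Real.log T))) := Real.exp_le_exp.2 (by linarith)
      _ = 1 / Real.log T ^ (k + 2) := by
          rw [Real.exp_neg, one_div]
          congr 1
          have : ((k : ℝ) + 2) = ((k + 2 : ℕ) : ℝ) := by push_cast; ring
          rw [this, Real.exp_nat_mul, Real.exp_log hL]
  have hexp0 := Real.exp_pos (-(c * (τ T * Real.log T ^ 2)))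
  set ex : ℝ := Real.exp (-(c * (τ T * Real.log T ^ 2))) with hex
  have hex1 : Real.log T ^ k * ex ≤ 1 / Real.log T := by
    have h3 : Real.log T ^ k * ex ≤ Real.log T ^ k * (1 / Real.log T ^ (k + 2)) :=
      mul_le_mul_of_nonneg_left hexp (by positivity)
    refine h3.trans ?_
    rw [pow_add, mul_one_div, div_le_div_iff₀ (by positivity) hL]
    have h4 : Real.log T ≤ Real.log T ^ 2 := by nlinarith
    have h5 : 0 < Real.log T ^ k := by positivity
    calc Real.log T ^ k * Real.log T ≤ Real.log T ^ k * Real.log T ^ 2 :=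
          mul_le_mul_of_nonneg_left h4 h5.le
      _ = 1 * (Real.log T ^ k * Real.log T ^ 2) := by ring
  -- the first error
  have e1 : Q * (K * Real.log T * (T / 2 ^ n + 2)) ≤ η / 4 * (T * Real.log T) := by
    have h1 : Q * K / 2 ^ n ≤ η / 8 := by
      rw [div_lt_iff₀ hη] at hn
      rw [div_le_iff₀ h2n]
      linarith
    have h2 : Q * K / 2 ^ n * (T * Real.log T) ≤ η / 8 * (T * Real.log T) :=
      mul_le_mul_of_nonneg_right h1 hTL.le
    have h3 : 2 * (Q * K) ≤ η / 8 * T := by
      rw [div_le_iff₀ hη] at t6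
      have : 0 < Q * K := by positivity
      linarith
    have h4 : 2 * (Q * K) * Real.log T ≤ η / 8 * T * Real.log T :=
      mul_le_mul_of_nonneg_right h3 hL.le
    calc Q * (K * Real.log T * (T / 2 ^ n + 2)) =
        Q * K / 2 ^ n * (T * Real.log T) + 2 * (Q * K) * Real.log T := by ring
      _ ≤ _ := by linarith
  -- the second error
  have hu : T / 2 ^ j + 1 ≤ 3 * Real.sqrt T := by linarith
  have hEη : E / Real.log T ≤ η / 8 := by
    rw [div_le_iff₀ hη] at t8
    rw [div_le_iff₀ hL]
    linarith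
  have hsT : E * Real.log T ^ (k + 1) * Real.sqrt T ≤ η / 8 * T := by
    have h3 := mul_le_mul_of_nonneg_left t11 hE0.le
    have h4 : E * (η / (8 * E) * Real.sqrt T) = η / 8 * Real.sqrt T := by field_simp
    rw [h4] at h3
    calc E * Real.log T ^ (k + 1) * Real.sqrt T ≤ η / 8 * Real.sqrt T * Real.sqrt T :=
          mul_le_mul_of_nonneg_right h3 hs0.le
      _ = η / 8 * T := by rw [mul_assoc, hsq]
  have hKk : 0 < K ^ k := by positivity
  have e2 : (K * Real.log T) ^ k * ((K * Real.log T +
      ((2 * M : ℕ) : ℝ) * (C * (T * Real.log T) * ex)) + K * Real.log T * (T / 2 ^ j + 1)) ≤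
      η / 4 * (T * Real.log T) := by
    have a1 : (K * Real.log T) ^ k * (((2 * M : ℕ) : ℝ) * (C * (T * Real.log T) * ex)) ≤
        η / 8 * (T * Real.log T) := by
      have h3 : (K * Real.log T) ^ k * (((2 * M : ℕ) : ℝ) * (C * (T * Real.log T) * ex)) =
          (K ^ k * (2 * M * C)) * (Real.log T ^ k * ex) * (T * Real.log T) := by
        rw [mul_pow]
        push_cast
        ring
      rw [h3]
      apply mul_le_mul_of_nonneg_right _ hTL.le
      calc K ^ k * (2 * M * C) * (Real.log T ^ k * ex) ≤ K ^ k * (2 * M * C) * (1 / Real.log T) :=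
            mul_le_mul_of_nonneg_left hex1 (by positivity)
        _ ≤ E * (1 / Real.log T) := by
            apply mul_le_mul_of_nonneg_right _ (by positivity)
            rw [hE]
            have q1 : 0 ≤ K ^ k * K := by positivity
            have q2 : 0 ≤ K ^ k * (4 * K) := by positivity
            have q3 : 0 ≤ 2 * M * C := by positivity
            have q4 : K ^ k * (K + 2 * M * C + 4 * K) =
              K ^ k * K + K ^ k * (2 * M * C) + K ^ k * (4 * K) := by ring
            linarith
        _ = E / Real.log T := by ring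
        _ ≤ η / 8 := hEη
    have a2 : (K * Real.log T) ^ k * (K * Real.log T + K * Real.log T * (T / 2 ^ j + 1)) ≤
        η / 8 * (T * Real.log T) := by
      have h3 : K * Real.log T + K * Real.log T * (T / 2 ^ j + 1) ≤
          4 * K * Real.log T * Real.sqrt T := by
        have h4 : 1 ≤ Real.sqrt T := by linarith
        have h5 : K * Real.log T * (T / 2 ^ j + 1) ≤ K * Real.log T * (3 * Real.sqrt T) :=
          mul_le_mul_of_nonneg_left hu (by positivity)
        have h6 : K * Real.log T * 1 ≤ K * Real.log T * Real.sqrt T :=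
          mul_le_mul_of_nonneg_left h4 (by positivity)
        linarith
      calc (K * Real.log T) ^ k * (K * Real.log T + K * Real.log T * (T / 2 ^ j + 1)) ≤
          (K * Real.log T) ^ k * (4 * K * Real.log T * Real.sqrt T) :=
            mul_le_mul_of_nonneg_left h3 (by positivity)
        _ = (K ^ k * (4 * K)) * Real.log T ^ (k + 1) * Real.sqrt T := by
            rw [mul_pow, pow_succ (Real.log T) k]
            ring
        _ ≤ E * Real.log T ^ (k + 1) * Real.sqrt T := by
            apply mul_le_mul_of_nonneg_right _ hs0.le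
            apply mul_le_mul_of_nonneg_right _ (by positivity)
            rw [hE]
            have q1 : 0 ≤ K ^ k * K := by positivity
            have q2 : 0 ≤ K ^ k * (2 * M * C) := by positivity
            have q3 : 0 ≤ 2 * M * C := by positivity
            have q4 : K ^ k * (K + 2 * M * C + 4 * K) =
              K ^ k * K + K ^ k * (2 * M * C) + K ^ k * (4 * K) := by ring
            linarith
        _ ≤ η / 8 * T := hsT
        _ = η / 8 * T * 1 := by ring
        _ ≤ η / 8 * T * Real.log T := mul_le_mul_of_nonneg_left hL1.le (by positivity)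
        _ = _ := by ring
    have a3 : (K * Real.log T) ^ k * ((K * Real.log T +
        ((2 * M : ℕ) : ℝ) * (C * (T * Real.log T) * ex)) + K * Real.log T * (T / 2 ^ j + 1)) =
        (K * Real.log T) ^ k * (((2 * M : ℕ) : ℝ) * (C * (T * Real.log T) * ex)) +
        (K * Real.log T) ^ k * (K * Real.log T + K * Real.log T * (T / 2 ^ j + 1)) := by ring
    rw [a3]
    linarith
  have hvT : T / 2 ^ n + 1 ≤ T := by
    have h3 : (2 : ℝ) ≤ 2 ^ n := by
      calc (2 : ℝ) = 2 ^ 1 := by norm_num
        _ ≤ 2 ^ n := pow_le_pow_right₀ (by norm_num) hn1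
    have h4 : T / 2 ^ n ≤ T / 2 := div_le_div_of_nonneg_left hT.le (by norm_num) h3
    linarith
  -- the errors in the lower bound
  have e5 : K * Real.log T * (T / 2 ^ n + 2) ≤ η / 4 * (T * Real.log T) := by
    have h3 : 0 ≤ K * Real.log T * (T / 2 ^ n + 2) := by positivity
    have h4 : 1 * (K * Real.log T * (T / 2 ^ n + 2)) ≤ Q * (K * Real.log T * (T / 2 ^ n + 2)) :=
      mul_le_mul_of_nonneg_right hQ1 h3
    linarith
  have e6 : K * Real.log T ≤ η / 8 * (T * Real.log T) := by
    have h3 : K * Real.log T * 2 ≤ K * Real.log T * (T / 2 ^ n + 2) := by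
      apply mul_le_mul_of_nonneg_left _ (by positivity)
      have : 0 < T / 2 ^ n := by positivity
      linarith
    linarith
  have e7 : ((2 * M : ℕ) : ℝ) * (C * (T * Real.log T) * ex) ≤ η / 8 * (T * Real.log T) := by
    have h3 : ex ≤ 1 / Real.log T := by
      have h4 : 1 ≤ Real.log T ^ k := one_le_pow₀ hL1.le
      have h5 : 1 * ex ≤ Real.log T ^ k * ex := mul_le_mul_of_nonneg_right h4 hexp0.le
      linarith
    have h4 : ((2 * M : ℕ) : ℝ) * (C * (T * Real.log T) * ex) =
        (2 * M * C) * ex * (T * Real.log T) := by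
      push_cast
      ring
    rw [h4]
    apply mul_le_mul_of_nonneg_right _ hTL.le
    have h5 : 2 * M * C ≤ E := by
      have q1 : 0 < K ^ k * (K + 2 * M * C + 4 * K) := by positivity
      rw [hE]
      linarith
    calc 2 * M * C * ex ≤ 2 * M * C * (1 / Real.log T) :=
          mul_le_mul_of_nonneg_left h3 (by positivity)
      _ ≤ E * (1 / Real.log T) := mul_le_mul_of_nonneg_right h5 (by positivity)
      _ = E / Real.log T := by ring
      _ ≤ η / 8 := hEη
  have e8 : 0 < η * (T * Real.log T) := by positivity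
  constructor
  · refine le_trans (mul_le_mul_of_nonneg_left ?_ (Nat.cast_nonneg _)) (h.tu_lower hv hkn hvT hS)
    linarith
  · refine (h.tu_upper hv hkn hvT hS t12).trans ?_
    have e3 : 0 < η * (T * Real.log T) := by positivity
    linarith

end Run7.h422.PP
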