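import Mathlib

/-!
# Laws for pairs: transfer and non-existence
-/

set_option autoImplicit false

namespace Run7.h422.PP

open Filter Topology Set

/-- `N T α β ~ Φ α β * T log T / (2 π)` for all `0 < α < β` -/
def Law (N : ℝ → ℝ → ℝ → ℝ) (Φ : ℝ → ℝ → ℝ) : Prop :=
  ∀ α β : ℝ, 0 < α → α < β →
    Tendsto (fun T : ℝ => N T α β / (T * Real.log T / (2 * Real.pi))) atTop (𝓝 (Φ α β))

/-- continuity on `0 < α < β` -/
def CtsLaw (Φ : ℝ → ℝ → ℝ) : Prop :=
  ContinuousOn (fun x : ℝ × ℝ => Φ x.1 x.2) {x | 0 < x.1 ∧ x.1 < x.2}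

lemma cts_near {Φ : ℝ → ℝ → ℝ} (h : CtsLaw Φ) {α β η : ℝ} (hα : 0 < α) (hαβ : α < β) (hη : 0 < η) :
    ∃ ε0 : ℝ, 0 < ε0 ∧ ∀ x y : ℝ, |x - α| ≤ ε0 → |y - β| ≤ ε0 → |Φ x y - Φ α β| < η := by
  have hopen : IsOpen {x : ℝ × ℝ | 0 < x.1 ∧ x.1 < x.2} :=
    (isOpen_lt continuous_const continuous_fst).inter (isOpen_lt continuous_fst continuous_snd)
  have hmem : ((α, β) : ℝ × ℝ) ∈ {x : ℝ × ℝ | 0 < x.1 ∧ x.1 < x.2} := ⟨hα, hαβ⟩
  have hc : ContinuousAt (fun x : ℝ × ℝ => Φ x.1 x.2) (α, β) :=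
    h.continuousAt (hopen.mem_nhds hmem)
  rw [Metric.continuousAt_iff] at hc
  obtain ⟨d, hd, hd'⟩ := hc η hη
  refine ⟨d / 2, by positivity, fun x y hx hy => ?_⟩
  have h1 : dist ((x, y) : ℝ × ℝ) (α, β) < d := by
    rw [Prod.dist_eq, max_lt_iff]
    constructor
    · show dist x α < d
      rw [Real.dist_eq]
      linarith
    · show dist y β < d
      rw [Real.dist_eq]
      linarith
  have h2 := hd' h1
  rw [Real.dist_eq] at h2
  exact h2

theorem law_tr {N1 N2 : ℝ → ℝ → ℝ → ℝ} {Φ : ℝ → ℝ → ℝ} (hΦ : CtsLaw Φ)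
    (h : ∀ α β ε : ℝ, 0 < ε → ε < α → ∀ᶠ T : ℝ in atTop,
      N1 T α β ≤ N2 T (α - ε) (β + ε) + ε * (T * Real.log T) ∧
      N2 T α β ≤ N1 T (α - ε) (β + ε) + ε * (T * Real.log T)) (hL : Law N1 Φ) : Law N2 Φ := by
  intro α β hα hαβ
  rw [Metric.tendsto_nhds]
  intro η hη
  obtain ⟨ε0, hε0, hc⟩ := cts_near hΦ hα hαβ (by positivity : 0 < η / 4)
  have hpi := Real.pi_pos
  obtain ⟨ε, hε, hεd⟩ : ∃ ε : ℝ, 0 < ε ∧ ε ≤ ε0 ∧ ε ≤ α / 4 ∧ ε ≤ (β - α) / 4 ∧
      2 * Real.pi * ε ≤ η / 4 := by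
    refine ⟨min (min ε0 (α / 4)) (min ((β - α) / 4) (η / (8 * Real.pi))), ?_, ?_, ?_, ?_, ?_⟩
    · refine lt_min (lt_min hε0 (by positivity)) (lt_min ?_ (by positivity))
      linarith
    · exact (min_le_left _ _).trans (min_le_left _ _)
    · exact (min_le_left _ _).trans (min_le_right _ _)
    · exact (min_le_right _ _).trans (min_le_left _ _)
    · have h1 : min (min ε0 (α / 4)) (min ((β - α) / 4) (η / (8 * Real.pi))) ≤ η / (8 * Real.pi) :=
        (min_le_right _ _).trans (min_le_right _ _)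
      calc 2 * Real.pi * _ ≤ 2 * Real.pi * (η / (8 * Real.pi)) :=
            mul_le_mul_of_nonneg_left h1 (by positivity)
        _ = η / 4 := by field_simp; ring
  obtain ⟨h1, h2, h3, h4⟩ := hεd
  have l1 := hL (α - ε) (β + ε) (by linarith) (by linarith)
  have l2 := hL (α + ε) (β - ε) (by linarith) (by linarith)
  rw [Metric.tendsto_nhds] at l1 l2
  have c1 := hc (α - ε) (β + ε) (by rw [sub_sub_cancel_left, abs_neg, abs_of_pos hε]; exact h1)
    (by rw [add_sub_cancel_left, abs_of_pos hε]; exact h1)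
  have c2 := hc (α + ε) (β - ε) (by rw [add_sub_cancel_left, abs_of_pos hε]; exact h1)
    (by rw [sub_sub_cancel_left, abs_neg, abs_of_pos hε]; exact h1)
  filter_upwards [l1 (η / 4) (by positivity), l2 (η / 4) (by positivity),
    h α β ε hε (by linarith), h (α + ε) (β - ε) ε hε (by linarith),
    eventually_gt_atTop (1 : ℝ)] with T t1 t2 t3 t4 t5
  have hT : 0 < T * Real.log T := mul_pos (by linarith) (Real.log_pos t5)
  have hT' : 0 < T * Real.log T / (2 * Real.pi) := by positivity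
  have e1 : α + ε - ε = α := by ring
  have e2 : β - ε + ε = β := by ring
  rw [e1, e2] at t4
  rw [Real.dist_eq, abs_lt] at t1 t2 ⊢
  rw [abs_lt] at c1 c2
  have u1 : N2 T α β / (T * Real.log T / (2 * Real.pi)) ≤
      N1 T (α - ε) (β + ε) / (T * Real.log T / (2 * Real.pi)) + 2 * Real.pi * ε := by
    rw [div_le_iff₀ hT', add_mul, div_mul_cancel₀ _ hT'.ne']
    have : 2 * Real.pi * ε * (T * Real.log T / (2 * Real.pi)) = ε * (T * Real.log T) := by
      field_simp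
    rw [this]
    exact t3.2
  have u2 : N1 T (α + ε) (β - ε) / (T * Real.log T / (2 * Real.pi)) ≤
      N2 T α β / (T * Real.log T / (2 * Real.pi)) + 2 * Real.pi * ε := by
    rw [div_le_iff₀ hT', add_mul, div_mul_cancel₀ _ hT'.ne']
    have : 2 * Real.pi * ε * (T * Real.log T / (2 * Real.pi)) = ε * (T * Real.log T) := by
      field_simp
    rw [this]
    exact t4.1
  constructor
  · linarith [t2.1, c2.1]
  · linarith [t1.2, c1.2]

theorem law_iff {N1 N2 : ℝ → ℝ → ℝ → ℝ} {Φ : ℝ → ℝ → ℝ} (hΦ : CtsLaw Φ)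
    (h : ∀ α β ε : ℝ, 0 < ε → ε < α → ∀ᶠ T : ℝ in atTop,
      N1 T α β ≤ N2 T (α - ε) (β + ε) + ε * (T * Real.log T) ∧
      N2 T α β ≤ N1 T (α - ε) (β + ε) + ε * (T * Real.log T)) : Law N1 Φ ↔ Law N2 Φ :=
  ⟨law_tr hΦ h, law_tr hΦ fun α β ε hε hα => (h α β ε hε hα).mono fun _ hT => hT.symm⟩

theorem no_law {N : ℝ → ℝ → ℝ → ℝ} {Φ : ℝ → ℝ → ℝ} (hΦ : CtsLaw Φ) {c : ℝ} (hc : 0 < c)
    (h1 : ∀ ε : ℝ, 0 < ε → ε ≤ 1 / 4 → ∀ᶠ T : ℝ in atTop,
      c * (T * Real.log T) ≤ N T (1 - ε) (1 + ε))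
    (h2 : ∀ ε : ℝ, 0 < ε → ε ≤ 1 / 4 → ∀ᶠ T : ℝ in atTop,
      N T (1 - ε) (1 + ε) + N T (1 + 2 * ε) 2 ≤ N T (1 - ε) 2) : ¬ Law N Φ := by
  intro hL
  have hpi := Real.pi_pos
  have key : ∀ ε : ℝ, 0 < ε → ε ≤ 1 / 4 → 2 * Real.pi * c + Φ (1 + 2 * ε) 2 ≤ Φ (1 - ε) 2 := by
    intro ε hε hε4
    have l1 := hL (1 - ε) 2 (by linarith) (by linarith)
    have l2 := (hL (1 + 2 * ε) 2 (by linarith) (by linarith)).const_add (2 * Real.pi * c)
    refine le_of_tendsto_of_tendsto l2 l1 ?_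
    filter_upwards [h1 ε hε hε4, h2 ε hε hε4, eventually_gt_atTop (1 : ℝ)] with T t1 t2 t3
    have hT : 0 < T * Real.log T := mul_pos (by linarith) (Real.log_pos t3)
    have hT' : 0 < T * Real.log T / (2 * Real.pi) := by positivity
    rw [le_div_iff₀ hT', add_mul, div_mul_cancel₀ _ hT'.ne']
    have : 2 * Real.pi * c * (T * Real.log T / (2 * Real.pi)) = c * (T * Real.log T) := by
      field_simp
    rw [this]
    linarith
  obtain ⟨ε0, hε0, hcc⟩ := cts_near hΦ one_pos one_lt_two (by positivity : 0 < Real.pi * c)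
  obtain ⟨ε, hε, he1, he2⟩ : ∃ ε : ℝ, 0 < ε ∧ 2 * ε ≤ ε0 ∧ ε ≤ 1 / 4 :=
    ⟨min (ε0 / 2) (1 / 4), by positivity, by linarith [min_le_left (ε0 / 2) (1 / 4 : ℝ)],
      min_le_right _ _⟩
  have k := key ε hε he2
  have a1 := hcc (1 - ε) 2 (by rw [sub_sub_cancel_left, abs_neg, abs_of_pos hε]; linarith)
    (by rw [sub_self, abs_zero]; exact hε0.le)
  have a2 := hcc (1 + 2 * ε) 2 (by rw [add_sub_cancel_left, abs_of_pos (by positivity)]; exact he1)
    (by rw [sub_self, abs_zero]; exact hε0.le)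
  rw [abs_lt] at a1 a2
  linarith [a1.2, a2.1]

/-- Montgomery's density -/
noncomputable def mo (u : ℝ) : ℝ := 1 - (Real.sin (Real.pi * u) / (Real.pi * u)) ^ 2

lemma mo_int (a b : ℝ) : IntervalIntegrable mo MeasureTheory.volume a b := by
  have h1 : Continuous fun u : ℝ => 1 - Real.sinc (Real.pi * u) ^ 2 := by
    have := Real.continuous_sinc
    fun_prop
  refine (h1.intervalIntegrable a b).congr_ae ?_
  have h2 : ∀ᵐ u : ℝ ∂(MeasureTheory.volume.restrict (Set.uIoc a b)), u ≠ 0 :=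
    MeasureTheory.ae_restrict_of_ae (by
      have : ({0} : Set ℝ)ᶜ ∈ MeasureTheory.ae (MeasureTheory.volume : MeasureTheory.Measure ℝ) := by
        rw [MeasureTheory.mem_ae_iff, compl_compl]
        exact MeasureTheory.measure_singleton 0
      exact this)
  filter_upwards [h2] with u hu
  have h3 : Real.pi * u ≠ 0 := mul_ne_zero Real.pi_ne_zero hu
  unfold mo
  rw [Real.sinc_of_ne_zero h3]

lemma mo_cts : CtsLaw fun α β => ∫ u in α..β, mo u := by
  have h1 : Continuous fun x : ℝ => ∫ u in (0 : ℝ)..x, mo u :=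
    intervalIntegral.continuous_primitive mo_int 0
  have h2 : (fun x : ℝ × ℝ => ∫ u in x.1..x.2, mo u) =
      fun x : ℝ × ℝ => (∫ u in (0 : ℝ)..x.2, mo u) - ∫ u in (0 : ℝ)..x.1, mo u := by
    funext x
    rw [intervalIntegral.integral_interval_sub_left (mo_int _ _) (mo_int _ _)]
  unfold CtsLaw
  rw [h2]
  exact ((h1.comp continuous_snd).sub (h1.comp continuous_fst)).continuousOn

end Run7.h422.PP
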