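import Pool.Agent.R838.ST.Blk0

/-!
# Moments of the number of zeros near the elements of a small set of zeros, one block of heights

Input: the starting theorems `Pool.Agent.R838.ST.midw` (moments of the number of zeros in windows at bad heights)
and `goodn` (number of zeros in windows at good heights), for all times up to a constant divided by the logarithm.
-/

set_option autoImplicit false

namespace Run7.h422.PP

open Complex Filter Topology Set
open Pool.Agent.H24R2.JP (Om)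
open Pool.Agent.H24R2.DZ (ra NN)
open Pool.Agent.R838.CR
open Pool.Agent.R838.ST
open Pool.Agent.W186.SD (S_NGN S_AW S_CNT S_COV Std)

/-- the standard situation for all times which are not too large -/
lemma std_of {U τ c0 : ℝ} (hU : 1 < U) (hc0 : c0 ≤ 1 / 100) (h1 : 1 ≤ 2 * τ * Om U ^ 2)
    (h2 : 2 * τ * Om U ≤ c0) : ∃ J : ℕ, Std c0 U τ (2 * τ * Om U ^ 2) J := by
  have hL : 0 < Real.log U := Real.log_pos hU
  have hOm : Om U = Real.log U / 2 := rfl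
  have hOm0 : 0 < Om U := by rw [hOm]; positivity
  have hτ : 0 < τ := by
    by_contra hcon
    push Not at hcon
    have : 2 * τ * Om U ^ 2 ≤ 0 := by
      have h3 : 0 < Om U ^ 2 := by positivity
      nlinarith
    linarith
  have hsm : 2 * τ * Om U ^ 2 ≤ c0 * Om U := by
    have h3 := mul_le_mul_of_nonneg_right h2 hOm0.le
    calc 2 * τ * Om U ^ 2 = 2 * τ * Om U * Om U := by ring
      _ ≤ _ := h3
  have ha : 0 < 2 * τ * Om U ^ 2 := by linarith
  have hx : 1 ≤ Real.log U / 200 / (2 * τ * Om U ^ 2) := by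
    rw [one_le_div ha]
    have h3 : c0 * Om U ≤ 1 / 100 * Om U := mul_le_mul_of_nonneg_right hc0 hOm0.le
    rw [hOm] at h3 hsm ⊢
    linarith
  obtain ⟨J, hJ1, hJ2⟩ := exists_nat_pow_near hx (by norm_num : (1 : ℝ) < 2)
  rw [le_div_iff₀ ha] at hJ1
  rw [div_lt_iff₀ ha] at hJ2
  exact ⟨J, ⟨hτ, rfl, hsm, hJ1, hJ2⟩⟩

theorem momB {B : ℝ} {F : ℂ → ℂ} {FT : ℝ → ℂ → ℂ} (hD : STB B F FT) (h0 : UNIT0 F) (hNGN : S_NGN)
    (hAW : S_AW) (hCNT : S_CNT) (hCOV : S_COV) (k : ℕ) (H0 : ℝ) (hH0 : 0 ≤ H0) :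
    ∃ c0 a0 C c U0 : ℝ, 0 < c0 ∧ 1 ≤ a0 ∧ 0 < C ∧ 0 < c ∧ 2 ≤ U0 ∧ ∀ (U τ : ℝ) (S : Finset (ℂ × ℕ)),
    U0 ≤ U → a0 ≤ 2 * τ * Om U ^ 2 → 2 * τ * Om U ≤ c0 →
    (∀ y ∈ S, y ∈ Zi (FT τ) ∧ U < y.1.im ∧ y.1.im ≤ 2 * U) →
    ∑ y ∈ S, (nn (FT τ) y.1.im (H0 / Om U) : ℝ) ^ k ≤
      C * ((2 * τ * Om U ^ 2) ^ k * S.card) + C * (U * Om U) * Real.exp (-(c * (2 * τ * Om U ^ 2))) := by
  classical
  obtain ⟨Rs1, ηs1, hR1, hη1, hW⟩ := midw hD h0 hNGN hAW hCNT hCOV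
  obtain ⟨Rs2, ηs2, c2, a2, C2, T2, hR2, hη2, hc2, ha2, hC2, hT2, hN⟩ := goodn hD hNGN hAW hCNT
  obtain ⟨R, hR⟩ : ∃ R : ℝ, R = max Rs1 Rs2 := ⟨_, rfl⟩
  obtain ⟨η, hη⟩ : ∃ η : ℝ, η = min ηs1 ηs2 := ⟨_, rfl⟩
  have hη0 : 0 < η := by rw [hη]; exact lt_min hη1 hη2
  obtain ⟨c, Cw, cw, aw, Tw, hc, hCw, hcw, haw, hTw, hW⟩ := hW R η (by rw [hR]; exact le_max_left _ _) hη0
    (by rw [hη]; exact min_le_left _ _) (k + 1)
  have hN := hN R η (by rw [hR]; exact le_max_right _ _) hη0 (by rw [hη]; exact min_le_right _ _)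
  refine ⟨min (min cw c2) (1 / 100), max (max aw a2) (400 * (1 + H0)), 3 * C2 ^ k + Cw, c,
    max (max Tw T2) (Real.exp 4), lt_min (lt_min hcw hc2) (by norm_num),
    haw.trans ((le_max_left _ _).trans (le_max_left _ _)), by positivity, hc,
    hTw.trans ((le_max_left _ _).trans (le_max_left _ _)), ?_⟩
  intro U τ S hU ha hτc hS
  simp only [max_le_iff] at hU ha
  obtain ⟨⟨hU1, hU2⟩, hU4⟩ := hU
  obtain ⟨⟨ha1, ha2'⟩, ha3⟩ := ha
  have hU5 : (5 : ℝ) ≤ U := by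
    have := Real.add_one_le_exp (4 : ℝ)
    linarith
  have hU0 : 0 < U := by linarith
  have hL : 4 ≤ Real.log U := by rw [Real.le_log_iff_exp_le hU0]; exact hU4
  have hOm : Om U = Real.log U / 2 := rfl
  obtain ⟨J, hJ⟩ := std_of (c0 := min (min cw c2) (1 / 100)) (by linarith) (min_le_right _ _)
    (by linarith [haw]) hτc
  obtain ⟨ω, hω⟩ : ∃ ω : ℝ, ω = Om U := ⟨_, rfl⟩
  have hω2 : 2 ≤ ω := by rw [hω, hOm]; linarith
  have hω0 : 0 < ω := by linarith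
  obtain ⟨a, hadef⟩ : ∃ a : ℝ, a = 2 * τ * Om U ^ 2 := ⟨_, rfl⟩
  rw [← hadef] at ha1 ha2' ha3 hJ ⊢
  have hap : 0 < a := by linarith
  have hτ0 : 0 < τ := hJ.tau
  have hJw : Std cw U τ a J := ⟨hJ.tau, hJ.a_eq, hJ.small.trans (mul_le_mul_of_nonneg_right
    ((min_le_left _ _).trans (min_le_left _ _)) (by rw [← hω]; exact hω0.le)), hJ.top, hJ.top'⟩
  have hJ2 : Std c2 U τ a J := ⟨hJ.tau, hJ.a_eq, hJ.small.trans (mul_le_mul_of_nonneg_right
    ((min_le_left _ _).trans (min_le_right _ _)) (by rw [← hω]; exact hω0.le)), hJ.top, hJ.top'⟩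
  rw [← hω]
  have hra : ra U a = a / ω := by rw [hω]; rfl
  have hH : 0 ≤ H0 / ω := by positivity
  have h1ω : 0 < 1 / ω := by positivity
  have hwin : 1 / ω + H0 / ω ≤ ra U a / 400 := by rw [hra]; exact win_le hω0 ha3
  have hρr : 1 / ω ≤ ra U a / 400 := by linarith
  have hf := hD.heatd τ hτ0.le
  have hst : ∀ s, FT τ s = 0 → |s.re| ≤ B := fun s hs => hD.strip τ s hτ0.le hs
  obtain ⟨G, hG⟩ : ∃ G : Finset ℝ, G = grid (1 / ω) (U - 1) (2 * U + 1) := ⟨_, rfl⟩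
  have hSep : Pool.Agent.R838.ST.Sep G (1 / ω) := by rw [hG]; exact grid_sep h1ω
  have hGm : ∀ t ∈ G, U / 2 + 1 ≤ t ∧ t ≤ 3 * U - 1 := by
    intro t ht
    rw [hG] at ht
    have := grid_mem h1ω ht
    constructor <;> linarith
  have h1ω1 : 1 / ω ≤ 1 := by rw [div_le_one hω0]; linarith
  -- every element is near a point of the grid
  have hpt : ∀ y ∈ S, (nn (FT τ) y.1.im (H0 / ω) : ℝ) ^ k ≤
      ∑ t ∈ G, (if |y.1.im - t| ≤ 1 / ω then (nn (FT τ) t (1 / ω + H0 / ω) : ℝ) ^ k else 0) := by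
    intro y hy
    obtain ⟨-, hy1, hy2⟩ := hS y hy
    have hcov := grid_cov (ρ := 1 / ω) (u := U - 1) (v := 2 * U + 1) (x := y.1.im) (y := 1 / ω) h1ω
      (by linarith) (by linarith)
    have e1 : 2 * (1 / ω) / (1 / ω) - 1 = 1 := by field_simp; norm_num
    rw [e1, ← hG] at hcov
    have hne : (G.filter fun t => |t - y.1.im| ≤ 1 / ω).Nonempty := by
      rw [← Finset.card_pos]
      have : (0 : ℝ) < ((G.filter fun t => |t - y.1.im| ≤ 1 / ω).card : ℝ) := by linarith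
      exact_mod_cast this
    obtain ⟨t, ht⟩ := hne
    rw [Finset.mem_filter] at ht
    have h5 : (nn (FT τ) y.1.im (H0 / ω) : ℝ) ≤ nn (FT τ) t (1 / ω + H0 / ω) := by
      exact_mod_cast nn_mono hf hst (by rw [abs_sub_comm]; linarith [ht.2])
    have h6 : (nn (FT τ) y.1.im (H0 / ω) : ℝ) ^ k ≤
        (if |y.1.im - t| ≤ 1 / ω then (nn (FT τ) t (1 / ω + H0 / ω) : ℝ) ^ k else 0) := by
      rw [if_pos (by rw [abs_sub_comm]; exact ht.2)]
      exact pow_le_pow_left₀ (Nat.cast_nonneg _) h5 k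
    refine h6.trans (Finset.single_le_sum (f := fun t => (if |y.1.im - t| ≤ 1 / ω then
      (nn (FT τ) t (1 / ω + H0 / ω) : ℝ) ^ k else 0)) (fun t _ => ?_) ht.1)
    split_ifs
    · positivity
    · exact le_rfl
  refine (Finset.sum_le_sum hpt).trans ?_
  rw [Finset.sum_comm]
  -- the number of elements near a point of the grid
  obtain ⟨b, hb⟩ : ∃ b : ℝ → ℕ, b = fun t => (S.filter fun y => |y.1.im - t| ≤ 1 / ω).card := ⟨_, rfl⟩
  have hinner : ∀ t : ℝ, ∑ y ∈ S, (if |y.1.im - t| ≤ 1 / ω then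
      (nn (FT τ) t (1 / ω + H0 / ω) : ℝ) ^ k else 0) = b t * (nn (FT τ) t (1 / ω + H0 / ω) : ℝ) ^ k := by
    intro t
    rw [← Finset.sum_filter, Finset.sum_const, nsmul_eq_mul, hb]
  simp only [hinner]
  rw [← Finset.sum_filter_add_sum_filter_not G (fun t => GH F R η U a J t)]
  have hbsum : ∑ t ∈ G, (b t : ℝ) ≤ 3 * S.card := by
    have h7 := dc_up G S (fun y => y.1.im) (1 / ω) 3 (fun x _ => by
      refine (hSep _ _ h1ω.le).trans (le_of_eq ?_)
      field_simp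
      norm_num)
    rw [hb]
    exact h7
  have hgood : ∑ t ∈ G with GH F R η U a J t, (b t : ℝ) * (nn (FT τ) t (1 / ω + H0 / ω) : ℝ) ^ k ≤
      3 * C2 ^ k * (a ^ k * S.card) := by
    calc ∑ t ∈ G with GH F R η U a J t, (b t : ℝ) * (nn (FT τ) t (1 / ω + H0 / ω) : ℝ) ^ k
        ≤ ∑ t ∈ G with GH F R η U a J t, (b t : ℝ) * (C2 * a) ^ k := by
          refine Finset.sum_le_sum fun t ht => ?_
          rw [Finset.mem_filter] at ht
          obtain ⟨h1, h2⟩ := hGm t ht.1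
          refine mul_le_mul_of_nonneg_left ?_ (Nat.cast_nonneg _)
          exact pow_le_pow_left₀ (Nat.cast_nonneg _)
            (hN U τ τ a t _ J hU2 ha2' hJ2 hτ0.le le_rfl h1 h2 ht.2 hwin) _
      _ ≤ ∑ t ∈ G, (b t : ℝ) * (C2 * a) ^ k :=
          Finset.sum_le_sum_of_subset_of_nonneg (Finset.filter_subset _ _) fun _ _ _ => by positivity
      _ = (∑ t ∈ G, (b t : ℝ)) * (C2 * a) ^ k := by rw [Finset.sum_mul]
      _ ≤ 3 * S.card * (C2 * a) ^ k := mul_le_mul_of_nonneg_right hbsum (by positivity)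
      _ = _ := by rw [mul_pow]; ring
  have hbad : ∑ t ∈ G with ¬ GH F R η U a J t, (b t : ℝ) * (nn (FT τ) t (1 / ω + H0 / ω) : ℝ) ^ k ≤
      Cw * (U * ω) * Real.exp (-(c * a)) := by
    have h8 := hW U τ τ a (1 / ω) (1 / ω + H0 / ω) J (G.filter fun t => ¬ GH F R η U a J t)
      hU1 ha1 hJw hτ0.le le_rfl h1ω hρr hwin (fun t ht => by
        rw [Finset.mem_filter] at ht
        obtain ⟨h1, h2⟩ := hGm t ht.1
        exact ⟨h1, h2, ht.2⟩) (hSep.subset (Finset.filter_subset _ _))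
    have e2 : U / (1 / ω) = U * ω := by field_simp
    rw [e2] at h8
    refine le_trans (Finset.sum_le_sum fun t _ => ?_) h8
    rw [pow_succ, mul_comm]
    refine mul_le_mul_of_nonneg_left ?_ (by positivity)
    have h9 : b t ≤ nn (FT τ) t (1 / ω + H0 / ω) := by
      rw [hb]
      obtain ⟨Z, -, hfin, -⟩ := nn_spec hf hst t (1 / ω + H0 / ω)
      unfold nn
      dsimp only
      rw [← Set.ncard_coe_finset]
      refine Set.ncard_le_ncard ?_ hfin
      intro y hy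
      rw [Finset.mem_coe, Finset.mem_filter] at hy
      exact ⟨(hS y hy.1).1, by linarith [hy.2]⟩
    exact_mod_cast h9
  have h10 : 0 ≤ (3 * C2 ^ k) * (U * ω) * Real.exp (-(c * a)) := by positivity
  have h11 : 0 ≤ Cw * (a ^ k * S.card) := by positivity
  calc _ ≤ 3 * C2 ^ k * (a ^ k * S.card) + Cw * (U * ω) * Real.exp (-(c * a)) := add_le_add hgood hbad
    _ ≤ _ := by linarith

end Run7.h422.PP
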