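import Pool.Agent.Run7.h422.PP.K5

/-!
# Tuples with an exceptional zero: all heights above a small power
-/

set_option autoImplicit false

namespace Run7.h422.PP

open Complex Filter Topology Set

variable {X : ℝ → ℂ → ℂ}

/-- number of zeros in a window of heights -/
noncomputable def wn (f : ℂ → ℂ) (t h : ℝ) : ℕ := {p : ℂ × ℕ | p ∈ Zi f ∧ |p.1.im - t| ≤ h}.ncard

/-- moments of the numbers of zeros near the elements of a set of zeros, one block -/
def Mom (X : ℝ → ℂ → ℂ) : Prop := ∀ (k : ℕ) (H : ℝ), 0 ≤ H →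
  ∃ c0 a0 C c U0 : ℝ, 0 < c0 ∧ 0 < a0 ∧ 0 < C ∧ 0 < c ∧ 2 ≤ U0 ∧
  ∀ (U τ : ℝ) (S : Finset (ℂ × ℕ)), U0 ≤ U → a0 ≤ τ * Real.log U ^ 2 → τ * Real.log U ≤ c0 →
  (∀ y ∈ S, y ∈ Zi (X τ) ∧ U < y.1.im ∧ y.1.im ≤ 2 * U) →
  ∑ y ∈ S, (wn (X τ) y.1.im (H / Real.log U) : ℝ) ^ k ≤
    C * ((τ * Real.log U ^ 2) ^ k * S.card) +
      C * (U * Real.log U) * Real.exp (-(c * (τ * Real.log U ^ 2)))

lemma wn_mono (hI : Inp X) {τ : ℝ} (hτ : 0 ≤ τ) {t h h' : ℝ} (hh : h ≤ h') :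
    wn (X τ) t h ≤ wn (X τ) t h' := by
  refine Set.ncard_le_ncard (fun p hp => ⟨hp.1, hp.2.trans hh⟩) ?_
  refine (hI.fin τ hτ (t - h') (t + h')).subset fun p hp => ?_
  have := abs_le.1 hp.2
  exact ⟨hp.1, by linarith [this.1], by linarith [this.2]⟩

/-- many blocks -/
theorem Mom.all (hI : Inp X) (hM : Mom X) (k : ℕ) (H : ℝ) (hH : 0 ≤ H) :
    ∃ c0 a0 C c U0 : ℝ, 0 < c0 ∧ 0 < a0 ∧ 0 < C ∧ 0 < c ∧ 2 ≤ U0 ∧
    ∀ (T τ : ℝ), a0 ≤ τ * Real.log T ^ 2 → τ * Real.log T ≤ c0 →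
    ∀ (j : ℕ) (S : Finset (ℂ × ℕ)), U0 ≤ T / 2 ^ j → Real.log T / 2 ≤ Real.log (T / 2 ^ j) →
    (∀ y ∈ S, y ∈ Zi (X τ) ∧ T / 2 ^ j < y.1.im ∧ y.1.im ≤ T) →
    ∑ y ∈ S, (wn (X τ) y.1.im (H / Real.log T) : ℝ) ^ k ≤
      C * ((τ * Real.log T ^ 2) ^ k * S.card) +
        C * (T * Real.log T) * Real.exp (-(c * (τ * Real.log T ^ 2))) := by
  classical
  obtain ⟨c0, a0, C, c, U0, hc0, ha0, hC, hc, hU0, h⟩ := hM k H hH
  refine ⟨c0, 4 * a0, C, c / 4, U0, hc0, by positivity, hC, by positivity, hU0, ?_⟩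
  intro T τ ha hτc j S hj1 hj2 hS
  have h2j : (0 : ℝ) < 2 ^ j := by positivity
  have hTj : 0 < T / 2 ^ j := by linarith
  have hT0 : 0 < T := by
    have := mul_pos hTj h2j
    rwa [div_mul_cancel₀ _ h2j.ne'] at this
  have hT2 : 2 ≤ T := by
    have h1 : T / 2 ^ j ≤ T := div_le_self hT0.le (one_le_pow₀ (by norm_num))
    linarith
  have hL : 0 < Real.log T := Real.log_pos (by linarith)
  have hτ0 : 0 < τ := by
    by_contra hcon
    push Not at hcon
    have h1 : τ * Real.log T ^ 2 ≤ 0 := mul_nonpos_of_nonpos_of_nonneg hcon (by positivity)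
    linarith
  have hx : 0 < τ * Real.log T ^ 2 := by positivity
  obtain ⟨D, hD⟩ : ∃ D : ℝ, D = C * (T * Real.log T) * Real.exp (-(c / 4 * (τ * Real.log T ^ 2))) := ⟨_, rfl⟩
  have hD0 : 0 < D := by rw [hD]; positivity
  -- one block
  have hblk : ∀ (i : ℕ) (S : Finset (ℂ × ℕ)), i + 1 ≤ j →
      (∀ y ∈ S, y ∈ Zi (X τ) ∧ T / 2 ^ (i + 1) < y.1.im ∧ y.1.im ≤ T / 2 ^ i) →
      ∑ y ∈ S, (wn (X τ) y.1.im (H / Real.log T) : ℝ) ^ k ≤
        C * ((τ * Real.log T ^ 2) ^ k * S.card) + D / 2 ^ (i + 1) := by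
    intro i S hij hS
    have h2i : (0 : ℝ) < 2 ^ (i + 1) := by positivity
    have hmono : T / 2 ^ j ≤ T / 2 ^ (i + 1) :=
      div_le_div_of_nonneg_left hT0.le h2i (pow_le_pow_right₀ (by norm_num) hij)
    have hleT : T / 2 ^ (i + 1) ≤ T := div_le_self hT0.le (one_le_pow₀ (by norm_num))
    have hlU : Real.log T / 2 ≤ Real.log (T / 2 ^ (i + 1)) :=
      hj2.trans (Real.log_le_log hTj hmono)
    have hlU2 : Real.log (T / 2 ^ (i + 1)) ≤ Real.log T := Real.log_le_log (by linarith) hleT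
    have hlU0 : 0 < Real.log (T / 2 ^ (i + 1)) := by linarith
    have hsq1 : τ * Real.log T ^ 2 / 4 ≤ τ * Real.log (T / 2 ^ (i + 1)) ^ 2 := by
      have h1 : (Real.log T / 2) ^ 2 ≤ Real.log (T / 2 ^ (i + 1)) ^ 2 :=
        pow_le_pow_left₀ (by linarith) hlU 2
      have h2 := mul_le_mul_of_nonneg_left h1 hτ0.le
      have h3 : τ * (Real.log T / 2) ^ 2 = τ * Real.log T ^ 2 / 4 := by ring
      linarith
    have hsq2 : τ * Real.log (T / 2 ^ (i + 1)) ^ 2 ≤ τ * Real.log T ^ 2 :=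
      mul_le_mul_of_nonneg_left (pow_le_pow_left₀ hlU0.le hlU2 2) hτ0.le
    have h4 := h (T / 2 ^ (i + 1)) τ S (hj1.trans hmono) (by linarith)
      ((mul_le_mul_of_nonneg_left hlU2 hτ0.le).trans hτc) (fun y hy => by
        obtain ⟨h5, h6, h7⟩ := hS y hy
        refine ⟨h5, h6, ?_⟩
        have e : 2 * (T / 2 ^ (i + 1)) = T / 2 ^ i := by rw [pow_succ]; field_simp
        rw [e]
        exact h7)
    have h5 : ∑ y ∈ S, (wn (X τ) y.1.im (H / Real.log T) : ℝ) ^ k ≤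
        ∑ y ∈ S, (wn (X τ) y.1.im (H / Real.log (T / 2 ^ (i + 1))) : ℝ) ^ k := by
      refine Finset.sum_le_sum fun y _ => pow_le_pow_left₀ (Nat.cast_nonneg _) ?_ k
      have : wn (X τ) y.1.im (H / Real.log T) ≤ wn (X τ) y.1.im (H / Real.log (T / 2 ^ (i + 1))) :=
        wn_mono hI hτ0.le (div_le_div_of_nonneg_left hH hlU0 hlU2)
      exact_mod_cast this
    refine h5.trans (h4.trans (add_le_add ?_ ?_))
    · refine mul_le_mul_of_nonneg_left (mul_le_mul_of_nonneg_right ?_ (Nat.cast_nonneg _)) hC.le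
      exact pow_le_pow_left₀ (by positivity) hsq2 k
    · have h6 : Real.exp (-(c * (τ * Real.log (T / 2 ^ (i + 1)) ^ 2))) ≤
          Real.exp (-(c / 4 * (τ * Real.log T ^ 2))) := by
        apply Real.exp_le_exp.2
        have := mul_le_mul_of_nonneg_left hsq1 hc.le
        linarith
      have h7 : C * (T / 2 ^ (i + 1) * Real.log (T / 2 ^ (i + 1))) ≤
          C * (T / 2 ^ (i + 1) * Real.log T) := by
        refine mul_le_mul_of_nonneg_left (mul_le_mul_of_nonneg_left hlU2 ?_) hC.le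
        positivity
      calc C * (T / 2 ^ (i + 1) * Real.log (T / 2 ^ (i + 1))) *
            Real.exp (-(c * (τ * Real.log (T / 2 ^ (i + 1)) ^ 2)))
          ≤ C * (T / 2 ^ (i + 1) * Real.log T) * Real.exp (-(c / 4 * (τ * Real.log T ^ 2))) :=
            mul_le_mul h7 h6 (Real.exp_pos _).le (by positivity)
        _ = D / 2 ^ (i + 1) := by rw [hD]; ring
  -- induction
  have key : ∀ (i : ℕ) (S : Finset (ℂ × ℕ)), i ≤ j →
      (∀ y ∈ S, y ∈ Zi (X τ) ∧ T / 2 ^ i < y.1.im ∧ y.1.im ≤ T) →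
      ∑ y ∈ S, (wn (X τ) y.1.im (H / Real.log T) : ℝ) ^ k ≤
        C * ((τ * Real.log T ^ 2) ^ k * S.card) + D * (1 - 1 / 2 ^ i) := by
    intro i
    induction i with
    | zero =>
      intro S _ hS
      have hem : S = ∅ := by
        rw [Finset.eq_empty_iff_forall_notMem]
        intro y hy
        obtain ⟨-, h5, h6⟩ := hS y hy
        rw [pow_zero, div_one] at h5
        linarith
      rw [hem]
      simp
    | succ i ih =>
      intro S hij hS
      have h5 := ih (S.filter fun y => T / 2 ^ i < y.1.im) (by omega) (fun y hy => by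
        rw [Finset.mem_filter] at hy
        obtain ⟨h6, h7, h8⟩ := hS y hy.1
        exact ⟨h6, hy.2, h8⟩)
      have h6 := hblk i (S.filter fun y => ¬ T / 2 ^ i < y.1.im) hij (fun y hy => by
        rw [Finset.mem_filter] at hy
        obtain ⟨h6, h7, h8⟩ := hS y hy.1
        exact ⟨h6, h7, not_lt.1 hy.2⟩)
      rw [← Finset.sum_filter_add_sum_filter_not S (fun y => T / 2 ^ i < y.1.im)]
      have h7 : ((S.filter fun y => T / 2 ^ i < y.1.im).card : ℝ) +
          ((S.filter fun y => ¬ T / 2 ^ i < y.1.im).card : ℝ) = S.card := by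
        have := Finset.card_filter_add_card_filter_not (s := S) (fun y => T / 2 ^ i < y.1.im)
        exact_mod_cast this
      have e : D * (1 - 1 / 2 ^ (i + 1)) = D * (1 - 1 / 2 ^ i) + D / 2 ^ (i + 1) := by
        rw [pow_succ]
        field_simp
        ring
      rw [e, ← h7, mul_add, mul_add]
      linarith
  have h8 := key j S le_rfl hS
  have h9 : D * (1 - 1 / 2 ^ j) ≤ D := by
    have : 0 ≤ D * (1 / 2 ^ j) := by positivity
    linarith
  rw [hD] at h9 h8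
  linarith

end Run7.h422.PP
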