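import Pool.Agent.Run7.h422.PP.M2

/-!
# Tuples of zeros: the upper bound with moments
-/

set_option autoImplicit false

namespace Run7.h422.PP

open Complex Filter Topology Set

variable {f : ℂ → ℂ} {T θ K u ι : ℝ} {M : ℕ}

/-- every fibre is at most a power of the number of zeros in a short window -/
lemma Hyp.fb_wn (h : Hyp f T θ K u ι M) {k : ℕ} {α β : Fin k → ℝ} {b : ℝ}
    (hα : ∀ i, -b ≤ α i) (hβ : ∀ i, β i ≤ b)
    {y : ℂ × ℕ} (hy : y ∈ NZ f T) :
    ((Fb f T α β y).ncard : ℝ) ≤ (wn f y.1.im (2 * Real.pi * b / Real.log T) : ℝ) ^ k := by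
  classical
  have hL := Real.log_pos h.T1
  have hpi := Real.pi_pos
  have hc : 0 < Real.log T / (2 * Real.pi) := div_pos hL (by positivity)
  have hWf : {p : ℂ × ℕ | p ∈ Zi f ∧ |p.1.im - y.1.im| ≤ 2 * Real.pi * b / Real.log T}.Finite :=
    (h.fin (y.1.im - 2 * Real.pi * b / Real.log T) (y.1.im + 2 * Real.pi * b / Real.log T)).subset
      fun p hp => by
        have := abs_le.1 hp.2
        exact ⟨hp.1, by linarith [this.1], by linarith [this.2]⟩
  set W : Finset (ℂ × ℕ) := hWf.toFinset with hW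
  have hWc : W.card = wn f y.1.im (2 * Real.pi * b / Real.log T) := by
    rw [hW, wn, ← Set.ncard_eq_toFinset_card _ hWf]
  have hsub : Fb f T α β y ⊆ (((Fintype.piFinset fun _ : Fin k => W).image
      fun g => (Fin.cons y g : Fin (k + 1) → ℂ × ℕ) : Finset _) : Set _) := by
    rintro x ⟨⟨h1, h2, h3, h4⟩, h5⟩
    rw [Finset.coe_image]
    refine ⟨fun i => x i.succ, ?_, ?_⟩
    · rw [Finset.mem_coe, Fintype.mem_piFinset]
      intro i
      rw [hW, Set.Finite.mem_toFinset]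
      refine ⟨h1 _, ?_⟩
      have h6 := h4 i
      rw [h5] at h6
      have e : b = 2 * Real.pi * b / Real.log T * (Real.log T / (2 * Real.pi)) := by
        field_simp
      rw [abs_le]
      constructor
      · refine le_of_mul_le_mul_right ?_ hc
        rw [neg_mul, ← e]
        linarith [h6.1, hα i]
      · refine le_of_mul_le_mul_right ?_ hc
        rw [← e]
        linarith [h6.2, hβ i]
    · show (Fin.cons y (fun i => x i.succ) : Fin (k + 1) → ℂ × ℕ) = x
      rw [← h5]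
      exact Fin.cons_self_tail x
  have h1 := Set.ncard_le_ncard hsub (Finset.finite_toSet _)
  rw [Set.ncard_coe_finset] at h1
  have h2 : (Fb f T α β y).ncard ≤ W.card ^ k := by
    refine h1.trans (Finset.card_image_le.trans ?_)
    rw [Fintype.card_piFinset]
    simp
  rw [← hWc]
  exact_mod_cast h2

/-- upper bound -/
theorem Hyp.tu_upper' (h : Hyp f T θ K u ι (2 * M)) {v : ℝ}
    (hv : (1 - θ / 4) * Real.log T ≤ Real.log v) (huv : u ≤ v) (hvT : v + 1 ≤ T) {k : ℕ}
    {α β : Fin k → ℝ} {b : ℝ} (hS : Sep θ M α β b) (hbL : 2 * Real.pi * b ≤ Real.log T)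
    {W : ℝ} (hW : ∀ S : Finset (ℂ × ℕ), (∀ y ∈ S, y ∈ NC f (θ / 4) M u T) →
      ∑ y ∈ S, (wn f y.1.im (2 * Real.pi * b / Real.log T) : ℝ) ^ k ≤ W) :
    ((Tu f T α β).ncard : ℝ) ≤ (IV α β).ncard * (NZ f T).ncard +
      (2 * M + 1 : ℝ) ^ k * (K * (v + 2)) +
      (W + K ^ k * (K * (u + 1))) := by
  classical
  have hu1 := h.u1
  have hK0 := h.K0
  obtain ⟨N, hN⟩ : ∃ N : Finset (ℂ × ℕ), N = (h.nz_fin T).toFinset := ⟨_, rfl⟩
  have hN' : ∀ x, x ∈ N ↔ x ∈ NZ f T := fun x => by rw [hN, Set.Finite.mem_toFinset]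
  have hNc : (NZ f T).ncard = N.card := by
    rw [hN, Set.ncard_eq_toFinset_card _ (h.nz_fin T)]
  have hNf : (NC f (θ / 4) M u T).Finite := (h.nz_fin T).subset fun y hy => hy.1
  have hKk : (0 : ℝ) ≤ K ^ k := by positivity
  have hMk : (0 : ℝ) ≤ (2 * M + 1 : ℝ) ^ k := by positivity
  -- the pointwise bound
  have hpt : ∀ y ∈ N, ((Fb f T α β y).ncard : ℝ) ≤ ((IV α β).ncard : ℝ) +
      (if y.1.im ≤ v + 1 then (2 * M + 1 : ℝ) ^ k else 0) +
      ((if y ∈ NC f (θ / 4) M u T then (wn f y.1.im (2 * Real.pi * b / Real.log T) : ℝ) ^ k else 0) +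
        (if y.1.im ≤ u then K ^ k else 0)) := by
    intro y hy
    have hyN := (hN' y).1 hy
    have hJ0 : (0 : ℝ) ≤ (IV α β).ncard := Nat.cast_nonneg _
    have i1 : (0 : ℝ) ≤ (if y.1.im ≤ v + 1 then (2 * M + 1 : ℝ) ^ k else 0) := by
      split_ifs
      · exact hMk
      · exact le_rfl
    have i2 : (0 : ℝ) ≤ (if y ∈ NC f (θ / 4) M u T then
        (wn f y.1.im (2 * Real.pi * b / Real.log T) : ℝ) ^ k else 0) := by
      split_ifs
      · positivity
      · exact le_rfl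
    have i3 : (0 : ℝ) ≤ (if y.1.im ≤ u then K ^ k else 0) := by
      split_ifs
      · exact hKk
      · exact le_rfl
    by_cases h1 : y.1.im ≤ u
    · have h2 := h.fb_unit hbL hS.low hS.upp hyN
      have h3 : (if y.1.im ≤ u then K ^ k else 0) = K ^ k := if_pos h1
      linarith
    push Not at h1
    by_cases h2 : y ∈ NC f (θ / 4) M u T
    · have h2' := h.fb_wn hS.low hS.upp hyN
      have h3 : (if y ∈ NC f (θ / 4) M u T then
        (wn f y.1.im (2 * Real.pi * b / Real.log T) : ℝ) ^ k else 0) =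
        (wn f y.1.im (2 * Real.pi * b / Real.log T) : ℝ) ^ k := if_pos h2
      linarith
    have hex : ∃ p, Cen f (θ / 4) M u y.1 p := by
      by_contra hcon
      exact h2 ⟨hyN, h1, hcon⟩
    obtain ⟨p, hc⟩ := hex
    by_cases h3 : y.1.im ≤ v + 1
    · have h5 : ((Fb f T α β y).ncard : ℝ) ≤ (2 * M + 1 : ℝ) ^ k := by
        exact_mod_cast h.fb_low hS hyN hc
      have h6 : (if y.1.im ≤ v + 1 then (2 * M + 1 : ℝ) ^ k else 0) = (2 * M + 1 : ℝ) ^ k :=
        if_pos h3
      linarith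
    · push Not at h3
      have h7 := h.short' hc.low hc.ch (j := M) (by omega) (by omega)
      rw [hc.ctr] at h7
      have h4 := h.fb_le hv huv hS hyN (hc.mono (v' := v) (by linarith))
      have h5 : ((Fb f T α β y).ncard : ℝ) ≤ (IV α β).ncard := by exact_mod_cast h4
      linarith
  rw [h.tu_sum α β N hN', Nat.cast_sum]
  have hsum := Finset.sum_le_sum hpt
  rw [Finset.sum_add_distrib, Finset.sum_add_distrib, Finset.sum_add_distrib] at hsum
  have s1 : ∑ y ∈ N, ((IV α β).ncard : ℝ) = (IV α β).ncard * (NZ f T).ncard := by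
    rw [Finset.sum_const, nsmul_eq_mul, hNc]; ring
  have hcount : ∀ (Q : ℂ × ℕ → Prop) (c B : ℝ) (S : Set (ℂ × ℕ)), 0 ≤ c → S.Finite →
      (∀ y ∈ N, Q y → y ∈ S) → (S.ncard : ℝ) ≤ B →
      ∑ y ∈ N, (if Q y then c else 0) ≤ c * B := by
    intro Q c B S hc hS hQ hB
    rw [← Finset.sum_filter, Finset.sum_const, nsmul_eq_mul]
    have h1 : (N.filter Q).card ≤ S.ncard := by
      rw [← Set.ncard_coe_finset]
      refine Set.ncard_le_ncard ?_ hS
      intro y hy
      rw [Finset.mem_coe, Finset.mem_filter] at hy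
      exact hQ y hy.1 hy.2
    have h2 : ((N.filter Q).card : ℝ) ≤ B := le_trans (by exact_mod_cast h1) hB
    calc ((N.filter Q).card : ℝ) * c ≤ B * c := mul_le_mul_of_nonneg_right h2 hc
      _ = c * B := by ring
  have l1 := h.low_le (X := v + 1) (by linarith) hvT
  have s2 := hcount (fun y => y.1.im ≤ v + 1) ((2 * M + 1 : ℝ) ^ k) (K * (v + 2)) (NZ f (v + 1))
    hMk (h.nz_fin _) (fun y hy hq => ⟨((hN' y).1 hy).1, ((hN' y).1 hy).2.1, hq⟩)
    (by have e : v + 1 + 1 = v + 2 := by ring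
        rw [e] at l1
        exact l1)
  have s3 : ∑ y ∈ N, (if y ∈ NC f (θ / 4) M u T then
      (wn f y.1.im (2 * Real.pi * b / Real.log T) : ℝ) ^ k else 0) ≤ W := by
    rw [← Finset.sum_filter]
    exact hW _ fun y hy => (Finset.mem_filter.1 hy).2
  have s4 := hcount (fun y => y.1.im ≤ u) (K ^ k) (K * (u + 1)) (NZ f u) hKk (h.nz_fin u)
    (fun y hy hq => ⟨((hN' y).1 hy).1, ((hN' y).1 hy).2.1, hq⟩)
    (h.low_le (by linarith) (by linarith))
  rw [s1] at hsum
  linarith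

end Run7.h422.PP
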