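import Pool.Agent.Run7.h422.PP.M3

/-!
# Tuples of zeros of a heat flow: the lattice law in the full range of times
-/

set_option autoImplicit false

namespace Run7.h422.PP

open Complex Filter Topology Set

variable {X : ℝ → ℂ → ℂ}

lemma pow_exp_small (k : ℕ) {c : ℝ} (hc : 0 < c) {e : ℝ} (he : 0 < e) :
    ∀ᶠ x : ℝ in atTop, x ^ k * Real.exp (-(c * x)) ≤ e := by
  have h1 : Tendsto (fun x : ℝ => x ^ k * Real.exp (-x)) atTop (𝓝 0) :=
    Real.tendsto_pow_mul_exp_neg_atTop_nhds_zero k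
  have h2 : Tendsto (fun x : ℝ => c * x) atTop atTop := tendsto_id.const_mul_atTop hc
  have h3 := h1.comp h2
  have hck : 0 < c ^ k := by positivity
  filter_upwards [h3.eventually (eventually_le_nhds (show (0 : ℝ) < e * c ^ k by positivity))] with x hx
  simp only [Function.comp] at hx
  rw [mul_pow] at hx
  have h4 : c ^ k * (x ^ k * Real.exp (-(c * x))) ≤ c ^ k * e := by linarith
  exact le_of_mul_le_mul_left h4 hck

/-- short times -/
theorem Inp.tuples_small (hI : Inp X) (hM : Mom X) {k : ℕ} {α β : Fin k → ℝ} {θ b : ℝ} {M : ℕ}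
    (hθ : 0 < θ) (hθ1 : θ ≤ 1) (hS : Sep θ M α β b) : ∃ c0 : ℝ, 0 < c0 ∧ ∀ τ : ℝ → ℝ,
    (∀ᶠ T in atTop, 0 < τ T) → (∀ᶠ T in atTop, τ T * Real.log T ≤ c0) →
    Tendsto (fun T => τ T * Real.log T ^ 2) atTop atTop → ∀ η : ℝ, 0 < η →
    ∀ᶠ T in atTop, ((IV α β).ncard : ℝ) *
        (((NZ (X (τ T)) T).ncard : ℝ) - η * (T * Real.log T)) ≤
        ((Tu (X (τ T)) T α β).ncard : ℝ) ∧
      ((Tu (X (τ T)) T α β).ncard : ℝ) ≤
        ((IV α β).ncard : ℝ) * ((NZ (X (τ T)) T).ncard : ℝ) + η * (T * Real.log T) := by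
  have hpi := Real.pi_pos
  obtain ⟨c0, a0, C1, c1, U1, hc0, ha0, hC1, hc1, hU1, hall⟩ :=
    hM.all hI k (2 * Real.pi * |b|) (by positivity)
  refine ⟨c0, hc0, fun τ h0 hτA hτ η hη => ?_⟩
  obtain ⟨c, C, K, hc, hC, hK, hyp⟩ := hI.hyp hθ hθ1 hc0 (2 * M)
  set Q : ℝ := (2 * M + 1 : ℝ) ^ k with hQ
  have hQ1 : 1 ≤ Q := one_le_pow₀ (by have : (0 : ℝ) ≤ M := Nat.cast_nonneg _
                                      linarith)
  obtain ⟨n, hn, hn1⟩ : ∃ n : ℕ, 8 * Q * K / η < 2 ^ n ∧ 1 ≤ n := by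
    obtain ⟨n, hn⟩ := pow_two_gt (8 * Q * K / η)
    exact ⟨n + 1, hn.trans (by rw [pow_succ]; have : (0 : ℝ) < 2 ^ n := by positivity
                               linarith), by omega⟩
  obtain ⟨T3, hT3, hyp⟩ := hyp n
  have h2n : (0 : ℝ) < 2 ^ n := by positivity
  have h1n : (1 : ℝ) ≤ 2 ^ n := one_le_pow₀ (by norm_num)
  have hM1 : (1 : ℝ) ≤ M := by exact_mod_cast hS.M1
  have hLL : Tendsto (fun T : ℝ => Real.log T) atTop atTop := Real.tendsto_log_atTop
  have hKk : 0 < K ^ k := by positivity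
  set E : ℝ := K ^ k * (4 * K) + 1 with hE
  have hE0 : 0 < E := by positivity
  have hx1 := hτ.eventually (pow_exp_small k hc (e := η / (32 * (C1 * (2 * M * C)))) (by positivity))
  filter_upwards [h0, hτA, hτ.eventually_ge_atTop a0, log_block n, eventually_ge_atTop T3,
    eventually_ge_atTop (32 * Q * K / η), eventually_gt_atTop (1 : ℝ),
    hx1, exp_small hτ hc1 (e := η / (32 * C1)) (by positivity),
    eventually_ge_atTop ((2 * 2 ^ n : ℝ) ^ 2), logpow_small (k + 1) (e := η / (8 * E)) (by positivity),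
    hLL.eventually_ge_atTop (2 * Real.pi * b), eventually_ge_atTop (2 * 2 ^ n + 8 : ℝ),
    exp_small hτ hc (e := η / (16 * (2 * M * C))) (by positivity),
    logpow_small k (e := η / (32 * (C1 * (c0 ^ k * K)))) (by positivity),
    eventually_ge_atTop (U1 ^ 2), hLL.eventually_gt_atTop (Real.exp 1)]
    with T t1 t2 t3 t4 t5 t6 t7 t8 t9 t10 t11 t12 t13 t14 t15 t16 t17
  have hT : 0 < T := by linarith
  have hL : 0 < Real.log T := Real.log_pos t7
  have hL1 : 1 < Real.log T := by
    have := Real.add_one_le_exp 1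
    linarith
  obtain ⟨-, hv, hh⟩ := hyp T (τ T) t5 t1 t2
  have hTL : 0 < T * Real.log T := by positivity
  -- the square root
  have hsq : Real.sqrt T * Real.sqrt T = T := Real.mul_self_sqrt hT.le
  have hs1 : 2 * 2 ^ n ≤ Real.sqrt T := Real.le_sqrt_of_sq_le t10
  have hs2 : U1 ≤ Real.sqrt T := Real.le_sqrt_of_sq_le t16
  have hs0 : 0 < Real.sqrt T := by linarith
  have hs3 : 1 ≤ Real.sqrt T := by linarith
  have hsT : Real.sqrt T ≤ T := by nlinarith
  obtain ⟨j, hk1, hk2⟩ := exists_nat_pow_near (x := Real.sqrt T) (y := (2 : ℝ)) (by linarith)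
    (by norm_num)
  have h2k : (0 : ℝ) < 2 ^ j := by positivity
  have hVl : Real.sqrt T ≤ T / 2 ^ j := by
    rw [le_div_iff₀ h2k]
    calc Real.sqrt T * 2 ^ j ≤ Real.sqrt T * Real.sqrt T := mul_le_mul_of_nonneg_left hk1 hs0.le
      _ = T := hsq
  have hVu : T / 2 ^ j ≤ 2 * Real.sqrt T := by
    rw [div_le_iff₀ h2k]
    rw [pow_succ] at hk2
    have h1 := mul_le_mul_of_nonneg_left hk2.le hs0.le
    rw [hsq] at h1
    linarith
  have hlogk : Real.log T / 2 ≤ Real.log (T / 2 ^ j) := by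
    have h1 : Real.log (Real.sqrt T) = Real.log T / 2 := Real.log_sqrt hT.le
    rw [← h1]
    exact Real.log_le_log hs0 hVl
  have hkn : T / 2 ^ j ≤ T / 2 ^ n := by
    refine hVu.trans ?_
    rw [le_div_iff₀ h2n]
    calc 2 * Real.sqrt T * 2 ^ n = Real.sqrt T * (2 * 2 ^ n) := by ring
      _ ≤ Real.sqrt T * Real.sqrt T := mul_le_mul_of_nonneg_left hs1 hs0.le
      _ = T := hsq
  have h := hh j (by linarith) hlogk
  obtain ⟨x, hx⟩ : ∃ x : ℝ, x = τ T * Real.log T ^ 2 := ⟨_, rfl⟩
  rw [← hx] at t3 t8 t9 t14 h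
  have hx0 : 0 < x := by rw [hx]; positivity
  have hxL : x ≤ c0 * Real.log T := by
    rw [hx]
    calc τ T * Real.log T ^ 2 = τ T * Real.log T * Real.log T := by ring
      _ ≤ _ := mul_le_mul_of_nonneg_right t2 hL.le
  set ex : ℝ := Real.exp (-(c * x)) with hex
  have hexp0 : 0 < ex := Real.exp_pos _
  -- the tuples with an exceptional zero
  obtain ⟨W, hWd⟩ : ∃ W : ℝ, W = C1 * (x ^ k * (K * Real.log T + (2 * M : ℕ) *
      (C * (T * Real.log T) * ex))) + C1 * (T * Real.log T) * Real.exp (-(c1 * x)) := ⟨_, rfl⟩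
  have hNf : (NC (X (τ T)) (θ / 4) M (T / 2 ^ j) T).Finite := (h.nz_fin T).subset fun y hy => hy.1
  have hnc := h.nc_le hS.M1
  have hW : ∀ S : Finset (ℂ × ℕ), (∀ y ∈ S, y ∈ NC (X (τ T)) (θ / 4) M (T / 2 ^ j) T) →
      ∑ y ∈ S, (wn (X (τ T)) y.1.im (2 * Real.pi * b / Real.log T) : ℝ) ^ k ≤ W := by
    intro S hSs
    have h1 := hall T (τ T) (by rw [← hx]; exact t3) t2 j S (hs2.trans hVl) hlogk (fun y hy => by
      have := hSs y hy
      exact ⟨this.1.1, this.2.1, this.1.2.2⟩)
    have h2 : ∑ y ∈ S, (wn (X (τ T)) y.1.im (2 * Real.pi * b / Real.log T) : ℝ) ^ k ≤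
        ∑ y ∈ S, (wn (X (τ T)) y.1.im (2 * Real.pi * |b| / Real.log T) : ℝ) ^ k := by
      refine Finset.sum_le_sum fun y _ => pow_le_pow_left₀ (Nat.cast_nonneg _) ?_ k
      have : wn (X (τ T)) y.1.im (2 * Real.pi * b / Real.log T) ≤
          wn (X (τ T)) y.1.im (2 * Real.pi * |b| / Real.log T) :=
        wn_mono hI t1.le (div_le_div_of_nonneg_right
          (mul_le_mul_of_nonneg_left (le_abs_self b) (by positivity)) hL.le)
      exact_mod_cast this
    have h3 : (S.card : ℝ) ≤ K * Real.log T + (2 * M : ℕ) * (C * (T * Real.log T) * ex) := by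
      refine le_trans ?_ hnc
      have : S.card ≤ (NC (X (τ T)) (θ / 4) M (T / 2 ^ j) T).ncard := by
        rw [← Set.ncard_coe_finset]
        exact Set.ncard_le_ncard (fun y hy => hSs y hy) hNf
      exact_mod_cast this
    rw [← hx] at h1
    refine h2.trans (h1.trans ?_)
    rw [hWd]
    have h4 : C1 * (x ^ k * S.card) ≤ C1 * (x ^ k * (K * Real.log T + (2 * M : ℕ) *
        (C * (T * Real.log T) * ex))) :=
      mul_le_mul_of_nonneg_left (mul_le_mul_of_nonneg_left h3 (by positivity)) hC1.le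
    linarith
  -- the first error
  have e1 : Q * (K * Real.log T * (T / 2 ^ n + 2)) ≤ η / 4 * (T * Real.log T) := by
    have h1 : Q * K / 2 ^ n ≤ η / 8 := by
      rw [div_lt_iff₀ hη] at hn
      rw [div_le_iff₀ h2n]
      linarith
    have h2 : Q * K / 2 ^ n * (T * Real.log T) ≤ η / 8 * (T * Real.log T) :=
      mul_le_mul_of_nonneg_right h1 hTL.le
    have h3 : 2 * (Q * K) ≤ η / 8 * T := by
      rw [div_le_iff₀ hη] at t6
      have : 0 < Q * K := by positivity
      linarith
    have h4 : 2 * (Q * K) * Real.log T ≤ η / 8 * T * Real.log T :=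
      mul_le_mul_of_nonneg_right h3 hL.le
    calc Q * (K * Real.log T * (T / 2 ^ n + 2)) =
        Q * K / 2 ^ n * (T * Real.log T) + 2 * (Q * K) * Real.log T := by ring
      _ ≤ _ := by linarith
  -- the second error
  have hu : T / 2 ^ j + 1 ≤ 3 * Real.sqrt T := by linarith
  have hsT2 : E * Real.log T ^ (k + 1) * Real.sqrt T ≤ η / 8 * T := by
    have h3 := mul_le_mul_of_nonneg_left t11 hE0.le
    have h4 : E * (η / (8 * E) * Real.sqrt T) = η / 8 * Real.sqrt T := by field_simp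
    rw [h4] at h3
    calc E * Real.log T ^ (k + 1) * Real.sqrt T ≤ η / 8 * Real.sqrt T * Real.sqrt T :=
          mul_le_mul_of_nonneg_right h3 hs0.le
      _ = η / 8 * T := by rw [mul_assoc, hsq]
  have w1 : C1 * (x ^ k * (K * Real.log T)) ≤ η / 32 * (T * Real.log T) := by
    have h3 : x ^ k ≤ c0 ^ k * Real.log T ^ k := by
      rw [← mul_pow]
      exact pow_le_pow_left₀ hx0.le hxL k
    have h4 : C1 * (c0 ^ k * K) * Real.log T ^ k ≤ η / 32 * Real.sqrt T := by
      have h5 := mul_le_mul_of_nonneg_left t15 (show 0 ≤ C1 * (c0 ^ k * K) by positivity)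
      have h6 : C1 * (c0 ^ k * K) * (η / (32 * (C1 * (c0 ^ k * K))) * Real.sqrt T) =
          η / 32 * Real.sqrt T := by field_simp
      rwa [h6] at h5
    calc C1 * (x ^ k * (K * Real.log T)) ≤ C1 * ((c0 ^ k * Real.log T ^ k) * (K * Real.log T)) := by
          refine mul_le_mul_of_nonneg_left (mul_le_mul_of_nonneg_right h3 (by positivity)) hC1.le
      _ = (C1 * (c0 ^ k * K) * Real.log T ^ k) * Real.log T := by ring
      _ ≤ (η / 32 * Real.sqrt T) * Real.log T := mul_le_mul_of_nonneg_right h4 hL.le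
      _ ≤ (η / 32 * T) * Real.log T := by
          refine mul_le_mul_of_nonneg_right (mul_le_mul_of_nonneg_left hsT (by positivity)) hL.le
      _ = _ := by ring
  have w2 : C1 * (x ^ k * ((2 * M : ℕ) * (C * (T * Real.log T) * ex))) ≤ η / 32 * (T * Real.log T) := by
    have h3 : C1 * (x ^ k * ((2 * M : ℕ) * (C * (T * Real.log T) * ex))) =
        (C1 * (2 * M * C)) * (x ^ k * ex) * (T * Real.log T) := by
      push_cast
      ring
    rw [h3]
    refine mul_le_mul_of_nonneg_right ?_ hTL.le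
    have h4 := mul_le_mul_of_nonneg_left t8 (show 0 ≤ C1 * (2 * M * C) by positivity)
    have h5 : C1 * (2 * M * C) * (η / (32 * (C1 * (2 * M * C)))) = η / 32 := by field_simp
    rwa [h5] at h4
  have w3 : C1 * (T * Real.log T) * Real.exp (-(c1 * x)) ≤ η / 32 * (T * Real.log T) := by
    have h4 := mul_le_mul_of_nonneg_left t9 hC1.le
    have h5 : C1 * (η / (32 * C1)) = η / 32 := by field_simp
    rw [h5] at h4
    calc C1 * (T * Real.log T) * Real.exp (-(c1 * x)) =
        C1 * Real.exp (-(c1 * x)) * (T * Real.log T) := by ring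
      _ ≤ _ := mul_le_mul_of_nonneg_right h4 hTL.le
  have hWs : W ≤ η / 8 * (T * Real.log T) := by
    have e9 : 0 < η * (T * Real.log T) := by positivity
    rw [hWd, mul_add, mul_add]
    linarith
  have e2 : (K * Real.log T) ^ k * (K * Real.log T * (T / 2 ^ j + 1)) ≤ η / 8 * (T * Real.log T) := by
    have h5 : K * Real.log T * (T / 2 ^ j + 1) ≤ K * Real.log T * (3 * Real.sqrt T) :=
      mul_le_mul_of_nonneg_left hu (by positivity)
    calc (K * Real.log T) ^ k * (K * Real.log T * (T / 2 ^ j + 1)) ≤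
        (K * Real.log T) ^ k * (K * Real.log T * (3 * Real.sqrt T)) :=
          mul_le_mul_of_nonneg_left h5 (by positivity)
      _ = (K ^ k * (3 * K)) * Real.log T ^ (k + 1) * Real.sqrt T := by
          rw [mul_pow, pow_succ (Real.log T) k]
          ring
      _ ≤ E * Real.log T ^ (k + 1) * Real.sqrt T := by
          apply mul_le_mul_of_nonneg_right _ hs0.le
          apply mul_le_mul_of_nonneg_right _ (by positivity)
          rw [hE]
          have q1 : 0 ≤ K ^ k * K := by positivity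
          linarith
      _ ≤ η / 8 * T := hsT2
      _ = η / 8 * T * 1 := by ring
      _ ≤ η / 8 * T * Real.log T := mul_le_mul_of_nonneg_left hL1.le (by positivity)
      _ = _ := by ring
  have hvT : T / 2 ^ n + 1 ≤ T := by
    have h3 : (2 : ℝ) ≤ 2 ^ n := by
      calc (2 : ℝ) = 2 ^ 1 := by norm_num
        _ ≤ 2 ^ n := pow_le_pow_right₀ (by norm_num) hn1
    have h4 : T / 2 ^ n ≤ T / 2 := div_le_div_of_nonneg_left hT.le (by norm_num) h3
    linarith
  -- the errors in the lower bound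
  have e5 : K * Real.log T * (T / 2 ^ n + 2) ≤ η / 4 * (T * Real.log T) := by
    have h3 : 0 ≤ K * Real.log T * (T / 2 ^ n + 2) := by positivity
    have h4 : 1 * (K * Real.log T * (T / 2 ^ n + 2)) ≤ Q * (K * Real.log T * (T / 2 ^ n + 2)) :=
      mul_le_mul_of_nonneg_right hQ1 h3
    linarith
  have e6 : K * Real.log T ≤ η / 8 * (T * Real.log T) := by
    have h3 : K * Real.log T * 2 ≤ K * Real.log T * (T / 2 ^ n + 2) := by
      apply mul_le_mul_of_nonneg_left _ (by positivity)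
      have : 0 < T / 2 ^ n := by positivity
      linarith
    linarith
  have e7 : ((2 * M : ℕ) : ℝ) * (C * (T * Real.log T) * ex) ≤ η / 16 * (T * Real.log T) := by
    have h4 : ((2 * M : ℕ) : ℝ) * (C * (T * Real.log T) * ex) =
        (2 * M * C) * ex * (T * Real.log T) := by
      push_cast
      ring
    rw [h4]
    apply mul_le_mul_of_nonneg_right _ hTL.le
    have h5 := mul_le_mul_of_nonneg_left t14 (show 0 ≤ 2 * M * C by positivity)
    have h6 : 2 * M * C * (η / (16 * (2 * M * C))) = η / 16 := by field_simp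
    rwa [h6] at h5
  have e8 : 0 < η * (T * Real.log T) := by positivity
  constructor
  · refine le_trans (mul_le_mul_of_nonneg_left ?_ (Nat.cast_nonneg _)) (h.tu_lower hv hkn hvT hS)
    linarith
  · refine (h.tu_upper' hv hkn hvT hS t12 hW).trans ?_
    have e3 : 0 < η * (T * Real.log T) := by positivity
    linarith

end Run7.h422.PP
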