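import Pool.Agent.Run7.h422.PP.M5
import Pool.Agent.Run7.h422.PP.M1
import Pool.Agent.Run7.h422.PP.FinK

/-!
# The lattice law for the zeros of the de Bruijn-Newman family, all times above the threshold
-/

set_option autoImplicit false

namespace Run7.h422.PP

open Complex Filter Topology Set
open Pool.Agent.H24R2.JP (Om)
open Pool.Agent.H986R2.DBN (XT Ht)
open Pool.Agent.R838.ST (Tuples ZetaZ stb_xi unit0_xi)

/-- the moments near small sets of zeros -/
theorem mom_xi : Mom XT := by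
  intro k H hH
  obtain ⟨c0, a0, C, c, U0, hc0, ha0, hC, hc, hU0, h⟩ := momB stb_xi unit0_xi
    Pool.Agent.W333.SDNGN.ngn Pool.Agent.W186.SD.HH.aw Pool.Agent.W186.SD.HH.cnt
    Pool.Agent.W337.SD.cov k (H / 2) (by positivity)
  refine ⟨c0, 2 * a0, C, c / 2, U0, hc0, by linarith, hC, by positivity, hU0, ?_⟩
  intro U τ S hU ha hτ hS
  have hOm : Om U = Real.log U / 2 := rfl
  have hU1 : 1 < U := by linarith
  have hL : 0 < Real.log U := Real.log_pos hU1
  have e1 : 2 * τ * Om U ^ 2 = τ * Real.log U ^ 2 / 2 := by rw [hOm]; ring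
  have e2 : 2 * τ * Om U = τ * Real.log U := by rw [hOm]; ring
  have e3 : H / 2 / Om U = H / Real.log U := by rw [hOm]; field_simp
  have h1 := h U τ S hU (by rw [e1]; linarith) (by rw [e2]; exact hτ) hS
  rw [e1, e3] at h1
  have hx : 0 < τ * Real.log U ^ 2 := by linarith
  have h2 : ∑ y ∈ S, (wn (XT τ) y.1.im (H / Real.log U) : ℝ) ^ k =
      ∑ y ∈ S, (Pool.Agent.R838.ST.nn (XT τ) y.1.im (H / Real.log U) : ℝ) ^ k := rfl
  rw [h2]
  refine h1.trans (add_le_add ?_ ?_)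
  · refine mul_le_mul_of_nonneg_left (mul_le_mul_of_nonneg_right ?_ (Nat.cast_nonneg _)) hC.le
    exact pow_le_pow_left₀ (by positivity) (by linarith) k
  · have e4 : c * (τ * Real.log U ^ 2 / 2) = c / 2 * (τ * Real.log U ^ 2) := by ring
    rw [e4]
    refine mul_le_mul_of_nonneg_right (mul_le_mul_of_nonneg_left ?_ hC.le) (Real.exp_pos _).le
    refine mul_le_mul_of_nonneg_left ?_ (by linarith)
    rw [hOm]
    linarith

/-- the lattice law for tuples of zeros of `H_t` -/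
theorem ht_latticeKS {t : ℝ → ℝ} {A : ℝ} (hA : 0 < A)
    (hA' : ∀ᶠ T in atTop, t T * Real.log T ≤ A)
    (ht2 : Tendsto (fun T => t T * Real.log T ^ 2) atTop atTop)
    {k : ℕ} {α β : Fin k → ℝ} (hα : ∀ i, ∀ a : ℤ, α i ≠ a) (hβ : ∀ i, ∀ a : ℤ, β i ≠ a) :
    Tendsto (fun T => TH (t T) T α β / NH (t T) T) atTop (𝓝 ((IV α β).ncard : ℝ)) := by
  obtain ⟨h1, h2, h3⟩ := quarter hA hA' ht2
  have h5 := inp_xi.lattice_kS mom_xi hA h1 h2 h3 hα hβ
  refine h5.congr' ?_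
  filter_upwards [h1] with T t1
  have t1' : 0 ≤ t T := by linarith
  have e : (Tuples (Zi (Ht (t T))) (fun z => z.re / 2) T α β).ncard =
      (Tu (XT (t T / 4)) T α β).ncard := Pool.Agent.R838.ST.ht_ct t1' T α β
  unfold TH NH
  rw [e, ht_num t1']

/-- integers which are not zero in an interval which begins at `-1/2` -/
lemma iv_one {α β : ℝ} (h0 : -1 < α) (hα : α < 0 ∨ ∀ k : ℕ, α ≠ k) (hαβ : α ≤ β) (hβ0 : 0 ≤ β) :
    ((IV (fun _ : Fin 1 => α) (fun _ : Fin 1 => β)).ncard : ℝ) = (⌊β⌋₊ : ℝ) - ⌊α⌋₊ := by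
  have h1 : IV (fun _ : Fin 1 => α) (fun _ : Fin 1 => β) =
      (fun (n : ℕ) (_ : Fin 1) => (n : ℤ)) '' (Finset.Ioc ⌊α⌋₊ ⌊β⌋₊ : Set ℕ) := by
    ext a
    constructor
    · rintro ⟨-, h⟩
      obtain ⟨h2, h3, h4⟩ := h 0
      have h5 : 0 ≤ a 0 := by
        by_contra hcon
        push Not at hcon
        have : (a 0 : ℝ) ≤ -1 := by exact_mod_cast Int.le_sub_one_of_lt hcon
        linarith
      obtain ⟨n, hn⟩ := Int.eq_ofNat_of_zero_le h5
      refine ⟨n, ?_, ?_⟩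
      · rw [Finset.coe_Ioc, Set.mem_Ioc]
        have hn0 : n ≠ 0 := by
          rintro rfl
          exact h2 hn
        rw [hn] at h3 h4
        have h3' : α ≤ (n : ℝ) := by exact_mod_cast h3
        have h4' : (n : ℝ) ≤ β := by exact_mod_cast h4
        constructor
        · rcases hα with h6 | h6
          · rw [Nat.floor_of_nonpos h6.le]
            omega
          · have h7 : α < n := lt_of_le_of_ne h3' (h6 n)
            rcases le_or_gt α 0 with h8 | h8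
            · rw [Nat.floor_of_nonpos h8]
              omega
            · exact (Nat.floor_lt h8.le).2 h7
        · exact Nat.le_floor h4'
      · funext i
        fin_cases i
        exact hn.symm
    · rintro ⟨n, hn, rfl⟩
      rw [Finset.coe_Ioc, Set.mem_Ioc] at hn
      refine ⟨fun i j _ => Subsingleton.elim _ _, fun i => ⟨?_, ?_, ?_⟩⟩
      · have : 0 < n := by omega
        show ((n : ℕ) : ℤ) ≠ 0
        exact_mod_cast this.ne'
      · have h2 : α < n := Nat.lt_of_floor_lt hn.1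
        exact_mod_cast h2.le
      · have h2 : (n : ℝ) ≤ β := (Nat.le_floor_iff hβ0).1 hn.2
        exact_mod_cast h2
  rw [h1, Set.ncard_image_of_injective]
  · rw [Set.ncard_coe_finset, Nat.card_Ioc, Nat.cast_sub (Nat.floor_le_floor hαβ)]
  · intro m n hmn
    have : ((m : ℕ) : ℤ) = n := congrFun hmn 0
    exact_mod_cast this

/-- tuples with two elements are pairs, all intervals -/
lemma tup_le (Z : Set (ℂ × ℕ)) (h : ℂ → ℝ) {T α β : ℝ} (hf : (NG Z h T).Finite) :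
    (PG Z h T fun D => max 0 α < D ∧ D ≤ β).ncard ≤
      (Tuples Z h T (fun _ : Fin 1 => α) (fun _ : Fin 1 => β)).ncard := by
  refine Set.ncard_le_ncard_of_injOn (fun y => ![y.2, y.1]) ?_ ?_ ?_
  · rintro y ⟨⟨h1, h2⟩, ⟨h3, h4⟩, h5⟩
    refine ⟨?_, ?_, ?_, ?_⟩
    · intro i
      fin_cases i
      · exact h3
      · exact h1
    · intro i j hij
      have hne : y.2 ≠ y.1 := by
        intro h6
        rw [h6, sub_self, zero_mul] at h5
        exact absurd h5.1 (not_lt.2 (le_max_left _ _))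
      fin_cases i <;> fin_cases j
      · rfl
      · exact absurd hij hne
      · exact absurd hij.symm hne
      · rfl
    · intro i
      fin_cases i
      · exact h4
      · exact h2
    · intro i
      fin_cases i
      exact ⟨(le_max_right 0 α).trans h5.1.le, h5.2⟩
  · intro x _ y _ hxy
    have h1 := congrFun hxy 0
    have h2 := congrFun hxy 1
    exact Prod.ext h2 h1
  · refine Set.Finite.of_injOn (f := fun x : Fin 2 → ℂ × ℕ => (x 0, x 1)) ?_ ?_ (hf.prod hf)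
    · rintro x ⟨h1, h2, h3, h4⟩
      exact ⟨⟨h1 0, h3 0⟩, ⟨h1 1, h3 1⟩⟩
    · intro x _ y _ hxy
      have h1 := congrArg Prod.fst hxy
      have h2 := congrArg Prod.snd hxy
      funext i
      fin_cases i
      · exact h1
      · exact h2

/-- the lattice law for pairs of zeros of `H_t` -/
theorem ht_latticeS {t : ℝ → ℝ} {A : ℝ} (hA : 0 < A)
    (hA' : ∀ᶠ T in atTop, t T * Real.log T ≤ A)
    (ht2 : Tendsto (fun T => t T * Real.log T ^ 2) atTop atTop)
    {α β : ℝ} (hα0 : 0 ≤ α) (hαβ : α < β) (hα : α = 0 ∨ ∀ k : ℕ, α ≠ k) (hβ : ∀ k : ℕ, β ≠ k) :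
    Tendsto (fun T => PS (t T) T α β / NH (t T) T) atTop (𝓝 ((⌊β⌋₊ : ℝ) - ⌊α⌋₊)) := by
  obtain ⟨q1, q2, q3⟩ := quarter hA hA' ht2
  have hβ0 : 0 < β := by linarith
  have hβz : ∀ a : ℤ, β ≠ a := by
    intro a ha
    have h0 : (0 : ℝ) < a := by rw [← ha]; exact hβ0
    have h0' : (0 : ℤ) < a := by exact_mod_cast h0
    obtain ⟨n, hn⟩ := Int.eq_ofNat_of_zero_le h0'.le
    refine hβ n ?_
    rw [ha, hn]
    rfl
  -- a smaller left end
  obtain ⟨α1, h1, h2, h3, h4, h5⟩ : ∃ α1 : ℝ, -1 < α1 ∧ (α1 < 0 ∨ ∀ k : ℕ, α1 ≠ k) ∧ (∀ a : ℤ, α1 ≠ a) ∧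
      α1 ≤ α ∧ (⌊α1⌋₊ : ℝ) = ⌊α⌋₊ := by
    rcases hα with h | h
    · refine ⟨-(1 / 2), by norm_num, Or.inl (by norm_num), ?_, by rw [h]; norm_num, ?_⟩
      · intro a ha
        have h6 : (-1 : ℝ) < a := by rw [← ha]; norm_num
        have h7 : (a : ℝ) < 0 := by rw [← ha]; norm_num
        have h6' : (-1 : ℤ) < a := by exact_mod_cast h6
        have h7' : a < 0 := by exact_mod_cast h7
        omega
      · rw [h, Nat.floor_of_nonpos (by norm_num), Nat.floor_of_nonpos le_rfl]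
    · refine ⟨α, by linarith, Or.inr h, ?_, le_rfl, rfl⟩
      intro a ha
      have h0 : (0 : ℝ) ≤ a := by rw [← ha]; exact hα0
      have h0' : (0 : ℤ) ≤ a := by exact_mod_cast h0
      obtain ⟨n, hn⟩ := Int.eq_ofNat_of_zero_le h0'
      refine h n ?_
      rw [ha, hn]
      rfl
  -- a larger left end
  obtain ⟨α2, k1, k2, k3, k4, k5⟩ : ∃ α2 : ℝ, α < α2 ∧ α2 < β ∧ (∀ k : ℕ, α2 ≠ k) ∧ 0 < α2 ∧
      (⌊α2⌋₊ : ℝ) = ⌊α⌋₊ := by
    have hfl : (⌊α⌋₊ : ℝ) ≤ α := Nat.floor_le hα0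
    have hfl1 : α < ⌊α⌋₊ + 1 := Nat.lt_floor_add_one α
    obtain ⟨α2, u1, u2⟩ := exists_between (lt_min hαβ hfl1)
    rw [lt_min_iff] at u2
    refine ⟨α2, u1, u2.1, ?_, by linarith, ?_⟩
    · rintro n rfl
      have v1 : (⌊α⌋₊ : ℝ) < n := by linarith
      have v2 : (n : ℝ) < (⌊α⌋₊ : ℕ) + 1 := u2.2
      have v1' : ⌊α⌋₊ < n := by exact_mod_cast v1
      have v2' : n < ⌊α⌋₊ + 1 := by exact_mod_cast v2
      omega
    · have : ⌊α2⌋₊ = ⌊α⌋₊ := by
        rw [Nat.floor_eq_iff (by linarith)]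
        exact ⟨by linarith, u2.2⟩
      rw [this]
  have k3' : ∀ a : ℤ, α2 ≠ a := by
    intro a ha
    have h0 : (0 : ℝ) < a := by rw [← ha]; exact k4
    have h0' : (0 : ℤ) < a := by exact_mod_cast h0
    obtain ⟨n, hn⟩ := Int.eq_ofNat_of_zero_le h0'.le
    refine k3 n ?_
    rw [ha, hn]
    rfl
  have l1 := ht_latticeKS hA hA' ht2 (k := 1) (α := fun _ => α1) (β := fun _ => β)
    (fun _ => h3) (fun _ => hβz)
  have l2 := ht_latticeKS hA hA' ht2 (k := 1) (α := fun _ => α2) (β := fun _ => β)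
    (fun _ => k3') (fun _ => hβz)
  rw [iv_one h1 h2 (by linarith) hβ0.le, h5] at l1
  rw [iv_one (by linarith) (Or.inr k3) k2.le hβ0.le, k5] at l2
  refine tendsto_of_tendsto_of_tendsto_of_le_of_le' l2 l1 ?_ ?_
  · filter_upwards [q1] with T t1
    have t1' : 0 ≤ t T := by linarith
    refine div_le_div_of_nonneg_right ?_ (Nat.cast_nonneg _)
    unfold TH PS
    have e := tup_eq (Zi (Ht (t T))) (fun z => z.re / 2) (T := T) (β := β) k4
    rw [e]
    have hfin : (PG (Zi (Ht (t T))) hh T fun D => α < D ∧ D ≤ β).Finite :=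
      ((nh_fin t1' T).prod (nh_fin t1' T)).subset fun x hx => ⟨hx.1, hx.2.1⟩
    have : (PG (Zi (Ht (t T))) (fun z => z.re / 2) T fun D => α2 ≤ D ∧ D ≤ β).ncard ≤
        (PG (Zi (Ht (t T))) hh T fun D => α < D ∧ D ≤ β).ncard :=
      Set.ncard_le_ncard (fun x hx => ⟨hx.1, hx.2.1, lt_of_lt_of_le k1 hx.2.2.1, hx.2.2.2⟩) hfin
    exact_mod_cast this
  · filter_upwards [q1] with T t1
    have t1' : 0 ≤ t T := by linarith
    refine div_le_div_of_nonneg_right ?_ (Nat.cast_nonneg _)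
    unfold TH PS
    have e := tup_le (Zi (Ht (t T))) hh (T := T) (α := α1) (β := β) (nh_fin t1' T)
    have hfin : (PG (Zi (Ht (t T))) hh T fun D => max 0 α1 < D ∧ D ≤ β).Finite :=
      ((nh_fin t1' T).prod (nh_fin t1' T)).subset fun x hx => ⟨hx.1, hx.2.1⟩
    have : (PG (Zi (Ht (t T))) hh T fun D => α < D ∧ D ≤ β).ncard ≤
        (PG (Zi (Ht (t T))) hh T fun D => max 0 α1 < D ∧ D ≤ β).ncard :=
      Set.ncard_le_ncard (fun x hx => ⟨hx.1, hx.2.1, max_lt (lt_of_le_of_lt hα0 hx.2.2.1)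
        (lt_of_le_of_lt h4 hx.2.2.1), hx.2.2.2⟩) hfin
    have e' := this.trans e
    exact_mod_cast e'

end Run7.h422.PP
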