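import Pool.Agent.Run7.h422.PP.Xi

/-!
# Pairs at small positive distances: transfer of the laws for `N*`
-/

set_option autoImplicit false

namespace Run7.h422.PP

open Complex Filter Topology Set
open Pool.Agent.R838.ST (Tuples)

/-- pairs of different elements of `Z` with the same height in `(0, T]` -/
def EQ (Z : Set (ℂ × ℕ)) (h : ℂ → ℝ) (T : ℝ) : Set ((ℂ × ℕ) × (ℂ × ℕ)) :=
  {x | x.1 ∈ NG Z h T ∧ x.2 ∈ NG Z h T ∧ x.1 ≠ x.2 ∧ h x.1.1 = h x.2.1}

/-- pairs of different elements of `Z` with heights in `(0, T]` and normalised difference in `[α, β]` -/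
def PN (Z : Set (ℂ × ℕ)) (h : ℂ → ℝ) (T α β : ℝ) : Set ((ℂ × ℕ) × (ℂ × ℕ)) :=
  {x | x.1 ∈ NG Z h T ∧ x.2 ∈ NG Z h T ∧ x.1 ≠ x.2 ∧
    α ≤ (h x.1.1 - h x.2.1) * (Real.log T / (2 * Real.pi)) ∧
    (h x.1.1 - h x.2.1) * (Real.log T / (2 * Real.pi)) ≤ β}

/-- pairs with positive normalised difference at most `a` -/
def PP0 (Z : Set (ℂ × ℕ)) (h : ℂ → ℝ) (T a : ℝ) : Set ((ℂ × ℕ) × (ℂ × ℕ)) :=
  PG Z h T fun D => 0 < D ∧ D ≤ a

lemma tup_ne (Z : Set (ℂ × ℕ)) (h : ℂ → ℝ) (T α β : ℝ) :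
    (Tuples Z h T (fun _ : Fin 1 => α) (fun _ : Fin 1 => β)).ncard = (PN Z h T α β).ncard := by
  refine Set.ncard_congr (fun x _ => (x 1, x 0)) ?_ ?_ ?_
  · rintro x ⟨h1, h2, h3, h4⟩
    refine ⟨⟨h1 1, h3 1⟩, ⟨h1 0, h3 0⟩, fun h5 => ?_, h4 0⟩
    have h6 := h2 h5
    exact absurd h6 (by decide)
  · intro x y _ _ hxy
    have h1 := congrArg Prod.fst hxy
    have h2 := congrArg Prod.snd hxy
    funext i
    fin_cases i
    · exact h2
    · exact h1
  · rintro y ⟨⟨h1, h2⟩, ⟨h3, h4⟩, hne, h5⟩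
    refine ⟨![y.2, y.1], ⟨?_, ?_, ?_, ?_⟩, rfl⟩
    · intro i
      fin_cases i
      · exact h3
      · exact h1
    · intro i j hij
      fin_cases i <;> fin_cases j
      · rfl
      · exact absurd hij.symm hne
      · exact absurd hij hne
      · rfl
    · intro i
      fin_cases i
      · exact h4
      · exact h2
    · intro i
      fin_cases i
      exact h5

lemma PN_fin {Z : Set (ℂ × ℕ)} {h : ℂ → ℝ} {T α β : ℝ} (hf : (NG Z h T).Finite) :
    (PN Z h T α β).Finite := (hf.prod hf).subset fun _ hx => ⟨hx.1, hx.2.1⟩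

lemma EQ_fin {Z : Set (ℂ × ℕ)} {h : ℂ → ℝ} {T : ℝ} (hf : (NG Z h T).Finite) :
    (EQ Z h T).Finite := (hf.prod hf).subset fun _ hx => ⟨hx.1, hx.2.1⟩

lemma star_le {Z : Set (ℂ × ℕ)} {h : ℂ → ℝ} {T a : ℝ} (hf : (NG Z h T).Finite) (ha : 0 ≤ a) :
    (PP0 Z h T a).ncard + (EQ Z h T).ncard ≤ (PN Z h T 0 a).ncard := by
  have hdis : Disjoint (PP0 Z h T a) (EQ Z h T) := by
    rw [Set.disjoint_left]
    rintro x ⟨-, -, h1, -⟩ ⟨-, -, -, h2⟩
    rw [h2, sub_self, zero_mul] at h1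
    exact lt_irrefl _ h1
  rw [← Set.ncard_union_eq hdis (PG_fin hf) (EQ_fin hf)]
  refine Set.ncard_le_ncard (union_subset ?_ ?_) (PN_fin hf)
  · rintro x ⟨h1, h2, h3, h4⟩
    refine ⟨h1, h2, fun h5 => ?_, h3.le, h4⟩
    rw [h5, sub_self, zero_mul] at h3
    exact lt_irrefl _ h3
  · rintro x ⟨h1, h2, h3, h4⟩
    refine ⟨h1, h2, h3, ?_, ?_⟩
    · rw [h4, sub_self, zero_mul]
    · rw [h4, sub_self, zero_mul]; exact ha

lemma le_star {Z : Set (ℂ × ℕ)} {h : ℂ → ℝ} {T ε b : ℝ} (hf : (NG Z h T).Finite) (hT : 1 < T) :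
    (PN Z h T (-ε) b).ncard ≤ (PP0 Z h T b).ncard + (EQ Z h T).ncard + (PP0 Z h T ε).ncard := by
  have hc : 0 < Real.log T / (2 * Real.pi) := div_pos (Real.log_pos hT) (by positivity)
  have hfP : ∀ c, (PP0 Z h T c).Finite := fun c => PG_fin hf
  have hsub : PN Z h T (-ε) b ⊆ (PP0 Z h T b ∪ EQ Z h T) ∪ Prod.swap '' (PP0 Z h T ε) := by
    rintro x ⟨h1, h2, h3, h4, h5⟩
    rcases lt_trichotomy 0 (h x.1.1 - h x.2.1) with hD | hD | hD
    · exact Or.inl (Or.inl ⟨h1, h2, mul_pos hD hc, h5⟩)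
    · exact Or.inl (Or.inr ⟨h1, h2, h3, by linarith⟩)
    · refine Or.inr ⟨x.swap, ⟨h2, h1, ?_, ?_⟩, Prod.swap_swap x⟩
      · show 0 < (h x.2.1 - h x.1.1) * (Real.log T / (2 * Real.pi))
        exact mul_pos (by linarith) hc
      · show (h x.2.1 - h x.1.1) * (Real.log T / (2 * Real.pi)) ≤ ε
        have e : (h x.2.1 - h x.1.1) * (Real.log T / (2 * Real.pi)) =
            -((h x.1.1 - h x.2.1) * (Real.log T / (2 * Real.pi))) := by ring
        rw [e]; linarith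
  have hf2 : ((PP0 Z h T b ∪ EQ Z h T) ∪ Prod.swap '' (PP0 Z h T ε)).Finite :=
    ((hfP b).union (EQ_fin hf)).union ((hfP ε).image _)
  calc (PN Z h T (-ε) b).ncard ≤ ((PP0 Z h T b ∪ EQ Z h T) ∪ Prod.swap '' (PP0 Z h T ε)).ncard :=
        Set.ncard_le_ncard hsub hf2
    _ ≤ (PP0 Z h T b ∪ EQ Z h T).ncard + (Prod.swap '' (PP0 Z h T ε)).ncard :=
        Set.ncard_union_le _ _
    _ ≤ ((PP0 Z h T b).ncard + (EQ Z h T).ncard) + (PP0 Z h T ε).ncard :=
        Nat.add_le_add (Set.ncard_union_le _ _) (Set.ncard_image_le (hfP ε))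

/-- the law `Ψ` for pairs at positive distances, and few coincidences -/
def StarLaw (S : ℝ → ℝ → ℝ) (E : ℝ → ℝ) (Ψ : ℝ → ℝ) : Prop :=
  (∀ a : ℝ, 0 < a → Tendsto (fun T : ℝ => S T a / (T * Real.log T / (2 * Real.pi))) atTop (𝓝 (Ψ a))) ∧
  Tendsto (fun T : ℝ => E T / (T * Real.log T / (2 * Real.pi))) atTop (𝓝 0)

/-- `Ψ` is continuous on `(0, ∞)` and tends to `0` at `0` -/
def CtsStar (Ψ : ℝ → ℝ) : Prop := ContinuousOn Ψ (Ioi 0) ∧ Tendsto Ψ (𝓝[>] 0) (𝓝 0)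

lemma ctsStar_near {Ψ : ℝ → ℝ} (h : CtsStar Ψ) {a η : ℝ} (ha : 0 < a) (hη : 0 < η) :
    ∃ ε : ℝ, 0 < ε ∧ ε < a ∧ 2 * Real.pi * ε ≤ η ∧ |Ψ (a + ε) - Ψ a| < η ∧ |Ψ (a - ε) - Ψ a| < η ∧
      |Ψ ε| < η ∧ |Ψ (ε + ε)| < η := by
  have hpi := Real.pi_pos
  have hc : ContinuousAt Ψ a := h.1.continuousAt (Ioi_mem_nhds ha)
  rw [Metric.continuousAt_iff] at hc
  obtain ⟨d, hd, hd'⟩ := hc η hη
  have h2 := h.2
  rw [Metric.tendsto_nhdsWithin_nhds] at h2
  obtain ⟨d2, hd2, hd2'⟩ := h2 η hη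
  obtain ⟨ε, hε, e1, e2, e3, e4⟩ : ∃ ε : ℝ, 0 < ε ∧ ε ≤ d / 2 ∧ ε ≤ d2 / 4 ∧ ε ≤ a / 2 ∧
      ε ≤ η / (2 * Real.pi) := by
    refine ⟨min (min (d / 2) (d2 / 4)) (min (a / 2) (η / (2 * Real.pi))), by positivity, ?_, ?_, ?_, ?_⟩
    · exact (min_le_left _ _).trans (min_le_left _ _)
    · exact (min_le_left _ _).trans (min_le_right _ _)
    · exact (min_le_right _ _).trans (min_le_left _ _)
    · exact (min_le_right _ _).trans (min_le_right _ _)
  refine ⟨ε, hε, by linarith, ?_, ?_, ?_, ?_, ?_⟩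
  · calc 2 * Real.pi * ε ≤ 2 * Real.pi * (η / (2 * Real.pi)) :=
        mul_le_mul_of_nonneg_left e4 (by positivity)
      _ = η := by field_simp
  · have := hd' (x := a + ε) (by rw [Real.dist_eq, add_sub_cancel_left, abs_of_pos hε]; linarith)
    rwa [Real.dist_eq] at this
  · have := hd' (x := a - ε) (by rw [Real.dist_eq, sub_sub_cancel_left, abs_neg, abs_of_pos hε]; linarith)
    rwa [Real.dist_eq] at this
  · have := hd2' (x := ε) hε (by rw [Real.dist_eq, sub_zero, abs_of_pos hε]; linarith)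
    rwa [Real.dist_eq, sub_zero] at this
  · have := hd2' (x := ε + ε) (by show (0 : ℝ) < ε + ε; linarith)
      (by rw [Real.dist_eq, sub_zero, abs_of_pos (by linarith)]; linarith)
    rwa [Real.dist_eq, sub_zero] at this

/-- transfer -/
theorem star_tr {S1 S2 : ℝ → ℝ → ℝ} {E1 E2 : ℝ → ℝ} {Ψ : ℝ → ℝ} (hΨ : CtsStar Ψ)
    (hS : ∀ T a, 0 ≤ S1 T a) (hE : ∀ T, 0 ≤ E1 T)
    (h12 : ∀ a ε : ℝ, 0 ≤ a → 0 < ε → ∀ᶠ T : ℝ in atTop,
      S1 T a + E1 T ≤ S2 T (a + ε) + E2 T + S2 T ε + ε * (T * Real.log T))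
    (h21 : ∀ a ε : ℝ, 0 ≤ a → 0 < ε → ∀ᶠ T : ℝ in atTop,
      S2 T a + E2 T ≤ S1 T (a + ε) + E1 T + S1 T ε + ε * (T * Real.log T))
    (hE2 : ∀ T, 0 ≤ E2 T) (hL : StarLaw S2 E2 Ψ) : StarLaw S1 E1 Ψ := by
  obtain ⟨hL1, hL2⟩ := hL
  have hpi := Real.pi_pos
  have key : ∀ u ε T : ℝ, 1 < T → ε * (T * Real.log T) / (T * Real.log T / (2 * Real.pi)) =
      2 * Real.pi * ε := by
    intro u ε T hT
    have hT' : 0 < T * Real.log T := mul_pos (by linarith) (Real.log_pos hT)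
    generalize T * Real.log T = m at hT' ⊢
    field_simp
  -- small distances
  have small : ∀ η : ℝ, 0 < η → ∀ᶠ T : ℝ in atTop, E1 T / (T * Real.log T / (2 * Real.pi)) < η := by
    intro η hη
    obtain ⟨ε, hε, -, e1, -, -, e2, e3⟩ := ctsStar_near hΨ one_pos (by positivity : 0 < η / 8)
    have l1 := (hL1 ε hε).eventually_lt_const (show Ψ ε < η / 8 from (abs_lt.1 e2).2)
    have l2 := hL2.eventually_lt_const (show (0 : ℝ) < η / 8 by positivity)
    filter_upwards [l1, l2, h12 0 ε le_rfl hε, eventually_gt_atTop (1 : ℝ)] with T t1 t2 t3 t4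
    have hT' : 0 < T * Real.log T / (2 * Real.pi) :=
      div_pos (mul_pos (by linarith) (Real.log_pos t4)) (by positivity)
    have t5 : E1 T ≤ S2 T ε + E2 T + S2 T ε + ε * (T * Real.log T) := by
      have := hS T 0
      rw [zero_add] at t3
      linarith
    have t6 := div_le_div_of_nonneg_right t5 hT'.le
    rw [add_div, add_div, add_div, key 0 ε T t4] at t6
    linarith
  refine ⟨fun a ha => ?_, ?_⟩
  · rw [Metric.tendsto_nhds]
    intro η hη
    obtain ⟨ε, hε, hεa, e1, e2, e3, e4, e5⟩ := ctsStar_near hΨ ha (by positivity : 0 < η / 16)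
    rw [abs_lt] at e2 e3 e4 e5
    have l1 := (hL1 (a + ε) (by linarith)).eventually_lt_const (show Ψ (a + ε) < Ψ a + η / 16 by linarith [e2.2])
    have l2 := (hL1 (a - ε) (by linarith)).eventually_const_lt (show Ψ a - η / 16 < Ψ (a - ε) by linarith [e3.1])
    have l3 := (hL1 ε hε).eventually_lt_const e4.2
    have l4 := (hL1 (ε + ε) (by linarith)).eventually_lt_const e5.2
    have l5 := hL2.eventually_lt_const (show (0 : ℝ) < η / 16 by positivity)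
    filter_upwards [l1, l2, l3, l4, l5, small (η / 16) (by positivity), h12 a ε ha.le hε,
      h12 ε ε hε.le hε, h21 (a - ε) ε (by linarith) hε, eventually_gt_atTop (1 : ℝ)]
      with T t1 t2 t3 t4 t5 t6 t7 t8 t9 t10
    have hT' : 0 < T * Real.log T / (2 * Real.pi) :=
      div_pos (mul_pos (by linarith) (Real.log_pos t10)) (by positivity)
    rw [sub_add_cancel] at t9
    have u7 := div_le_div_of_nonneg_right t7 hT'.le
    have u8 := div_le_div_of_nonneg_right t8 hT'.le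
    have u9 := div_le_div_of_nonneg_right t9 hT'.le
    rw [add_div, add_div, add_div, add_div, key 0 ε T t10] at u7 u8 u9
    have v1 : 0 ≤ E1 T / (T * Real.log T / (2 * Real.pi)) := div_nonneg (hE T) hT'.le
    have v2 : 0 ≤ E2 T / (T * Real.log T / (2 * Real.pi)) := div_nonneg (hE2 T) hT'.le
    rw [Real.dist_eq, abs_lt]
    constructor
    · linarith
    · linarith
  · rw [Metric.tendsto_nhds]
    intro η hη
    filter_upwards [small η hη, eventually_gt_atTop (1 : ℝ)] with T t1 t2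
    have hT' : 0 < T * Real.log T / (2 * Real.pi) :=
      div_pos (mul_pos (by linarith) (Real.log_pos t2)) (by positivity)
    have v1 : 0 ≤ E1 T / (T * Real.log T / (2 * Real.pi)) := div_nonneg (hE T) hT'.le
    rw [Real.dist_eq, sub_zero, abs_of_nonneg v1]
    exact t1

end Run7.h422.PP
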