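import Pool.Agent.Run7.h422.PP.N1
import Pool.Agent.Run7.h422.PP.M6

/-!
# `N*(T, a)` for the zeros of zeta and of the de Bruijn-Newman family
-/

set_option autoImplicit false

namespace Run7.h422.PP

open Complex Filter Topology Set
open Pool.Agent.H24R2.JP (XX)
open Pool.Agent.H986R2.DBN (XT Ht)
open Pool.Agent.R838.ST (Tuples ZetaZ stb_xi zfin)

lemma XX_zero {ρ : ℂ} (h0 : 0 < ρ.re) (h1 : ρ.re < 1) (h : riemannZeta ρ = 0) : XX (ρ - 1 / 2) = 0 := by
  have hρ0 : ρ ≠ 0 := by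
    rintro rfl
    simp at h0
  have hρ1 : 1 - ρ ≠ 0 := by
    intro h2
    have := congrArg Complex.re h2
    simp at this
    linarith
  have h2 := riemannZeta_def_of_ne_zero hρ0
  rw [h] at h2
  have h3 : completedRiemannZeta ρ = 0 := by
    have hG : Gammaℝ ρ ≠ 0 := Gammaℝ_ne_zero_of_re_pos h0
    rcases (div_eq_zero_iff.1 h2.symm) with h4 | h4
    · exact h4
    · exact absurd h4 hG
  rw [completedRiemannZeta_eq] at h3
  have h4 : completedRiemannZeta₀ ρ = 1 / ρ + 1 / (1 - ρ) := by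
    linear_combination h3
  have e : (1 / 2 + (ρ - 1 / 2) : ℂ) = ρ := by ring
  unfold XX
  rw [e, h4]
  field_simp
  ring

lemma zetaZ_fin (u v : ℝ) : {p : ℂ × ℕ | p ∈ ZetaZ ∧ u ≤ p.1.im ∧ p.1.im ≤ v}.Finite := by
  have hf : {s : ℂ | XX s = 0 ∧ u ≤ s.im ∧ s.im ≤ v}.Finite := by
    have h := zfin (f := XT 0) (stb_xi.heatd 0 le_rfl) (fun s hs => stb_xi.strip 0 s le_rfl hs) u v
    rwa [stb_xi.zero] at h
  have hg : {s : ℂ | XX (s - 1 / 2) = 0 ∧ u ≤ s.im ∧ s.im ≤ v}.Finite := by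
    refine Set.Finite.of_injOn (f := fun s : ℂ => s - 1 / 2) ?_ (fun a _ b _ h => by simpa using h) hf
    rintro s ⟨h1, h2, h3⟩
    have h4 : (s - 1 / 2).im = s.im := by simp
    exact ⟨h1, by rw [h4]; exact h2, by rw [h4]; exact h3⟩
  refine (hg.biUnion (t := fun s => ({s} : Set ℂ) ×ˢ Set.Iio (analyticOrderNatAt riemannZeta s))
    (fun s _ => (Set.finite_singleton s).prod (Set.finite_Iio _))).subset ?_
  rintro p ⟨⟨h1, h2, h3⟩, h4, h5⟩
  have h6 : riemannZeta p.1 = 0 := by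
    have h7 : analyticOrderNatAt riemannZeta p.1 ≠ 0 := by omega
    have h8 : analyticOrderAt riemannZeta p.1 ≠ 0 := by
      intro h9
      apply h7
      unfold analyticOrderNatAt
      rw [h9]; rfl
    exact (analyticOrderAt_ne_zero.1 h8).2
  simp only [Set.mem_iUnion]
  exact ⟨p.1, ⟨XX_zero h1 h2 h6, h4, h5⟩, Set.mk_mem_prod rfl h3⟩

lemma ngz_fin (T : ℝ) : (NG ZetaZ (fun z => z.im) T).Finite :=
  (zetaZ_fin 0 T).subset fun _ hp => ⟨hp.1, hp.2.1.le, hp.2.2⟩

/-- pairs of zeros of zeta at positive distances, both heights in `(0, T]` -/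
noncomputable def SZ (T a : ℝ) : ℝ := ((PP0 ZetaZ (fun z => z.im) T a).ncard : ℝ)

/-- coincidences of heights of zeros of zeta -/
noncomputable def EZ (T : ℝ) : ℝ := ((EQ ZetaZ (fun z => z.im) T).ncard : ℝ)

/-- pairs of zeros of `H_t` at positive distances -/
noncomputable def SH (t T a : ℝ) : ℝ := ((PP0 (Zi (Ht t)) hh T a).ncard : ℝ)

/-- coincidences of heights of zeros of `H_t` -/
noncomputable def EH (t T : ℝ) : ℝ := ((EQ (Zi (Ht t)) hh T).ncard : ℝ)

/-- the two functions have the same laws below the threshold -/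
theorem star_iff {t : ℝ → ℝ} (ht : ∀ T, 0 ≤ t T)
    (ht2 : Tendsto (fun T => t T * Real.log T ^ 2) atTop (𝓝 0)) {Ψ : ℝ → ℝ} (hΨ : CtsStar Ψ) :
    StarLaw SZ EZ Ψ ↔ StarLaw (fun T a => SH (t T) T a) (fun T => EH (t T) T) Ψ := by
  have key : ∀ a ε : ℝ, 0 ≤ a → 0 < ε → ∀ᶠ T : ℝ in atTop,
      SZ T a + EZ T ≤ SH (t T) T (a + ε) + EH (t T) T + SH (t T) T ε + ε * (T * Real.log T) ∧
      SH (t T) T a + EH (t T) T ≤ SZ T (a + ε) + EZ T + SZ T ε + ε * (T * Real.log T) := by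
    intro a ε ha hε
    obtain ⟨δ, T0, hδ, hT0, h⟩ := Pool.Agent.R838.ST.cmp 1 (fun _ => 0) (fun _ => a) ε hε
    filter_upwards [ht2.eventually_lt_const hδ, eventually_ge_atTop T0,
      eventually_gt_atTop (1 : ℝ)] with T h2 h3 h4
    have hL : 0 < Real.log T := Real.log_pos h4
    have h5 := h T (t T) h3 (ht T) (by rw [le_div_iff₀ (by positivity)]; exact h2.le)
    have e1 := tup_ne ZetaZ (fun z => z.im) T 0 a
    have e2 := tup_ne ZetaZ (fun z => z.im) T (0 - ε) (a + ε)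
    have e3 := tup_ne (Pool.Agent.R838.ST.Zi (Ht (t T))) (fun z => z.re / 2) T 0 a
    have e4 := tup_ne (Pool.Agent.R838.ST.Zi (Ht (t T))) (fun z => z.re / 2) T (0 - ε) (a + ε)
    rw [e1, e2, e3, e4, zero_sub] at h5
    have f1 := star_le (ngz_fin T) ha
    have f2 := star_le (nh_fin (ht T) T) ha
    have f3 := le_star (ε := ε) (b := a + ε) (ngz_fin T) h4
    have f4 := le_star (ε := ε) (b := a + ε) (nh_fin (ht T) T) h4
    have g1 : SZ T a + EZ T ≤ ((PN ZetaZ (fun z => z.im) T 0 a).ncard : ℝ) := by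
      unfold SZ EZ; exact_mod_cast f1
    have g2 : SH (t T) T a + EH (t T) T ≤ ((PN (Zi (Ht (t T))) hh T 0 a).ncard : ℝ) := by
      unfold SH EH; exact_mod_cast f2
    have g3 : ((PN ZetaZ (fun z => z.im) T (-ε) (a + ε)).ncard : ℝ) ≤
        SZ T (a + ε) + EZ T + SZ T ε := by
      unfold SZ EZ; exact_mod_cast f3
    have g4 : ((PN (Zi (Ht (t T))) hh T (-ε) (a + ε)).ncard : ℝ) ≤
        SH (t T) T (a + ε) + EH (t T) T + SH (t T) T ε := by
      unfold SH EH; exact_mod_cast f4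
    have k1 : ((PN ZetaZ (fun z => z.im) T 0 a).ncard : ℝ) ≤
        ((PN (Zi (Ht (t T))) hh T (-ε) (a + ε)).ncard : ℝ) + ε * (T * Real.log T) := h5.1
    have k2 : ((PN (Zi (Ht (t T))) hh T 0 a).ncard : ℝ) ≤
        ((PN ZetaZ (fun z => z.im) T (-ε) (a + ε)).ncard : ℝ) + ε * (T * Real.log T) := h5.2
    constructor
    · linarith
    · linarith
  have nn1 : ∀ T a, 0 ≤ SZ T a := fun T a => Nat.cast_nonneg _
  have nn2 : ∀ T, 0 ≤ EZ T := fun T => Nat.cast_nonneg _
  have nn3 : ∀ T a, 0 ≤ SH (t T) T a := fun T a => Nat.cast_nonneg _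
  have nn4 : ∀ T, 0 ≤ EH (t T) T := fun T => Nat.cast_nonneg _
  constructor
  · intro hL
    exact star_tr hΨ nn3 nn4 (fun a ε ha hε => (key a ε ha hε).mono fun _ h => h.2)
      (fun a ε ha hε => (key a ε ha hε).mono fun _ h => h.1) nn2 hL
  · intro hL
    exact star_tr hΨ nn1 nn2 (fun a ε ha hε => (key a ε ha hε).mono fun _ h => h.1)
      (fun a ε ha hε => (key a ε ha hε).mono fun _ h => h.2) nn4 hL

/-- the pairs of the question -/
def NstSet (T a : ℝ) : Set ((ℂ × ℕ) × (ℂ × ℕ)) :=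
  {x | x.1 ∈ ZetaZ ∧ x.2 ∈ ZetaZ ∧ (0 < x.1.1.im ∧ x.1.1.im ≤ T) ∧
    0 < x.1.1.im - x.2.1.im ∧ x.1.1.im - x.2.1.im ≤ 2 * Real.pi * a / Real.log T}

/-- the restriction of the second height does not matter -/
theorem nst_iff {a b : ℝ} :
    Tendsto (fun T : ℝ => ((NstSet T a).ncard : ℝ) / (T * Real.log T / (2 * Real.pi))) atTop (𝓝 b) ↔
    Tendsto (fun T : ℝ => SZ T a / (T * Real.log T / (2 * Real.pi))) atTop (𝓝 b) := by
  have hpi := Real.pi_pos
  set F : Set (ℂ × ℕ) := {p : ℂ × ℕ | p ∈ ZetaZ ∧ -1 ≤ p.1.im ∧ p.1.im ≤ 1} with hF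
  have hFf : F.Finite := zetaZ_fin _ _
  have hTL : Tendsto (fun T : ℝ => T * Real.log T / (2 * Real.pi)) atTop atTop := by
    have h1 : Tendsto (fun T : ℝ => T * Real.log T) atTop atTop :=
      tendsto_id.atTop_mul_atTop₀ Real.tendsto_log_atTop
    exact h1.atTop_div_const (by positivity)
  have hd : Tendsto (fun T : ℝ => (((NstSet T a).ncard : ℝ) - SZ T a) /
      (T * Real.log T / (2 * Real.pi))) atTop (𝓝 0) := by
    have h2 : Tendsto (fun T : ℝ => ((F ×ˢ F).ncard : ℝ) / (T * Real.log T / (2 * Real.pi))) atTop (𝓝 0) :=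
      hTL.const_div_atTop _
    refine squeeze_zero' ?_ ?_ h2
    · filter_upwards [eventually_gt_atTop (1 : ℝ),
        Real.tendsto_log_atTop.eventually_ge_atTop (2 * Real.pi * a)] with T h3 h4
      have hL : 0 < Real.log T := Real.log_pos h3
      refine div_nonneg ?_ (by positivity)
      have hfin : (NstSet T a).Finite := by
        refine ((zetaZ_fin 0 T).prod (zetaZ_fin (-1) T)).subset ?_
        rintro x ⟨h5, h6, ⟨h7, h8⟩, h9, h10⟩
        have h11 : 2 * Real.pi * a / Real.log T ≤ 1 := by rw [div_le_one hL]; exact h4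
        exact ⟨⟨h5, h7.le, h8⟩, ⟨h6, by linarith, by linarith⟩⟩
      have hsub : PP0 ZetaZ (fun z => z.im) T a ⊆ NstSet T a := by
        rintro x ⟨⟨h5, h6, h7⟩, ⟨h8, h9, h10⟩, h11, h12⟩
        have hc : 0 < Real.log T / (2 * Real.pi) := by positivity
        refine ⟨h5, h8, ⟨h6, h7⟩, (pos_iff_pos_of_mul_pos h11).2 hc, ?_⟩
        rw [le_div_iff₀ hL]
        have h13 : (x.1.1.im - x.2.1.im) * (Real.log T / (2 * Real.pi)) ≤ a := h12
        have h14 : (x.1.1.im - x.2.1.im) * Real.log T =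
            2 * Real.pi * ((x.1.1.im - x.2.1.im) * (Real.log T / (2 * Real.pi))) := by
          field_simp
        rw [h14]
        exact mul_le_mul_of_nonneg_left h13 (by positivity)
      have := Set.ncard_le_ncard hsub hfin
      unfold SZ
      have h15 : ((PP0 ZetaZ (fun z => z.im) T a).ncard : ℝ) ≤ ((NstSet T a).ncard : ℝ) := by
        exact_mod_cast this
      linarith
    · filter_upwards [eventually_gt_atTop (1 : ℝ),
        Real.tendsto_log_atTop.eventually_ge_atTop (2 * Real.pi * a)] with T h3 h4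
      have hL : 0 < Real.log T := Real.log_pos h3
      have hT' : 0 < T * Real.log T / (2 * Real.pi) := by
        have : 0 < T := by linarith
        positivity
      refine div_le_div_of_nonneg_right ?_ hT'.le
      have h11 : 2 * Real.pi * a / Real.log T ≤ 1 := by rw [div_le_one hL]; exact h4
      have hsub : NstSet T a ⊆ PP0 ZetaZ (fun z => z.im) T a ∪ F ×ˢ F := by
        rintro x ⟨h5, h6, ⟨h7, h8⟩, h9, h10⟩
        by_cases h12 : 0 < x.2.1.im
        · refine Or.inl ⟨⟨h5, h7, h8⟩, ⟨h6, h12, by show x.2.1.im ≤ T; linarith⟩, ?_, ?_⟩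
          · show 0 < (x.1.1.im - x.2.1.im) * (Real.log T / (2 * Real.pi))
            positivity
          · show (x.1.1.im - x.2.1.im) * (Real.log T / (2 * Real.pi)) ≤ a
            rw [le_div_iff₀ hL] at h10
            rw [← mul_div_assoc, div_le_iff₀ (by positivity)]
            linarith
        · exact Or.inr ⟨⟨h5, by linarith, by linarith⟩, ⟨h6, by linarith, by linarith⟩⟩
      have hf : (PP0 ZetaZ (fun z => z.im) T a ∪ F ×ˢ F).Finite :=
        (PG_fin (ngz_fin T)).union (hFf.prod hFf)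
      have h12 := (Set.ncard_le_ncard hsub hf).trans (Set.ncard_union_le _ _)
      have h13 : ((NstSet T a).ncard : ℝ) ≤ SZ T a + ((F ×ˢ F).ncard : ℝ) := by
        unfold SZ; exact_mod_cast h12
      linarith
  constructor
  · intro h
    have h3 := h.sub hd
    rw [sub_zero] at h3
    refine h3.congr fun T => ?_
    rw [← sub_div]
    congr 1
    ring
  · intro h
    have h3 := h.add hd
    rw [add_zero] at h3
    refine h3.congr fun T => ?_
    rw [← add_div]
    congr 1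
    ring

lemma mo_star : CtsStar fun a => ∫ u in (0 : ℝ)..a, mo u := by
  have h1 : Continuous fun x : ℝ => ∫ u in (0 : ℝ)..x, mo u :=
    intervalIntegral.continuous_primitive mo_int 0
  refine ⟨h1.continuousOn, ?_⟩
  have h2 := h1.tendsto 0
  rw [intervalIntegral.integral_same] at h2
  exact h2.mono_left nhdsWithin_le_nhds

/-- few coincidences above the threshold -/
theorem eh_small {t : ℝ → ℝ} {A : ℝ} (hA : 0 < A) (hA' : ∀ᶠ T in atTop, t T * Real.log T ≤ A)
    (ht2 : Tendsto (fun T => t T * Real.log T ^ 2) atTop atTop) :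
    Tendsto (fun T => EH (t T) T / NH (t T) T) atTop (𝓝 0) := by
  have h1 := ht_latticeKS hA hA' ht2 (k := 1) (α := fun _ => -(1 / 2)) (β := fun _ => 1 / 2)
    (fun _ a ha => by
      have h2 : (-1 : ℝ) = 2 * a := by linarith
      have h3 : (-1 : ℤ) = 2 * a := by exact_mod_cast h2
      omega)
    (fun _ a ha => by
      have h2 : (1 : ℝ) = 2 * a := by linarith
      have h3 : (1 : ℤ) = 2 * a := by exact_mod_cast h2
      omega)
  have h2 : IV (k := 1) (fun _ => -(1 / 2)) (fun _ => 1 / 2) = ∅ := by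
    rw [Set.eq_empty_iff_forall_notMem]
    rintro a ⟨h3, h4⟩
    obtain ⟨h5, h6, h7⟩ := h4 0
    have h8 : ((-1 : ℤ) : ℝ) < a 0 := by push_cast; linarith
    have h9 : ((a 0 : ℤ) : ℝ) < (1 : ℤ) := by push_cast; linarith
    have h10 : (-1 : ℤ) < a 0 := by exact_mod_cast h8
    have h11 : a 0 < 1 := by exact_mod_cast h9
    omega
  rw [h2, Set.ncard_empty, Nat.cast_zero] at h1
  obtain ⟨q1, q2, q3⟩ := quarter hA hA' ht2
  refine squeeze_zero' (Eventually.of_forall fun T => div_nonneg (Nat.cast_nonneg _) (Nat.cast_nonneg _)) ?_ h1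
  filter_upwards [q1] with T h3
  have ht0 : 0 ≤ t T := by linarith
  refine div_le_div_of_nonneg_right ?_ (Nat.cast_nonneg _)
  have e1 := tup_ne (Zi (Ht (t T))) (fun z => z.re / 2) T (-(1 / 2)) (1 / 2)
  have e2 : TH (t T) T (fun _ : Fin 1 => -(1 / 2)) (fun _ : Fin 1 => 1 / 2) =
      ((PN (Zi (Ht (t T))) hh T (-(1 / 2)) (1 / 2)).ncard : ℝ) := by
    unfold TH
    exact_mod_cast e1
  rw [e2]
  unfold EH
  have hsub : EQ (Zi (Ht (t T))) hh T ⊆ PN (Zi (Ht (t T))) hh T (-(1 / 2)) (1 / 2) := by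
    rintro x ⟨h4, h5, h6, h7⟩
    refine ⟨h4, h5, h6, ?_, ?_⟩
    · rw [h7, sub_self, zero_mul]; norm_num
    · rw [h7, sub_self, zero_mul]; norm_num
  exact_mod_cast Set.ncard_le_ncard hsub (PN_fin (nh_fin ht0 T))

end Run7.h422.PP
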