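import Pool.Agent.Run7.h422.PP.N2
import Pool.Agent.Run7.h422.PP.G5
import Pool.Agent.R838.IS.Is7

/-!
# Tuples of real simple zeros of the de Bruijn-Newman family
-/

set_option autoImplicit false

namespace Run7.h422.PP

open Complex Filter Topology Set

section abs

variable {ι : Type*}

/-- tuples of different elements of `Z`, differences of the heights in a box -/
def TT (Z : Set ι) (h : ι → ℝ) {k : ℕ} (α β : Fin k → ℝ) : Set (Fin (k + 1) → ι) :=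
  {x | (∀ i, x i ∈ Z) ∧ Function.Injective x ∧
    ∀ i : Fin k, α i ≤ h (x i.succ) - h (x 0) ∧ h (x i.succ) - h (x 0) ≤ β i}

lemma tt_ts {Z : Set ι} {h : ι → ℝ} (hf : Z.Finite) {k : ℕ} (α β : Fin k → ℝ) :
    TT Z h α β = TS hf.toFinset h α β := by
  ext x
  constructor
  · rintro ⟨h1, h2, h3⟩
    exact ⟨fun i => (Set.Finite.mem_toFinset hf).2 (h1 i), h2, h3⟩
  · rintro ⟨h1, h2, h3⟩
    exact ⟨fun i => (Set.Finite.mem_toFinset hf).1 (h1 i), h2, h3⟩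

/-- few tuples have an entry outside of a large set -/
theorem bad_abs {Z : ℝ → Set ι} {h : ℝ → ι → ℝ} {c : ℝ} (hc : 0 < c)
    (hN : ∀ᶠ T in atTop, (Z T).Finite ∧ c * (T * Real.log T) ≤ ((Z T).ncard : ℝ))
    (hlat : ∀ (k : ℕ) (α β : Fin k → ℝ), (∀ i, ∀ a : ℤ, α i ≠ a) → (∀ i, ∀ a : ℤ, β i ≠ a) →
      Tendsto (fun T => ((TT (Z T) (h T) α β).ncard : ℝ) / ((Z T).ncard : ℝ)) atTop (𝓝 ((IV α β).ncard : ℝ)))
    (G : ℝ → Set ι)
    (hG : ∀ η : ℝ, 0 < η → ∀ᶠ T in atTop, ((Z T \ G T).ncard : ℝ) ≤ η * (T * Real.log T))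
    {k : ℕ} (α β : Fin k → ℝ) :
    Tendsto (fun T => (({x | x ∈ TT (Z T) (h T) α β ∧ ∃ i, x i ∉ G T} : Set (Fin (k + 1) → ι)).ncard : ℝ) /
      ((Z T).ncard : ℝ)) atTop (𝓝 0) := by
  classical
  obtain ⟨b, hb⟩ : ∃ b : ℝ, b = ∑ i, (|α i| + |β i|) := ⟨_, rfl⟩
  have hb0 : 0 ≤ b := by rw [hb]; exact Finset.sum_nonneg fun i _ => by positivity
  have hbi : ∀ i, |α i| + |β i| ≤ b := fun i => by
    rw [hb]
    exact Finset.single_le_sum (f := fun i => |α i| + |β i|) (fun j _ => by positivity) (Finset.mem_univ i)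
  obtain ⟨B, hB1, hB2, hB3⟩ : ∃ B : ℝ, 2 * b ≤ B ∧ (∀ a : ℤ, B ≠ a) ∧ ∀ a : ℤ, -B ≠ a := by
    refine ⟨(⌈2 * b⌉ : ℝ) + 1 / 2, by linarith [Int.le_ceil (2 * b)], ?_, ?_⟩
    · intro a ha
      have h1 : (2 * (a - ⌈2 * b⌉) : ℤ) = 1 := by
        have : (2 * ((a : ℝ) - ⌈2 * b⌉)) = 1 := by rw [← ha]; ring
        exact_mod_cast this
      omega
    · intro a ha
      have h1 : (2 * (a + ⌈2 * b⌉) : ℤ) = -1 := by
        have : (2 * ((a : ℝ) + ⌈2 * b⌉)) = -1 := by rw [← ha]; ring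
        exact_mod_cast this
      omega
  have hlat2 := hlat (2 * k) (fun _ => -B) (fun _ => B) (fun _ => hB3) (fun _ => hB2)
  set Q : ℝ := ((IV (fun _ : Fin (2 * k) => -B) (fun _ => B)).ncard : ℝ) with hQ
  have hQ0 : 0 ≤ Q := Nat.cast_nonneg _
  set K : ℝ := (2 * (2 * k : ℕ) : ℝ) ^ (2 * k) + 2 ^ (2 * k) * (Q + 1) with hK
  have hK0 : 0 < K := by
    rw [hK]
    positivity
  rw [Metric.tendsto_nhds]
  intro η hη
  obtain ⟨δ, hδ⟩ : ∃ δ : ℝ, δ = η / ((k + 1) * K) := ⟨_, rfl⟩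
  have hδ0 : 0 < δ := by rw [hδ]; positivity
  obtain ⟨η', hη'⟩ : ∃ η' : ℝ, η' = c * δ * η / (2 * (k + 1)) := ⟨_, rfl⟩
  have hη'0 : 0 < η' := by rw [hη']; positivity
  filter_upwards [hN, hG η' hη'0, hlat2.eventually_lt_const (show Q < Q + 1 by linarith),
    eventually_gt_atTop (1 : ℝ)] with T h1 h2 h3 h4
  obtain ⟨hf, h5⟩ := h1
  have hL : 0 < Real.log T := Real.log_pos h4
  have hTL : 0 < T * Real.log T := by
    have : 0 < T := by linarith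
    positivity
  have hN0 : 0 < ((Z T).ncard : ℝ) := lt_of_lt_of_le (by positivity) h5
  have hcard : ((Z T).ncard : ℝ) = (hf.toFinset.card : ℝ) := by
    rw [Set.ncard_eq_toFinset_card _ hf]
  rw [div_lt_iff₀ hN0] at h3
  have h6 := bad_few hf.toFinset (h T) (k := k)
    (α := α) (β := β) (b := b) (B := B) hb0
    (fun i => by have := hbi i; have := neg_abs_le (α i); have := abs_nonneg (β i); linarith)
    (fun i => by have := hbi i; have := le_abs_self (β i); have := abs_nonneg (α i); linarith) hB1 (G T) hδ0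
  rw [← tt_ts hf, ← tt_ts hf, ← hcard] at h6
  have h7 : ((hf.toFinset.filter (fun y => y ∉ G T)).card : ℝ) ≤ η' * (T * Real.log T) := by
    refine le_trans (le_of_eq ?_) h2
    have e : (Z T \ G T) = ((hf.toFinset.filter (fun y => y ∉ G T) : Finset ι) : Set ι) := by
      ext p
      rw [Finset.coe_filter]
      simp only [Set.Finite.mem_toFinset]
      rfl
    rw [e, Set.ncard_coe_finset]
  set N : ℝ := ((Z T).ncard : ℝ) with hNdef
  have h8 : η' * (T * Real.log T) ≤ δ * η / (2 * (k + 1)) * N := by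
    have e : η' * (T * Real.log T) = δ * η / (2 * (k + 1)) * (c * (T * Real.log T)) := by rw [hη']; ring
    rw [e]
    exact mul_le_mul_of_nonneg_left h5 (by positivity)
  have h9 : ((hf.toFinset.filter (fun y => y ∉ G T)).card : ℝ) / (2 * δ) ≤ η / (4 * (k + 1)) * N := by
    rw [div_le_iff₀ (by positivity)]
    refine (h7.trans h8).trans (le_of_eq ?_)
    field_simp
    ring
  have h10 : (2 * (2 * k : ℕ) : ℝ) ^ (2 * k) * N +
      2 ^ (2 * k) * ((TT (Z T) (h T) (fun _ : Fin (2 * k) => -B) (fun _ => B)).ncard : ℝ) ≤ K * N := by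
    have h11 := mul_le_mul_of_nonneg_left h3.le (show (0 : ℝ) ≤ 2 ^ (2 * k) by positivity)
    rw [hK, add_mul, mul_assoc (2 ^ (2 * k)) (Q + 1) N]
    linarith
  have h12 : δ / 2 * ((2 * (2 * k : ℕ) : ℝ) ^ (2 * k) * N +
      2 ^ (2 * k) * ((TT (Z T) (h T) (fun _ : Fin (2 * k) => -B) (fun _ => B)).ncard : ℝ)) ≤
      η / (2 * (k + 1)) * N := by
    refine (mul_le_mul_of_nonneg_left h10 (by positivity)).trans (le_of_eq ?_)
    rw [hδ]
    field_simp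
  have h13 : (({x | x ∈ TT (Z T) (h T) α β ∧ ∃ i, x i ∉ G T} : Set (Fin (k + 1) → ι)).ncard : ℝ) ≤
      3 / 4 * η * N := by
    refine h6.trans ?_
    have h14 := mul_le_mul_of_nonneg_left (add_le_add h9 h12) (show (0 : ℝ) ≤ (k : ℝ) + 1 by positivity)
    refine h14.trans (le_of_eq ?_)
    field_simp
    ring
  rw [Real.dist_eq, sub_zero, abs_of_nonneg (by positivity), div_lt_iff₀ hN0]
  have : 0 < η * N := by positivity
  linarith

/-- the lattice law for the tuples with all entries in a large set -/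
theorem good_abs {Z : ℝ → Set ι} {h : ℝ → ι → ℝ} {c : ℝ} (hc : 0 < c)
    (hN : ∀ᶠ T in atTop, (Z T).Finite ∧ c * (T * Real.log T) ≤ ((Z T).ncard : ℝ))
    (hlat : ∀ (k : ℕ) (α β : Fin k → ℝ), (∀ i, ∀ a : ℤ, α i ≠ a) → (∀ i, ∀ a : ℤ, β i ≠ a) →
      Tendsto (fun T => ((TT (Z T) (h T) α β).ncard : ℝ) / ((Z T).ncard : ℝ)) atTop (𝓝 ((IV α β).ncard : ℝ)))
    (G : ℝ → Set ι)
    (hG : ∀ η : ℝ, 0 < η → ∀ᶠ T in atTop, ((Z T \ G T).ncard : ℝ) ≤ η * (T * Real.log T))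
    {k : ℕ} {α β : Fin k → ℝ} (hα : ∀ i, ∀ a : ℤ, α i ≠ a) (hβ : ∀ i, ∀ a : ℤ, β i ≠ a) :
    Tendsto (fun T => (({x | x ∈ TT (Z T) (h T) α β ∧ ∀ i, x i ∈ G T} : Set (Fin (k + 1) → ι)).ncard : ℝ) /
      ((Z T).ncard : ℝ)) atTop (𝓝 ((IV α β).ncard : ℝ)) := by
  have l1 := hlat k α β hα hβ
  have l2 := bad_abs hc hN hlat G hG α β
  have l3 := l1.sub l2
  rw [sub_zero] at l3
  refine l3.congr' ?_
  filter_upwards [hN] with T h1
  obtain ⟨hf, -⟩ := h1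
  have hfin : (TT (Z T) (h T) α β).Finite := by
    rw [tt_ts hf]
    exact TS_fin _ _ _ _
  have e : (({x | x ∈ TT (Z T) (h T) α β ∧ ∀ i, x i ∈ G T} : Set (Fin (k + 1) → ι)).ncard : ℝ) +
      (({x | x ∈ TT (Z T) (h T) α β ∧ ∃ i, x i ∉ G T} : Set (Fin (k + 1) → ι)).ncard : ℝ) =
      ((TT (Z T) (h T) α β).ncard : ℝ) := by
    have h2 : ({x | x ∈ TT (Z T) (h T) α β ∧ ∀ i, x i ∈ G T} : Set (Fin (k + 1) → ι)) ∪
        {x | x ∈ TT (Z T) (h T) α β ∧ ∃ i, x i ∉ G T} = TT (Z T) (h T) α β := by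
      ext x
      constructor
      · rintro (h3 | h3)
        · exact h3.1
        · exact h3.1
      · intro h3
        by_cases h4 : ∀ i, x i ∈ G T
        · exact Or.inl ⟨h3, h4⟩
        · push Not at h4
          exact Or.inr ⟨h3, h4⟩
    have h3 := Set.ncard_union_eq (s := ({x | x ∈ TT (Z T) (h T) α β ∧ ∀ i, x i ∈ G T} :
        Set (Fin (k + 1) → ι))) (t := {x | x ∈ TT (Z T) (h T) α β ∧ ∃ i, x i ∉ G T})
      (by
        rw [Set.disjoint_left]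
        rintro x ⟨-, h4⟩ ⟨-, i, h5⟩
        exact h5 (h4 i))
      (hfin.subset fun x hx => hx.1) (hfin.subset fun x hx => hx.1)
    rw [h2] at h3
    rw [h3]
    push_cast
    rfl
  rw [← sub_div, ← e, add_sub_cancel_right]

end abs

open Pool.Agent.H986R2.DBN (XT Ht)
open Pool.Agent.R838.ST (Tuples ZetaZ)
open Pool.Agent.R838.IS (ess_large heatA heatI)

/-- real simple zeros of `H_t` -/
def RS (t : ℝ) : Set (ℂ × ℕ) := {p | p.1.im = 0 ∧ analyticOrderNatAt (Ht t) p.1 = 1}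

/-- almost all zeros are real and simple -/
theorem few_offH {t : ℝ → ℝ} {A : ℝ} (hA' : ∀ᶠ T in atTop, t T * Real.log T ≤ A)
    (ht2 : Tendsto (fun T => t T * Real.log T ^ 2) atTop atTop) (η : ℝ) (hη : 0 < η) :
    ∀ᶠ T in atTop, ((NG (Zi (Ht (t T))) hh T \ RS (t T)).ncard : ℝ) ≤ η * (T * Real.log T) := by
  obtain ⟨σ, hσ, hE⟩ := ess_large hA' ht2 η hη
  have ht0 : ∀ᶠ T in atTop, 0 < t T := by
    filter_upwards [ht2.eventually_gt_atTop 0, eventually_gt_atTop (1 : ℝ)] with T h2 h3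
    have h5 : 0 < Real.log T ^ 2 := by have := Real.log_pos h3; positivity
    exact (pos_iff_pos_of_mul_pos h2).2 h5
  filter_upwards [hE, ht0] with T h2 h1
  have hf := nh_fin h1.le T
  have e : heatA (Ht (t T)) T = NG (Zi (Ht (t T))) hh T := rfl
  have h2' : ((NG (Zi (Ht (t T))) hh T).ncard : ℝ) ≤ ((heatI (Ht (t T)) T σ σ).ncard : ℝ) +
      η * (T * Real.log T) := h2
  have h3 : (heatI (Ht (t T)) T σ σ).ncard ≤ (NG (Zi (Ht (t T))) hh T ∩ RS (t T)).ncard := by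
    refine Set.ncard_le_ncard_of_injOn (fun s => ((s, 0) : ℂ × ℕ)) ?_ ?_ (hf.subset Set.inter_subset_left)
    · rintro s ⟨q1, q2, q3, -⟩
      refine ⟨⟨?_, q2⟩, q1, q3⟩
      show 0 < analyticOrderNatAt (Ht (t T)) s
      rw [q3]
      exact one_pos
    · intro s _ s' _ hss
      exact (Prod.ext_iff.1 hss).1
  have h4 := Set.ncard_inter_add_ncard_sdiff_eq_ncard (NG (Zi (Ht (t T))) hh T) (RS (t T)) hf
  have h3' : ((heatI (Ht (t T)) T σ σ).ncard : ℝ) ≤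
      ((NG (Zi (Ht (t T))) hh T ∩ RS (t T)).ncard : ℝ) := by exact_mod_cast h3
  have h4' : ((NG (Zi (Ht (t T))) hh T ∩ RS (t T)).ncard : ℝ) +
      ((NG (Zi (Ht (t T))) hh T \ RS (t T)).ncard : ℝ) = ((NG (Zi (Ht (t T))) hh T).ncard : ℝ) := by
    exact_mod_cast h4
  linarith

lemma tup_tt (Z : Set (ℂ × ℕ)) (h : ℂ → ℝ) (T : ℝ) {k : ℕ} (α β : Fin k → ℝ) :
    Tuples Z h T α β = TT (NG Z h T) (fun p => h p.1 * (Real.log T / (2 * Real.pi))) α β := by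
  ext x
  constructor
  · rintro ⟨h1, h2, h3, h4⟩
    refine ⟨fun i => ⟨h1 i, h3 i⟩, h2, fun i => ?_⟩
    have h5 := h4 i
    rw [sub_mul] at h5
    exact h5
  · rintro ⟨h1, h2, h4⟩
    refine ⟨fun i => (h1 i).1, h2, fun i => (h1 i).2, fun i => ?_⟩
    rw [sub_mul]
    exact h4 i

section

variable {t : ℝ → ℝ} {A : ℝ} (hA : 0 < A) (hA' : ∀ᶠ T in atTop, t T * Real.log T ≤ A)
  (ht2 : Tendsto (fun T => t T * Real.log T ^ 2) atTop atTop)

include hA hA' ht2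

lemma hN_H : ∃ c : ℝ, 0 < c ∧ ∀ᶠ T in atTop, (NG (Zi (Ht (t T))) hh T).Finite ∧
    c * (T * Real.log T) ≤ ((NG (Zi (Ht (t T))) hh T).ncard : ℝ) := by
  obtain ⟨c, hc, hge⟩ := nh_ge hA hA' ht2
  obtain ⟨q1, -, -⟩ := quarter hA hA' ht2
  refine ⟨c, hc, ?_⟩
  filter_upwards [hge, q1] with T h1 h2
  exact ⟨nh_fin (by linarith) T, h1⟩

lemma hlat_H (k : ℕ) (α β : Fin k → ℝ) (hα : ∀ i, ∀ a : ℤ, α i ≠ a) (hβ : ∀ i, ∀ a : ℤ, β i ≠ a) :
    Tendsto (fun T => ((TT (NG (Zi (Ht (t T))) hh T) (fun p => hh p.1 * (Real.log T / (2 * Real.pi)))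
      α β).ncard : ℝ) / ((NG (Zi (Ht (t T))) hh T).ncard : ℝ)) atTop (𝓝 ((IV α β).ncard : ℝ)) := by
  have h1 := ht_latticeKS hA hA' ht2 hα hβ
  refine h1.congr fun T => ?_
  unfold TH NH
  rw [tup_tt]
  rfl

/-- the lattice law for the tuples of real simple zeros of `H_t` -/
theorem ht_goodK {k : ℕ} {α β : Fin k → ℝ} (hα : ∀ i, ∀ a : ℤ, α i ≠ a) (hβ : ∀ i, ∀ a : ℤ, β i ≠ a) :
    Tendsto (fun T => (({x | x ∈ Tuples (Zi (Ht (t T))) (fun z => z.re / 2) T α β ∧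
      ∀ i, x i ∈ RS (t T)} : Set (Fin (k + 1) → ℂ × ℕ)).ncard : ℝ) / NH (t T) T) atTop
      (𝓝 ((IV α β).ncard : ℝ)) := by
  obtain ⟨c, hc, hN⟩ := hN_H hA hA' ht2
  have h1 := good_abs hc hN (hlat_H hA hA' ht2) (fun T => RS (t T)) (few_offH hA' ht2) hα hβ
  refine h1.congr fun T => ?_
  unfold NH
  rw [tup_tt]
  rfl

/-- few pairs with a zero that is not real and simple -/
theorem bad_pairs (P : ℝ → Prop) {B : ℝ} (hP : ∀ D, P D → D ≠ 0 ∧ |D| ≤ B) :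
    Tendsto (fun T => (({x | x ∈ PG (Zi (Ht (t T))) hh T P ∧ (x.1 ∉ RS (t T) ∨ x.2 ∉ RS (t T))} :
      Set ((ℂ × ℕ) × (ℂ × ℕ))).ncard : ℝ) / NH (t T) T) atTop (𝓝 0) := by
  obtain ⟨c, hc, hN⟩ := hN_H hA hA' ht2
  have h1 := bad_abs hc hN (hlat_H hA hA' ht2) (fun T => RS (t T)) (few_offH hA' ht2)
    (k := 1) (fun _ => -B) (fun _ => B)
  refine squeeze_zero' (Eventually.of_forall fun T => div_nonneg (Nat.cast_nonneg _) (Nat.cast_nonneg _)) ?_ h1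
  filter_upwards [hN] with T h2
  obtain ⟨hf, -⟩ := h2
  refine div_le_div_of_nonneg_right ?_ (Nat.cast_nonneg _)
  have hfin : ({x | x ∈ TT (NG (Zi (Ht (t T))) hh T) (fun p => hh p.1 * (Real.log T / (2 * Real.pi)))
      (fun _ : Fin 1 => -B) (fun _ => B) ∧ ∃ i, x i ∉ RS (t T)} : Set (Fin (1 + 1) → ℂ × ℕ)).Finite := by
    refine Set.Finite.subset ?_ (fun x hx => hx.1)
    rw [tt_ts hf]
    exact TS_fin _ _ _ _
  have h3 := Set.ncard_le_ncard_of_injOn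
    (s := ({x | x ∈ PG (Zi (Ht (t T))) hh T P ∧ (x.1 ∉ RS (t T) ∨ x.2 ∉ RS (t T))} :
      Set ((ℂ × ℕ) × (ℂ × ℕ))))
    (t := {x | x ∈ TT (NG (Zi (Ht (t T))) hh T) (fun p => hh p.1 * (Real.log T / (2 * Real.pi)))
      (fun _ : Fin 1 => -B) (fun _ => B) ∧ ∃ i, x i ∉ RS (t T)})
    (fun x => (![x.2, x.1] : Fin (1 + 1) → ℂ × ℕ)) ?_ ?_ hfin
  · exact_mod_cast h3
  · rintro x ⟨⟨h4, h5, h6⟩, h7⟩
    obtain ⟨h8, h9⟩ := hP _ h6
    have h9' := abs_le.1 h9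
    rw [sub_mul] at h9'
    refine ⟨⟨?_, ?_, ?_⟩, ?_⟩
    · intro i
      fin_cases i
      · exact h5
      · exact h4
    · intro i j hij
      have hne : x.2 ≠ x.1 := by
        intro h10
        apply h8
        rw [h10, sub_self, zero_mul]
      fin_cases i <;> fin_cases j
      · rfl
      · exact absurd hij hne
      · exact absurd hij.symm hne
      · rfl
    · intro i
      fin_cases i
      exact h9'
    · rcases h7 with h7 | h7
      · exact ⟨1, h7⟩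
      · exact ⟨0, h7⟩
  · intro x _ y _ hxy
    have h4 : x.2 = y.2 := congrFun hxy 0
    have h5 : x.1 = y.1 := congrFun hxy 1
    exact Prod.ext h5 h4

/-- number of pairs of real simple zeros of `H_t`, half-open intervals -/
theorem ht_latticeR {α β : ℝ} (hα0 : 0 ≤ α) (hαβ : α < β) (hα : α = 0 ∨ ∀ k : ℕ, α ≠ k) (hβ : ∀ k : ℕ, β ≠ k) :
    Tendsto (fun T => (({x | x ∈ PG (Zi (Ht (t T))) hh T (fun D => α < D ∧ D ≤ β) ∧
      x.1 ∈ RS (t T) ∧ x.2 ∈ RS (t T)} : Set ((ℂ × ℕ) × (ℂ × ℕ))).ncard : ℝ) / NH (t T) T) atTop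
      (𝓝 ((⌊β⌋₊ : ℝ) - ⌊α⌋₊)) := by
  have l1 := ht_latticeS hA hA' ht2 hα0 hαβ hα hβ
  have l2 := bad_pairs hA hA' ht2 (fun D => α < D ∧ D ≤ β) (B := β) (fun D hD => by
    have : 0 < D := lt_of_le_of_lt hα0 hD.1
    exact ⟨this.ne', by rw [abs_of_pos this]; exact hD.2⟩)
  have l3 := l1.sub l2
  rw [sub_zero] at l3
  obtain ⟨c, hc, hN⟩ := hN_H hA hA' ht2
  refine l3.congr' ?_
  filter_upwards [hN] with T h1
  obtain ⟨hf, -⟩ := h1
  have e : (({x | x ∈ PG (Zi (Ht (t T))) hh T (fun D => α < D ∧ D ≤ β) ∧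
      x.1 ∈ RS (t T) ∧ x.2 ∈ RS (t T)} : Set ((ℂ × ℕ) × (ℂ × ℕ))).ncard : ℝ) +
      (({x | x ∈ PG (Zi (Ht (t T))) hh T (fun D => α < D ∧ D ≤ β) ∧ (x.1 ∉ RS (t T) ∨ x.2 ∉ RS (t T))} :
      Set ((ℂ × ℕ) × (ℂ × ℕ))).ncard : ℝ) = PS (t T) T α β := by
    have h3 := Set.ncard_union_eq (s := ({x | x ∈ PG (Zi (Ht (t T))) hh T (fun D => α < D ∧ D ≤ β) ∧
        x.1 ∈ RS (t T) ∧ x.2 ∈ RS (t T)} : Set ((ℂ × ℕ) × (ℂ × ℕ))))
      (t := {x | x ∈ PG (Zi (Ht (t T))) hh T (fun D => α < D ∧ D ≤ β) ∧ (x.1 ∉ RS (t T) ∨ x.2 ∉ RS (t T))})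
      (by
        rw [Set.disjoint_left]
        rintro x ⟨-, h4, h4'⟩ ⟨-, h5⟩
        rcases h5 with h5 | h5
        · exact h5 h4
        · exact h5 h4')
      ((PG_fin hf).subset fun x hx => hx.1) ((PG_fin hf).subset fun x hx => hx.1)
    have h2 : ({x | x ∈ PG (Zi (Ht (t T))) hh T (fun D => α < D ∧ D ≤ β) ∧
        x.1 ∈ RS (t T) ∧ x.2 ∈ RS (t T)} : Set ((ℂ × ℕ) × (ℂ × ℕ))) ∪
        {x | x ∈ PG (Zi (Ht (t T))) hh T (fun D => α < D ∧ D ≤ β) ∧ (x.1 ∉ RS (t T) ∨ x.2 ∉ RS (t T))} =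
        PG (Zi (Ht (t T))) hh T (fun D => α < D ∧ D ≤ β) := by
      ext x
      constructor
      · rintro (h4 | h4)
        · exact h4.1
        · exact h4.1
      · intro h4
        by_cases h5 : x.1 ∈ RS (t T) ∧ x.2 ∈ RS (t T)
        · exact Or.inl ⟨h4, h5⟩
        · rw [not_and_or] at h5
          exact Or.inr ⟨h4, h5⟩
    rw [h2] at h3
    unfold PS
    rw [h3]
    push_cast
    rfl
  rw [← sub_div, ← e, add_sub_cancel_right]

end

end Run7.h422.PP
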