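import Pool.Agent.Run7.h422.PP.Cnt2
import Pool.Agent.Run7.h422.PP.Law

/-!
# Pairs: change of coordinates
-/

set_option autoImplicit false

namespace Run7.h422.PP

open Complex Filter Topology Set

/-- the elements of `Z` with heights in `(0, T]` -/
def NG (Z : Set (ℂ × ℕ)) (h : ℂ → ℝ) (T : ℝ) : Set (ℂ × ℕ) := {p | p ∈ Z ∧ 0 < h p.1 ∧ h p.1 ≤ T}

/-- pairs of elements of `Z` with heights in `(0, T]` -/
def PG (Z : Set (ℂ × ℕ)) (h : ℂ → ℝ) (T : ℝ) (P : ℝ → Prop) : Set ((ℂ × ℕ) × (ℂ × ℕ)) :=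
  {x | x.1 ∈ NG Z h T ∧ x.2 ∈ NG Z h T ∧
    P ((h x.1.1 - h x.2.1) * (Real.log T / (2 * Real.pi)))}

lemma NG_tr {Z Z' : Set (ℂ × ℕ)} {h h' : ℂ → ℝ} (e e' : ℂ → ℂ) (he : ∀ z, e' (e z) = z)
    (he' : ∀ z, e (e' z) = z) (hh : ∀ z, h' (e z) = h z)
    (hZ : ∀ p : ℂ × ℕ, 0 < h p.1 → (p ∈ Z ↔ (e p.1, p.2) ∈ Z')) (T : ℝ) :
    (NG Z h T).ncard = (NG Z' h' T).ncard := by
  refine Set.ncard_congr (fun p _ => ((e p.1, p.2) : ℂ × ℕ)) ?_ ?_ ?_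
  · rintro p ⟨h1, h2, h3⟩
    refine ⟨(hZ p h2).1 h1, ?_, ?_⟩
    · show 0 < h' (e p.1)
      rw [hh]; exact h2
    · show h' (e p.1) ≤ T
      rw [hh]; exact h3
  · intro p q _ _ hpq
    have h1 := congrArg Prod.fst hpq
    have h2 := congrArg Prod.snd hpq
    simp only at h1 h2
    have h3 := congrArg e' h1
    rw [he, he] at h3
    exact Prod.ext h3 h2
  · rintro q ⟨h1, h2, h3⟩
    have e1 : ((e (e' q.1), q.2) : ℂ × ℕ) = q := by rw [he']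
    have e2 : h (e' q.1) = h' q.1 := by rw [← hh, he']
    refine ⟨(e' q.1, q.2), ⟨?_, ?_, ?_⟩, e1⟩
    · rw [hZ _ (by show 0 < h (e' q.1); rw [e2]; exact h2)]
      show ((e (e' q.1), q.2) : ℂ × ℕ) ∈ Z'
      rw [e1]; exact h1
    · show 0 < h (e' q.1)
      rw [e2]; exact h2
    · show h (e' q.1) ≤ T
      rw [e2]; exact h3

lemma PG_tr {Z Z' : Set (ℂ × ℕ)} {h h' : ℂ → ℝ} (e e' : ℂ → ℂ) (he : ∀ z, e' (e z) = z)
    (he' : ∀ z, e (e' z) = z) (hh : ∀ z, h' (e z) = h z)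
    (hZ : ∀ p : ℂ × ℕ, 0 < h p.1 → (p ∈ Z ↔ (e p.1, p.2) ∈ Z')) (T : ℝ) (P : ℝ → Prop) :
    (PG Z h T P).ncard = (PG Z' h' T P).ncard := by
  have hN : ∀ p : ℂ × ℕ, p ∈ NG Z h T → ((e p.1, p.2) : ℂ × ℕ) ∈ NG Z' h' T := by
    rintro p ⟨h1, h2, h3⟩
    refine ⟨(hZ p h2).1 h1, ?_, ?_⟩
    · show 0 < h' (e p.1)
      rw [hh]; exact h2
    · show h' (e p.1) ≤ T
      rw [hh]; exact h3
  have hN' : ∀ q : ℂ × ℕ, q ∈ NG Z' h' T → ((e' q.1, q.2) : ℂ × ℕ) ∈ NG Z h T := by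
    rintro q ⟨h1, h2, h3⟩
    have e1 : ((e (e' q.1), q.2) : ℂ × ℕ) = q := by rw [he']
    have e2 : h (e' q.1) = h' q.1 := by rw [← hh, he']
    refine ⟨?_, ?_, ?_⟩
    · rw [hZ _ (by show 0 < h (e' q.1); rw [e2]; exact h2)]
      show ((e (e' q.1), q.2) : ℂ × ℕ) ∈ Z'
      rw [e1]; exact h1
    · show 0 < h (e' q.1)
      rw [e2]; exact h2
    · show h (e' q.1) ≤ T
      rw [e2]; exact h3
  have hinj : ∀ p q : ℂ × ℕ, ((e p.1, p.2) : ℂ × ℕ) = (e q.1, q.2) → p = q := by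
    intro p q hpq
    have h1 := congrArg Prod.fst hpq
    have h2 := congrArg Prod.snd hpq
    simp only at h1 h2
    have h3 := congrArg e' h1
    rw [he, he] at h3
    exact Prod.ext h3 h2
  refine Set.ncard_congr (fun x _ => (((e x.1.1, x.1.2), (e x.2.1, x.2.2)) :
    (ℂ × ℕ) × (ℂ × ℕ))) ?_ ?_ ?_
  · rintro x ⟨h1, h2, h3⟩
    refine ⟨hN _ h1, hN _ h2, ?_⟩
    show P ((h' (e x.1.1) - h' (e x.2.1)) * (Real.log T / (2 * Real.pi)))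
    rw [hh, hh]
    exact h3
  · intro x y _ _ hxy
    exact Prod.ext (hinj _ _ (congrArg Prod.fst hxy)) (hinj _ _ (congrArg Prod.snd hxy))
  · rintro y ⟨h1, h2, h3⟩
    have e2 : ∀ z, h (e' z) = h' z := fun z => by rw [← hh, he']
    refine ⟨((e' y.1.1, y.1.2), (e' y.2.1, y.2.2)), ⟨hN' _ h1, hN' _ h2, ?_⟩, ?_⟩
    · show P ((h (e' y.1.1) - h (e' y.2.1)) * (Real.log T / (2 * Real.pi)))
      rw [e2, e2]
      exact h3
    · simp only [he']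

lemma PG_mono {Z : Set (ℂ × ℕ)} {h : ℂ → ℝ} {T : ℝ} {P Q : ℝ → Prop} (hPQ : ∀ D, P D → Q D) :
    PG Z h T P ⊆ PG Z h T Q := fun _ hx => ⟨hx.1, hx.2.1, hPQ _ hx.2.2⟩

lemma PG_fin {Z : Set (ℂ × ℕ)} {h : ℂ → ℝ} {T : ℝ} {P : ℝ → Prop} (hf : (NG Z h T).Finite) :
    (PG Z h T P).Finite :=
  (hf.prod hf).subset fun _ hx => ⟨hx.1, hx.2.1⟩

/-- two disjoint conditions -/
lemma PG_add {Z : Set (ℂ × ℕ)} {h : ℂ → ℝ} {T : ℝ} {P Q R : ℝ → Prop} (hf : (NG Z h T).Finite)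
    (hP : ∀ D, P D → R D) (hQ : ∀ D, Q D → R D) (hd : ∀ D, P D → ¬ Q D) :
    (PG Z h T P).ncard + (PG Z h T Q).ncard ≤ (PG Z h T R).ncard := by
  have hdis : Disjoint (PG Z h T P) (PG Z h T Q) := by
    rw [Set.disjoint_left]
    intro x h1 h2
    exact hd _ h1.2.2 h2.2.2
  rw [← Set.ncard_union_eq hdis (PG_fin hf) (PG_fin hf)]
  exact Set.ncard_le_ncard (union_subset (PG_mono hP) (PG_mono hQ)) (PG_fin hf)

end Run7.h422.PP
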