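import Pool.Agent.R838.ST.Cry
import Pool.Agent.R838.ST.Zcor
import Pool.Agent.R838.CR.Zins
import Pool.Agent.W186.SD.FinHt
import Pool.Agent.Run7.h422.PP.Abs

/-!
# Pairs of zeros of the de Bruijn-Newman family

The inputs are the starting modules `Pool.Agent.R838.CR`, `Pool.Agent.R838.ST`, `Pool.Agent.W186.SD`.
-/

set_option autoImplicit false

namespace Run7.h422.PP

open Complex Filter Topology Set
open Pool.Agent.H24R2.JP (Om)
open Pool.Agent.H986R2.DBN (XT Ht)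
open Pool.Agent.R838.CR (fin_irr ins_xi irrH regH)
open Pool.Agent.R838.ST (stb_xi unit0_xi nn_allX zset zfin zi_card Tuples ZetaZ)

lemma irrH_of {f : ℝ → ℂ → ℂ} {ε τ : ℝ} {s : ℂ} (h0 : f τ s = 0)
    (h : ¬ ∃ s', Stp (f τ) ε s s') : irrH f ε τ s := by
  refine ⟨h0, fun hreg => h ?_⟩
  obtain ⟨h1, h2, g, h3, h4, h5, h6, h7⟩ := hreg
  exact ⟨s + g * I, h1, h2, g, h3, h4, h5, h6, h7, rfl⟩

/-- the zeros with a property -/
lemma zset' {τ : ℝ} (hτ : 0 ≤ τ) (Q : ℂ → Prop) {u v : ℝ} (hQ : ∀ s, Q s → u ≤ s.im ∧ s.im ≤ v) :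
    ∃ Z : Finset ℂ, (∀ s, s ∈ Z ↔ XT τ s = 0 ∧ Q s) ∧
      {p : ℂ × ℕ | p ∈ Zi (XT τ) ∧ Q p.1}.Finite ∧
      {p : ℂ × ℕ | p ∈ Zi (XT τ) ∧ Q p.1}.ncard = ∑ s ∈ Z, analyticOrderNatAt (XT τ) s := by
  classical
  have hf := stb_xi.heatd τ hτ
  have hfin : {s | XT τ s = 0 ∧ Q s}.Finite :=
    (zfin hf (fun s hs => stb_xi.strip τ s hτ hs) u v).subset (fun s h => ⟨h.1, hQ _ h.2⟩)
  refine ⟨hfin.toFinset, fun s => by rw [Set.Finite.mem_toFinset]; rfl, ?_⟩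
  have e : {p : ℂ × ℕ | p ∈ Zi (XT τ) ∧ Q p.1} =
      {p : ℂ × ℕ | p ∈ Pool.Agent.R838.ST.Zi (XT τ) ∧ p.1 ∈ hfin.toFinset} := by
    ext p
    constructor
    · rintro ⟨h1, h2⟩
      exact ⟨h1, by rw [Set.Finite.mem_toFinset]; exact ⟨Zi_zero hf h1, h2⟩⟩
    · rintro ⟨h1, h2⟩
      rw [Set.Finite.mem_toFinset] at h2
      exact ⟨h1, h2.2⟩
  rw [e]
  exact zi_card (XT τ) _

theorem inp_xi : Inp XT where
  diff := fun τ hτ => stb_xi.heatd τ hτ
  fin := fun τ hτ u v => by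
    obtain ⟨-, -, h, -⟩ := zset' hτ (fun s => u ≤ s.im ∧ s.im ≤ v) (fun s hs => hs)
    exact h
  unit := fun A hA => nn_allX stb_xi unit0_xi A hA
  irr := fun ε A hε => by
    obtain ⟨c, C, hc, hC, h⟩ := fin_irr ins_xi ε A hε
    refine ⟨c, C, hc, hC, fun T τ hT hτ hτ8 hτA => ?_⟩
    obtain ⟨Z, hZ, -, hn⟩ := zset' hτ.le (fun s => T < s.im ∧ s.im ≤ 2 * T ∧
      ¬ ∃ s', Stp (XT τ) ε s s') (u := T) (v := 2 * T) (fun s hs => ⟨hs.1.le, hs.2.1⟩)
    have e : Ir (XT τ) ε T (2 * T) = {p : ℂ × ℕ | p ∈ Zi (XT τ) ∧ (T < p.1.im ∧ p.1.im ≤ 2 * T ∧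
      ¬ ∃ s', Stp (XT τ) ε p.1 s')} := rfl
    rw [e, hn]
    push_cast
    refine h T τ hT hτ hτ8 hτA Z (fun s hs => ?_)
    obtain ⟨h1, h2, h3, h4⟩ := (hZ s).1 hs
    exact ⟨irrH_of h1 h4, h2, h3⟩
  tot := fun _ => by
    obtain ⟨c, T0, hc, hT0, h⟩ := Pool.Agent.W186.SD.HH.toth
    refine ⟨c / 4, 2 * T0, by positivity, by linarith, fun T τ hT hτ hτ8 _ => ?_⟩
    obtain ⟨S, hS, hS2⟩ := h (T / 2) τ (by linarith) hτ hτ8
    have e2 : 2 * (T / 2) = T := by ring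
    rw [e2] at hS
    obtain ⟨Z, hZ, hZf, hn⟩ := zset' hτ (fun s => 0 < s.im ∧ s.im ≤ T) (u := 0) (v := T)
      (fun s hs => ⟨hs.1.le, hs.2⟩)
    have e : NZ (XT τ) T = {p : ℂ × ℕ | p ∈ Zi (XT τ) ∧ (0 < p.1.im ∧ p.1.im ≤ T)} := rfl
    rw [e, hn]
    push_cast
    have h1 : ∑ s ∈ S, (analyticOrderNatAt (XT τ) s : ℝ) ≤
        ∑ s ∈ Z, (analyticOrderNatAt (XT τ) s : ℝ) := by
      refine Finset.sum_le_sum_of_subset_of_nonneg ?_ (fun _ _ _ => Nat.cast_nonneg _)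
      intro s hs
      obtain ⟨h2, h3, h4⟩ := hS s hs
      exact (hZ s).2 ⟨h2, by linarith, h4⟩
    refine le_trans ?_ (hS2.trans h1)
    have hT4 : 4 ≤ T := by linarith
    have hlog : Real.log T / 2 ≤ Real.log (T / 2) := by
      rw [Real.log_div (by linarith) (by norm_num)]
      have h5 : Real.log 4 ≤ Real.log T := Real.log_le_log (by norm_num) hT4
      have h6 : Real.log 4 = 2 * Real.log 2 := by
        rw [show (4 : ℝ) = 2 ^ 2 by norm_num, Real.log_pow]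
        norm_num
      linarith
    have h7 : c * (T / 2) * (Real.log T / 2) ≤ c * (T / 2) * Real.log (T / 2) :=
      mul_le_mul_of_nonneg_left hlog (by positivity)
    calc c / 4 * (T * Real.log T) = c * (T / 2) * (Real.log T / 2) := by ring
      _ ≤ _ := h7

/-- the height of a zero of `H_t` -/
noncomputable def hh (z : ℂ) : ℝ := z.re / 2

lemma ht_iff {t : ℝ} (ht : 0 ≤ t) (p : ℂ × ℕ) :
    p ∈ Zi (Ht t) ↔ ((I / 2 * p.1, p.2) : ℂ × ℕ) ∈ Zi (XT (t / 4)) := by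
  show p.2 < analyticOrderNatAt (Ht t) p.1 ↔ p.2 < analyticOrderNatAt (XT (t / 4)) (I / 2 * p.1)
  rw [Pool.Agent.W186.SD.CntH.order_eq ht]

lemma inv1 (z : ℂ) : -(2 * I) * (I / 2 * z) = z := by
  have : -(2 * I) * (I / 2 * z) = -(I * I) * z := by ring
  rw [this, I_mul_I]; ring

lemma inv2 (z : ℂ) : I / 2 * (-(2 * I) * z) = z := by
  have : I / 2 * (-(2 * I) * z) = -(I * I) * z := by ring
  rw [this, I_mul_I]; ring

theorem ht_num {t : ℝ} (ht : 0 ≤ t) (T : ℝ) :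
    (NG (Zi (Ht t)) hh T).ncard = (NZ (XT (t / 4)) T).ncard :=
  NG_tr (Z' := Zi (XT (t / 4))) (h' := fun z => z.im) (fun z => I / 2 * z) (fun z => -(2 * I) * z)
    inv1 inv2 (fun z => Pool.Agent.W186.SD.CntH.half_im z) (fun p _ => ht_iff ht p) T

theorem ht_pairs {t : ℝ} (ht : 0 ≤ t) (T : ℝ) (P : ℝ → Prop) :
    (PG (Zi (Ht t)) hh T P).ncard = (PQ (XT (t / 4)) T P).ncard :=
  PG_tr (Z' := Zi (XT (t / 4))) (h' := fun z => z.im) (fun z => I / 2 * z) (fun z => -(2 * I) * z)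
    inv1 inv2 (fun z => Pool.Agent.W186.SD.CntH.half_im z) (fun p _ => ht_iff ht p) T P

/-- tuples with two elements are pairs -/
lemma tup_eq (Z : Set (ℂ × ℕ)) (h : ℂ → ℝ) {T α β : ℝ} (hα : 0 < α) :
    (Tuples Z h T (fun _ : Fin 1 => α) (fun _ : Fin 1 => β)).ncard =
      (PG Z h T fun D => α ≤ D ∧ D ≤ β).ncard := by
  refine Set.ncard_congr (fun x _ => (x 1, x 0)) ?_ ?_ ?_
  · rintro x ⟨h1, h2, h3, h4⟩
    exact ⟨⟨h1 1, h3 1⟩, ⟨h1 0, h3 0⟩, h4 0⟩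
  · intro x y _ _ hxy
    have h1 := congrArg Prod.fst hxy
    have h2 := congrArg Prod.snd hxy
    funext i
    fin_cases i
    · exact h2
    · exact h1
  · rintro y ⟨⟨h1, h2⟩, ⟨h3, h4⟩, h5⟩
    refine ⟨![y.2, y.1], ⟨?_, ?_, ?_, ?_⟩, rfl⟩
    · intro i
      fin_cases i
      · exact h3
      · exact h1
    · intro i j hij
      have hne : y.2 ≠ y.1 := by
        intro h6
        rw [h6, sub_self, zero_mul] at h5
        linarith [h5.1]
      fin_cases i <;> fin_cases j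
      · rfl
      · exact absurd hij hne
      · exact absurd hij.symm hne
      · rfl
    · intro i
      fin_cases i
      · exact h4
      · exact h2
    · intro i
      fin_cases i
      exact h5

/-- number of pairs of zeros of zeta -/
noncomputable def PZ (T α β : ℝ) : ℝ :=
  ((PG ZetaZ (fun z => z.im) T fun D => α ≤ D ∧ D ≤ β).ncard : ℝ)

/-- number of pairs of zeros of `H_t` -/
noncomputable def PH (t T α β : ℝ) : ℝ :=
  ((PG (Zi (Ht t)) hh T fun D => α ≤ D ∧ D ≤ β).ncard : ℝ)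

/-- the same laws below the threshold -/
theorem law_small {t : ℝ → ℝ} (ht : ∀ T, 0 ≤ t T)
    (ht2 : Tendsto (fun T => t T * Real.log T ^ 2) atTop (𝓝 0)) {Φ : ℝ → ℝ → ℝ} (hΦ : CtsLaw Φ) :
    Law PZ Φ ↔ Law (fun T => PH (t T) T) Φ := by
  refine law_iff hΦ fun α β ε hε hεα => ?_
  obtain ⟨δ, T0, hδ, hT0, h⟩ := Pool.Agent.R838.ST.cmp 1 (fun _ => α) (fun _ => β) ε hε
  filter_upwards [ht2.eventually_lt_const hδ, eventually_ge_atTop T0,
    eventually_gt_atTop (1 : ℝ)] with T h2 h3 h4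
  have hL : 0 < Real.log T := Real.log_pos h4
  have h5 := h T (t T) h3 (ht T) (by rw [le_div_iff₀ (by positivity)]; exact h2.le)
  have hα : 0 < α := by linarith
  have hα' : 0 < α - ε := by linarith
  have e1 := tup_eq ZetaZ (fun z => z.im) (T := T) (β := β) hα
  have e2 := tup_eq ZetaZ (fun z => z.im) (T := T) (β := β + ε) hα'
  have e3 := tup_eq (Pool.Agent.R838.ST.Zi (Ht (t T))) (fun z => z.re / 2) (T := T) (β := β) hα
  have e4 := tup_eq (Pool.Agent.R838.ST.Zi (Ht (t T))) (fun z => z.re / 2) (T := T) (β := β + ε) hα'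
  rw [e1, e2, e3, e4] at h5
  exact h5

/-- hypotheses above the threshold -/
lemma quarter {t : ℝ → ℝ} {A : ℝ} (hA : 0 < A) (hA' : ∀ᶠ T in atTop, t T * Real.log T ≤ A)
    (ht2 : Tendsto (fun T => t T * Real.log T ^ 2) atTop atTop) :
    (∀ᶠ T in atTop, 0 < t T / 4) ∧ (∀ᶠ T in atTop, t T / 4 * Real.log T ≤ A) ∧
    Tendsto (fun T => t T / 4 * Real.log T ^ 2) atTop atTop := by
  have h1 : ∀ᶠ T in atTop, 0 < t T := by
    filter_upwards [ht2.eventually_gt_atTop 0, eventually_gt_atTop (1 : ℝ)] with T h2 h3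
    have h4 : 0 < Real.log T ^ 2 := by have := Real.log_pos h3; positivity
    exact (pos_iff_pos_of_mul_pos h2).2 h4
  refine ⟨h1.mono fun T h => by linarith, ?_, ?_⟩
  · filter_upwards [hA', h1, eventually_gt_atTop (1 : ℝ)] with T h2 h3 h4
    have h5 : 0 < t T * Real.log T := mul_pos h3 (Real.log_pos h4)
    have e : t T / 4 * Real.log T = (t T * Real.log T) / 4 := by ring
    rw [e]
    linarith
  · have e : (fun T => t T / 4 * Real.log T ^ 2) = fun T => (1 / 4) * (t T * Real.log T ^ 2) := by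
      funext T
      ring
    rw [e]
    exact ht2.const_mul_atTop (by norm_num)

end Run7.h422.PP
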